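import Pool.Agent.UC.DD

open Finset Metric

namespace UC

/-- The functions of a polynomial family. -/
noncomputable def polyFun {N : ℕ} {ι : Type} (P : ι → MvPolynomial (Fin N) ℝ) : ι → E N → ℝ :=
  fun i y => MvPolynomial.eval (fun k => y k) (P i)

theorem polyFun_eq {N : ℕ} {ι : Type} (P : ι → MvPolynomial (Fin N) ℝ) (i : ι) :
    polyFun P i = pev (P i) := rfl

section
variable {N : ℕ} {ι : Type} [DecidableEq ι]

/-- The Lagrange system of the tie set of T. -/
noncomputable def lagSys (P : ι → MvPolynomial (Fin N) ℝ) (col : ι → Bool) (T : Finset ι) :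
    Fin N ⊕ ({i // i ∈ T} ⊕ Bool) → MvPolynomial (Fin N ⊕ ({i // i ∈ T} ⊕ Bool)) ℝ
  | Sum.inl l => MvPolynomial.rename Sum.inl (MvPolynomial.C 2 * MvPolynomial.X l) -
      ∑ i : {i // i ∈ T}, MvPolynomial.X (Sum.inr (Sum.inl i)) *
        MvPolynomial.rename Sum.inl (MvPolynomial.pderiv l (P i.1))
  | Sum.inr (Sum.inl i) => MvPolynomial.rename Sum.inl (P i.1) -
      MvPolynomial.X (Sum.inr (Sum.inr (col i.1)))
  | Sum.inr (Sum.inr β) => ∑ i : {i // i ∈ T}, if col i.1 = β then
      MvPolynomial.X (Sum.inr (Sum.inl i)) else 0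

omit [DecidableEq ι] in
theorem lagSys_deg (P : ι → MvPolynomial (Fin N) ℝ) (col : ι → Bool) (T : Finset ι) (D : ℕ)
    (hP : ∀ i, (P i).totalDegree ≤ D) (k : Fin N ⊕ ({i // i ∈ T} ⊕ Bool)) :
    (lagSys P col T k).totalDegree ≤ D + 1 := by
  rcases k with l | i | β
  · refine (MvPolynomial.totalDegree_sub _ _).trans (max_le ?_ ?_)
    · refine (MvPolynomial.totalDegree_rename_le _ _).trans ?_
      refine (MvPolynomial.totalDegree_mul _ _).trans ?_
      rw [MvPolynomial.totalDegree_C, MvPolynomial.totalDegree_X]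
      omega
    · refine MvPolynomial.totalDegree_finsetSum_le fun i _ => ?_
      refine (MvPolynomial.totalDegree_mul _ _).trans ?_
      have h1 := (MvPolynomial.totalDegree_rename_le
        (Sum.inl : Fin N → Fin N ⊕ ({i // i ∈ T} ⊕ Bool))
        (MvPolynomial.pderiv l (P i.1))).trans (totalDegree_pderiv_le_of (P i.1) l D (hP _))
      rw [MvPolynomial.totalDegree_X]
      omega
  · refine (MvPolynomial.totalDegree_sub _ _).trans (max_le ?_ ?_)
    · exact ((MvPolynomial.totalDegree_rename_le _ _).trans (hP _)).trans (Nat.le_succ _)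
    · rw [MvPolynomial.totalDegree_X]
      omega
  · refine MvPolynomial.totalDegree_finsetSum_le fun i _ => ?_
    split_ifs
    · rw [MvPolynomial.totalDegree_X]
      omega
    · rw [MvPolynomial.totalDegree_zero]
      omega

/-- The point of the Lagrange system. -/
noncomputable def lagPt (P : ι → MvPolynomial (Fin N) ℝ) (T : Finset ι) (tt : Bool → ι)
    (c : ι → ℝ) (y : E N) : Fin N ⊕ ({i // i ∈ T} ⊕ Bool) → ℝ
  | Sum.inl l => y l
  | Sum.inr (Sum.inl i) => c i.1
  | Sum.inr (Sum.inr β) => pev (P (tt β)) y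

omit [DecidableEq ι] in
theorem lagPt_inl (P : ι → MvPolynomial (Fin N) ℝ) (T : Finset ι) (tt : Bool → ι)
    (c : ι → ℝ) (y : E N) : lagPt P T tt c y ∘ Sum.inl = fun k => y k := rfl

omit [DecidableEq ι] in
theorem sum_attach_if (T : Finset ι) (p : ι → Prop) [DecidablePred p] (c : ι → ℝ) :
    (∑ i : {i // i ∈ T}, if p i.1 then c i.1 else 0) = ∑ i ∈ T with p i, c i := by
  rw [Finset.sum_filter]
  exact Finset.sum_coe_sort T fun i => if p i then c i else 0

omit [DecidableEq ι] in
theorem lag_zero (P : ι → MvPolynomial (Fin N) ℝ) (col : ι → Bool) (T : Finset ι)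
    (tt : Bool → ι) (htt : ∀ β, tt β ∈ T ∧ col (tt β) = β) (c : ι → ℝ) (y : E N)
    (hy : y ∈ Gam Set.univ (polyFun P) col T) (hc : IsMult (polyFun P) col T y c)
    (k : Fin N ⊕ ({i // i ∈ T} ⊕ Bool)) :
    MvPolynomial.eval (lagPt P T tt c y) (lagSys P col T k) = 0 := by
  rcases k with l | i | β
  · have h1 := congrArg (fun L : E N →L[ℝ] ℝ => L (EuclideanSpace.single l 1)) hc.2
    simp only [_root_.sum_apply, _root_.smul_apply, pev_rr, pev_fderiv_sum,
      pderiv_rr, polyFun_eq, smul_eq_mul] at h1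
    have h2 : ∀ Q : Fin N → ℝ, ∑ l' : Fin N, Q l' * (EuclideanSpace.single l (1 : ℝ) : E N) l' =
        Q l := by
      intro Q
      rw [Finset.sum_eq_single l]
      · simp
      · intro b _ hb
        simp [hb]
      · intro h
        exact absurd (Finset.mem_univ _) h
    rw [h2 fun l' => pev (MvPolynomial.C 2 * MvPolynomial.X l') y] at h1
    simp only [h2 fun l' => pev (MvPolynomial.pderiv l' (P _)) y] at h1
    rw [lagSys, map_sub, MvPolynomial.eval_rename, lagPt_inl, map_sum, sub_eq_zero]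
    simp only [map_mul, MvPolynomial.eval_rename, lagPt_inl, MvPolynomial.eval_X]
    rw [pev] at h1
    simp only [map_mul, MvPolynomial.eval_X] at h1
    rw [h1]
    exact (Finset.sum_coe_sort T fun i => c i * pev (MvPolynomial.pderiv l (P i)) y).symm
  · rw [lagSys, map_sub, MvPolynomial.eval_rename, lagPt_inl, MvPolynomial.eval_X, sub_eq_zero]
    exact hy.2 i.1 i.2 (tt (col i.1)) (htt _).1 (htt _).2.symm
  · rw [lagSys, map_sum]
    have h1 : ∀ i : {i // i ∈ T}, MvPolynomial.eval (lagPt P T tt c y)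
        (if col i.1 = β then MvPolynomial.X (Sum.inr (Sum.inl i)) else 0) =
        if col i.1 = β then c i.1 else 0 := by
      intro i
      split_ifs
      · rw [MvPolynomial.eval_X]; rfl
      · exact map_zero _
    rw [Finset.sum_congr rfl fun i _ => h1 i, sum_attach_if T (fun i => col i = β) c]
    exact hc.1.2 β

theorem lag_inj (P : ι → MvPolynomial (Fin N) ℝ) (col : ι → Bool) (T : Finset ι)
    (tt : Bool → ι) (htt : ∀ β, tt β ∈ T ∧ col (tt β) = β) (c : ι → ℝ) (y : E N)
    (hnd : ∀ (u : E N) (g : ι → ℝ), Coef col T g →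
      (∀ i ∈ T, ∀ j ∈ T, col i = col j → fderiv ℝ (polyFun P i) y u = fderiv ℝ (polyFun P j) y u) →
      (fderiv ℝ (fun x => fderiv ℝ (rr (N := N)) x) y u
        - ∑ i ∈ T, c i • fderiv ℝ (fun x => fderiv ℝ (polyFun P i) x) y u
        - ∑ i ∈ T, g i • fderiv ℝ (polyFun P i) y = 0) → u = 0 ∧ g = 0)
    (w : Fin N ⊕ ({i // i ∈ T} ⊕ Bool) → ℝ)
    (hw : ∀ k, ddir (lagPt P T tt c y) w (lagSys P col T k) = 0) : w = 0 := by
  classical
  obtain ⟨u, hu⟩ : ∃ u : E N, ∀ l, u l = w (Sum.inl l) :=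
    ⟨(EuclideanSpace.equiv (Fin N) ℝ).symm fun l => w (Sum.inl l), fun l => rfl⟩
  obtain ⟨g, hg⟩ : ∃ g : ι → ℝ, g = fun i =>
      if h : i ∈ T then w (Sum.inr (Sum.inl ⟨i, h⟩)) else 0 := ⟨_, rfl⟩
  have hgi : ∀ i : {i // i ∈ T}, g i.1 = w (Sum.inr (Sum.inl i)) := by
    intro i
    rw [hg]
    simp
  have hwu : w ∘ Sum.inl = fun k => u k := by
    funext l
    exact (hu l).symm
  -- second group
  have htan : ∀ i ∈ T, fderiv ℝ (polyFun P i) y u = w (Sum.inr (Sum.inr (col i))) := by
    intro i hi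
    have h1 := hw (Sum.inr (Sum.inl ⟨i, hi⟩))
    rw [lagSys, ddir_sub, ddir_rename, lagPt_inl, ddir_X, hwu] at h1
    rw [polyFun_eq, pev_fderiv]
    linarith
  -- third group
  have hcoef : Coef col T g := by
    refine ⟨fun i hi => by rw [hg]; simp [hi], fun β => ?_⟩
    have h1 := hw (Sum.inr (Sum.inr β))
    rw [lagSys, ddir_sum] at h1
    have h2 : ∀ i : {i // i ∈ T}, ddir (lagPt P T tt c y) w
        (if col i.1 = β then MvPolynomial.X (Sum.inr (Sum.inl i)) else 0) =
        if col i.1 = β then g i.1 else 0 := by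
      intro i
      split_ifs
      · rw [ddir_X, hgi]
      · simp [ddir]
    rw [Finset.sum_congr rfl fun i _ => h2 i, sum_attach_if T (fun i => col i = β) g] at h1
    exact h1
  -- first group
  have hfirst : ∀ l : Fin N, ddir (fun k => y k) (fun k => u k)
      (MvPolynomial.C 2 * MvPolynomial.X l) = ∑ i ∈ T, (c i * ddir (fun k => y k) (fun k => u k)
        (MvPolynomial.pderiv l (P i)) + g i * pev (MvPolynomial.pderiv l (P i)) y) := by
    intro l
    have h1 := hw (Sum.inl l)
    rw [lagSys, ddir_sub, ddir_rename, lagPt_inl, hwu, ddir_sum, sub_eq_zero] at h1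
    rw [h1, ← Finset.sum_coe_sort T fun i => (c i * ddir (fun k => y k) (fun k => u k)
        (MvPolynomial.pderiv l (P i)) + g i * pev (MvPolynomial.pderiv l (P i)) y)]
    refine Finset.sum_congr rfl fun i _ => ?_
    rw [ddir_mul, ddir_rename, lagPt_inl, hwu, ddir_X, MvPolynomial.eval_X, MvPolynomial.eval_rename,
      lagPt_inl, hgi]
    rfl
  have h0 := hnd u g hcoef (fun i hi j hj hij => by rw [htan i hi, htan j hj, hij]) (by
    ext e
    simp only [_root_.sub_apply, _root_.sum_apply, _root_.smul_apply, _root_.zero_apply,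
      smul_eq_mul, polyFun_eq, pev_rr,
      pev_fderiv2, pderiv_rr, pev_fderiv_sum]
    simp only [hfirst, Finset.mul_sum, Finset.sum_mul]
    rw [Finset.sum_comm, ← Finset.sum_sub_distrib, ← Finset.sum_sub_distrib]
    refine Finset.sum_eq_zero fun i _ => ?_
    rw [← Finset.sum_sub_distrib, ← Finset.sum_sub_distrib]
    refine Finset.sum_eq_zero fun l _ => ?_
    ring)
  funext k
  rcases k with l | i | β
  · rw [← hu l, h0.1]
    rfl
  · rw [← hgi i, h0.2]
    rfl
  · have h1 := htan (tt β) (htt β).1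
    rw [h0.1, (htt β).2, map_zero] at h1
    exact h1.symm

end

/-- Polynomials of degree at most D: at most C0(N,D) nondegenerate critical points on every
tie set. -/
theorem poly_ND_bound (N D : ℕ) : ∃ C0 : ℕ, ∀ (ι : Type) [Fintype ι] [DecidableEq ι]
    (P : ι → MvPolynomial (Fin N) ℝ), (∀ i, (P i).totalDegree ≤ D) → ∀ (col : ι → Bool)
    (T : Finset ι), Both col T → T.card ≤ N + 2 →
      {y | y ∈ Gam Set.univ (polyFun P) col T ∧ IsND (polyFun P) col T y}.Finite ∧
      {y | y ∈ Gam Set.univ (polyFun P) col T ∧ IsND (polyFun P) col T y}.ncard ≤ C0 := by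
  refine ⟨((2 * N + 4) * (D + 1) + 1) ^ (2 * N + 4), ?_⟩
  intro ι _ _ P hP col T hT hcard
  classical
  choose tt htt using hT
  have hch : ∀ y : E N, ∃ c : ι → ℝ, IsND (polyFun P) col T y →
      IsMult (polyFun P) col T y c ∧ ∀ (u : E N) (g : ι → ℝ), Coef col T g →
      (∀ i ∈ T, ∀ j ∈ T, col i = col j → fderiv ℝ (polyFun P i) y u = fderiv ℝ (polyFun P j) y u) →
      (fderiv ℝ (fun x => fderiv ℝ (rr (N := N)) x) y u
        - ∑ i ∈ T, c i • fderiv ℝ (fun x => fderiv ℝ (polyFun P i) x) y u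
        - ∑ i ∈ T, g i • fderiv ℝ (polyFun P i) y = 0) → u = 0 ∧ g = 0 := by
    intro y
    by_cases h : IsND (polyFun P) col T y
    · obtain ⟨c, hc⟩ := h
      exact ⟨c, fun _ => hc⟩
    · exact ⟨0, fun h' => absurd h' h⟩
  choose c hc using hch
  obtain ⟨hfin, hle⟩ := bezout_set (D + 1) (lagSys P col T) (lagSys_deg P col T D hP)
    {y | y ∈ Gam Set.univ (polyFun P) col T ∧ IsND (polyFun P) col T y}
    (fun y => lagPt P T tt (c y) y) (by
      intro y _ y' _ h
      ext l
      exact congrFun h (Sum.inl l)) (by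
      intro y hy
      refine ⟨fun k => lag_zero P col T tt htt (c y) y hy.1 (hc y hy.2).1 k, ?_⟩
      intro w hw
      exact lag_inj P col T tt htt (c y) y (hc y hy.2).2 w hw)
  refine ⟨hfin, hle.trans ?_⟩
  have h1 : Fintype.card (Fin N ⊕ ({i // i ∈ T} ⊕ Bool)) ≤ 2 * N + 4 := by
    simp only [Fintype.card_sum, Fintype.card_fin, Fintype.card_coe, Fintype.card_bool]
    omega
  exact (Nat.pow_le_pow_left (Nat.succ_le_succ (Nat.mul_le_mul_right _ h1)) _).trans
    (Nat.pow_le_pow_right (Nat.succ_pos _) h1)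

end UC
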