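import Pool.Agent.UC.VDefs
import Pool.Agent.UC.PolyND

open Finset Metric

namespace UC

/-- Polynomials of degree at most D: at most C1(N,D) transversal vertices with a given support. -/
theorem poly_V_bound (N D : ℕ) : ∃ C1 : ℕ, ∀ (ι : Type) [Fintype ι] [DecidableEq ι]
    (P : ι → MvPolynomial (Fin N) ℝ), (∀ i, (P i).totalDegree ≤ D) → ∀ (col : ι → Bool)
    (T : Finset ι),
      {v : E N × ℝ | IsV Set.univ (polyFun P) col T v.1 v.2}.Finite ∧
      {v : E N × ℝ | IsV Set.univ (polyFun P) col T v.1 v.2}.ncard ≤ C1 := by
  refine ⟨((N + 1) * (D + 1) + 1) ^ (N + 1), ?_⟩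
  intro ι _ _ P hP col T
  classical
  by_cases hcard : T.card = N + 1
  swap
  · have hempty : {v : E N × ℝ | IsV Set.univ (polyFun P) col T v.1 v.2} = ∅ := by
      ext v
      simp only [Set.mem_ofPred_eq, Set.mem_empty_iff_false, iff_false]
      exact fun h => hcard h.card
    rw [hempty]
    exact ⟨Set.finite_empty, by simp⟩
  have hce : Fintype.card (Option (Fin N)) = Fintype.card {i // i ∈ T} := by
    rw [Fintype.card_option, Fintype.card_fin, Fintype.card_coe, hcard]
  obtain ⟨e⟩ : Nonempty (Option (Fin N) ≃ {i // i ∈ T}) := ⟨Fintype.equivOfCardEq hce⟩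
  let p : Option (Fin N) → MvPolynomial (Option (Fin N)) ℝ := fun k =>
    MvPolynomial.rename some (P (e k).1) - MvPolynomial.C (sg (col (e k).1)) * MvPolynomial.X none
  let F : E N × ℝ → Option (Fin N) → ℝ := fun v k => Option.elim k v.2 fun l => v.1 l
  have hFs : ∀ v, F v ∘ some = fun l => v.1 l := fun v => rfl
  have hp : ∀ k, (p k).totalDegree ≤ D + 1 := by
    intro k
    refine (MvPolynomial.totalDegree_sub _ _).trans (max_le ?_ ?_)
    · exact ((MvPolynomial.totalDegree_rename_le _ _).trans (hP _)).trans (Nat.le_succ _)
    · refine (MvPolynomial.totalDegree_mul _ _).trans ?_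
      rw [MvPolynomial.totalDegree_C, MvPolynomial.totalDegree_X]
      omega
  obtain ⟨hfin, hle⟩ := bezout_set (D + 1) p hp
    {v : E N × ℝ | IsV Set.univ (polyFun P) col T v.1 v.2} F (by
      intro v _ v' _ h
      refine Prod.ext ?_ (congrFun h none)
      ext l
      exact congrFun h (some l)) (by
      intro v hv
      refine ⟨fun k => ?_, ?_⟩
      · have h1 := hv.on (e k).1 (e k).2
        show MvPolynomial.eval (F v) (MvPolynomial.rename some (P (e k).1) -
          MvPolynomial.C (sg (col (e k).1)) * MvPolynomial.X none) = 0
        rw [map_sub, MvPolynomial.eval_rename, hFs, map_mul, MvPolynomial.eval_C,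
          MvPolynomial.eval_X, sub_eq_zero]
        exact h1
      · intro w hw
        by_contra hw0
        let M : Matrix (Option (Fin N)) (Option (Fin N)) ℝ :=
          Matrix.of fun k j => MvPolynomial.eval (F v) (MvPolynomial.pderiv j (p k))
        have hM : M.mulVec w = 0 := by
          funext k
          exact hw k
        have hdet : M.det = 0 := Matrix.exists_mulVec_eq_zero_iff.mp ⟨w, hw0, hM⟩
        obtain ⟨c, hc0, hc⟩ := Matrix.exists_vecMul_eq_zero_iff.mpr hdet
        -- derivative of a combination
        have hcomb : ∀ w' : Option (Fin N) → ℝ, ∑ k, c k * ddir (F v) w' (p k) = 0 := by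
          intro w'
          have h2 : ∑ k, c k * ddir (F v) w' (p k) = ∑ j, (M.vecMul c) j * w' j := by
            simp only [ddir, Matrix.vecMul, dotProduct, Finset.mul_sum, Finset.sum_mul]
            rw [Finset.sum_comm]
            refine Finset.sum_congr rfl fun j _ => Finset.sum_congr rfl fun k _ => ?_
            simp only [M, Matrix.of_apply]
            ring
          rw [h2, hc]
          simp
        have hdd : ∀ w' k, ddir (F v) w' (p k) =
            ddir (fun l => v.1 l) (w' ∘ some) (P (e k).1) - sg (col (e k).1) * w' none := by
          intro w' k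
          show ddir (F v) w' (MvPolynomial.rename some (P (e k).1) -
            MvPolynomial.C (sg (col (e k).1)) * MvPolynomial.X none) = _
          rw [ddir_sub, ddir_rename, hFs, ddir_mul, ddir_C, ddir_X, MvPolynomial.eval_C]
          ring
        let c' : ι → ℝ := fun i => if h : i ∈ T then c (e.symm ⟨i, h⟩) else 0
        have hsum : ∀ f : ι → ℝ, ∑ i ∈ T, c' i * f i = ∑ k, c k * f (e k).1 := by
          intro f
          rw [← Finset.sum_coe_sort T fun i => c' i * f i]
          refine (Fintype.sum_equiv e _ _ fun k => ?_).symm
          simp [c']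
        have hc' : ∀ i, c' i = 0 := by
          refine hv.trans c' (fun i hi => by simp [c', hi]) ?_ ?_
          · rw [hsum fun i => sg (col i)]
            have h3 := hcomb (Pi.single none 1)
            have h4 : (Pi.single none 1 : Option (Fin N) → ℝ) ∘ some = 0 := by
              funext l
              simp
            simp only [hdd, h4, ddir_zero, Pi.single_eq_same, zero_sub, mul_one, mul_neg,
              Finset.sum_neg_distrib, neg_eq_zero] at h3
            exact h3
          · ext u
            simp only [_root_.sum_apply, _root_.smul_apply, _root_.zero_apply, smul_eq_mul,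
              polyFun_eq, pev_fderiv]
            rw [hsum fun i => ddir (fun l => v.1 l) (fun l => u l) (P i)]
            have h3 := hcomb fun k => Option.elim k 0 fun l => u l
            simp only [hdd, Option.elim_none, mul_zero, sub_zero] at h3
            exact h3
        apply hc0
        funext k
        have h5 := hc' (e k).1
        simpa [c'] using h5)
  refine ⟨hfin, hle.trans ?_⟩
  rw [Fintype.card_option, Fintype.card_fin]

end UC
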