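import Pool.Agent.UC.Bound
import Pool.Agent.UC.PolyV

open MvPolynomial Finset

namespace UC

/-- (y,t) is a transversal vertex of the region {max g ≤ t ≤ min f}: exactly N+1 of the graphs of the f_i and
g_j pass through (y,t), the other f_i lie above and the other g_j below, and the normals (∇f_i(y), -1), (∇g_j(y), -1)
of the N+1 graphs are linearly independent. -/
def IsTransVertex {N n : ℕ} (f g : Fin n → MvPolynomial (Fin N) ℝ) (y : Fin N → ℝ) (t : ℝ) : Prop :=
  ∃ A B : Finset (Fin n), A.card + B.card = N + 1 ∧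
    (∀ i, (i ∈ A → eval y (f i) = t) ∧ (i ∉ A → t < eval y (f i))) ∧
    (∀ j, (j ∈ B → eval y (g j) = t) ∧ (j ∉ B → eval y (g j) < t)) ∧
    ∀ c d : Fin n → ℝ, ∑ i ∈ A, c i + ∑ j ∈ B, d j = 0 →
      (∀ k, ∑ i ∈ A, c i * eval y (pderiv k (f i)) + ∑ j ∈ B, d j * eval y (pderiv k (g j)) = 0) →
      (∀ i ∈ A, c i = 0) ∧ ∀ j ∈ B, d j = 0

/-- Derivative of a polynomial function. -/
theorem Poly_hasFDerivAt {N : ℕ} (p : MvPolynomial (Fin N) ℝ) (y : E N) :
    HasFDerivAt (fun x : E N => eval (fun k => x k) p)
      (∑ k : Fin N, eval (fun k => y k) (pderiv k p) • (EuclideanSpace.proj k : E N →L[ℝ] ℝ)) y := by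
  induction p using MvPolynomial.induction_on with
  | C a =>
    simp only [eval_C, pderiv_C, map_zero, zero_smul, Finset.sum_const_zero]
    exact hasFDerivAt_const a y
  | add p q hp hq =>
    simp only [map_add, add_smul, Finset.sum_add_distrib]
    exact hp.add hq
  | mul_X p j hp =>
    have h1 : HasFDerivAt (fun x : E N => x j) (EuclideanSpace.proj j : E N →L[ℝ] ℝ) y :=
      (EuclideanSpace.proj j : E N →L[ℝ] ℝ).hasFDerivAt
    have h2 := hp.mul h1
    simp only [map_mul, eval_X]
    refine h2.congr_fderiv ?_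
    ext u
    simp only [Derivation.leibniz, pderiv_X, smul_eq_mul, map_add, map_mul, eval_X,
      ContinuousLinearMap.add_apply, ContinuousLinearMap.smul_apply,
      ContinuousLinearMap.sum_apply, PiLp.proj_apply]
    simp only [add_mul, Finset.sum_add_distrib]
    congr 1
    · rw [Finset.sum_eq_single j]
      · simp
      · intro k _ hk
        simp [hk.symm]
      · intro h; exact absurd (Finset.mem_univ _) h
    · rw [Finset.mul_sum]
      refine Finset.sum_congr rfl fun k _ => ?_
      ring

/-- Polynomial functions are smooth. -/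
theorem Poly_contDiff {N : ℕ} (p : MvPolynomial (Fin N) ℝ) :
    ContDiff ℝ 2 (fun x : E N => eval (fun k => x k) p) := by
  induction p using MvPolynomial.induction_on with
  | C a =>
    simp only [eval_C]
    exact contDiff_const
  | add p q hp hq =>
    simp only [map_add]
    exact hp.add hq
  | mul_X p j hp =>
    simp only [map_mul, eval_X]
    exact hp.mul (EuclideanSpace.proj j : E N →L[ℝ] ℝ).contDiff

/-- The perturbed polynomials. -/
noncomputable def Poly_pert {N : ℕ} {ι : Type} (P : ι → MvPolynomial (Fin N) ℝ) (a : ι → ℝ)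
    (b : ι → E N) : ι → MvPolynomial (Fin N) ℝ :=
  fun i => P i + C (a i) + ∑ k : Fin N, C (b i k) * X k

theorem Poly_pert_eq {N : ℕ} {ι : Type} (P : ι → MvPolynomial (Fin N) ℝ) (a : ι → ℝ)
    (b : ι → E N) : pert (polyFun P) a b = polyFun (Poly_pert P a b) := by
  funext i y
  simp only [pert, polyFun, Poly_pert, map_add, eval_C, map_sum, map_mul, eval_X]
  congr 1
  rw [PiLp.inner_apply]
  refine Finset.sum_congr rfl fun k _ => ?_
  simp [mul_comm]

theorem Poly_pert_deg {N : ℕ} {ι : Type} (P : ι → MvPolynomial (Fin N) ℝ) (a : ι → ℝ)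
    (b : ι → E N) {D : ℕ} (hD : 1 ≤ D) (hP : ∀ i, (P i).totalDegree ≤ D) (i : ι) :
    (Poly_pert P a b i).totalDegree ≤ D := by
  unfold Poly_pert
  refine (totalDegree_add _ _).trans (max_le ((totalDegree_add _ _).trans (max_le (hP i) ?_)) ?_)
  · rw [totalDegree_C]; exact Nat.zero_le _
  · refine totalDegree_finsetSum_le fun k _ => ?_
    refine (totalDegree_mul _ _).trans ?_
    rw [totalDegree_C, totalDegree_X]
    omega

/-- Theorem B. -/
theorem poly_sandwich (N D : ℕ) (ε : ℝ) (hε : 0 < ε) : ∃ C : ℝ, ∀ (n : ℕ)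
    (f g : Fin n → MvPolynomial (Fin N) ℝ),
    (∀ i, (f i).totalDegree ≤ D) → (∀ j, (g j).totalDegree ≤ D) →
    {v : (Fin N → ℝ) × ℝ | IsTransVertex f g v.1 v.2}.Finite ∧
    ({v : (Fin N → ℝ) × ℝ | IsTransVertex f g v.1 v.2}.ncard : ℝ) ≤ C * (n : ℝ) ^ ((N : ℝ) + ε) := by
  classical
  obtain ⟨C0, hC0⟩ := poly_ND_bound N (max D 1)
  obtain ⟨C1, hC1⟩ := poly_V_bound N (max D 1)
  obtain ⟨C', hC'0, hC'⟩ := vertex_bound N C0 C1 ε hε
  refine ⟨C' * (2 : ℝ) ^ ((N : ℝ) + ε), fun n f g hf hg => ?_⟩
  have hexp : (0 : ℝ) < (N : ℝ) + ε := by positivity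
  rcases Nat.eq_zero_or_pos n with hn | hn
  · subst hn
    have hempty : {v : (Fin N → ℝ) × ℝ | IsTransVertex f g v.1 v.2} = ∅ := by
      ext v
      simp only [Set.mem_setOf_eq, Set.mem_empty_iff_false, iff_false]
      rintro ⟨A, B, hAB, -⟩
      have h1 : A = ∅ := Subsingleton.elim _ _
      have h2 : B = ∅ := Subsingleton.elim _ _
      rw [h1, h2] at hAB
      simp at hAB
    rw [hempty]
    simp [Real.zero_rpow hexp.ne']
  · set P : Fin n ⊕ Fin n → MvPolynomial (Fin N) ℝ := Sum.elim f (fun j => - g j) with hP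
    set col : Fin n ⊕ Fin n → Bool := Sum.elim (fun _ => true) (fun _ => false) with hcol
    have hPd : ∀ i, (P i).totalDegree ≤ max D 1 := by
      rintro (i | j)
      · exact (hf i).trans (le_max_left _ _)
      · simp only [hP, Sum.elim_inr, totalDegree_neg]
        exact (hg j).trans (le_max_left _ _)
    have hboth : Both col Finset.univ := by
      intro β
      cases β
      · exact ⟨Sum.inr ⟨0, hn⟩, Finset.mem_univ _, rfl⟩
      · exact ⟨Sum.inl ⟨0, hn⟩, Finset.mem_univ _, rfl⟩
    have key := hC' (Fin n ⊕ Fin n) Set.univ isOpen_univ (fun _ _ => Set.subset_univ _)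
      (polyFun P) (fun i => (Poly_contDiff (P i)).contDiffOn) col hboth
      (fun a b T hT _ hT2 => by
        rw [Poly_pert_eq]
        exact hC0 _ _ (Poly_pert_deg P a b (le_max_right _ _) hPd) col T hT hT2)
      (fun a b T => by
        rw [Poly_pert_eq]
        exact hC1 _ _ (Poly_pert_deg P a b (le_max_right _ _) hPd) col T)
    obtain ⟨hfin, hcard⟩ := key
    set Φ : (Fin N → ℝ) × ℝ → E N × ℝ := fun v => (WithLp.toLp 2 v.1, v.2) with hΦ
    have hΦi : Function.Injective Φ := by
      rintro ⟨y, t⟩ ⟨y', t'⟩ h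
      simp only [hΦ, Prod.mk.injEq] at h
      obtain ⟨h1, h2⟩ := h
      have h3 : y = y' := by
        have := congrArg WithLp.ofLp h1
        simpa using this
      rw [h3, h2]
    have hsub : Φ '' {v : (Fin N → ℝ) × ℝ | IsTransVertex f g v.1 v.2} ⊆
        {v : E N × ℝ | ∃ T, IsV Set.univ (polyFun P) col T v.1 v.2} := by
      rintro _ ⟨⟨y, t⟩, ⟨A, B, hAB, hA, hB, htr⟩, rfl⟩
      refine ⟨A.disjSum B, ⟨Set.mem_univ _, ?_, ?_, ?_, ?_⟩⟩
      · rw [Finset.card_disjSum, hAB]
      · rintro (i | j) hij
        · have hi : i ∈ A := by simpa using hij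
          simp only [hΦ, polyFun, hP, hcol, Sum.elim_inl, sg, one_mul]
          exact (hA i).1 hi
        · have hj : j ∈ B := by simpa using hij
          simp only [hΦ, polyFun, hP, hcol, Sum.elim_inr, sg, map_neg]
          have := (hB j).1 hj
          change -(eval y (g j)) = -1 * t
          rw [this]; ring
      · rintro (i | j) hij
        · have hi : i ∉ A := by simpa using hij
          simp only [hΦ, polyFun, hP, hcol, Sum.elim_inl, sg, one_mul]
          exact (hA i).2 hi
        · have hj : j ∉ B := by simpa using hij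
          simp only [hΦ, polyFun, hP, hcol, Sum.elim_inr, sg, map_neg]
          have := (hB j).2 hj
          change -1 * t < -(eval y (g j))
          linarith
      · intro c hc h1 h2
        have h3 := htr (fun i => c (Sum.inl i)) (fun j => - c (Sum.inr j)) (by
          rw [Finset.sum_disjSum] at h1
          simp only [hcol, Sum.elim_inl, Sum.elim_inr, sg, mul_one, mul_neg] at h1
          exact h1) (by
          intro k
          have h4 := congrArg (fun l : E N →L[ℝ] ℝ => l (EuclideanSpace.single k 1)) h2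
          simp only [ContinuousLinearMap.sum_apply, ContinuousLinearMap.smul_apply, smul_eq_mul,
            ContinuousLinearMap.zero_apply] at h4
          rw [Finset.sum_disjSum] at h4
          have h5 : ∀ i, (fderiv ℝ (polyFun P i) (WithLp.toLp 2 y)) (EuclideanSpace.single k 1) =
              eval y (pderiv k (P i)) := by
            intro i
            have h6 := (Poly_hasFDerivAt (P i) (WithLp.toLp 2 y)).fderiv
            change (fderiv ℝ (fun x : E N => eval (fun k => x k) (P i)) (WithLp.toLp 2 y))
              (EuclideanSpace.single k 1) = _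
            rw [h6]
            simp only [ContinuousLinearMap.sum_apply, ContinuousLinearMap.smul_apply, smul_eq_mul,
              PiLp.proj_apply]
            rw [Finset.sum_eq_single k]
            · simp
            · intro k' _ hk'
              simp [hk']
            · intro h; exact absurd (Finset.mem_univ _) h
          simp only [hΦ] at h4
          simp only [h5] at h4
          simp only [hP, Sum.elim_inl, Sum.elim_inr, map_neg, mul_neg] at h4
          simp only [neg_mul]
          exact h4)
        rintro (i | j)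
        · by_cases hi : i ∈ A
          · exact h3.1 i hi
          · exact hc _ (by simpa using hi)
        · by_cases hj : j ∈ B
          · have := h3.2 j hj
            linarith
          · exact hc _ (by simpa using hj)
    have hfin' : {v : (Fin N → ℝ) × ℝ | IsTransVertex f g v.1 v.2}.Finite :=
      Set.Finite.of_finite_image (hfin.subset hsub) hΦi.injOn
    refine ⟨hfin', ?_⟩
    have h1 : {v : (Fin N → ℝ) × ℝ | IsTransVertex f g v.1 v.2}.ncard ≤
        {v : E N × ℝ | ∃ T, IsV Set.univ (polyFun P) col T v.1 v.2}.ncard := by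
      rw [← Set.ncard_image_of_injective _ hΦi]
      exact Set.ncard_le_ncard hsub hfin
    have h2 : ((Fintype.card (Fin n ⊕ Fin n) : ℕ) : ℝ) = 2 * n := by
      rw [Fintype.card_sum, Fintype.card_fin]
      push_cast
      ring
    rw [h2, Real.mul_rpow (by norm_num) (by positivity)] at hcard
    calc ({v : (Fin N → ℝ) × ℝ | IsTransVertex f g v.1 v.2}.ncard : ℝ)
        ≤ ({v : E N × ℝ | ∃ T, IsV Set.univ (polyFun P) col T v.1 v.2}.ncard : ℝ) := by
          exact_mod_cast h1
      _ ≤ C' * ((2 : ℝ) ^ ((N : ℝ) + ε) * (n : ℝ) ^ ((N : ℝ) + ε)) := hcard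
      _ = _ := by ring

end UC
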