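import Pool.Agent.Lib.Warren46.Bezout
import Pool.Agent.Lib.Warren46.Cells

open MvPolynomial

namespace UC

/-- A polynomial square system has few zeros at which the derivative is injective. -/
theorem bezout_inj {κ : Type} [Fintype κ] [DecidableEq κ] (D : ℕ) (p : κ → MvPolynomial κ ℝ)
    (hD : ∀ i, (p i).totalDegree ≤ D) (Z : Finset (κ → ℝ))
    (hZ : ∀ z ∈ Z, (∀ i, eval z (p i) = 0) ∧ ∀ w : κ → ℝ,
      (∀ i, ∑ j, eval z (pderiv j (p i)) * w j = 0) → w = 0) :
    Z.card ≤ (Fintype.card κ * D + 1) ^ Fintype.card κ := by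
  classical
  refine Pool.Agent.Warren46.bezout p D
    (fun i j => (degreeOf_le_totalDegree (p i) j).trans (hD i)) Z (fun z hz => (hZ z hz).1) ?_
  intro z hz y
  let L : (κ → ℝ) →ₗ[ℝ] (κ → ℝ) :=
    { toFun := fun w i => ∑ j, eval z (pderiv j (p i)) * w j
      map_add' := fun u v => by
        funext i
        simp only [Pi.add_apply, mul_add, Finset.sum_add_distrib]
      map_smul' := fun r u => by
        funext i
        simp only [Pi.smul_apply, smul_eq_mul, RingHom.id_apply, Finset.mul_sum]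
        exact Finset.sum_congr rfl fun j _ => by ring }
  have hLi : Function.Injective L := by
    rw [← LinearMap.ker_eq_bot, LinearMap.ker_eq_bot']
    intro w hw
    exact (hZ z hz).2 w fun i => congrFun hw i
  obtain ⟨v, hv⟩ := LinearMap.injective_iff_surjective.mp hLi y
  refine ⟨v, fun i => ?_⟩
  have h1 : HasDerivAt (fun t : ℝ => z + t • v) v 0 := by
    have h2 := ((hasDerivAt_id (0 : ℝ)).smul_const v).const_add z
    simpa using h2
  have h3 := Pool.Agent.Warren46.hasFDerivAt_eval (p i) (z + (0 : ℝ) • v)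
  have h4 := h3.comp_hasDerivAt (0 : ℝ) h1
  rw [zero_smul, add_zero, Pool.Agent.Warren46.gradL_apply] at h4
  have h5 : ∑ j, eval z (pderiv j (p i)) * v j = y i := congrFun hv i
  rw [h5] at h4
  exact h4

/-- The same for an injective image of a set. -/
theorem bezout_set {κ A : Type} [Fintype κ] [DecidableEq κ] (D : ℕ) (p : κ → MvPolynomial κ ℝ)
    (hD : ∀ i, (p i).totalDegree ≤ D) (S : Set A) (F : A → κ → ℝ) (hF : Set.InjOn F S)
    (hS : ∀ a ∈ S, (∀ i, eval (F a) (p i) = 0) ∧ ∀ w : κ → ℝ,
      (∀ i, ∑ j, eval (F a) (pderiv j (p i)) * w j = 0) → w = 0) :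
    S.Finite ∧ S.ncard ≤ (Fintype.card κ * D + 1) ^ Fintype.card κ := by
  classical
  have key : ∀ Y : Finset A, (Y : Set A) ⊆ S →
      Y.card ≤ (Fintype.card κ * D + 1) ^ Fintype.card κ := by
    intro Y hY
    rw [← Finset.card_image_of_injOn (hF.mono hY)]
    refine bezout_inj D p hD _ fun z hz => ?_
    obtain ⟨a, ha, rfl⟩ := Finset.mem_image.mp hz
    exact hS a (hY ha)
  have hfin : S.Finite := by
    by_contra hinf
    obtain ⟨Y, hYS, hYc⟩ :=
      Set.Infinite.exists_subset_card_eq hinf ((Fintype.card κ * D + 1) ^ Fintype.card κ + 1)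
    have := key Y hYS
    omega
  refine ⟨hfin, ?_⟩
  have h := key hfin.toFinset (by simp)
  rwa [← Set.ncard_eq_toFinset_card S hfin] at h

/-- Bezout-lite (text, section 9): n real polynomials of degree at most D in n variables have at most
(nD+1)^n common zeros with invertible Jacobian matrix. -/
theorem bezout_lite (n D : ℕ) (p : Fin n → MvPolynomial (Fin n) ℝ)
    (hD : ∀ i, (p i).totalDegree ≤ D) (Z : Finset (Fin n → ℝ))
    (hZ : ∀ z ∈ Z, (∀ i, eval z (p i) = 0) ∧
      (Matrix.of fun i j => eval z (pderiv j (p i))).det ≠ 0) :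
    Z.card ≤ (n * D + 1) ^ n := by
  have h := bezout_inj D p hD Z fun z hz => ⟨(hZ z hz).1, fun w hw => by
    refine Matrix.eq_zero_of_mulVec_eq_zero (hZ z hz).2 ?_
    funext i
    exact hw i⟩
  simpa using h

end UC
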