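import Pool.Agent.UC.Gen_Defs

/-!
# UC P2, module Pd: derivatives of the perturbed family `pd φ p i y = φ i y + p.1 i + p.2 i y`

`pd_fderiv2`: on the open set Ω the map `x ↦ fderiv ℝ (pd φ p i) x` equals
`x ↦ fderiv ℝ (φ i) x + p.2 i` (`pd_fderiv`), so the derivatives at `y` agree
(`Filter.EventuallyEq.fderiv_eq`, `fderiv_add_const`).
`pert_eq_pd`: `inner ℝ (b i) y = innerSL ℝ (b i) y`.
-/

open Finset Metric

namespace UC

variable {N : ℕ} {ι : Type}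

theorem pert_eq_pd (φ : ι → E N → ℝ) (a : ι → ℝ) (b : ι → E N) :
    pert φ a b = pd φ (a, fun i => innerSL ℝ (b i)) := by
  funext i y
  simp [pert, pd]

theorem pd_fderiv (φ : ι → E N → ℝ) (p : PP N ι) (i : ι) (y : E N)
    (h : DifferentiableAt ℝ (φ i) y) : fderiv ℝ (pd φ p i) y = fderiv ℝ (φ i) y + p.2 i := by
  have h1 : HasFDerivAt (pd φ p i) (fderiv ℝ (φ i) y + p.2 i) y :=
    (h.hasFDerivAt.add_const (p.1 i)).add (p.2 i).hasFDerivAt
  exact h1.fderiv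

theorem pd_fderiv2 (Ω : Set (E N)) (hΩ : IsOpen Ω) (φ : ι → E N → ℝ)
    (hφ : ∀ i, ContDiffOn ℝ 2 (φ i) Ω) (p : PP N ι) (i : ι) (y : E N) (hy : y ∈ Ω) :
    fderiv ℝ (fun x => fderiv ℝ (pd φ p i) x) y = fderiv ℝ (fun x => fderiv ℝ (φ i) x) y := by
  have h1 : (fun x => fderiv ℝ (pd φ p i) x) =ᶠ[nhds y] fun x => fderiv ℝ (φ i) x + p.2 i := by
    filter_upwards [hΩ.mem_nhds hy] with x hx
    exact pd_fderiv φ p i x (((hφ i).differentiableOn (by norm_num)).differentiableAt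
      (hΩ.mem_nhds hx))
  rw [h1.fderiv_eq, fderiv_add_const]

theorem pd_contDiffOn (Ω : Set (E N)) (φ : ι → E N → ℝ)
    (hφ : ∀ i, ContDiffOn ℝ 2 (φ i) Ω) (p : PP N ι) (i : ι) :
    ContDiffOn ℝ 2 (pd φ p i) Ω :=
  ((hφ i).add contDiffOn_const).add (p.2 i).contDiff.contDiffOn

end UC
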