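import Pool.Agent.UC.Gen_Defs

/-!
# UC P2, module RR: derivatives of `rr y = ‖y‖ ^ 2`

`fderiv ℝ rr y = 2 • innerSL ℝ y` (`fderiv_norm_sq`, `HasStrictFDerivAt.norm_sq` or
`hasStrictFDerivAt_norm_sq`), which is linear in `y`.
-/

open Finset Metric

namespace UC

variable {N : ℕ}

theorem rr_contDiff : ContDiff ℝ 2 (rr (N := N)) := contDiff_norm_sq ℝ

private theorem gen_rr_fderiv (y : E N) : fderiv ℝ (rr (N := N)) y = (2 : ℝ) • innerSL ℝ y := by
  have h : HasFDerivAt (rr (N := N)) (2 • innerSL ℝ y) y :=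
    (hasStrictFDerivAt_norm_sq y).hasFDerivAt
  rw [h.fderiv]
  ext u
  simp [two_mul, two_smul]

theorem rr_fderiv_apply (y u : E N) : fderiv ℝ (rr (N := N)) y u = 2 * inner ℝ y u := by
  rw [gen_rr_fderiv, ContinuousLinearMap.smul_apply, innerSL_apply_apply, smul_eq_mul]

theorem rr_fderiv2_apply (y u v : E N) :
    fderiv ℝ (fun x => fderiv ℝ (rr (N := N)) x) y u v = 2 * inner ℝ u v := by
  have h : (fun x => fderiv ℝ (rr (N := N)) x) = fun x : E N => (2 : ℝ) • innerSL ℝ x :=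
    funext gen_rr_fderiv
  rw [h]
  have h1 : HasFDerivAt (fun x : E N => (2 : ℝ) • innerSL ℝ x)
      ((2 : ℝ) • (innerSL ℝ : E N →L[ℝ] E N →L[ℝ] ℝ)) y :=
    ((innerSL ℝ : E N →L[ℝ] E N →L[ℝ] ℝ).hasFDerivAt (x := y)).const_smul (2 : ℝ)
  rw [h1.fderiv, ContinuousLinearMap.smul_apply, ContinuousLinearMap.smul_apply,
    innerSL_apply_apply, smul_eq_mul]

theorem rr_crit (y : E N) (h : fderiv ℝ (rr (N := N)) y = 0) : y = 0 := by
  have h1 := rr_fderiv_apply y y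
  rw [h, ContinuousLinearMap.zero_apply] at h1
  have h2 : inner ℝ y y = (0 : ℝ) := by linarith
  exact inner_self_eq_zero.1 h2

end UC
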