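import Pool.Agent.UC.Gen_Kill
import Pool.Agent.UC.Gen_Pd
import Pool.Agent.UC.Gen_RR

/-!
# UC P2, module Nd: where the parametrization is an immersion, the critical point is nondegenerate

`par_nd`: let `y = ψ (x.2 i1)`, `c = cf col T x.1`, `p = par φ col T rr ψ i1 x`.  `c` satisfies
`IsMult (pd φ p) col T y c` (`cf_coef`, `par_mult`, `pd_fderiv`; `φ i` is differentiable at the points of the open
set Ω).  Given `u`, `g` as in `IsND` let `σ β` be the common value of `fderiv (pd φ p i) y u` for `i ∈ T` of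
colour `β` (choose a member of colour `β` by `hT`); by `par_kill` (second derivatives: `pd_fderiv2`) the vector `ξ` of
`par_kill` is in the kernel of `fderiv ℝ F x`, so `ξ = 0`: `ψ.symm u = 0`, hence `u = 0`, and `σ (col i) + g i = 0`
on `T`; taking averages (`av_eq` with `a = 0`, `s = σ`, `c = g`; the average of 0 is 0), `σ = 0`, so `g = 0` on `T`,
and `g = 0` outside `T`.
-/

open Finset Metric

namespace UC

variable {N : ℕ} {ι : Type} [Fintype ι] [DecidableEq ι]

theorem par_nd (Ω : Set (E N)) (hΩ : IsOpen Ω) (φ : ι → E N → ℝ)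
    (hφ : ∀ i, ContDiffOn ℝ 2 (φ i) Ω) (col : ι → Bool) (T : Finset ι) (hT : Both col T)
    (ψ : DE N ≃L[ℝ] E N) (i1 : ι) (hi1 : i1 ∈ T)
    (x : PP N ι) (hy : ψ (x.2 i1) ∈ Ω) (hc : cf col T x.1 i1 ≠ 0)
    (hinj : ∀ v, fderiv ℝ (par φ col T rr ψ i1) x v = 0 → v = 0) :
    IsND (pd φ (par φ col T rr ψ i1 x)) col T (ψ (x.2 i1)) := by
  set y := ψ (x.2 i1) with hy'
  set p := par φ col T rr ψ i1 x with hp
  have hdiff : ∀ i, DifferentiableAt ℝ (φ i) y := fun i =>
    ((hφ i).contDiffAt (hΩ.mem_nhds hy)).differentiableAt (by norm_num)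
  have hfd : ∀ i, fderiv ℝ (pd φ p i) y = fderiv ℝ (φ i) y + p.2 i := fun i =>
    pd_fderiv φ p i y (hdiff i)
  refine ⟨cf col T x.1, ⟨cf_coef col T hT x.1, ?_⟩, ?_⟩
  · have h1 := par_mult φ col T rr ψ i1 hi1 x hc
    simp only [hfd, smul_add, sum_add_distrib]
    rw [← hp, ← hy'] at h1
    rw [h1]
    abel
  · intro u g hg htie hlag
    have hT' := hT
    choose m hmT hmc using hT'
    have hσ : ∀ i ∈ T, (fderiv ℝ (φ i) y + p.2 i) u =
        (fun β => fderiv ℝ (pd φ p (m β)) y u) (col i) := by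
      intro i hi
      rw [← hfd]
      exact htie i hi (m (col i)) (hmT _) (hmc _).symm
    generalize (fun β => fderiv ℝ (pd φ p (m β)) y u) = σ at hσ
    have hm : fderiv ℝ (fun z => fderiv ℝ (rr (N := N)) z) y u =
        ∑ i ∈ T, cf col T x.1 i • fderiv ℝ (fun z => fderiv ℝ (φ i) z) y u
          + ∑ i ∈ T, g i • (fderiv ℝ (φ i) y + p.2 i) := by
      have h2 := hlag
      simp only [pd_fderiv2 Ω hΩ φ hφ p _ y hy, hfd] at h2
      rw [sub_sub] at h2
      exact sub_eq_zero.1 h2
    have hk := par_kill Ω hΩ φ hφ col T hT rr rr_contDiff.contDiffOn ψ i1 hi1 x hy hc u g hg σ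
      hσ hm
    have hz := hinj _ hk
    have hz1 := congrArg Prod.fst hz
    have hz2 := congrArg Prod.snd hz
    have hu : u = 0 := by
      have h3 := congrFun hz2 i1
      simp only [if_true, Prod.snd_zero, Pi.zero_apply] at h3
      have h4 := congrArg ψ h3
      rwa [ContinuousLinearEquiv.apply_symm_apply, map_zero] at h4
    have hzT : ∀ i ∈ T, σ (col i) + g i = 0 := by
      intro i hi
      have h3 := congrFun hz1 i
      simp only [if_pos hi, Prod.fst_zero, Pi.zero_apply] at h3
      exact h3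
    have hσ0 : ∀ β, σ β = 0 := by
      intro β
      have h3 := av_eq col T hT (fun _ => 0) g σ hg (fun i hi => (hzT i hi).symm) β
      rw [← h3]
      simp [av]
    refine ⟨hu, funext fun i => ?_⟩
    by_cases hi : i ∈ T
    · have h3 := hzT i hi
      rw [hσ0, zero_add] at h3
      exact h3
    · exact hg.1 i hi

end UC
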