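import Pool.Agent.UC.Gen_Defs

/-!
# UC P2, module Null: null sets, Sard, images of hyperplanes

Everything follows from Mathlib after unfolding `Nul` (put `borel V` as measurable space and
`Measure.addHaar` as the measure; `letI : MeasurableSpace V := borel V; haveI : BorelSpace V :=
⟨rfl⟩`).
* `mono`, `iUnion`, `union`: `measure_mono_null`, `measure_iUnion_null`, `measure_union_null`.
* `exists_small`: the ball of radius δ is open and nonempty, so it has positive measure, hence is
not
  contained in B.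
* `nul_hyperplane`: the set is empty or a translate of the kernel of ℓ, a proper subspace
  (`Measure.addHaar_submodule`; translation `measure_preimage_add` or
  `Measure.addHaar_affineSubspace`).
* `nul_hyper`: `addHaar_image_eq_zero_of_differentiableOn_of_addHaar_eq_zero` applied to the set
s, which is
  null by `nul_hyperplane`.
* `nul_sard`: `addHaar_image_eq_zero_of_det_fderivWithin_eq_zero`; the determinant of a linear
map with a
  nonzero kernel vector vanishes (`LinearMap.bot_lt_ker_of_det_eq_zero` has a converse: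
  `LinearMap.det` is a unit iff the map is bijective, e.g. `LinearMap.isUnit_det`,
  `LinearMap.equivOfDetNeZero`).
-/

open Finset Metric MeasureTheory

namespace UC

variable {V : Type*} [NormedAddCommGroup V] [NormedSpace ℝ V] [FiniteDimensional ℝ V]

theorem Nul.mono {B B' : Set V} (h : Nul B') (hs : B ⊆ B') : Nul B := by
  unfold Nul at h ⊢
  exact measure_mono_null hs h

theorem Nul.iUnion {κ : Type} [Countable κ] (B : κ → Set V) (h : ∀ k, Nul (B k)) :
    Nul (⋃ k, B k) := by
  unfold Nul at h ⊢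
  exact measure_iUnion_null h

theorem Nul.union {B B' : Set V} (h : Nul B) (h' : Nul B') : Nul (B ∪ B') := by
  unfold Nul at h h' ⊢
  exact measure_union_null h h'

theorem Nul.empty : Nul (∅ : Set V) := by
  unfold Nul
  exact measure_empty

/-- A null set misses a point of every ball around the origin. -/
theorem Nul.exists_small {B : Set V} (h : Nul B) (δ : ℝ) (hδ : 0 < δ) : ∃ x, x ∉ B ∧ ‖x‖ < δ := by
  by_contra hcon
  push Not at hcon
  have hsub : ball (0 : V) δ ⊆ B := by
    intro x hx
    by_contra hxB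
    have h1 := hcon x hxB
    rw [mem_ball_zero_iff] at hx
    exact absurd hx (not_lt.2 h1)
  have h2 := h.mono hsub
  unfold Nul at h2
  letI : MeasurableSpace V := borel V
  haveI : BorelSpace V := ⟨rfl⟩
  have h3 : (0 : ENNReal) < (Measure.addHaar : Measure V) (ball (0 : V) δ) :=
    isOpen_ball.measure_pos _ (nonempty_ball.2 hδ)
  exact h3.ne' h2

theorem nul_hyperplane (ℓ : V →ₗ[ℝ] ℝ) (v0 : V) (h0 : ℓ v0 ≠ 0) (r : ℝ) : Nul {x | ℓ x = r} := by
  unfold Nul
  letI : MeasurableSpace V := borel V
  haveI : BorelSpace V := ⟨rfl⟩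
  have h1 : {x | ℓ x = r} =
      (fun x => x + -((r / ℓ v0) • v0)) ⁻¹' ((LinearMap.ker ℓ : Submodule ℝ V) : Set V) := by
    ext x
    rw [Set.mem_preimage, SetLike.mem_coe, LinearMap.mem_ker, map_add, map_neg, map_smul,
      smul_eq_mul, div_mul_cancel₀ _ h0, Set.mem_ofPred_eq]
    constructor
    · intro h
      rw [h]
      ring
    · intro h
      linarith
  have h2 : LinearMap.ker ℓ ≠ ⊤ := by
    intro h
    apply h0
    have h3 : v0 ∈ LinearMap.ker ℓ := by
      rw [h]
      exact Submodule.mem_top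
    exact h3
  change (Measure.addHaar : Measure V) {x | ℓ x = r} = 0
  rw [h1, measure_preimage_add_right]
  exact Measure.addHaar_submodule _ _ h2

/-- The image of a part of a hyperplane is a null set. -/
theorem nul_hyper (F : V → V) (s : Set V) (hF : ∀ x ∈ s, DifferentiableAt ℝ F x) (ℓ : V →ₗ[ℝ] ℝ)
    (v0 : V) (h0 : ℓ v0 ≠ 0) (r : ℝ) (hs : ∀ x ∈ s, ℓ x = r) : Nul (F '' s) := by
  have h1 : Nul s := (nul_hyperplane ℓ v0 h0 r).mono fun x hx => hs x hx
  unfold Nul at h1 ⊢
  letI : MeasurableSpace V := borel V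
  haveI : BorelSpace V := ⟨rfl⟩
  exact addHaar_image_eq_zero_of_differentiableOn_of_addHaar_eq_zero _
    (fun x hx => (hF x hx).differentiableWithinAt) h1

/-- Sard's theorem in equal dimensions. -/
theorem nul_sard (F : V → V) (s : Set V) (hF : ∀ x ∈ s, DifferentiableAt ℝ F x)
    (hk : ∀ x ∈ s, ∃ v, v ≠ 0 ∧ fderiv ℝ F x v = 0) : Nul (F '' s) := by
  unfold Nul
  letI : MeasurableSpace V := borel V
  haveI : BorelSpace V := ⟨rfl⟩
  refine addHaar_image_eq_zero_of_det_fderivWithin_eq_zero _ (f' := fun x => fderiv ℝ F x)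
    (fun x hx => (hF x hx).hasFDerivAt.hasFDerivWithinAt) fun x hx => ?_
  obtain ⟨v, hv, hv0⟩ := hk x hx
  by_contra hdet
  have h1 : LinearMap.det ((fderiv ℝ F x : V →L[ℝ] V) : V →ₗ[ℝ] V) ≠ 0 := hdet
  have h2 : LinearMap.ker ((fderiv ℝ F x : V →L[ℝ] V) : V →ₗ[ℝ] V) = ⊥ := by
    rw [← LinearMap.isUnit_iff_ker_eq_bot, LinearMap.isUnit_iff_isUnit_det]
    exact isUnit_iff_ne_zero.2 h1
  apply hv
  have h3 : v ∈ LinearMap.ker ((fderiv ℝ F x : V →L[ℝ] V) : V →ₗ[ℝ] V) := hv0
  rw [h2] at h3
  exact h3

end UC
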