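import Pool.Agent.UC.Gen_Av
import Pool.Agent.UC.Gen_Null
import Pool.Agent.UC.Gen_Pd
import Pool.Agent.UC.Gen_RR

/-!
# UC P2, module Zero: the case of zero multipliers

`zero_null`: the condition is `ℓ p = φ j2 0 - φ i2 0` with `ℓ p = p.1 i2 - p.1 j2`, a nonzero functional
(`nul_hyperplane`; the value at `(Pi.single i2 1, 0)` is 1).
`zero_mem`: if all multipliers vanish then `fderiv ℝ rr y = 0`, so `y = 0` (`rr_crit`), and the ties at `0` give
the equation (`pd φ p i 0 = φ i 0 + p.1 i` as `p.2 i 0 = 0`).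
`nopair_nd`: if no two members of `T` have the same colour then a coefficient vector vanishes (each class sum
is a single term, `coef_partner`), so `c = 0`, `g = 0`, and `ρ''(y) u = 2 ⟨u, ·⟩ = 0` forces `u = 0`
(`rr_fderiv2_apply` at `v = u`).
-/

open Finset Metric

namespace UC

variable {N : ℕ} {ι : Type} [Fintype ι] [DecidableEq ι]

theorem zero_null (φ : ι → E N → ℝ) (i2 j2 : ι) (hij : j2 ≠ i2) :
    Nul {p : PP N ι | φ i2 0 + p.1 i2 = φ j2 0 + p.1 j2} := by
  let ℓ : PP N ι →ₗ[ℝ] ℝ :=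
    { toFun := fun p => p.1 i2 - p.1 j2
      map_add' := fun p q => by simp only [Prod.fst_add, Pi.add_apply]; ring
      map_smul' := fun r p => by
        simp only [Prod.smul_fst, Pi.smul_apply, smul_eq_mul, RingHom.id_apply]; ring }
  have h0 : ℓ (Pi.single i2 1, 0) ≠ 0 := by
    change (Pi.single i2 (1 : ℝ) : ι → ℝ) i2 - (Pi.single i2 (1 : ℝ) : ι → ℝ) j2 ≠ 0
    rw [Pi.single_eq_same, Pi.single_eq_of_ne hij]
    norm_num
  refine (nul_hyperplane ℓ _ h0 (φ j2 0 - φ i2 0)).mono fun p hp => ?_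
  change p.1 i2 - p.1 j2 = φ j2 0 - φ i2 0
  have hp' : φ i2 0 + p.1 i2 = φ j2 0 + p.1 j2 := hp
  linarith

omit [Fintype ι] [DecidableEq ι] in
theorem zero_mem (Ω : Set (E N)) (φ : ι → E N → ℝ) (p : PP N ι) (col : ι → Bool) (T : Finset ι)
    (y : E N) (hy : y ∈ Gam Ω (pd φ p) col T) (c : ι → ℝ) (hc : IsMult (pd φ p) col T y c)
    (h0 : ∀ i, c i = 0) (i2 j2 : ι) (hi : i2 ∈ T) (hj : j2 ∈ T) (hij : col i2 = col j2) :
    φ i2 0 + p.1 i2 = φ j2 0 + p.1 j2 := by
  have hz : fderiv ℝ (rr (N := N)) y = 0 := by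
    rw [hc.2]
    refine Finset.sum_eq_zero fun i _ => ?_
    rw [h0 i, zero_smul]
  have hy0 : y = 0 := rr_crit y hz
  have h := hy.2 i2 hi j2 hj hij
  rw [hy0] at h
  simpa [pd] using h

omit [Fintype ι] [DecidableEq ι] in
theorem nopair_nd (φ : ι → E N → ℝ) (p : PP N ι) (col : ι → Bool) (T : Finset ι)
    (hno : ∀ i ∈ T, ∀ j ∈ T, col i = col j → i = j) (y : E N) (c : ι → ℝ)
    (hc : IsMult (pd φ p) col T y c) : IsND (pd φ p) col T y := by
  classical
  have hz : ∀ d : ι → ℝ, Coef col T d → ∀ i, d i = 0 := by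
    intro d hd i
    by_contra hne
    obtain ⟨hi, j, hj, hji, hcol⟩ := coef_partner col T d hd i hne
    exact hji (hno j hj i hi hcol)
  refine ⟨c, hc, fun u g hg _ heq => ?_⟩
  have hc0 := hz c hc.1
  have hg0 := hz g hg
  refine ⟨?_, funext hg0⟩
  have h1 : ∑ i ∈ T, c i • fderiv ℝ (fun x => fderiv ℝ (pd φ p i) x) y u = 0 :=
    Finset.sum_eq_zero fun i _ => by rw [hc0 i, zero_smul]
  have h2 : ∑ i ∈ T, g i • fderiv ℝ (pd φ p i) y = 0 :=
    Finset.sum_eq_zero fun i _ => by rw [hg0 i, zero_smul]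
  rw [h1, h2, sub_zero, sub_zero] at heq
  have h3 := rr_fderiv2_apply y u u
  rw [heq, ContinuousLinearMap.zero_apply] at h3
  have h4 : inner ℝ u u = (0 : ℝ) := by linarith
  exact inner_self_eq_zero.1 h4

end UC
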