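import Pool.Agent.UC.Gen_Onto
import Pool.Agent.UC.Gen_Nd
import Pool.Agent.UC.Gen_Zero

/-!
# UC P2, module Crit: for almost all perturbations all critical points are nondegenerate

Let `ψ : DE N ≃L[ℝ] E N` be any continuous linear equivalence (the dimensions agree:
`ContinuousLinearEquiv.ofFinrankEq`, or from `InnerProductSpace.toDual`).  The derivative of the `i`-th function of the
perturbed family is `fderiv (φ i) y + p.2 i` (`pd_fderiv`, `φ i` is differentiable on the open set Ω).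
Let `p` be in the set with `y`, `c`.  If two different members of `T` have the same colour then
either all `c i = 0` (`zero_mem`, `zero_null`) or some `c i1 ≠ 0` (then `i1 ∈ T` by `coef_partner`) and by `par_onto`
(`ρ = rr`) `p = F x`, `F = par φ col T rr ψ i1`, with `ψ (x.2 i1) = y ∈ Ω`, `cf col T x.1 i1 ≠ 0`; as `IsND` fails,
`par_nd` gives a `v ≠ 0` with `fderiv ℝ F x v = 0`.  So `p` is in the image under `F` of
`{x | ψ (x.2 i1) ∈ Ω ∧ cf col T x.1 i1 ≠ 0 ∧ ∃ v, v ≠ 0 ∧ fderiv ℝ F x v = 0}`, null by `nul_sard`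
(`par_differentiableAt`, `rr_contDiff`).  If no two members of `T` have the same colour, the set is empty by
`nopair_nd`.
-/

open Finset Metric

namespace UC

variable {N : ℕ} {ι : Type} [Fintype ι] [DecidableEq ι]

omit [Fintype ι] in
/-- `par` is onto the perturbations whose multiplier of index `i1` does not vanish. -/
private theorem genC_onto (Ω : Set (E N)) (hΩ : IsOpen Ω) (φ : ι → E N → ℝ)
    (hφ : ∀ i, ContDiffOn ℝ 2 (φ i) Ω) (col : ι → Bool) (T : Finset ι) (hT : Both col T)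
    (ψ : DE N ≃L[ℝ] E N) (p : PP N ι) (y : E N) (hy : y ∈ Gam Ω (pd φ p) col T) (c : ι → ℝ)
    (hc : IsMult (pd φ p) col T y c) (i1 : ι) (h1 : c i1 ≠ 0) :
    i1 ∈ T ∧ ∃ x : PP N ι, par φ col T rr ψ i1 x = p ∧ ψ (x.2 i1) = y ∧ cf col T x.1 = c := by
  have hi1 : i1 ∈ T := (coef_partner col T c hc.1 i1 h1).1
  refine ⟨hi1, par_onto φ col T hT rr ψ i1 hi1 p y c hc.1 h1 hy.2 ?_⟩
  rw [hc.2]
  refine Finset.sum_congr rfl (fun i _ => ?_)
  rw [pd_fderiv φ p i y]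
  exact ((hφ i).differentiableOn (by norm_num)).differentiableAt (hΩ.mem_nhds hy.1)

theorem crit_null (Ω : Set (E N)) (hΩ : IsOpen Ω) (φ : ι → E N → ℝ)
    (hφ : ∀ i, ContDiffOn ℝ 2 (φ i) Ω) (col : ι → Bool) (T : Finset ι) (hT : Both col T) :
    Nul {p : PP N ι | ∃ y, IsCrit Ω (pd φ p) col T y ∧ ¬ IsND (pd φ p) col T y} := by
  classical
  by_cases hno : ∀ i ∈ T, ∀ j ∈ T, col i = col j → i = j
  · refine Nul.mono Nul.empty ?_
    rintro p ⟨y, ⟨_, c, hc⟩, hnd⟩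
    exact hnd (nopair_nd φ p col T hno y c hc)
  push Not at hno
  obtain ⟨i2, hi, j2, hj, hcol, hne⟩ := hno
  obtain ⟨ψ⟩ : Nonempty (DE N ≃L[ℝ] E N) :=
    ⟨ContinuousLinearEquiv.ofFinrankEq
      ((InnerProductSpace.toDual ℝ (E N)).toLinearEquiv.finrank_eq).symm⟩
  have himg : ∀ i1 : ι, Nul (par φ col T rr ψ i1 ''
      {x | ψ (x.2 i1) ∈ Ω ∧ cf col T x.1 i1 ≠ 0 ∧
        ∃ v, v ≠ 0 ∧ fderiv ℝ (par φ col T rr ψ i1) x v = 0}) := by
    intro i1
    exact nul_sard _ _ (fun x hx => par_differentiableAt Ω hΩ φ hφ col T rr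
      rr_contDiff.contDiffOn ψ i1 x hx.1 hx.2.1) (fun x hx => hx.2.2)
  refine Nul.mono ((Nul.iUnion _ himg).union (zero_null φ i2 j2 hne.symm)) ?_
  rintro p ⟨y, ⟨hy, c, hc⟩, hnd⟩
  by_cases h0 : ∀ i, c i = 0
  · right
    exact zero_mem Ω φ p col T y hy c hc h0 i2 j2 hi hj hcol
  · left
    push Not at h0
    obtain ⟨i1, h1⟩ := h0
    obtain ⟨hi1, x, hx1, hx2, hx3⟩ := genC_onto Ω hΩ φ hφ col T hT ψ p y hy c hc i1 h1
    have hyΩ : ψ (x.2 i1) ∈ Ω := by rw [hx2]; exact hy.1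
    have hc1 : cf col T x.1 i1 ≠ 0 := by rw [hx3]; exact h1
    refine Set.mem_iUnion.2 ⟨i1, x, ⟨hyΩ, hc1, ?_⟩, hx1⟩
    by_contra hinj
    push Not at hinj
    apply hnd
    have := par_nd Ω hΩ φ hφ col T hT ψ i1 hi1 x hyΩ hc1
      (fun v hv => by_contra (fun h => hinj v h hv))
    rwa [hx1, hx2] at this

end UC
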