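import Pool.Agent.UC.Gen_Defs

/-!
# UC P2, module ParDiff: the parametrization is differentiable where `c i1 ≠ 0`

`par` is built from: the continuous linear maps `x ↦ x.1 i`, `x ↦ x.2 i`, `x ↦ ψ (x.2 i1)`; the functions
`av`, `cf` (finite sums of coordinates divided by constants); `(cf · i1)⁻¹` (`DifferentiableAt.inv`,
uses `hc`); `x ↦ φ i (ψ (x.2 i1))`, `x ↦ fderiv ℝ (φ i) (ψ (x.2 i1))` and the same for `ρ`: `φ i` is C^2 on
the open set Ω, so `φ i` and `fderiv ℝ (φ i)` are differentiable at the points of Ω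
(`ContDiffAt.fderiv_right`); finite sums, scalar multiples, evaluation of a linear form
(`DifferentiableAt.clm_apply`).
-/

open Finset Metric

namespace UC

variable {N : ℕ} {ι : Type} [Fintype ι] [DecidableEq ι]

omit [DecidableEq ι] in
private theorem genpd_fst (i : ι) : Differentiable ℝ (fun x : PP N ι => x.1 i) :=
  differentiable_pi.1 (differentiable_fst (𝕜 := ℝ) (E := ι → ℝ) (F := ι → DE N)) i

omit [DecidableEq ι] in
private theorem genpd_snd (i : ι) : Differentiable ℝ (fun x : PP N ι => x.2 i) :=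
  differentiable_pi.1 (differentiable_snd (𝕜 := ℝ) (E := ι → ℝ) (F := ι → DE N)) i

omit [DecidableEq ι] in
private theorem genpd_psi (ψ : DE N ≃L[ℝ] E N) (i : ι) :
    Differentiable ℝ (fun x : PP N ι => ψ (x.2 i)) :=
  ψ.differentiable.comp (genpd_snd i)

theorem av_differentiable (col : ι → Bool) (T : Finset ι) (β : Bool) :
    Differentiable ℝ (fun x : PP N ι => av col T β x.1) := by
  have h : Differentiable ℝ (fun x : PP N ι => ∑ i ∈ T with col i = β, x.1 i) :=
    Differentiable.fun_sum fun i _ => genpd_fst i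
  simp only [av, div_eq_mul_inv]
  exact h.mul_const _

theorem cf_differentiable (col : ι → Bool) (T : Finset ι) (i : ι) :
    Differentiable ℝ (fun x : PP N ι => cf col T x.1 i) := by
  unfold cf
  by_cases hi : i ∈ T
  · simp only [hi, if_true]
    exact (genpd_fst i).sub (av_differentiable col T (col i))
  · simp only [hi, if_false]
    exact differentiable_const _

/-- `x ↦ fderiv ℝ (φ i) x` is differentiable on Ω. -/
theorem fderiv_differentiableAt (Ω : Set (E N)) (hΩ : IsOpen Ω) (f : E N → ℝ)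
    (hf : ContDiffOn ℝ 2 f Ω) (y : E N) (hy : y ∈ Ω) :
    DifferentiableAt ℝ (fun x => fderiv ℝ f x) y := by
  exact ((hf.contDiffAt (hΩ.mem_nhds hy)).fderiv_right (m := 1) (by norm_num)).differentiableAt
    (by norm_num)

theorem par_differentiableAt (Ω : Set (E N)) (hΩ : IsOpen Ω) (φ : ι → E N → ℝ)
    (hφ : ∀ i, ContDiffOn ℝ 2 (φ i) Ω) (col : ι → Bool) (T : Finset ι) (ρ : E N → ℝ)
    (hρ : ContDiffOn ℝ 2 ρ Ω) (ψ : DE N ≃L[ℝ] E N) (i1 : ι) (x : PP N ι) (hy : ψ (x.2 i1) ∈ Ω)
    (hc : cf col T x.1 i1 ≠ 0) : DifferentiableAt ℝ (par φ col T ρ ψ i1) x := by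
  have hψ : DifferentiableAt ℝ (fun x : PP N ι => ψ (x.2 i1)) x := genpd_psi ψ i1 x
  have hcf : ∀ i, DifferentiableAt ℝ (fun x : PP N ι => cf col T x.1 i) x :=
    fun i => cf_differentiable col T i x
  have hbs : DifferentiableAt ℝ (fun x : PP N ι => bs φ col T ρ ψ i1 x) x := by
    unfold bs
    refine DifferentiableAt.fun_smul ((hcf i1).fun_inv hc) ?_
    refine DifferentiableAt.fun_sub (DifferentiableAt.fun_sub ?_ ?_) ?_
    · exact (fderiv_differentiableAt Ω hΩ ρ hρ _ hy).comp x hψ
    · exact DifferentiableAt.fun_sum fun i _ => DifferentiableAt.fun_smul (hcf i)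
        ((fderiv_differentiableAt Ω hΩ (φ i) (hφ i) _ hy).comp x hψ)
    · exact DifferentiableAt.fun_sum fun i _ => DifferentiableAt.fun_smul (hcf i)
        (genpd_snd i x)
  have hbb : ∀ i, DifferentiableAt ℝ (fun x : PP N ι => bb φ col T ρ ψ i1 x i) x := by
    intro i
    unfold bb
    by_cases hi : i = i1
    · simp only [hi, if_true]
      exact hbs
    · simp only [hi, if_false]
      exact genpd_snd i x
  unfold par
  refine DifferentiableAt.prodMk (differentiableAt_pi.2 fun i => ?_) (differentiableAt_pi.2 hbb)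
  by_cases hi : i ∈ T
  · simp only [hi, if_true]
    refine DifferentiableAt.fun_sub (DifferentiableAt.fun_sub ?_ ?_) ?_
    · exact av_differentiable col T (col i) x
    · have h1 : DifferentiableAt ℝ (φ i) (ψ (x.2 i1)) :=
        ((hφ i).contDiffAt (hΩ.mem_nhds hy)).differentiableAt (by norm_num)
      exact h1.comp x hψ
    · exact (hbb i).clm_apply hψ
  · simp only [hi, if_false]
    exact genpd_fst i x

end UC
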