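import Pool.Agent.UC.Gen_Onto
import Pool.Agent.UC.Gen_ParDiff
import Pool.Agent.UC.Gen_Zero

/-!
# UC P2, module Mult: the set of perturbations violating (mult) is null

Let `ψ : DE N ≃L[ℝ] E N` be any continuous linear equivalence (the dimensions agree:
`ContinuousLinearEquiv.ofFinrankEq`, or from `InnerProductSpace.toDual`).  The derivative of the `i`-th function of the
perturbed family is `fderiv (φ i) y + p.2 i` (`pd_fderiv`, `φ i` is differentiable on the open set Ω).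
Let `p` be in the set with `y`, `c`, `c i2 = 0`.  If all `c i = 0` then `zero_mem` and `zero_null`.
Otherwise `c i1 ≠ 0` for some `i1` (in `T` by `coef_partner`), and by `par_onto` with `ρ = rr` the point `p` is in the
image under `par φ col T rr ψ i1` of `{x | ψ (x.2 i1) ∈ Ω ∧ cf col T x.1 i1 ≠ 0 ∧ cf col T x.1 i2 = 0}`, null by
`nul_hyper` (`par_differentiableAt`, `rr_contDiff`; functional `cf_linear` for `i2`, nonzero by `cf_ne` for `i2`, `j2`).
-/

open Finset Metric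

namespace UC

variable {N : ℕ} {ι : Type} [Fintype ι] [DecidableEq ι]

omit [Fintype ι] in
/-- `par` is onto the perturbations whose multiplier of index `i1` does not vanish. -/
private theorem genM_onto (Ω : Set (E N)) (hΩ : IsOpen Ω) (φ : ι → E N → ℝ)
    (hφ : ∀ i, ContDiffOn ℝ 2 (φ i) Ω) (col : ι → Bool) (T : Finset ι) (hT : Both col T)
    (ψ : DE N ≃L[ℝ] E N) (p : PP N ι) (y : E N) (hy : y ∈ Gam Ω (pd φ p) col T) (c : ι → ℝ)
    (hc : IsMult (pd φ p) col T y c) (i1 : ι) (h1 : c i1 ≠ 0) :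
    i1 ∈ T ∧ ∃ x : PP N ι, par φ col T rr ψ i1 x = p ∧ ψ (x.2 i1) = y ∧ cf col T x.1 = c := by
  have hi1 : i1 ∈ T := (coef_partner col T c hc.1 i1 h1).1
  refine ⟨hi1, par_onto φ col T hT rr ψ i1 hi1 p y c hc.1 h1 hy.2 ?_⟩
  rw [hc.2]
  refine Finset.sum_congr rfl (fun i _ => ?_)
  rw [pd_fderiv φ p i y]
  exact ((hφ i).differentiableOn (by norm_num)).differentiableAt (hΩ.mem_nhds hy.1)

theorem mult_null (Ω : Set (E N)) (hΩ : IsOpen Ω) (φ : ι → E N → ℝ)
    (hφ : ∀ i, ContDiffOn ℝ 2 (φ i) Ω) (col : ι → Bool) (T : Finset ι) (hT : Both col T)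
    (i2 j2 : ι) (hi : i2 ∈ T) (hj : j2 ∈ T) (hij : j2 ≠ i2) (hcol : col j2 = col i2) :
    Nul {p : PP N ι | ∃ y ∈ Gam Ω (pd φ p) col T, ∃ c, IsMult (pd φ p) col T y c ∧ c i2 = 0} := by
  classical
  obtain ⟨ψ⟩ : Nonempty (DE N ≃L[ℝ] E N) :=
    ⟨ContinuousLinearEquiv.ofFinrankEq
      ((InnerProductSpace.toDual ℝ (E N)).toLinearEquiv.finrank_eq).symm⟩
  have himg : ∀ i1 : ι, Nul (par φ col T rr ψ i1 ''
      {x | ψ (x.2 i1) ∈ Ω ∧ cf col T x.1 i1 ≠ 0 ∧ cf col T x.1 i2 = 0}) := by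
    intro i1
    obtain ⟨L, hL⟩ := cf_linear col T i2
    obtain ⟨a, ha⟩ := cf_ne col T hT i2 j2 hi hj hij hcol
    refine nul_hyper _ _ (fun x hx => par_differentiableAt Ω hΩ φ hφ col T rr
      rr_contDiff.contDiffOn ψ i1 x hx.1 hx.2.1) (L.comp (LinearMap.fst ℝ _ _)) (a, 0) ?_ 0 ?_
    · simpa [hL] using ha
    · intro x hx
      simpa [hL] using hx.2.2
  refine Nul.mono ((Nul.iUnion _ himg).union (zero_null φ i2 j2 hij)) ?_
  rintro p ⟨y, hy, c, hc, h2⟩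
  by_cases h0 : ∀ i, c i = 0
  · right
    exact zero_mem Ω φ p col T y hy c hc h0 i2 j2 hi hj hcol.symm
  · left
    push Not at h0
    obtain ⟨i1, h1⟩ := h0
    obtain ⟨_, x, hx1, hx2, hx3⟩ := genM_onto Ω hΩ φ hφ col T hT ψ p y hy c hc i1 h1
    refine Set.mem_iUnion.2 ⟨i1, x, ⟨?_, ?_, ?_⟩, hx1⟩
    · rw [hx2]; exact hy.1
    · rw [hx3]; exact h1
    · rw [hx3]; exact h2

end UC
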