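import Pool.Agent.UC.Gen_Reg
import Pool.Agent.UC.Gen_Mult
import Pool.Agent.UC.Gen_Crit

open Finset Metric

namespace UC

/-- General position by a small affine perturbation (text, section 8). -/
theorem exists_pert_GP {N : ℕ} {ι : Type} [Fintype ι] [DecidableEq ι] (Ω : Set (E N))
    (hΩ : IsOpen Ω) (hball : ∀ y ∈ Ω, closedBall (0 : E N) ‖y‖ ⊆ Ω) (φ : ι → E N → ℝ)
    (hφ : ∀ i, ContDiffOn ℝ 2 (φ i) Ω) (col : ι → Bool) (C0 : ℕ)
    (hB : ∀ (a : ι → ℝ) (b : ι → E N) (T : Finset ι), Both col T → N ≤ T.card → T.card ≤ N + 2 →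
      {y | y ∈ Gam Ω (pert φ a b) col T ∧ IsND (pert φ a b) col T y}.Finite ∧
      {y | y ∈ Gam Ω (pert φ a b) col T ∧ IsND (pert φ a b) col T y}.ncard ≤ C0)
    (δ : ℝ) (hδ : 0 < δ) :
    ∃ (a : ι → ℝ) (b : ι → E N), (∀ i, |a i| < δ ∧ ‖b i‖ < δ) ∧ GP Ω (pert φ a b) col C0 := by
  classical
  have h1 : Nul (⋃ T : {T : Finset ι // Both col T},
      {p : PP N ι | ∃ y ∈ Gam Ω (pd φ p) col T.1, ∃ c, Coef col T.1 c ∧
        ∑ i ∈ T.1, c i • fderiv ℝ (pd φ p i) y = 0 ∧ ∃ i, c i ≠ 0}) :=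
    Nul.iUnion _ (fun T => reg_null Ω hΩ φ hφ col T.1 T.2)
  have h2 : Nul (⋃ k : {k : Finset ι × ι × ι // Both col k.1 ∧ k.2.1 ∈ k.1 ∧ k.2.2 ∈ k.1 ∧
        k.2.2 ≠ k.2.1 ∧ col k.2.2 = col k.2.1},
      {p : PP N ι | ∃ y ∈ Gam Ω (pd φ p) col k.1.1, ∃ c, IsMult (pd φ p) col k.1.1 y c ∧
        c k.1.2.1 = 0}) :=
    Nul.iUnion _ (fun k => mult_null Ω hΩ φ hφ col k.1.1 k.2.1 k.1.2.1 k.1.2.2 k.2.2.1 k.2.2.2.1
      k.2.2.2.2.1 k.2.2.2.2.2)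
  have h3 : Nul (⋃ T : {T : Finset ι // Both col T},
      {p : PP N ι | ∃ y, IsCrit Ω (pd φ p) col T.1 y ∧ ¬ IsND (pd φ p) col T.1 y}) :=
    Nul.iUnion _ (fun T => crit_null Ω hΩ φ hφ col T.1 T.2)
  obtain ⟨p, hp, hpδ⟩ := ((h1.union h2).union h3).exists_small δ hδ
  simp only [Set.mem_union, Set.mem_iUnion, Set.mem_setOf_eq, not_or, not_exists, not_and,
    Subtype.forall] at hp
  obtain ⟨⟨hp1, hp2⟩, hp3⟩ := hp
  have hpd : pert φ p.1 (fun i => (InnerProductSpace.toDual ℝ (E N)).symm (p.2 i)) = pd φ p := by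
    funext i y
    simp only [pert, pd, InnerProductSpace.toDual_symm_apply]
  refine ⟨p.1, fun i => (InnerProductSpace.toDual ℝ (E N)).symm (p.2 i), fun i => ⟨?_, ?_⟩, ?_⟩
  · have h := norm_le_pi_norm p.1 i
    rw [Real.norm_eq_abs] at h
    exact lt_of_le_of_lt (h.trans (norm_fst_le p)) hpδ
  · rw [LinearIsometryEquiv.norm_map]
    exact lt_of_le_of_lt ((norm_le_pi_norm p.2 i).trans (norm_snd_le p)) hpδ
  have hB' := hB p.1 (fun i => (InnerProductSpace.toDual ℝ (E N)).symm (p.2 i))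
  rw [hpd] at hB' ⊢
  refine ⟨hΩ, hball, fun i => (pd_contDiffOn Ω φ hφ p i).of_le (by norm_num), ?_, ?_, ?_⟩
  · intro T hT y hy c hc hs i
    by_contra hne
    exact hp1 T hT y hy c hc hs i hne
  · intro T hT _ y hy c hc i hi hj
    obtain ⟨j, hj, hji, hcol⟩ := hj
    exact hp2 (T, i, j) ⟨hT, hi, hj, hji, hcol⟩ y hy c hc
  · intro T hT hT1 hT2
    obtain ⟨hf, hn⟩ := hB' T hT hT1 hT2
    have hsub : {y | IsCrit Ω (pd φ p) col T y} ⊆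
        {y | y ∈ Gam Ω (pd φ p) col T ∧ IsND (pd φ p) col T y} := by
      intro y hy
      refine ⟨hy.1, ?_⟩
      by_contra hnd
      exact hp3 T hT y hy hnd
    exact ⟨hf.subset hsub, (Set.ncard_le_ncard hsub hf).trans hn⟩

end UC
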