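import Pool.Agent.UC.VDefs

open Finset Metric

namespace UC

section

set_option linter.unusedSectionVars false

variable {N : ℕ} {ι : Type} [Fintype ι] [DecidableEq ι] {Ω : Set (E N)} {φ : ι → E N → ℝ}

/-- the perturbed functions depend smoothly on the point and the parameters -/
theorem Persist_smooth (hΩ : IsOpen Ω) (hφ : ∀ i, ContDiffOn ℝ 1 (φ i) Ω) (i : ι) {y0 : E N}
    (hy : y0 ∈ Ω) (t0 : ℝ) :
    ContDiffAt ℝ 1 (fun q : (E N × ℝ) × ((ι → ℝ) × (ι → E N)) =>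
      pert φ q.2.1 q.2.2 i q.1.1) ((y0, t0), 0) := by
  have h1 : ContDiffAt ℝ 1 (φ i) y0 := (hφ i).contDiffAt (hΩ.mem_nhds hy)
  have h2 : ContDiffAt ℝ 1 (fun q : (E N × ℝ) × ((ι → ℝ) × (ι → E N)) => q.1.1)
      ((y0, t0), 0) := by fun_prop
  have h3 : ContDiffAt ℝ 1 (fun q : (E N × ℝ) × ((ι → ℝ) × (ι → E N)) => φ i q.1.1)
      ((y0, t0), 0) := ContDiffAt.comp (g := φ i) ((y0, t0), 0) h1 h2
  have h4 : ContDiffAt ℝ 1 (fun q : (E N × ℝ) × ((ι → ℝ) × (ι → E N)) => q.2.1 i)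
      ((y0, t0), 0) := by fun_prop
  have h5 : ContDiffAt ℝ 1 (fun q : (E N × ℝ) × ((ι → ℝ) × (ι → E N)) => q.2.2 i)
      ((y0, t0), 0) := by fun_prop
  exact (h3.add h4).add (h5.inner ℝ h2)

theorem Persist_pert_zero (i : ι) (y : E N) : pert φ 0 0 i y = φ i y := by
  unfold pert
  rw [Pi.zero_apply, Pi.zero_apply, inner_zero_left, add_zero, add_zero]

/-- the derivative of a perturbed function -/
theorem Persist_fderiv (hΩ : IsOpen Ω) (hφ : ∀ i, ContDiffOn ℝ 1 (φ i) Ω) (a : ι → ℝ)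
    (b : ι → E N) (i : ι) {y : E N} (hy : y ∈ Ω) :
    fderiv ℝ (pert φ a b i) y = fderiv ℝ (φ i) y + innerSL ℝ (b i) := by
  have h1 : DifferentiableAt ℝ (φ i) y :=
    ((hφ i).contDiffAt (hΩ.mem_nhds hy)).differentiableAt one_ne_zero
  have h2 : HasFDerivAt (fun y : E N => φ i y + a i + innerSL ℝ (b i) y)
      (fderiv ℝ (φ i) y + innerSL ℝ (b i)) y :=
    (h1.hasFDerivAt.add_const (a i)).add (innerSL ℝ (b i)).hasFDerivAt
  exact h2.fderiv

/-- transversality as linear independence -/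
theorem Persist_trans_iff (T : Finset ι) (col : ι → Bool) (L : ι → (E N →L[ℝ] ℝ)) :
    (∀ c : ι → ℝ, (∀ i, i ∉ T → c i = 0) → ∑ i ∈ T, c i * sg (col i) = 0 →
      ∑ i ∈ T, c i • L i = 0 → ∀ i, c i = 0) ↔
    LinearIndependent ℝ (fun i : T => ((sg (col i), L i) : ℝ × (E N →L[ℝ] ℝ))) := by
  rw [Fintype.linearIndependent_iff]
  have hsum : ∀ c : ι → ℝ, ∑ i : T, c i • ((sg (col i), L i) : ℝ × (E N →L[ℝ] ℝ)) =
      (∑ i ∈ T, c i * sg (col i), ∑ i ∈ T, c i • L i) := by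
    intro c
    rw [Finset.sum_coe_sort T (fun i => c i • ((sg (col i), L i) : ℝ × (E N →L[ℝ] ℝ)))]
    rw [Prod.ext_iff, Prod.fst_sum, Prod.snd_sum]
    exact ⟨rfl, rfl⟩
  constructor
  · intro h g hg i
    have h1 : ∀ i : T, (if h : (i : ι) ∈ T then g ⟨i, h⟩ else 0) = g i := by
      intro i
      rw [dif_pos i.2]
    have h2 := hsum fun i => if h : i ∈ T then g ⟨i, h⟩ else 0
    simp only [h1] at h2
    rw [hg] at h2
    have h3 := h (fun i => if h : i ∈ T then g ⟨i, h⟩ else 0)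
      (fun i hi => dif_neg hi) (congrArg Prod.fst h2).symm (congrArg Prod.snd h2).symm i
    rw [← h1 i]
    exact h3
  · intro h c hc h1 h2 i
    by_cases hi : i ∈ T
    · have h3 := hsum c
      rw [h1, h2] at h3
      exact h (fun i => c i) h3 ⟨i, hi⟩
    · exact hc i hi

/-- the tie system -/
noncomputable def Persist_G (φ : ι → E N → ℝ) (col : ι → Bool) (T : Finset ι)
    (q : (E N × ℝ) × ((ι → ℝ) × (ι → E N))) : T → ℝ :=
  fun i => pert φ q.2.1 q.2.2 i q.1.1 - sg (col i) * q.1.2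

/-- the derivative of the tie system in the point -/
noncomputable def Persist_A (φ : ι → E N → ℝ) (col : ι → Bool) (T : Finset ι) (y0 : E N) :
    (E N × ℝ) →L[ℝ] (T → ℝ) :=
  ContinuousLinearMap.pi fun i => (fderiv ℝ (φ i) y0).comp (ContinuousLinearMap.fst ℝ (E N) ℝ) -
    sg (col i) • ContinuousLinearMap.snd ℝ (E N) ℝ

theorem Persist_A_apply (col : ι → Bool) (T : Finset ι) (y0 : E N) (p : E N × ℝ) (i : T) :
    Persist_A φ col T y0 p i = fderiv ℝ (φ i) y0 p.1 - sg (col i) * p.2 := rfl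

theorem Persist_A_surj {col : ι → Bool} {T : Finset ι} {y0 : E N} {t0 : ℝ}
    (hv : IsV Ω φ col T y0 t0) : Function.Surjective (Persist_A φ col T y0) := by
  rw [← ContinuousLinearMap.coe_coe, ← LinearMap.range_eq_top]
  by_contra hne
  obtain ⟨f, hf0, hf⟩ := Submodule.exists_le_ker_of_lt_top _ (lt_top_iff_ne_top.2 hne)
  have hf1 : ∀ z : T → ℝ, f z = ∑ i, z i * f (Pi.single i 1) := by
    intro z
    conv_lhs => rw [← Finset.univ_sum_single z]
    rw [map_sum]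
    refine Finset.sum_congr rfl fun i _ => ?_
    have h1 : (Pi.single i (z i) : T → ℝ) = z i • Pi.single i 1 := by
      rw [← Pi.single_smul, smul_eq_mul, mul_one]
    rw [h1, map_smul, smul_eq_mul]
  have hf2 : ∀ p : E N × ℝ, ∑ i : T, (fderiv ℝ (φ i) y0 p.1 - sg (col i) * p.2) *
      f (Pi.single i 1) = 0 := by
    intro p
    have h1 : f (Persist_A φ col T y0 p) = 0 := hf ⟨p, rfl⟩
    rw [hf1] at h1
    exact h1
  obtain ⟨c, hc⟩ : ∃ c : ι → ℝ, c = fun i => if h : i ∈ T then f (Pi.single ⟨i, h⟩ 1) else 0 :=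
    ⟨_, rfl⟩
  have hcT : ∀ i : T, c i = f (Pi.single i 1) := by
    intro i
    rw [hc]
    exact dif_pos i.2
  have h3 := hv.trans c (fun i hi => by rw [hc]; exact dif_neg hi) ?_ ?_
  · refine hf0 (LinearMap.ext fun z => ?_)
    rw [hf1, LinearMap.zero_apply]
    refine Finset.sum_eq_zero fun i _ => ?_
    rw [← hcT, h3, mul_zero]
  · have h1 := hf2 (0, -1)
    rw [← Finset.sum_coe_sort T (fun i => c i * sg (col i)), ← h1]
    refine Finset.sum_congr rfl fun i _ => ?_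
    rw [hcT, map_zero]
    ring
  · ext u
    have h1 := hf2 (u, 0)
    rw [← Finset.sum_coe_sort T (fun i => c i • fderiv ℝ (φ i) y0), zero_apply,
      _root_.sum_apply, ← h1]
    refine Finset.sum_congr rfl fun i _ => ?_
    rw [hcT, smul_apply, smul_eq_mul]
    ring

theorem Persist_map {col : ι → Bool} {T : Finset ι} (hΩ : IsOpen Ω)
    (hφ : ∀ i, ContDiffOn ℝ 1 (φ i) Ω) {y0 : E N} {t0 : ℝ} (hv : IsV Ω φ col T y0 t0) :
    Filter.map (fun q : (E N × ℝ) × ((ι → ℝ) × (ι → E N)) => (Persist_G φ col T q, q.2))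
      (nhds ((y0, t0), 0)) = nhds (0, 0) := by
  have hG : ContDiffAt ℝ 1 (Persist_G φ col T) ((y0, t0), 0) := by
    refine contDiffAt_pi.2 fun i => ?_
    refine (Persist_smooth hΩ hφ i hv.mem t0).sub ?_
    fun_prop
  have hG1 := hG.hasStrictFDerivAt one_ne_zero
  have hG0 : Persist_G φ col T ((y0, t0), 0) = 0 := by
    funext i
    change pert φ 0 0 i y0 - sg (col i) * t0 = 0
    rw [Persist_pert_zero, hv.on i i.2, sub_self]
  have hΨ : HasStrictFDerivAt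
      (fun q : (E N × ℝ) × ((ι → ℝ) × (ι → E N)) => (Persist_G φ col T q, q.2))
      ((fderiv ℝ (Persist_G φ col T) ((y0, t0), 0)).prod
        (ContinuousLinearMap.snd ℝ (E N × ℝ) ((ι → ℝ) × (ι → E N)))) ((y0, t0), 0) :=
    hG1.prodMk hasStrictFDerivAt_snd
  have hA : ∀ p : E N × ℝ, fderiv ℝ (Persist_G φ col T) ((y0, t0), 0) (p, 0) =
      Persist_A φ col T y0 p := by
    have h1 : HasFDerivAt (fun p : E N × ℝ => Persist_G φ col T (p, 0))
        ((fderiv ℝ (Persist_G φ col T) ((y0, t0), 0)).comp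
          (ContinuousLinearMap.inl ℝ (E N × ℝ) ((ι → ℝ) × (ι → E N)))) (y0, t0) :=
      HasFDerivAt.comp (g := Persist_G φ col T) (y0, t0) hG1.hasFDerivAt
        (hasFDerivAt_prodMk_left (y0, t0) (0 : (ι → ℝ) × (ι → E N)))
    have h2 : HasFDerivAt (fun p : E N × ℝ => Persist_G φ col T (p, 0))
        (Persist_A φ col T y0) (y0, t0) := by
      refine hasFDerivAt_pi.2 fun i => ?_
      have h3 : (fun p : E N × ℝ => Persist_G φ col T (p, 0) i) =
          fun p => φ i p.1 - sg (col i) * p.2 := by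
        funext p
        change pert φ 0 0 i p.1 - sg (col i) * p.2 = _
        rw [Persist_pert_zero]
      rw [h3]
      have h4 : HasFDerivAt (φ i) (fderiv ℝ (φ i) y0) y0 :=
        (((hφ i).contDiffAt (hΩ.mem_nhds hv.mem)).differentiableAt one_ne_zero).hasFDerivAt
      exact (HasFDerivAt.comp (g := φ i) (y0, t0) h4 hasFDerivAt_fst).sub
        (hasFDerivAt_snd.const_mul (sg (col i)))
    intro p
    have h5 := ContinuousLinearMap.ext_iff.1 (h1.unique h2) p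
    exact h5
  have hsurj : ((fderiv ℝ (Persist_G φ col T) ((y0, t0), 0)).prod
      (ContinuousLinearMap.snd ℝ (E N × ℝ) ((ι → ℝ) × (ι → E N)))).range = ⊤ := by
    rw [LinearMap.range_eq_top]
    rintro ⟨z, x⟩
    obtain ⟨p, hp⟩ := Persist_A_surj hv
      (z - fderiv ℝ (Persist_G φ col T) ((y0, t0), 0) (0, x))
    refine ⟨(p, x), ?_⟩
    change (fderiv ℝ (Persist_G φ col T) ((y0, t0), 0) (p, x), x) = (z, x)
    have h1 : ((p, x) : (E N × ℝ) × ((ι → ℝ) × (ι → E N))) = (p, 0) + (0, x) := by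
      rw [Prod.mk_add_mk, add_zero, zero_add]
    rw [h1, map_add, hA, hp, sub_add_cancel]
  have h := hΨ.map_nhds_eq_of_surj hsurj
  rw [h, hG0]

/-- one vertex persists -/
theorem Persist_one {col : ι → Bool} {T : Finset ι} (hΩ : IsOpen Ω)
    (hφ : ∀ i, ContDiffOn ℝ 1 (φ i) Ω) {y0 : E N} {t0 : ℝ} (hv : IsV Ω φ col T y0 t0)
    {U : Set (E N × ℝ)} (hU : U ∈ nhds (y0, t0)) :
    ∀ᶠ x : (ι → ℝ) × (ι → E N) in nhds 0, ∃ w ∈ U, IsV Ω (pert φ x.1 x.2) col T w.1 w.2 := by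
  have hfst : Filter.Tendsto (fun q : (E N × ℝ) × ((ι → ℝ) × (ι → E N)) => q.1)
      (nhds ((y0, t0), 0)) (nhds (y0, t0)) := continuous_fst.tendsto _
  have hfst2 : Filter.Tendsto (fun q : (E N × ℝ) × ((ι → ℝ) × (ι → E N)) => q.1.1)
      (nhds ((y0, t0), 0)) (nhds y0) := (continuous_fst.comp continuous_fst).tendsto _
  have e1 : ∀ᶠ q : (E N × ℝ) × ((ι → ℝ) × (ι → E N)) in nhds ((y0, t0), 0), q.1 ∈ U :=
    hfst hU
  have e2 : ∀ᶠ q : (E N × ℝ) × ((ι → ℝ) × (ι → E N)) in nhds ((y0, t0), 0), q.1.1 ∈ Ω :=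
    hfst2 (hΩ.mem_nhds hv.mem)
  have e3 : ∀ᶠ q : (E N × ℝ) × ((ι → ℝ) × (ι → E N)) in nhds ((y0, t0), 0),
      ∀ i, i ∉ T → sg (col i) * q.1.2 < pert φ q.2.1 q.2.2 i q.1.1 := by
    rw [Filter.eventually_all]
    intro i
    by_cases hi : i ∈ T
    · exact Filter.Eventually.of_forall fun q h => absurd hi h
    · have h1 : ContinuousAt (fun q : (E N × ℝ) × ((ι → ℝ) × (ι → E N)) =>
          sg (col i) * q.1.2) ((y0, t0), 0) := by fun_prop
      have h2 := (Persist_smooth hΩ hφ i hv.mem t0).continuousAt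
      have h3 : sg (col i) * t0 < pert φ 0 0 i y0 := by
        rw [Persist_pert_zero]
        exact hv.off i hi
      filter_upwards [h1.eventually_lt h2 h3] with q hq _
      exact hq
  have e4 : ∀ᶠ q : (E N × ℝ) × ((ι → ℝ) × (ι → E N)) in nhds ((y0, t0), 0),
      LinearIndependent ℝ (fun i : T => ((sg (col i), fderiv ℝ (φ i) q.1.1 +
        innerSL ℝ (q.2.2 i)) : ℝ × (E N →L[ℝ] ℝ))) := by
    have h1 : ContinuousAt (fun q : (E N × ℝ) × ((ι → ℝ) × (ι → E N)) =>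
        (fun i : T => ((sg (col i), fderiv ℝ (φ i) q.1.1 +
        innerSL ℝ (q.2.2 i)) : ℝ × (E N →L[ℝ] ℝ)))) ((y0, t0), 0) := by
      refine continuousAt_pi.2 fun i => ?_
      refine continuousAt_const.prodMk ?_
      have h2 : ContinuousAt (fderiv ℝ (φ i)) y0 :=
        ((hφ i).continuousOn_fderiv_of_isOpen hΩ le_rfl).continuousAt (hΩ.mem_nhds hv.mem)
      have h3 : ContinuousAt (fun q : (E N × ℝ) × ((ι → ℝ) × (ι → E N)) =>
          fderiv ℝ (φ i) q.1.1) ((y0, t0), 0) :=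
        Filter.Tendsto.comp (g := fderiv ℝ (φ i)) h2 hfst2
      have h4 : ContinuousAt (fun q : (E N × ℝ) × ((ι → ℝ) × (ι → E N)) =>
          innerSL ℝ (q.2.2 i)) ((y0, t0), 0) := by fun_prop
      exact h3.add h4
    refine h1.eventually (isOpen_setOfPred_linearIndependent.mem_nhds ?_)
    change LinearIndependent ℝ (fun i : T => ((sg (col i), fderiv ℝ (φ i) y0 +
        innerSL ℝ ((0 : ι → E N) i)) : ℝ × (E N →L[ℝ] ℝ)))
    have h2 := (Persist_trans_iff T col fun i => fderiv ℝ (φ i) y0).1 hv.trans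
    have h3 : (fun i : T => ((sg (col i), fderiv ℝ (φ i) y0 +
        innerSL ℝ ((0 : ι → E N) i)) : ℝ × (E N →L[ℝ] ℝ))) =
        fun i : T => ((sg (col i), fderiv ℝ (φ i) y0) : ℝ × (E N →L[ℝ] ℝ)) := by
      funext i
      rw [Pi.zero_apply, map_zero, add_zero]
    rw [h3]
    exact h2
  have hmap := Persist_map hΩ hφ hv
  have hev : ∀ᶠ z : (T → ℝ) × ((ι → ℝ) × (ι → E N)) in nhds (0, 0),
      ∃ q : (E N × ℝ) × ((ι → ℝ) × (ι → E N)), (q.1 ∈ U ∧ q.1.1 ∈ Ω ∧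
        (∀ i, i ∉ T → sg (col i) * q.1.2 < pert φ q.2.1 q.2.2 i q.1.1) ∧
        LinearIndependent ℝ (fun i : T => ((sg (col i), fderiv ℝ (φ i) q.1.1 +
          innerSL ℝ (q.2.2 i)) : ℝ × (E N →L[ℝ] ℝ)))) ∧ (Persist_G φ col T q, q.2) = z := by
    rw [← hmap, Filter.eventually_map]
    filter_upwards [e1, e2, e3, e4] with q h1 h2 h3 h4
    exact ⟨q, ⟨h1, h2, h3, h4⟩, rfl⟩
  have hcont : Filter.Tendsto (fun x : (ι → ℝ) × (ι → E N) =>
      (((0 : T → ℝ), x) : (T → ℝ) × ((ι → ℝ) × (ι → E N)))) (nhds 0) (nhds (0, 0)) :=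
    (Continuous.prodMk_right (0 : T → ℝ)).tendsto 0
  filter_upwards [hcont.eventually hev] with x hx
  obtain ⟨q, ⟨h1, h2, h3, h4⟩, h5⟩ := hx
  have h6 : q.2 = x := congrArg Prod.snd h5
  have h7 : Persist_G φ col T q = 0 := congrArg Prod.fst h5
  rw [← h6]
  refine ⟨q.1, h1, h2, hv.card, fun i hi => ?_, h3, ?_⟩
  · have h8 := congrFun h7 ⟨i, hi⟩
    change pert φ q.2.1 q.2.2 i q.1.1 - sg (col i) * q.1.2 = 0 at h8
    linarith
  · have h8 := (Persist_trans_iff T col fun i => fderiv ℝ (φ i) q.1.1 + innerSL ℝ (q.2.2 i)).2 h4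
    intro c hc h9 h10
    refine h8 c hc h9 ?_
    rw [← h10]
    refine Finset.sum_congr rfl fun i _ => ?_
    rw [Persist_fderiv hΩ hφ _ _ i h2]

end

/-- Transversal vertices persist under small affine perturbations (text, section 10). -/
theorem persist {N : ℕ} {ι : Type} [Fintype ι] [DecidableEq ι] (Ω : Set (E N)) (hΩ : IsOpen Ω)
    (φ : ι → E N → ℝ) (hφ : ∀ i, ContDiffOn ℝ 1 (φ i) Ω) (col : ι → Bool)
    (V : Finset (E N × ℝ)) (hV : ∀ v ∈ V, ∃ T, IsV Ω φ col T v.1 v.2) :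
    ∃ δ : ℝ, 0 < δ ∧ ∀ (a : ι → ℝ) (b : ι → E N), (∀ i, |a i| < δ ∧ ‖b i‖ < δ) →
      ∃ F : E N × ℝ → E N × ℝ, Set.InjOn F V ∧
        ∀ v ∈ V, ∃ T, IsV Ω (pert φ a b) col T (F v).1 (F v).2 := by
  classical
  choose! T hT using hV
  obtain ⟨U, hU, hUd⟩ := V.finite_toSet.t2_separation
  have hev : ∀ᶠ x : (ι → ℝ) × (ι → E N) in nhds 0, ∀ v ∈ V,
      ∃ w ∈ U v, IsV Ω (pert φ x.1 x.2) col (T v) w.1 w.2 := by
    rw [Filter.eventually_all_finset]
    intro v hv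
    exact Persist_one hΩ hφ (hT v hv) ((hU v).2.mem_nhds (hU v).1)
  obtain ⟨δ, hδ, hball⟩ := Metric.eventually_nhds_iff_ball.1 hev
  refine ⟨δ, hδ, fun a b hab => ?_⟩
  have hx : ((a, b) : (ι → ℝ) × (ι → E N)) ∈ ball (0 : (ι → ℝ) × (ι → E N)) δ := by
    rw [mem_ball_zero_iff, Prod.norm_def, max_lt_iff, pi_norm_lt_iff hδ, pi_norm_lt_iff hδ]
    exact ⟨fun i => (hab i).1, fun i => (hab i).2⟩
  have h1 := hball (a, b) hx
  choose! F hF using h1
  refine ⟨F, ?_, fun v hv => ⟨T v, (hF v hv).2⟩⟩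
  intro v hv w hw hvw
  by_contra hne
  have h2 := hUd hv hw hne
  have h3 := (hF v (mem_coe.1 hv)).1
  rw [hvw] at h3
  exact Set.disjoint_left.1 h2 h3 (hF w (mem_coe.1 hw)).1

end UC
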