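import Pool.Agent.UC.GPBound
import Pool.Agent.UC.Generic
import Pool.Agent.UC.Persist

open Finset Metric

namespace UC

/-- Theorem A for C^2 families with bounded numbers of nondegenerate solutions. -/
theorem vertex_bound (N C0 C1 : ℕ) (ρ : ℝ) (hρ : 0 < ρ) : ∃ C : ℝ, 0 ≤ C ∧
    ∀ (ι : Type) [Fintype ι] [DecidableEq ι] (Ω : Set (E N)), IsOpen Ω →
      (∀ y ∈ Ω, closedBall (0 : E N) ‖y‖ ⊆ Ω) → ∀ (φ : ι → E N → ℝ),
      (∀ i, ContDiffOn ℝ 2 (φ i) Ω) → ∀ (col : ι → Bool), Both col Finset.univ →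
      (∀ (a : ι → ℝ) (b : ι → E N) (T : Finset ι), Both col T → N ≤ T.card → T.card ≤ N + 2 →
        {y | y ∈ Gam Ω (pert φ a b) col T ∧ IsND (pert φ a b) col T y}.Finite ∧
        {y | y ∈ Gam Ω (pert φ a b) col T ∧ IsND (pert φ a b) col T y}.ncard ≤ C0) →
      (∀ (a : ι → ℝ) (b : ι → E N) (T : Finset ι),
        {v : E N × ℝ | IsV Ω (pert φ a b) col T v.1 v.2}.Finite ∧
        {v : E N × ℝ | IsV Ω (pert φ a b) col T v.1 v.2}.ncard ≤ C1) →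
      {v : E N × ℝ | ∃ T, IsV Ω φ col T v.1 v.2}.Finite ∧
      ({v : E N × ℝ | ∃ T, IsV Ω φ col T v.1 v.2}.ncard : ℝ) ≤
        C * (Fintype.card ι : ℝ) ^ ((N : ℝ) + ρ) := by
  classical
  obtain ⟨C, hC, hmain⟩ := gp_vertex_bound N C0 C1 ρ hρ
  refine ⟨C, hC, ?_⟩
  intro ι _ _ Ω hΩ hball φ hφ col hcol hB hV
  have key : ∀ V : Finset (E N × ℝ), (∀ v ∈ V, ∃ T, IsV Ω φ col T v.1 v.2) →
      (V.card : ℝ) ≤ C * (Fintype.card ι : ℝ) ^ ((N : ℝ) + ρ) := by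
    intro V hVS
    obtain ⟨δ, hδ, hper⟩ := persist Ω hΩ φ (fun i => (hφ i).of_le (by norm_num)) col V hVS
    obtain ⟨a, b, hab, hGP⟩ := exists_pert_GP Ω hΩ hball φ hφ col C0 hB δ hδ
    obtain ⟨F, hF, hFV⟩ := hper a b hab
    have h1 := hmain ι Ω (pert φ a b) col hGP hcol (hV a b) (V.image F) (fun w hw => by
      obtain ⟨v, hv, rfl⟩ := Finset.mem_image.1 hw
      exact hFV v hv)
    rwa [Finset.card_image_of_injOn hF] at h1
  have hfin : {v : E N × ℝ | ∃ T, IsV Ω φ col T v.1 v.2}.Finite := by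
    by_contra hinf
    obtain ⟨m, hm⟩ := exists_nat_gt (C * (Fintype.card ι : ℝ) ^ ((N : ℝ) + ρ))
    obtain ⟨V, hV1, hV2⟩ := Set.Infinite.exists_subset_card_eq hinf m
    have h1 := key V (fun v hv => hV1 (Finset.mem_coe.2 hv))
    rw [hV2] at h1
    linarith
  refine ⟨hfin, ?_⟩
  rw [Set.ncard_eq_toFinset_card _ hfin]
  exact key hfin.toFinset (fun v hv => (Set.Finite.mem_toFinset hfin).1 hv)

end UC
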