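import Pool.Agent.UC.GenDefs
import Pool.Agent.UC.Bezout

/-!
# UC: directional derivatives of polynomials
-/

open MvPolynomial

namespace UC

section
variable {κ : Type} [Fintype κ] [DecidableEq κ]

/-- The directional derivative of Q at z in direction w. -/
noncomputable def ddir (z w : κ → ℝ) (Q : MvPolynomial κ ℝ) : ℝ :=
  ∑ j, eval z (pderiv j Q) * w j

omit [DecidableEq κ] in
theorem ddir_C (z w : κ → ℝ) (a : ℝ) : ddir z w (C a) = 0 := by
  simp [ddir]

theorem ddir_X (z w : κ → ℝ) (j : κ) : ddir z w (X j) = w j := by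
  unfold ddir
  rw [Finset.sum_eq_single j]
  · simp
  · intro b _ hb
    rw [pderiv_X_of_ne (Ne.symm hb), map_zero, zero_mul]
  · intro h
    exact absurd (Finset.mem_univ _) h

omit [DecidableEq κ] in
theorem ddir_add (z w : κ → ℝ) (A B : MvPolynomial κ ℝ) : ddir z w (A + B) = ddir z w A + ddir z w B := by
  simp [ddir, add_mul, Finset.sum_add_distrib]

omit [DecidableEq κ] in
theorem ddir_sub (z w : κ → ℝ) (A B : MvPolynomial κ ℝ) : ddir z w (A - B) = ddir z w A - ddir z w B := by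
  simp [ddir, sub_mul, Finset.sum_sub_distrib]

omit [DecidableEq κ] in
theorem ddir_mul (z w : κ → ℝ) (A B : MvPolynomial κ ℝ) :
    ddir z w (A * B) = eval z A * ddir z w B + ddir z w A * eval z B := by
  simp only [ddir, pderiv_mul, map_add, map_mul, Finset.mul_sum, Finset.sum_mul,
    ← Finset.sum_add_distrib]
  exact Finset.sum_congr rfl fun j _ => by ring

omit [DecidableEq κ] in
theorem ddir_sum {α : Type} (z w : κ → ℝ) (s : Finset α) (A : α → MvPolynomial κ ℝ) :
    ddir z w (∑ a ∈ s, A a) = ∑ a ∈ s, ddir z w (A a) := by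
  simp only [ddir, map_sum, Finset.sum_mul]
  exact Finset.sum_comm

theorem ddir_rename {σ : Type} [Fintype σ] [DecidableEq σ] (f : σ → κ) (z w : κ → ℝ)
    (Q : MvPolynomial σ ℝ) : ddir z w (rename f Q) = ddir (z ∘ f) (w ∘ f) Q := by
  induction Q using MvPolynomial.induction_on with
  | C a => rw [rename_C, ddir_C, ddir_C]
  | add p q hp hq => rw [map_add, ddir_add, ddir_add, hp, hq]
  | mul_X p i hp =>
    rw [map_mul, rename_X, ddir_mul, ddir_mul, hp, ddir_X, ddir_X, eval_X, eval_X, eval_rename]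
    rfl

omit [DecidableEq κ] in
theorem ddir_smul (z w : κ → ℝ) (r : ℝ) (A : MvPolynomial κ ℝ) : ddir z (r • w) A = r * ddir z w A := by
  simp only [ddir, Pi.smul_apply, smul_eq_mul, Finset.mul_sum]
  exact Finset.sum_congr rfl fun j _ => by ring

theorem totalDegree_pderiv_le_of {n : ℕ} (F : MvPolynomial (Fin n) ℝ) (l : Fin n) (N : ℕ)
    (h : F.totalDegree ≤ N) : (pderiv l F).totalDegree ≤ N := by
  classical
  have key : pderiv l F = ∑ s ∈ F.support,
      monomial (s - Finsupp.single l 1) (F.coeff s * (s l : ℝ)) := by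
    conv_lhs => rw [F.as_sum]
    rw [map_sum]
    exact Finset.sum_congr rfl fun s _ => pderiv_monomial
  rw [key]
  refine totalDegree_finsetSum_le fun s hs => ?_
  refine (totalDegree_monomial_le _ _).trans ?_
  have h1 : (s.sum fun _ e => e) ≤ F.totalDegree := le_totalDegree hs
  refine le_trans ?_ (h1.trans h)
  rw [Finsupp.sum_fintype _ _ (fun _ => rfl), Finsupp.sum_fintype _ _ (fun _ => rfl)]
  refine Finset.sum_le_sum fun i _ => ?_
  rw [Finsupp.tsub_apply]
  exact Nat.sub_le _ _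

omit [DecidableEq κ] in
theorem ddir_zero (z : κ → ℝ) (A : MvPolynomial κ ℝ) : ddir z 0 A = 0 := by
  simp [ddir]

end

section
variable {N : ℕ}

/-- Evaluation of a polynomial at a point of Euclidean space. -/
noncomputable def pev (Q : MvPolynomial (Fin N) ℝ) (y : E N) : ℝ := eval (fun k => y k) Q

theorem pev_hasFDerivAt (Q : MvPolynomial (Fin N) ℝ) (y : E N) :
    HasFDerivAt (pev Q) ((Pool.Agent.Warren46.gradL Q (fun k => y k)).comp
      (EuclideanSpace.equiv (Fin N) ℝ : E N →L[ℝ] (Fin N → ℝ))) y := by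
  have h1 := Pool.Agent.Warren46.hasFDerivAt_eval Q (EuclideanSpace.equiv (Fin N) ℝ y)
  exact h1.comp y (EuclideanSpace.equiv (Fin N) ℝ : E N →L[ℝ] (Fin N → ℝ)).hasFDerivAt

theorem pev_fderiv (Q : MvPolynomial (Fin N) ℝ) (y u : E N) :
    fderiv ℝ (pev Q) y u = ddir (fun k => y k) (fun k => u k) Q := by
  rw [(pev_hasFDerivAt Q y).fderiv]
  simp only [ContinuousLinearMap.comp_apply, Pool.Agent.Warren46.gradL_apply]
  rfl

theorem pev_fderiv_sum (Q : MvPolynomial (Fin N) ℝ) (y u : E N) :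
    fderiv ℝ (pev Q) y u = ∑ l, pev (pderiv l Q) y * u l := by
  rw [pev_fderiv]
  rfl

theorem pev_fderiv2 (Q : MvPolynomial (Fin N) ℝ) (y u e : E N) :
    fderiv ℝ (fun x => fderiv ℝ (pev Q) x) y u e =
      ∑ l, ddir (fun k => y k) (fun k => u k) (pderiv l Q) * e l := by
  have h1 : (fun x => fderiv ℝ (pev Q) x) =
      fun x => ∑ l, pev (pderiv l Q) x • (EuclideanSpace.proj l : E N →L[ℝ] ℝ) := by
    funext x
    ext v
    rw [pev_fderiv_sum]
    simp
  have h2 : HasFDerivAt (fun x => ∑ l, pev (pderiv l Q) x • (EuclideanSpace.proj l : E N →L[ℝ] ℝ))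
      (∑ l, (fderiv ℝ (pev (pderiv l Q)) y).smulRight (EuclideanSpace.proj l : E N →L[ℝ] ℝ)) y := by
    refine HasFDerivAt.fun_sum fun l _ => ?_
    have h3 := (pev_hasFDerivAt (pderiv l Q) y).differentiableAt.hasFDerivAt
    exact h3.smul_const (EuclideanSpace.proj l : E N →L[ℝ] ℝ)
  rw [h1, h2.fderiv]
  simp [pev_fderiv]

theorem pev_rr : (rr : E N → ℝ) = pev (∑ l : Fin N, X l * X l) := by
  funext y
  have h : pev (∑ l : Fin N, X l * X l) y = ∑ l, y l * y l := by simp [pev]
  rw [h, rr, EuclideanSpace.norm_sq_eq]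
  exact Finset.sum_congr rfl fun l _ => by rw [Real.norm_eq_abs, sq_abs, sq]

theorem pderiv_rr (l : Fin N) :
    pderiv l (∑ l : Fin N, X l * X l : MvPolynomial (Fin N) ℝ) = C 2 * X l := by
  rw [map_sum, Finset.sum_eq_single l]
  · rw [pderiv_mul, pderiv_X_self, show (C 2 : MvPolynomial (Fin N) ℝ) = 1 + 1 by
      rw [← C_1, ← C_add]; norm_num]
    ring
  · intro b _ hb
    rw [pderiv_mul, pderiv_X_of_ne hb]
    ring
  · intro h
    exact absurd (Finset.mem_univ _) h

end

end UC
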