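import Mathlib

/-!
# UC (MP_5a1161_co): overlays of two minimization diagrams, basic definitions

`E N` is Euclidean space, `rr y = |y|^2` the sweeping function.  A family `φ : ι → E N → ℝ` of functions
on an open set `Ω` is coloured by `col : ι → Bool`; the two colour classes give two minimization diagrams.
-/

open Finset Metric

namespace UC

/-- Euclidean space of dimension N. -/
abbrev E (N : ℕ) := EuclideanSpace ℝ (Fin N)

/-- The sweeping function, the squared distance to the origin. -/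
noncomputable def rr {N : ℕ} (y : E N) : ℝ := ‖y‖ ^ 2

section
variable {N : ℕ} {ι : Type}

/-- Both colours occur in T. -/
def Both (col : ι → Bool) (T : Finset ι) : Prop := ∀ β : Bool, ∃ i ∈ T, col i = β

/-- The tie set of T: functions of T of the same colour are equal. -/
def Gam (Ω : Set (E N)) (φ : ι → E N → ℝ) (col : ι → Bool) (T : Finset ι) : Set (E N) :=
  {y | y ∈ Ω ∧ ∀ i ∈ T, ∀ j ∈ T, col i = col j → φ i y = φ j y}

/-- The coefficient vectors supported on T whose sum over each colour class is zero. -/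
def Coef (col : ι → Bool) (T : Finset ι) (c : ι → ℝ) : Prop :=
  (∀ i, i ∉ T → c i = 0) ∧ ∀ β : Bool, ∑ i ∈ T with col i = β, c i = 0

/-- c are the multipliers of rr at y on the tie set of T. -/
def IsMult (φ : ι → E N → ℝ) (col : ι → Bool) (T : Finset ι) (y : E N) (c : ι → ℝ) : Prop :=
  Coef col T c ∧ fderiv ℝ rr y = ∑ i ∈ T, c i • fderiv ℝ (φ i) y

/-- y is a critical point of rr on the tie set of T. -/
def IsCrit (Ω : Set (E N)) (φ : ι → E N → ℝ) (col : ι → Bool) (T : Finset ι) (y : E N) : Prop :=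
  y ∈ Gam Ω φ col T ∧ ∃ c, IsMult φ col T y c

/-- General position. -/
structure GP (Ω : Set (E N)) (φ : ι → E N → ℝ) (col : ι → Bool) (C0 : ℕ) : Prop where
  isOpen : IsOpen Ω
  ball : ∀ y ∈ Ω, closedBall (0 : E N) ‖y‖ ⊆ Ω
  smooth : ∀ i, ContDiffOn ℝ 1 (φ i) Ω
  reg : ∀ T, Both col T → ∀ y ∈ Gam Ω φ col T, ∀ c, Coef col T c →
    ∑ i ∈ T, c i • fderiv ℝ (φ i) y = 0 → ∀ i, c i = 0
  mult : ∀ T, Both col T → (T.card = N + 1 ∨ T.card = N + 2) → ∀ y ∈ Gam Ω φ col T, ∀ c,
    IsMult φ col T y c → ∀ i ∈ T, (∃ j ∈ T, j ≠ i ∧ col j = col i) → c i ≠ 0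
  fin : ∀ T, Both col T → N ≤ T.card → T.card ≤ N + 2 →
    {y | IsCrit Ω φ col T y}.Finite ∧ {y | IsCrit Ω φ col T y}.ncard ≤ C0

/-- (T,z) is an object: z is a local minimum of rr on the tie set of T. -/
def IsObj (Ω : Set (E N)) (φ : ι → E N → ℝ) (col : ι → Bool) (T : Finset ι) (z : E N) : Prop :=
  Both col T ∧ z ∈ Gam Ω φ col T ∧ IsLocalMinOn rr (Gam Ω φ col T) z

/-- h lies strictly below the tie value of its colour (T-functions) at z. -/
def Bel (φ : ι → E N → ℝ) (col : ι → Bool) (T : Finset ι) (h : ι) (z : E N) : Prop :=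
  ∃ i ∈ T, col i = col h ∧ φ h z < φ i z

/-- h lies strictly above the tie value of its colour at z. -/
def Abv (φ : ι → E N → ℝ) (col : ι → Bool) (T : Finset ι) (h : ι) (z : E N) : Prop :=
  ∃ i ∈ T, col i = col h ∧ φ i z < φ h z

/-- h is tied with the tie value of its colour at z. -/
def Tie (φ : ι → E N → ℝ) (col : ι → Bool) (T : Finset ι) (h : ι) (z : E N) : Prop :=
  ∃ i ∈ T, col i = col h ∧ φ h z = φ i z

end

section
variable {N : ℕ} {ι : Type} [DecidableEq ι]

/-- A node (h,w) of the stratum M = Gam T' for the colour of h, among the present functions S. -/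
structure IsNode (Ω : Set (E N)) (φ : ι → E N → ℝ) (col : ι → Bool) (S T' : Finset ι) (β : Bool)
    (h : ι) (w : E N) : Prop where
  mem : h ∈ S
  notMem : h ∉ T'
  colh : col h = β
  obj : IsObj Ω φ col (insert h T') w
  other : ∀ g ∈ S, g ∉ T' → col g ≠ β → Abv φ col T' g w

/-- The multiplier of h at w is positive: going down in rr from w in Gam T', h becomes hidden-making
(strictly below the tie). -/
def Down (φ : ι → E N → ℝ) (col : ι → Bool) (T' : Finset ι) (h : ι) (w : E N) : Prop :=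
  ∃ c, IsMult φ col (insert h T') w c ∧ 0 < c h

/-- The functions of colour β which lie below the tie in the region below the node (h,w). -/
def Neg (φ : ι → E N → ℝ) (col : ι → Bool) (S T' : Finset ι) (β : Bool) (h : ι) (w : E N) : Set ι :=
  {h' | h' ∈ S ∧ h' ∉ T' ∧ col h' = β ∧
    ((h' ≠ h ∧ Bel φ col T' h' w) ∨ (h' = h ∧ Down φ col T' h w))}

/-- The conclusion of the NEXT lemma: x is a lowest point of the region below the node (h,w). -/
structure IsNext (Ω : Set (E N)) (φ : ι → E N → ℝ) (col : ι → Bool) (S T' : Finset ι) (β : Bool)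
    (h : ι) (w : E N) (J : Finset ι) (x : E N) : Prop where
  mem : x ∈ Gam Ω φ col T'
  lt : rr x < rr w
  same1 : ∀ h' ∈ Neg φ col S T' β h w, ¬ Abv φ col T' h' x
  same2 : ∀ h' ∈ S, h' ∉ T' → col h' = β → h' ∉ Neg φ col S T' β h w → ¬ Bel φ col T' h' x
  other : ∀ g ∈ S, g ∉ T' → col g ≠ β → ¬ Bel φ col T' g x
  memJ : ∀ h', h' ∈ J ↔ h' ∈ S ∧ h' ∉ T' ∧ Tie φ col T' h' x
  card : T'.card + J.card ≤ N + 2
  obj : IsObj Ω φ col (T' ∪ J) x
  flip : ∀ h', J = {h'} → col h' = β →
    (Down φ col T' h' x ↔ h' ∉ Neg φ col S T' β h w)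

end

/-! ### The abstract counting systems -/

/-- A finite system of objects with supports, sets of functions below, and indices. -/
structure Sys (ι α : Type) where
  col : ι → Bool
  O : Finset α
  supp : α → Finset ι
  bel : α → Finset ι
  idx : α → ℕ

section
variable {ι α : Type} [DecidableEq ι] [DecidableEq α]

/-- Number of objects with support in S, p members of colour β and q of the other colour, at most t functions
of S of colour β below and none of the other colour, and index < j. -/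
def Sys.cnt (X : Sys ι α) (S : Finset ι) (β : Bool) (p q t j : ℕ) : ℕ :=
  (X.O.filter (fun o => X.supp o ⊆ S ∧ ((X.supp o).filter (fun i => X.col i = β)).card = p ∧
    ((X.supp o).filter (fun i => X.col i ≠ β)).card = q ∧
    ((X.bel o ∩ S).filter (fun i => X.col i = β)).card ≤ t ∧
    ((X.bel o ∩ S).filter (fun i => X.col i ≠ β)) = ∅ ∧ X.idx o < j)).card

/-- The inequalities which the objects of an overlay satisfy. -/
structure Sys.Good (X : Sys ι α) (N C0 : ℕ) (K : ℝ) : Prop where
  disj : ∀ o ∈ X.O, Disjoint (X.supp o) (X.bel o)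
  idx_lt : ∀ o ∈ X.O, X.idx o < C0
  fib : ∀ T : Finset ι, (X.O.filter (fun o => X.supp o = T)).card ≤ C0
  step : ∀ (S : Finset ι) (β : Bool) (p q t j : ℕ), 2 ≤ p → 1 ≤ q → 1 ≤ t →
    (p + q = N + 2 ∨ p + q = N + 1) →
    (X.cnt S β p q 0 (j + 1) : ℝ) ≤ X.cnt S β p q 0 j + K *
      ((X.cnt S β p q t C0 : ℝ) / t + X.cnt S β p q t j + X.cnt S β (p - 1) (q + 1) t C0
        + X.cnt S β (p - 1) q t C0
        + if p + q = N + 1 then ((X.cnt S β (p + 1) q t C0 : ℝ) + X.cnt S β p (q + 1) t C0
            + X.cnt S β (p - 1) (q + 2) t C0) else 0)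
  pure : ∀ (S : Finset ι) (β : Bool) (q j : ℕ) (f : ι), f ∈ S → X.col f = β →
    X.cnt S β 1 q 0 j ≤ X.cnt (insert f (S.filter (fun i => X.col i ≠ β))) β 1 q 0 j

end

end UC
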