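import Pool.Agent.UC.Next_Loc

open Finset Metric

namespace UC

variable {N : ℕ} {ι : Type} [DecidableEq ι] {Ω : Set (E N)} {φ : ι → E N → ℝ} {col : ι → Bool}
  {b : Bool → ι} {C0 : ℕ}

/-- MIN: the lowest point x of the closure of the component R of y0 in the closed ball of radius ρ is an object of
the tie set of T' ∪ J, J = the functions tied at x.

Proof.  y0 ∈ Free, so y0 ∈ R (mem_connectedComponentIn).  K = closure R ∩ closedBall 0 ρ is compact (closed in a compact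
ball, finite dimension), contains y0 (‖y0‖ ≤ ρ), and rr is continuous: a minimum x (IsCompact.exists_isMinOn).
x ∈ Ω by hρ.  x ∈ O by hOlow (rr x ≤ rr y0).  x ∈ Gam T' and weak signs: closure_comp.  J = S.filter (h ∉ T' and
tie_h x = 0).  x ∈ Gam (T' ∪ J) by mem_Gam_iff.  card (T' ∪ J) ≤ N+2: card_le_of_mem_Gam; T' and J are disjoint.
Local minimum: U of exists_loc; for z in U ∩ Gam (T' ∪ J), z ∈ closure R; if ‖z‖ ≤ ρ then rr x ≤ rr z by
minimality; otherwise rr z = ‖z‖^2 > ρ^2 ≥ ‖x‖^2 = rr x (0 ≤ ρ since ‖y0‖ ≤ ρ).  So IsObj (T' ∪ J) x. -/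
theorem exists_min (hG : GP Ω φ col C0) {S T' : Finset ι} (hb : IsBase col b T')
    {O : Set (E N)} (hO : IsOpen O) {y0 : E N} (hy0 : y0 ∈ Free Ω φ col b S T' O)
    (hOlow : ∀ z ∈ Ω, rr z ≤ rr y0 → z ∈ O) {ρ : ℝ} (hy0ρ : ‖y0‖ ≤ ρ)
    (hρ : closedBall (0 : E N) ρ ⊆ Ω) :
    ∃ (J : Finset ι) (x : E N), x ∈ closure (connectedComponentIn (Free Ω φ col b S T' O) y0) ∧
      x ∈ Ω ∧ x ∈ O ∧ rr x ≤ rr y0 ∧
      (∀ z ∈ closure (connectedComponentIn (Free Ω φ col b S T' O) y0), ‖z‖ ≤ ρ → rr x ≤ rr z) ∧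
      (∀ h, h ∈ J ↔ h ∈ S ∧ h ∉ T' ∧ tie φ col b h x = 0) ∧
      T'.card + J.card ≤ N + 2 ∧ IsObj Ω φ col (T' ∪ J) x := by
  classical
  set R := connectedComponentIn (Free Ω φ col b S T' O) y0 with hR
  have hK : IsCompact (closure R ∩ closedBall (0 : E N) ρ) :=
    (isCompact_closedBall 0 ρ).inter_left isClosed_closure
  have hy0K : y0 ∈ closure R ∩ closedBall (0 : E N) ρ :=
    ⟨subset_closure (mem_connectedComponentIn hy0), mem_closedBall_zero_iff.2 hy0ρ⟩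
  have hrc : Continuous (rr : E N → ℝ) := by
    unfold rr
    exact continuous_norm.pow 2
  rcases hK.exists_isMinOn ⟨y0, hy0K⟩ hrc.continuousOn with ⟨x, ⟨hxR, hxρ⟩, hmin⟩
  have hxρ' : ‖x‖ ≤ ρ := mem_closedBall_zero_iff.1 hxρ
  have hxΩ : x ∈ Ω := hρ hxρ
  have hxy0 : rr x ≤ rr y0 := hmin hy0K
  have hxO : x ∈ O := hOlow x hxΩ hxy0
  have hm : ∀ z ∈ closure R, ‖z‖ ≤ ρ → rr x ≤ rr z := fun z hz hzρ =>
    hmin ⟨hz, mem_closedBall_zero_iff.2 hzρ⟩
  set J : Finset ι := S.filter (fun h => h ∉ T' ∧ tie φ col b h x = 0) with hJdef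
  have hJ : ∀ h, h ∈ J ↔ h ∈ S ∧ h ∉ T' ∧ tie φ col b h x = 0 := fun h => by
    rw [hJdef, Finset.mem_filter]
  have hxG : x ∈ Gam Ω φ col T' := (closure_comp hG hb hxR hxΩ).1
  have hbU : IsBase col b (T' ∪ J) := hb.mono Finset.subset_union_left
  have hxGU : x ∈ Gam Ω φ col (T' ∪ J) := by
    rw [mem_Gam_iff hbU]
    refine ⟨hxΩ, fun i hi => ?_⟩
    rcases Finset.mem_union.1 hi with h1 | h1
    · exact ((mem_Gam_iff hb x).1 hxG).2 i h1
    · exact ((hJ i).1 h1).2.2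
  have hdis : Disjoint T' J := by
    rw [Finset.disjoint_left]
    exact fun i hi hi' => ((hJ i).1 hi').2.1 hi
  have hcard : T'.card + J.card ≤ N + 2 := by
    rw [← Finset.card_union_of_disjoint hdis]
    exact card_le_of_mem_Gam hG hbU.both hxGU
  rcases exists_loc hG hb hO hxR hxΩ hxO J hJ with ⟨U, hU, hxU, hU1, -⟩
  have hloc : IsLocalMinOn rr (Gam Ω φ col (T' ∪ J)) x := by
    have h1 : ∀ᶠ z in nhdsWithin x (Gam Ω φ col (T' ∪ J)), rr x ≤ rr z := by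
      filter_upwards [self_mem_nhdsWithin, mem_nhdsWithin_of_mem_nhds (hU.mem_nhds hxU)]
        with z hz1 hz2
      have hz3 := hU1 z hz2 hz1
      by_cases hzρ : ‖z‖ ≤ ρ
      · exact hm z hz3 hzρ
      · push Not at hzρ
        unfold rr
        exact pow_le_pow_left₀ (norm_nonneg _) (hxρ'.trans hzρ.le) 2
    exact h1
  exact ⟨J, x, hxR, hxΩ, hxO, hxy0, hm, hJ, hcard, hbU.both, hxGU, hloc⟩

end UC
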