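import Pool.Agent.UC.VDefs
import Pool.Agent.UC.Next_Min

open Finset Metric

namespace UC

/-- Vertices with both colours lie on visible overlay curves; below each there is a visible object
(text, section 7).

Proof.  b = base of T (exists_base).  S = univ, T' = T, O = univ, y0 = y, ρ = ‖y‖ in exists_min: y ∈ Free since for h ∉ T
Abv T h y means tie_h y > 0 (abv_iff).  closedBall 0 ‖y‖ ⊆ Ω by hG.ball.  We get J, x; J = {h ∉ T, tie_h x = 0} is disjoint
from T; T.card + J.card ≤ N + 2 gives J.card ≤ 1; IsObj (T ∪ J) x.  closure_comp: 0 ≤ tie_h y * tie_h x for h ∉ T, and tie_h y > 0,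
so tie_h x ≥ 0; for h ∈ T tie_h x = 0 (x ∈ Gam T, mem_Gam_iff).  So no h is below: bel_iff for the set T ∪ J
(b is a base of T ∪ J by IsBase.mono, x ∈ Gam (T ∪ J) from IsObj). -/
theorem sandwich_both {N : ℕ} {ι : Type} [Fintype ι] [DecidableEq ι] {Ω : Set (E N)}
    {φ : ι → E N → ℝ} {col : ι → Bool} {C0 : ℕ} (hG : GP Ω φ col C0) (T : Finset ι)
    (hT : Both col T) (hcard : T.card = N + 1) (y : E N) (hy : y ∈ Gam Ω φ col T)
    (hab : ∀ h, h ∉ T → Abv φ col T h y) :
    ∃ (J : Finset ι) (x : E N), Disjoint J T ∧ J.card ≤ 1 ∧ IsObj Ω φ col (T ∪ J) x ∧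
      ∀ h, ¬ Bel φ col (T ∪ J) h x := by
  classical
  obtain ⟨b, hb⟩ := exists_base hT
  have hpos : ∀ h, h ∉ T → 0 < tie φ col b h y := fun h hh => (abv_iff hb hy h).1 (hab h hh)
  have hfree : y ∈ Free Ω φ col b Finset.univ T Set.univ :=
    ⟨hy, Set.mem_univ _, fun h _ hh => (hpos h hh).ne'⟩
  obtain ⟨J, x, hx, hxΩ, -, -, -, hJ, hc, hobj⟩ := exists_min hG hb isOpen_univ hfree
    (fun z _ _ => Set.mem_univ z) (le_refl ‖y‖) (hG.ball y hy.1)
  refine ⟨J, x, ?_, by omega, hobj, fun h hbel => ?_⟩
  · rw [Finset.disjoint_left]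
    exact fun h hh => ((hJ h).1 hh).2.1
  · have hb' : IsBase col b (T ∪ J) := hb.mono Finset.subset_union_left
    rw [bel_iff hb' hobj.2.1] at hbel
    obtain ⟨hxG, hsign⟩ := closure_comp hG hb hx hxΩ
    by_cases hh : h ∈ T
    · have := ((mem_Gam_iff hb x).1 hxG).2 h hh
      linarith
    · have h1 := hsign h (Finset.mem_univ h) hh
      have h2 := hpos h hh
      nlinarith

private theorem sw29_finrank (N : ℕ) : Module.finrank ℝ (E N →L[ℝ] ℝ) = N := by
  have h1 : Module.finrank ℝ (E N →L[ℝ] ℝ) = Module.finrank ℝ (Module.Dual ℝ (E N)) :=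
    (LinearMap.toContinuousLinearMap : (E N →ₗ[ℝ] ℝ) ≃ₗ[ℝ] (E N →L[ℝ] ℝ)).finrank_eq.symm
  rw [h1, Subspace.dual_finrank_eq, finrank_euclideanSpace_fin]

/-- independent functionals, as many as the dimension, have no common zero -/
private theorem sw29_zero {N : ℕ} {κ : Type} [Fintype κ] (f' : κ → (E N →L[ℝ] ℝ))
    (hli : LinearIndependent ℝ f') (hc : N ≤ Fintype.card κ) (v : E N) (hv : ∀ i, f' i v = 0) :
    v = 0 := by
  have hcard : Fintype.card κ = Module.finrank ℝ (E N →L[ℝ] ℝ) := by
    refine le_antisymm hli.fintype_card_le_finrank ?_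
    rw [sw29_finrank]
    exact hc
  have hspan := hli.span_eq_top_of_card_eq_finrank' hcard
  let W : Submodule ℝ (E N →L[ℝ] ℝ) :=
    { carrier := {l | l v = 0}
      add_mem' := by
        intro a b ha hb
        show (a + b) v = 0
        rw [add_apply]
        rw [show a v = 0 from ha, show b v = 0 from hb, add_zero]
      zero_mem' := rfl
      smul_mem' := by
        intro c a ha
        show (c • a) v = 0
        rw [smul_apply]
        rw [show a v = 0 from ha, smul_zero] }
  have hW : Submodule.span ℝ (Set.range f') ≤ W := by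
    rw [Submodule.span_le]
    rintro _ ⟨i, rfl⟩
    exact hv i
  rw [hspan] at hW
  have h1 : innerSL ℝ v v = 0 := hW (Submodule.mem_top : innerSL ℝ v ∈ ⊤)
  rw [innerSL_apply_apply] at h1
  exact inner_self_eq_zero.1 h1

/-- points with `N` independent ties are isolated -/
private theorem sw29_isol {N : ℕ} {ι : Type} {Ω : Set (E N)}
    {φ : ι → E N → ℝ} {col : ι → Bool} {C0 : ℕ} (hG : GP Ω φ col C0) (U : Finset ι)
    (hU : Both col U) (hcard : N + 2 ≤ U.card) (y : E N) (hy : y ∈ Gam Ω φ col U) :
    ∀ᶠ z in nhdsWithin y {y}ᶜ, z ∉ Gam Ω φ col U := by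
  classical
  obtain ⟨b, hb⟩ := exists_base hU
  have hN : N ≤ (nb col b U).card := by
    have h1 : U ⊆ nb col b U ∪ {b true, b false} := by
      intro i hi
      rw [Finset.mem_union, mem_nb, Finset.mem_insert, Finset.mem_singleton]
      by_cases h : i = b (col i)
      · right
        rcases hcol : col i with _ | _
        · right
          rw [hcol] at h
          exact h
        · left
          rw [hcol] at h
          exact h
      · exact Or.inl ⟨hi, h⟩
    have h2 := (Finset.card_le_card h1).trans (Finset.card_union_le _ _)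
    have h3 : ({b true, b false} : Finset ι).card ≤ 2 := Finset.card_le_two
    omega
  have hli := tie_linearIndependent hG hb hy
  let Φ : E N → (↥(nb col b U) → ℝ) := fun z i => tie φ col b i z
  let Φ' : E N →L[ℝ] (↥(nb col b U) → ℝ) :=
    ContinuousLinearMap.pi fun i : ↥(nb col b U) => fderiv ℝ (tie φ col b i) y
  have hΦ : HasFDerivAt Φ Φ' y :=
    hasFDerivAt_pi.2 fun i => (tie_hasStrict hG (i : ι) hy.1).hasFDerivAt
  have hker : LinearMap.ker (Φ' : E N →ₗ[ℝ] (↥(nb col b U) → ℝ)) = ⊥ := by
    rw [LinearMap.ker_eq_bot']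
    intro v hv
    refine sw29_zero _ hli ?_ v fun i => ?_
    · rw [Fintype.card_coe]
      exact hN
    · exact congrFun hv i
  obtain ⟨K, -, hK⟩ := LinearMap.exists_antilipschitzWith _ hker
  have h1 := hΦ.eventually_ne (c := 0) ⟨K, hK⟩
  filter_upwards [h1] with z hz hzG
  apply hz
  funext i
  exact ((mem_Gam_iff hb z).1 hzG).2 i (mem_nb.1 i.2).1

/-- Vertices with one colour are visible overlay vertices after adding the lowest function of the other
colour.

Proof.  T has N + 1 ≥ 1 elements of colour β.  Let g minimize φ g y among the (nonempty by hcol, finite) set of functions of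
the other colour.  U = insert g T: both colours, card N + 2, y ∈ Gam U (the colour class of g in U is {g}).
Local minimum: y is an isolated point of Gam U.  b = base of U; nb col b U has N elements; the derivatives of the
ties tie_i, i ∈ nb, at y are linearly independent (tie_linearIndependent) in the N dimensional dual, so they
span it, and the derivative Φ' of Φ = (tie_i)_{i ∈ nb} : E N → (nb → ℝ) is injective, even antilipschitz (finite dimension:
LinearMap.exists_antilipschitzWith or bounded below on the unit sphere).  HasFDerivAt.eventually_ne: near y, z ≠ y,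
Φ z ≠ Φ y = 0, so z ∉ Gam U.  Hence eventually in nhdsWithin y (Gam U): z = y, rr y ≤ rr z.
(Alternative: if Gam U ∩ V contained points z with rr z < rr y arbitrarily near y ... not needed.)
Not below: colour β, h ∈ T: the ties give φ h y = φ i y for all i ∈ T; h ∉ T: hab; colour ≠ β: φ g y ≤ φ h y by
minimality (the only element of U of this colour is g).  If col g = col h and i ∈ U has col i = col h ≠ β then i = g. -/
theorem sandwich_mono {N : ℕ} {ι : Type} [Fintype ι] [DecidableEq ι] {Ω : Set (E N)}
    {φ : ι → E N → ℝ} {col : ι → Bool} {C0 : ℕ} (hG : GP Ω φ col C0) (hcol : Both col Finset.univ)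
    (T : Finset ι) (β : Bool) (hT : ∀ i ∈ T, col i = β) (hcard : T.card = N + 1) (y : E N)
    (hy : y ∈ Ω) (htie : ∀ i ∈ T, ∀ j ∈ T, φ i y = φ j y)
    (hab : ∀ h, h ∉ T → col h = β → ∀ i ∈ T, φ i y < φ h y) :
    ∃ g, col g ≠ β ∧ IsObj Ω φ col (insert g T) y ∧ ∀ h, ¬ Bel φ col (insert g T) h y := by
  classical
  have hTne : T.Nonempty := Finset.card_pos.1 (by omega)
  obtain ⟨g, hgm, hgmin⟩ := Finset.exists_min_image (Finset.univ.filter fun i => col i ≠ β)
    (fun i => φ i y) (by
      obtain ⟨i, -, hi⟩ := hcol (!β)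
      refine ⟨i, Finset.mem_filter.2 ⟨Finset.mem_univ _, ?_⟩⟩
      rw [hi]
      exact Bool.not_ne_self β)
  have hg : col g ≠ β := (Finset.mem_filter.1 hgm).2
  have hgT : g ∉ T := fun h => hg (hT g h)
  have hboth : Both col (insert g T) := by
    intro γ
    by_cases h : γ = β
    · obtain ⟨i, hi⟩ := hTne
      exact ⟨i, Finset.mem_insert_of_mem hi, by rw [hT i hi, h]⟩
    · refine ⟨g, Finset.mem_insert_self _ _, ?_⟩
      cases hγ : γ <;> cases hβ : β <;> cases hcg : col g <;> simp_all
  have hGam : y ∈ Gam Ω φ col (insert g T) := by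
    refine ⟨hy, fun i hi j hj hij => ?_⟩
    rcases Finset.mem_insert.1 hi with hi1 | hi1
    · rcases Finset.mem_insert.1 hj with hj1 | hj1
      · rw [hi1, hj1]
      · rw [hi1] at hij
        exact absurd (hij.trans (hT j hj1)) hg
    · rcases Finset.mem_insert.1 hj with hj1 | hj1
      · rw [hj1] at hij
        exact absurd (hij.symm.trans (hT i hi1)) hg
      · exact htie i hi1 j hj1
  have hcardU : N + 2 ≤ (insert g T).card := by
    rw [Finset.card_insert_of_notMem hgT]
    omega
  have hiso := sw29_isol hG _ hboth hcardU y hGam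
  refine ⟨g, hg, ⟨hboth, hGam, ?_⟩, ?_⟩
  · rw [eventually_nhdsWithin_iff] at hiso
    show ∀ᶠ z in nhdsWithin y (Gam Ω φ col (insert g T)), rr y ≤ rr z
    rw [eventually_nhdsWithin_iff]
    filter_upwards [hiso] with z hz hzG
    by_cases h : z = y
    · rw [h]
    · exact absurd hzG (hz h)
  · rintro h ⟨i, hi, hih, hlt⟩
    rcases Finset.mem_insert.1 hi with rfl | hi
    · have h1 := hgmin h (Finset.mem_filter.2 ⟨Finset.mem_univ _, by rw [← hih]; exact hg⟩)
      exact absurd hlt (not_lt.2 h1)
    · by_cases hh : h ∈ T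
      · exact absurd hlt (not_lt.2 (htie i hi h hh).le)
      · have h1 := hab h hh (by rw [← hih]; exact hT i hi) i hi
        exact absurd hlt (not_lt.2 h1.le)

end UC
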