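import Pool.Agent.UC.VisCount
import Pool.Agent.UC.Sandwich

open Finset Metric

namespace UC

/-- A vertex lies above a visible object. -/
theorem GPBound_obj {N C0 : ℕ} {ι : Type} [Fintype ι] [DecidableEq ι] {Ω : Set (E N)}
    {φ : ι → E N → ℝ} {col : ι → Bool} (hG : GP Ω φ col C0) (hcol : Both col Finset.univ)
    {T : Finset ι} {y : E N} {t : ℝ} (hv : IsV Ω φ col T y t) : ∃ o : Finset ι × E N,
      (IsObj Ω φ col o.1 o.2 ∧ (o.1.card = N + 1 ∨ o.1.card = N + 2) ∧
        ∀ h, ¬ Bel φ col o.1 h o.2) ∧ T ⊆ o.1 ∧ o.1.card ≤ T.card + 1 := by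
  by_cases hT : Both col T
  · have hy : y ∈ Gam Ω φ col T :=
      ⟨hv.mem, fun i hi j hj hij => by rw [hv.on i hi, hv.on j hj, hij]⟩
    have hab : ∀ h, h ∉ T → Abv φ col T h y := by
      intro h hh
      obtain ⟨i, hi, hci⟩ := hT (col h)
      refine ⟨i, hi, hci, ?_⟩
      rw [hv.on i hi, hci]
      exact hv.off h hh
    obtain ⟨J, x, hJ, hJc, hobj, hbel⟩ := sandwich_both hG T hT hv.card y hy hab
    have hc : (T ∪ J).card = T.card + J.card := card_union_of_disjoint hJ.symm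
    have hc' := hv.card
    refine ⟨(T ∪ J, x), ⟨hobj, ?_, hbel⟩, subset_union_left, ?_⟩
    · change (T ∪ J).card = N + 1 ∨ (T ∪ J).card = N + 2
      omega
    · change (T ∪ J).card ≤ T.card + 1
      omega
  · unfold Both at hT
    push Not at hT
    obtain ⟨β', hβ'⟩ := hT
    have hβ : ∀ i ∈ T, col i = !β' := fun i hi => Bool.eq_not.2 (hβ' i hi)
    obtain ⟨g, hg, hobj, hbel⟩ := sandwich_mono hG hcol T (!β') hβ hv.card y hv.mem
      (fun i hi j hj => by rw [hv.on i hi, hv.on j hj, hβ i hi, hβ j hj])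
      (fun h hh hc i hi => by
        rw [hv.on i hi, hβ i hi, ← hc]
        exact hv.off h hh)
    have hgT : g ∉ T := fun h => hg (hβ g h)
    have hc : (insert g T).card = T.card + 1 := card_insert_of_notMem hgT
    have hc' := hv.card
    refine ⟨(insert g T, y), ⟨hobj, ?_, hbel⟩, subset_insert g T, ?_⟩
    · change (insert g T).card = N + 1 ∨ (insert g T).card = N + 2
      omega
    · change (insert g T).card ≤ T.card + 1
      omega

/-- A subset with at most one element less. -/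
theorem GPBound_sub {ι : Type} [DecidableEq ι] {T o : Finset ι} (h : T ⊆ o)
    (hc : o.card ≤ T.card + 1) : T ∈ insert o (o.image fun g => o.erase g) := by
  by_cases he : T = o
  · rw [he]
    exact mem_insert_self _ _
  · apply mem_insert_of_mem
    obtain ⟨g, hg, hgT⟩ := exists_of_ssubset (h.ssubset_of_ne he)
    rw [mem_image]
    refine ⟨g, hg, ?_⟩
    symm
    refine eq_of_subset_of_card_le (fun x hx => mem_erase.2 ⟨?_, h hx⟩) ?_
    · rintro rfl
      exact hgT hx
    · rw [card_erase_of_mem hg]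
      omega

/-- Number of vertices of the sandwich region of a family in general position. -/
theorem gp_vertex_bound (N C0 C1 : ℕ) (ρ : ℝ) (hρ : 0 < ρ) : ∃ C : ℝ, 0 ≤ C ∧
    ∀ (ι : Type) [Fintype ι] [DecidableEq ι] (Ω : Set (E N)) (φ : ι → E N → ℝ) (col : ι → Bool),
      GP Ω φ col C0 → Both col Finset.univ →
      (∀ T : Finset ι, {v : E N × ℝ | IsV Ω φ col T v.1 v.2}.Finite ∧
        {v : E N × ℝ | IsV Ω φ col T v.1 v.2}.ncard ≤ C1) →
      ∀ V : Finset (E N × ℝ), (∀ v ∈ V, ∃ T, IsV Ω φ col T v.1 v.2) →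
      (V.card : ℝ) ≤ C * (Fintype.card ι : ℝ) ^ ((N : ℝ) + ρ) := by
  obtain ⟨C', hC', hvis⟩ := vis_count N C0 ρ hρ
  refine ⟨C1 * ((N + 3) * C'), by positivity, ?_⟩
  intro ι _ _ Ω φ col hG hcol hfin V hV
  classical
  have hT : ∀ v : E N × ℝ, ∃ T : Finset ι, v ∈ V → IsV Ω φ col T v.1 v.2 := by
    intro v
    by_cases hv : v ∈ V
    · obtain ⟨T, hT⟩ := hV v hv
      exact ⟨T, fun _ => hT⟩
    · exact ⟨∅, fun h => absurd h hv⟩
  choose T hT using hT
  have e1 : V.card ≤ C1 * (V.image T).card := by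
    refine card_le_mul_card_image V C1 fun T0 _ => ?_
    have h1 : ((V.filter fun v => T v = T0 : Finset (E N × ℝ)) : Set (E N × ℝ)) ⊆
        {v : E N × ℝ | IsV Ω φ col T0 v.1 v.2} := by
      intro v hv
      have hv' := mem_filter.1 (mem_coe.1 hv)
      have h2 := hT v hv'.1
      rw [hv'.2] at h2
      exact h2
    have h2 := Set.ncard_le_ncard h1 (hfin T0).1
    rw [Set.ncard_coe_finset] at h2
    exact h2.trans (hfin T0).2
  have hO : ∀ T0 : Finset ι, ∃ o : Finset ι × E N, T0 ∈ V.image T →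
      (IsObj Ω φ col o.1 o.2 ∧ (o.1.card = N + 1 ∨ o.1.card = N + 2) ∧
        ∀ h, ¬ Bel φ col o.1 h o.2) ∧ T0 ⊆ o.1 ∧ o.1.card ≤ T0.card + 1 := by
    intro T0
    by_cases h0 : T0 ∈ V.image T
    · obtain ⟨v, hv, rfl⟩ := mem_image.1 h0
      obtain ⟨o, ho⟩ := GPBound_obj hG hcol (hT v hv)
      exact ⟨o, fun _ => ho⟩
    · exact ⟨(∅, 0), fun h => absurd h h0⟩
  choose o ho using hO
  have e2 : (V.image T).card ≤ (N + 3) * ((V.image T).image o).card := by
    refine card_le_mul_card_image (V.image T) (N + 3) fun w hw => ?_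
    obtain ⟨T1, hT1, hw1⟩ := mem_image.1 hw
    have hwc : w.1.card ≤ N + 2 := by
      have := (ho T1 hT1).1.2.1
      rw [hw1] at this
      omega
    have h1 : ((V.image T).filter fun T0 => o T0 = w) ⊆
        insert w.1 (w.1.image fun g => w.1.erase g) := by
      intro T0 hT0
      obtain ⟨h2, h3⟩ := mem_filter.1 hT0
      have h4 := (ho T0 h2).2
      rw [h3] at h4
      exact GPBound_sub h4.1 h4.2
    have h2 := card_le_card h1
    have h3 := card_insert_le w.1 (w.1.image fun g => w.1.erase g)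
    have h4 := card_image_le (s := w.1) (f := fun g => w.1.erase g)
    omega
  have e3 : ((((V.image T).image o).card : ℕ) : ℝ) ≤
      C' * (Fintype.card ι : ℝ) ^ ((N : ℝ) + ρ) := by
    refine hvis ι Ω φ col hG _ fun w hw => ?_
    obtain ⟨T1, hT1, rfl⟩ := mem_image.1 hw
    exact (ho T1 hT1).1
  have e4 : (V.card : ℝ) ≤ (C1 : ℝ) * (((N : ℝ) + 3) * (((V.image T).image o).card : ℝ)) := by
    have h1 : V.card ≤ C1 * ((N + 3) * ((V.image T).image o).card) :=
      e1.trans (Nat.mul_le_mul_left C1 e2)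
    exact_mod_cast h1
  refine e4.trans ?_
  have h5 : ((N : ℝ) + 3) * (((V.image T).image o).card : ℝ) ≤
      ((N : ℝ) + 3) * (C' * (Fintype.card ι : ℝ) ^ ((N : ℝ) + ρ)) :=
    mul_le_mul_of_nonneg_left e3 (by positivity)
  have h6 := mul_le_mul_of_nonneg_left h5 (Nat.cast_nonneg C1 : (0 : ℝ) ≤ (C1 : ℝ))
  refine h6.trans (le_of_eq ?_)
  ring

end UC
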