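import Pool.Agent.UC.Defs

/-!
# UC: affine perturbations and nondegenerate critical points
-/

open Finset Metric

namespace UC

variable {N : ℕ} {ι : Type}

/-- Affine perturbation of a family. -/
noncomputable def pert (φ : ι → E N → ℝ) (a : ι → ℝ) (b : ι → E N) : ι → E N → ℝ :=
  fun i y => φ i y + a i + inner ℝ (b i) y

/-- y is a nondegenerate critical point of rr on the tie set of T: the derivative of the Lagrange system is
injective (the tie values have been eliminated). -/
def IsND (φ : ι → E N → ℝ) (col : ι → Bool) (T : Finset ι) (y : E N) : Prop :=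
  ∃ c, IsMult φ col T y c ∧ ∀ (u : E N) (g : ι → ℝ), Coef col T g →
    (∀ i ∈ T, ∀ j ∈ T, col i = col j → fderiv ℝ (φ i) y u = fderiv ℝ (φ j) y u) →
    (fderiv ℝ (fun x => fderiv ℝ (rr (N := N)) x) y u
      - ∑ i ∈ T, c i • fderiv ℝ (fun x => fderiv ℝ (φ i) x) y u
      - ∑ i ∈ T, g i • fderiv ℝ (φ i) y = 0) → u = 0 ∧ g = 0

end UC
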