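import Pool.Agent.UC.Gen_Defs

/-!
# UC P2, module Av: averages over the colour classes and zero-sum parts

If both colours occur in `T` then the colour classes are nonempty, so the denominators are not zero.
-/

open Finset Metric

namespace UC

variable {ι : Type}

theorem av_lin (col : ι → Bool) (T : Finset ι) (β : Bool) (a b : ι → ℝ) (t : ℝ) :
    av col T β (fun i => a i + t * b i) = av col T β a + t * av col T β b := by
  simp only [av, sum_add_distrib, ← mul_sum, add_div, mul_div_assoc]

/-- If `a i = s (col i) + c i` on `T` with `c` of zero sums on the colour classes, then the averages of `a` are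
the values of `s`. -/
theorem av_eq (col : ι → Bool) (T : Finset ι) (hT : Both col T) (a c : ι → ℝ) (s : Bool → ℝ)
    (hc : Coef col T c) (ha : ∀ i ∈ T, a i = s (col i) + c i) (β : Bool) : av col T β a = s β := by
  have hcard : ((T.filter (fun i => col i = β)).card : ℝ) ≠ 0 := by
    obtain ⟨i, hi, hi2⟩ := hT β
    exact_mod_cast Finset.card_ne_zero_of_mem (mem_filter.2 ⟨hi, hi2⟩)
  have h1 : ∑ i ∈ T with col i = β, a i = ∑ i ∈ T with col i = β, (s β + c i) := by
    refine sum_congr rfl fun i hi => ?_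
    rw [mem_filter] at hi
    rw [ha i hi.1, hi.2]
  rw [av, h1, sum_add_distrib, hc.2 β, sum_const, nsmul_eq_mul, add_zero, mul_div_assoc,
    mul_div_cancel₀ _ hcard]

variable [DecidableEq ι]

theorem cf_coef (col : ι → Bool) (T : Finset ι) (hT : Both col T) (a : ι → ℝ) :
    Coef col T (cf col T a) := by
  refine ⟨fun i hi => by simp [cf, hi], fun β => ?_⟩
  have hcard : ((T.filter (fun i => col i = β)).card : ℝ) ≠ 0 := by
    obtain ⟨i, hi, hi2⟩ := hT β
    exact_mod_cast Finset.card_ne_zero_of_mem (mem_filter.2 ⟨hi, hi2⟩)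
  have h1 : ∑ i ∈ T with col i = β, cf col T a i =
      ∑ i ∈ T with col i = β, (a i - av col T β a) := by
    refine sum_congr rfl fun i hi => ?_
    rw [mem_filter] at hi
    simp [cf, hi.1, hi.2]
  rw [h1, sum_sub_distrib, sum_const, nsmul_eq_mul, av, mul_div_cancel₀ _ hcard, sub_self]

theorem cf_eq (col : ι → Bool) (T : Finset ι) (hT : Both col T) (a c : ι → ℝ) (s : Bool → ℝ)
    (hc : Coef col T c) (ha : ∀ i ∈ T, a i = s (col i) + c i) : cf col T a = c := by
  funext i
  by_cases hi : i ∈ T
  · simp only [cf, if_pos hi]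
    rw [av_eq col T hT a c s hc ha, ha i hi, add_sub_cancel_left]
  · simp only [cf, if_neg hi]
    exact (hc.1 i hi).symm

/-- The zero-sum part as a linear function of `a`. -/
theorem cf_linear (col : ι → Bool) (T : Finset ι) (i : ι) :
    ∃ L : (ι → ℝ) →ₗ[ℝ] ℝ, ∀ a, L a = cf col T a i := by
  by_cases hi : i ∈ T
  · refine ⟨LinearMap.proj i - ((T.filter (fun j => col j = col i)).card : ℝ)⁻¹ •
      ∑ j ∈ T.filter (fun j => col j = col i), LinearMap.proj j, fun a => ?_⟩
    simp only [cf, if_pos hi, av, LinearMap.sub_apply, LinearMap.smul_apply, LinearMap.sum_apply,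
      LinearMap.proj_apply, smul_eq_mul]
    rw [div_eq_inv_mul]
  · exact ⟨0, fun a => by simp [cf, hi]⟩

/-- If `i2 ∈ T` has a partner `j2` of the same colour, then the functional `cf · i2` is not zero. -/
theorem cf_ne (col : ι → Bool) (T : Finset ι) (hT : Both col T) (i2 j2 : ι) (hi : i2 ∈ T) (hj : j2 ∈ T)
    (hij : j2 ≠ i2) (hc : col j2 = col i2) : ∃ a : ι → ℝ, cf col T a i2 ≠ 0 := by
  refine ⟨fun i => if i = i2 then 1 else 0, ?_⟩
  have h2 : ({i2, j2} : Finset ι) ⊆ T.filter (fun i => col i = col i2) := by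
    intro i hi'
    rw [mem_insert, mem_singleton] at hi'
    rw [mem_filter]
    rcases hi' with rfl | rfl
    · exact ⟨hi, rfl⟩
    · exact ⟨hj, hc⟩
  have h3 : 2 ≤ (T.filter (fun i => col i = col i2)).card := by
    rw [← card_pair hij.symm]
    exact card_le_card h2
  have h4 : (2 : ℝ) ≤ ((T.filter (fun i => col i = col i2)).card : ℝ) := by exact_mod_cast h3
  have h5 : (∑ i ∈ T with col i = col i2, (if i = i2 then (1 : ℝ) else 0)) = 1 := by
    rw [sum_ite_eq' _ i2 (fun _ => (1 : ℝ))]
    have h : i2 ∈ T.filter (fun i => col i = col i2) := mem_filter.2 ⟨hi, rfl⟩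
    exact if_pos h
  simp only [cf, if_pos hi, av, h5, if_true]
  have h6 : (1 : ℝ) / ((T.filter (fun i => col i = col i2)).card : ℝ) ≤ 1 / 2 :=
    one_div_le_one_div_of_le (by norm_num) h4
  intro h7
  linarith

/-- A coefficient vector which does not vanish at `i1` needs a partner of `i1`. -/
theorem coef_partner (col : ι → Bool) (T : Finset ι) (c : ι → ℝ) (hc : Coef col T c) (i1 : ι)
    (h1 : c i1 ≠ 0) : i1 ∈ T ∧ ∃ j ∈ T, j ≠ i1 ∧ col j = col i1 := by
  have hT1 : i1 ∈ T := by
    by_contra h
    exact h1 (hc.1 i1 h)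
  refine ⟨hT1, ?_⟩
  by_contra hno
  push Not at hno
  have h := sum_eq_single_of_mem (s := T.filter (fun i => col i = col i1)) (f := c) i1
    (mem_filter.2 ⟨hT1, rfl⟩) fun j hj hne => by
      rw [mem_filter] at hj
      exact absurd hj.2 (hno j hj.1 hne)
  rw [hc.2 (col i1)] at h
  exact h1 h.symm

end UC
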