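import Pool.Agent.UC.GenDefs

/-!
# UC, part P2: the parametrization of the bad perturbations

The space of affine perturbations is `PP N ι = (ι → ℝ) × (ι → dual of E N)`.  Fix a set `T` of indices and
`i1 ∈ T`.  If `y` is a point of the tie set of `T` with common values `s β` and multipliers `c` (zero sum on
each colour class of `T`) with `c i1 ≠ 0`, then the perturbation is determined by `y`, `s`, `c`, the forms
of index `≠ i1` and the constants of index outside `T`.  These data are encoded in a point `x` of `PP N ι`
itself: `y = ψ (x.2 i1)`, `x.1 i = s (col i) + c i` for `i ∈ T` (so `s` is the average `av`, and `c` is the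
zero-sum part `cf`).  The map `par` is this parametrization.
-/

open Finset Metric MeasureTheory

namespace UC

/-- The dual of `E N`. -/
abbrev DE (N : ℕ) := E N →L[ℝ] ℝ

/-- The space of affine perturbations: constants and linear forms. -/
abbrev PP (N : ℕ) (ι : Type) := (ι → ℝ) × (ι → DE N)

/-- Null sets of a finite dimensional space. -/
def Nul {V : Type*} [NormedAddCommGroup V] [NormedSpace ℝ V] [FiniteDimensional ℝ V]
    (B : Set V) : Prop :=
  letI : MeasurableSpace V := borel V
  haveI : BorelSpace V := ⟨rfl⟩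
  (Measure.addHaar : Measure V) B = 0

section
variable {N : ℕ} {ι : Type}

/-- The family perturbed by the affine functions `p.1 i + p.2 i`. -/
def pd (φ : ι → E N → ℝ) (p : PP N ι) : ι → E N → ℝ := fun i y => φ i y + p.1 i + p.2 i y

/-- The average of `a` over the colour class `β` of `T`. -/
noncomputable def av (col : ι → Bool) (T : Finset ι) (β : Bool) (a : ι → ℝ) : ℝ :=
  (∑ i ∈ T with col i = β, a i) / ((T.filter (fun i => col i = β)).card : ℝ)

variable [DecidableEq ι]

/-- The zero-sum part of `a` on `T`. -/
noncomputable def cf (col : ι → Bool) (T : Finset ι) (a : ι → ℝ) : ι → ℝ :=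
  fun i => if i ∈ T then a i - av col T (col i) a else 0

/-- The linear form of index `i1`, solved from the multiplier equation. -/
noncomputable def bs (φ : ι → E N → ℝ) (col : ι → Bool) (T : Finset ι) (ρ : E N → ℝ)
    (ψ : DE N ≃L[ℝ] E N) (i1 : ι) (x : PP N ι) : DE N :=
  (cf col T x.1 i1)⁻¹ • (fderiv ℝ ρ (ψ (x.2 i1))
    - ∑ i ∈ T, cf col T x.1 i • fderiv ℝ (φ i) (ψ (x.2 i1))
    - ∑ i ∈ T.erase i1, cf col T x.1 i • x.2 i)

/-- The linear forms of the parametrized perturbation. -/
noncomputable def bb (φ : ι → E N → ℝ) (col : ι → Bool) (T : Finset ι) (ρ : E N → ℝ)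
    (ψ : DE N ≃L[ℝ] E N) (i1 : ι) (x : PP N ι) : ι → DE N :=
  fun i => if i = i1 then bs φ col T ρ ψ i1 x else x.2 i

/-- The parametrization of the perturbations with a critical point of `ρ` on the tie set of `T`. -/
noncomputable def par (φ : ι → E N → ℝ) (col : ι → Bool) (T : Finset ι) (ρ : E N → ℝ)
    (ψ : DE N ≃L[ℝ] E N) (i1 : ι) (x : PP N ι) : PP N ι :=
  (fun i => if i ∈ T then av col T (col i) x.1 - φ i (ψ (x.2 i1))
      - bb φ col T ρ ψ i1 x i (ψ (x.2 i1)) else x.1 i,
   bb φ col T ρ ψ i1 x)

end

end UC
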