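import Pool.Agent.UC.Gen_Defs

/-!
# UC P2, module ParId: the identities of the parametrization

All are immediate from the definitions (`par`, `bb`, `bs`); `par_mult` uses `smul_smul`,
`mul_inv_cancel₀ hc` and `Finset.sum_erase_eq_sub` / `Finset.add_sum_erase`.
-/

open Finset Metric

namespace UC

variable {N : ℕ} {ι : Type} [DecidableEq ι]

/-- The multiplier equation. -/
theorem par_mult (φ : ι → E N → ℝ) (col : ι → Bool) (T : Finset ι) (ρ : E N → ℝ)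
    (ψ : DE N ≃L[ℝ] E N) (i1 : ι) (hi1 : i1 ∈ T) (x : PP N ι) (hc : cf col T x.1 i1 ≠ 0) :
    ∑ i ∈ T, cf col T x.1 i • (par φ col T ρ ψ i1 x).2 i
      = fderiv ℝ ρ (ψ (x.2 i1)) - ∑ i ∈ T, cf col T x.1 i • fderiv ℝ (φ i) (ψ (x.2 i1)) := by
  have h1 : (par φ col T ρ ψ i1 x).2 = bb φ col T ρ ψ i1 x := rfl
  rw [h1, ← Finset.add_sum_erase T _ hi1]
  have h2 : ∑ i ∈ T.erase i1, cf col T x.1 i • bb φ col T ρ ψ i1 x i =
      ∑ i ∈ T.erase i1, cf col T x.1 i • x.2 i := by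
    refine Finset.sum_congr rfl fun i hi => ?_
    rw [bb, if_neg (Finset.ne_of_mem_erase hi)]
  have h3 : bb φ col T ρ ψ i1 x i1 = bs φ col T ρ ψ i1 x := if_pos rfl
  rw [h2, h3, bs, smul_smul, mul_inv_cancel₀ hc, one_smul, sub_add_cancel]

/-- The tie equation. -/
theorem par_tie (φ : ι → E N → ℝ) (col : ι → Bool) (T : Finset ι) (ρ : E N → ℝ)
    (ψ : DE N ≃L[ℝ] E N) (i1 : ι) (x : PP N ι) (i : ι) (hi : i ∈ T) :
    (par φ col T ρ ψ i1 x).1 i = av col T (col i) x.1 - φ i (ψ (x.2 i1))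
      - (par φ col T ρ ψ i1 x).2 i (ψ (x.2 i1)) := by
  show (if i ∈ T then _ else _) = _
  rw [if_pos hi]
  rfl

theorem par_fst (φ : ι → E N → ℝ) (col : ι → Bool) (T : Finset ι) (ρ : E N → ℝ)
    (ψ : DE N ≃L[ℝ] E N) (i1 : ι) (x : PP N ι) (i : ι) (hi : i ∉ T) :
    (par φ col T ρ ψ i1 x).1 i = x.1 i := by
  show (if i ∈ T then _ else _) = _
  rw [if_neg hi]

theorem par_snd (φ : ι → E N → ℝ) (col : ι → Bool) (T : Finset ι) (ρ : E N → ℝ)
    (ψ : DE N ≃L[ℝ] E N) (i1 : ι) (x : PP N ι) (i : ι) (hi : i ≠ i1) :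
    (par φ col T ρ ψ i1 x).2 i = x.2 i := by
  show (if i = i1 then _ else _) = _
  rw [if_neg hi]

end UC
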