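import Pool.Agent.UC.Gen_Av
import Pool.Agent.UC.Gen_ParId
import Pool.Agent.UC.Gen_ParDiff

/-!
# UC P2, module Kill: tangent vectors annihilated by the parametrization

Write `F = par φ col T ρ ψ i1`, `y = ψ (x.2 i1)`, `c = cf col T x.1`, `p = F x`, and `ξ` the vector of the statement.
`F` is differentiable at `x` (`par_differentiableAt`).  Let `(δa, δb) = fderiv ℝ F x ξ`; it is the
derivative at `t = 0` of `t ↦ F (x + t • ξ)`.  Along this line the point is `y + t • u`, the averages are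
`av + t * σ` and the zero-sum part is `c + t • g` (`av_lin`, `av_eq`, `cf_eq`: both are linear in `x.1`).
(i) For `i ≠ i1`: `(F x').2 i = x'.2 i` for all `x'` (`par_snd`), so `δb i = ξ.2 i = 0`.
(ii) For `t` near 0 (where `c i1 + t * g i1 ≠ 0`) the identity `par_mult` holds; differentiate it at `t = 0`:
`∑_{i ∈ T} (g i • p.2 i + c i • δb i) = ρ''(y) u - ∑_{i ∈ T} (g i • fderiv (φ i) y + c i • φ i''(y) u)`;
with (i) and the hypothesis `hm`: `c i1 • δb i1 = 0`, so `δb i1 = 0`.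
(iii) For `i ∉ T`: `δa i = ξ.1 i = 0` (`par_fst`).  For `i ∈ T` differentiate `par_tie`:
`δa i = σ (col i) - fderiv (φ i) y u - δb i y - p.2 i u = 0` by `hσ`.
(Instead of the line one can differentiate the identities as functions of `x'` near `x` and apply the
derivatives to `ξ`.)
-/

open Finset Metric

namespace UC

variable {N : ℕ} {ι : Type} [Fintype ι] [DecidableEq ι]

theorem par_kill (Ω : Set (E N)) (hΩ : IsOpen Ω) (φ : ι → E N → ℝ)
    (hφ : ∀ i, ContDiffOn ℝ 2 (φ i) Ω) (col : ι → Bool) (T : Finset ι) (hT : Both col T)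
    (ρ : E N → ℝ) (hρ : ContDiffOn ℝ 2 ρ Ω) (ψ : DE N ≃L[ℝ] E N) (i1 : ι) (hi1 : i1 ∈ T)
    (x : PP N ι) (hy : ψ (x.2 i1) ∈ Ω) (hc : cf col T x.1 i1 ≠ 0)
    (u : E N) (g : ι → ℝ) (hg : Coef col T g) (σ : Bool → ℝ)
    (hσ : ∀ i ∈ T, (fderiv ℝ (φ i) (ψ (x.2 i1)) + (par φ col T ρ ψ i1 x).2 i) u = σ (col i))
    (hm : fderiv ℝ (fun z => fderiv ℝ ρ z) (ψ (x.2 i1)) u
      = ∑ i ∈ T, cf col T x.1 i • fderiv ℝ (fun z => fderiv ℝ (φ i) z) (ψ (x.2 i1)) u
        + ∑ i ∈ T, g i • (fderiv ℝ (φ i) (ψ (x.2 i1)) + (par φ col T ρ ψ i1 x).2 i)) :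
    fderiv ℝ (par φ col T ρ ψ i1) x
      ((fun i => if i ∈ T then σ (col i) + g i else 0), fun i => if i = i1 then ψ.symm u else 0)
      = 0 := by
  set y : E N := ψ (x.2 i1) with hydef
  set ξ : PP N ι := ((fun i => if i ∈ T then σ (col i) + g i else 0),
    fun i => if i = i1 then ψ.symm u else 0) with hξ
  set D : PP N ι := fderiv ℝ (par φ col T ρ ψ i1) x ξ with hD
  have hF := (par_differentiableAt Ω hΩ φ hφ col T ρ hρ ψ i1 x hy hc).hasFDerivAt
  -- the line
  have hℓ0 : x + (0 : ℝ) • ξ = x := by rw [zero_smul, add_zero]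
  have hℓ : HasDerivAt (fun t : ℝ => x + t • ξ) ξ 0 := by
    have h1 := ((hasDerivAt_id (0 : ℝ)).smul_const ξ).const_add x
    rw [one_smul] at h1
    exact h1
  have hγ : HasDerivAt (fun t : ℝ => par φ col T ρ ψ i1 (x + t • ξ)) D 0 := by
    have h1 : HasFDerivAt (par φ col T ρ ψ i1) (fderiv ℝ (par φ col T ρ ψ i1) x)
        (x + (0 : ℝ) • ξ) := by
      rw [hℓ0]
      exact hF
    exact h1.comp_hasDerivAt 0 hℓ
  have hγ1 : ∀ i, HasDerivAt (fun t : ℝ => (par φ col T ρ ψ i1 (x + t • ξ)).1 i) (D.1 i) 0 := by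
    have h0 : HasFDerivAt (Prod.fst : PP N ι → (ι → ℝ)) (ContinuousLinearMap.fst ℝ _ _)
        (par φ col T ρ ψ i1 (x + (0 : ℝ) • ξ)) := hasFDerivAt_fst
    have h1 : HasDerivAt ((Prod.fst : PP N ι → (ι → ℝ)) ∘ fun t : ℝ =>
        par φ col T ρ ψ i1 (x + t • ξ)) D.1 0 := h0.comp_hasDerivAt 0 hγ
    exact hasDerivAt_pi.1 h1
  have hγ2 : ∀ i, HasDerivAt (fun t : ℝ => (par φ col T ρ ψ i1 (x + t • ξ)).2 i) (D.2 i) 0 := by
    have h0 : HasFDerivAt (Prod.snd : PP N ι → (ι → DE N)) (ContinuousLinearMap.snd ℝ _ _)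
        (par φ col T ρ ψ i1 (x + (0 : ℝ) • ξ)) := hasFDerivAt_snd
    have h1 : HasDerivAt ((Prod.snd : PP N ι → (ι → DE N)) ∘ fun t : ℝ =>
        par φ col T ρ ψ i1 (x + t • ξ)) D.2 0 := h0.comp_hasDerivAt 0 hγ
    exact hasDerivAt_pi.1 h1
  -- the point, the averages and the zero-sum part along the line
  have hyt : ∀ t : ℝ, ψ ((x + t • ξ).2 i1) = y + t • u := by
    intro t
    have h1 : (x + t • ξ).2 i1 = x.2 i1 + t • ψ.symm u := by
      change x.2 i1 + t • (if i1 = i1 then ψ.symm u else 0) = _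
      rw [if_pos rfl]
    rw [h1, map_add, map_smul, ψ.apply_symm_apply]
  have hξT : ∀ i ∈ T, ξ.1 i = σ (col i) + g i := fun i hi => if_pos hi
  have havξ : ∀ β, av col T β ξ.1 = σ β := av_eq col T hT ξ.1 g σ hg hξT
  have hcfξ : cf col T ξ.1 = g := cf_eq col T hT ξ.1 g σ hg hξT
  have hav : ∀ (β : Bool) (t : ℝ), av col T β (x + t • ξ).1 = av col T β x.1 + t * σ β := by
    intro β t
    have h1 := av_lin col T β x.1 ξ.1 t
    rw [havξ] at h1
    exact h1
  have hcf : ∀ (i : ι) (t : ℝ), cf col T (x + t • ξ).1 i = cf col T x.1 i + t * g i := by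
    intro i t
    rcases cf_linear col T i with ⟨L, hL⟩
    have h1 : (x + t • ξ).1 = x.1 + t • ξ.1 := rfl
    rw [← hL, h1, map_add, map_smul, hL, hL, hcfξ, smul_eq_mul]
  have hcfd : ∀ i, HasDerivAt (fun t : ℝ => cf col T (x + t • ξ).1 i) (g i) 0 := by
    intro i
    have h1 : (fun t : ℝ => cf col T (x + t • ξ).1 i) = fun t => cf col T x.1 i + t * g i :=
      funext fun t => hcf i t
    rw [h1]
    have h2 := ((hasDerivAt_id (0 : ℝ)).mul_const (g i)).const_add (cf col T x.1 i)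
    rw [one_mul] at h2
    exact h2
  have hyd : HasDerivAt (fun t : ℝ => y + t • u) u 0 := by
    have h1 := ((hasDerivAt_id (0 : ℝ)).smul_const u).const_add y
    rw [one_smul] at h1
    exact h1
  have hy0 : y + (0 : ℝ) • u = y := by rw [zero_smul, add_zero]
  have hcomp : ∀ {V : Type} [NormedAddCommGroup V] [NormedSpace ℝ V] (f : E N → V),
      DifferentiableAt ℝ f y → HasDerivAt (fun t : ℝ => f (y + t • u)) (fderiv ℝ f y u) 0 := by
    intro V _ _ f hf
    have h1 : HasFDerivAt f (fderiv ℝ f y) (y + (0 : ℝ) • u) := by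
      rw [hy0]
      exact hf.hasFDerivAt
    exact h1.comp_hasDerivAt 0 hyd
  have hφ'' : ∀ i, HasDerivAt (fun t : ℝ => fderiv ℝ (φ i) (y + t • u))
      (fderiv ℝ (fun z => fderiv ℝ (φ i) z) y u) 0 := fun i =>
    hcomp _ (fderiv_differentiableAt Ω hΩ (φ i) (hφ i) y hy)
  have hρ'' : HasDerivAt (fun t : ℝ => fderiv ℝ ρ (y + t • u))
      (fderiv ℝ (fun z => fderiv ℝ ρ z) y u) 0 :=
    hcomp _ (fderiv_differentiableAt Ω hΩ ρ hρ y hy)
  have hφ' : ∀ i, HasDerivAt (fun t : ℝ => φ i (y + t • u)) (fderiv ℝ (φ i) y u) 0 := fun i =>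
    hcomp _ (((hφ i).differentiableOn (by norm_num)).differentiableAt (hΩ.mem_nhds hy))
  -- (i)
  have hb : ∀ i, i ≠ i1 → D.2 i = 0 := by
    intro i hi
    have h1 : (fun t : ℝ => (par φ col T ρ ψ i1 (x + t • ξ)).2 i) = fun _ => x.2 i := by
      funext t
      rw [par_snd φ col T ρ ψ i1 _ i hi]
      change x.2 i + t • (if i = i1 then ψ.symm u else 0) = _
      rw [if_neg hi, smul_zero, add_zero]
    have h2 := hγ2 i
    rw [h1] at h2
    exact h2.unique (hasDerivAt_const _ _)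
  -- (ii)
  have hb1 : D.2 i1 = 0 := by
    have hne : ∀ᶠ t : ℝ in nhds 0, cf col T (x + t • ξ).1 i1 ≠ 0 := by
      have h1 := (hcfd i1).continuousAt
      refine h1.eventually_ne ?_
      rw [hℓ0]
      exact hc
    have hL : HasDerivAt (fun t : ℝ => ∑ i ∈ T, cf col T (x + t • ξ).1 i •
        (par φ col T ρ ψ i1 (x + t • ξ)).2 i)
        (∑ i ∈ T, (cf col T x.1 i • D.2 i + g i • (par φ col T ρ ψ i1 x).2 i)) 0 := by
      refine HasDerivAt.fun_sum fun i _ => ?_
      have h1 := (hcfd i).smul (hγ2 i)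
      rw [hℓ0] at h1
      exact h1
    have hR : HasDerivAt (fun t : ℝ => fderiv ℝ ρ (y + t • u) - ∑ i ∈ T,
        cf col T (x + t • ξ).1 i • fderiv ℝ (φ i) (y + t • u))
        (fderiv ℝ (fun z => fderiv ℝ ρ z) y u - ∑ i ∈ T,
          (cf col T x.1 i • fderiv ℝ (fun z => fderiv ℝ (φ i) z) y u +
            g i • fderiv ℝ (φ i) y)) 0 := by
      refine hρ''.sub (HasDerivAt.fun_sum fun i _ => ?_)
      have h1 := (hcfd i).smul (hφ'' i)
      rw [hℓ0, hy0] at h1
      exact h1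
    have heq : (fun t : ℝ => ∑ i ∈ T, cf col T (x + t • ξ).1 i •
        (par φ col T ρ ψ i1 (x + t • ξ)).2 i) =ᶠ[nhds 0] fun t : ℝ =>
        fderiv ℝ ρ (y + t • u) - ∑ i ∈ T,
        cf col T (x + t • ξ).1 i • fderiv ℝ (φ i) (y + t • u) := by
      filter_upwards [hne] with t ht
      have h1 := par_mult φ col T ρ ψ i1 hi1 (x + t • ξ) ht
      rw [hyt] at h1
      exact h1
    have h1 := hL.unique (hR.congr_of_eventuallyEq heq)
    rw [hm, Finset.sum_add_distrib, Finset.sum_add_distrib] at h1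
    have h2 : ∑ i ∈ T, g i • (fderiv ℝ (φ i) y + (par φ col T ρ ψ i1 x).2 i) =
        ∑ i ∈ T, g i • fderiv ℝ (φ i) y + ∑ i ∈ T, g i • (par φ col T ρ ψ i1 x).2 i := by
      rw [← Finset.sum_add_distrib]
      exact Finset.sum_congr rfl fun i _ => smul_add _ _ _
    rw [h2] at h1
    have h3 : ∑ i ∈ T, cf col T x.1 i • D.2 i = 0 := by
      have h4 : ∑ i ∈ T, cf col T x.1 i • D.2 i + ∑ i ∈ T, g i • (par φ col T ρ ψ i1 x).2 i =
          0 + ∑ i ∈ T, g i • (par φ col T ρ ψ i1 x).2 i := by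
        rw [h1]
        abel
      exact add_right_cancel h4
    rw [Finset.sum_eq_single_of_mem i1 hi1 fun i _ hi => by rw [hb i hi, smul_zero]] at h3
    exact (smul_eq_zero.1 h3).resolve_left hc
  have hball : ∀ i, D.2 i = 0 := by
    intro i
    by_cases hi : i = i1
    · rw [hi]
      exact hb1
    · exact hb i hi
  -- (iii)
  have haall : ∀ i, D.1 i = 0 := by
    intro i
    by_cases hi : i ∈ T
    · have h1 : (fun t : ℝ => (par φ col T ρ ψ i1 (x + t • ξ)).1 i) = fun t =>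
          av col T (col i) x.1 + t * σ (col i) - φ i (y + t • u) -
            (par φ col T ρ ψ i1 (x + t • ξ)).2 i (y + t • u) := by
        funext t
        rw [par_tie φ col T ρ ψ i1 _ i hi, hav, hyt]
      have h2 : HasDerivAt (fun t : ℝ => av col T (col i) x.1 + t * σ (col i)) (σ (col i)) 0 := by
        have h3 := ((hasDerivAt_id (0 : ℝ)).mul_const (σ (col i))).const_add
          (av col T (col i) x.1)
        rw [one_mul] at h3
        exact h3
      have h3 := (h2.sub (hφ' i)).sub ((hγ2 i).clm_apply hyd)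
      have h4 := hγ1 i
      rw [h1] at h4
      have h5 := h4.unique h3
      rw [hball, hℓ0] at h5
      have h6 := hσ i hi
      rw [_root_.add_apply] at h6
      rw [h5, _root_.zero_apply]
      linarith
    · have h1 : (fun t : ℝ => (par φ col T ρ ψ i1 (x + t • ξ)).1 i) = fun _ => x.1 i := by
        funext t
        rw [par_fst φ col T ρ ψ i1 _ i hi]
        change x.1 i + t • (if i ∈ T then σ (col i) + g i else 0) = _
        rw [if_neg hi, smul_zero, add_zero]
      have h2 := hγ1 i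
      rw [h1] at h2
      exact h2.unique (hasDerivAt_const _ _)
  exact Prod.ext (funext haall) (funext hball)

end UC
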