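import Pool.Agent.UC.Gen_Av
import Pool.Agent.UC.Gen_ParId

/-!
# UC P2, module Onto: every bad perturbation is in the image of the parametrization

Let `s β` be the common value of `pd φ p i y` for `i ∈ T` of colour `β` (choose any `i ∈ T` of colour `β`, by
`hT`).  Put `x.1 i = s (col i) + c i` for `i ∈ T`, `x.1 i = p.1 i` for `i ∉ T`, `x.2 i = p.2 i` for `i ≠ i1`,
`x.2 i1 = ψ.symm y`.  By `av_eq`, `cf_eq` the averages are `s` and the zero-sum part is `c`.  The second
components of `par x` and `p` agree for `i ≠ i1` by `par_snd`; for `i1` compare `par_mult` with `hm`: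
`c i1 • (par x).2 i1 = c i1 • p.2 i1` (cancel the other terms of the sum), and `c i1 ≠ 0`.  The first
components agree by `par_tie` (resp. `par_fst`).
-/

open Finset Metric

namespace UC

variable {N : ℕ} {ι : Type} [DecidableEq ι]

theorem par_onto (φ : ι → E N → ℝ) (col : ι → Bool) (T : Finset ι) (hT : Both col T) (ρ : E N → ℝ)
    (ψ : DE N ≃L[ℝ] E N) (i1 : ι) (hi1 : i1 ∈ T) (p : PP N ι) (y : E N) (c : ι → ℝ)
    (hc : Coef col T c) (hc1 : c i1 ≠ 0)
    (htie : ∀ i ∈ T, ∀ j ∈ T, col i = col j → pd φ p i y = pd φ p j y)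
    (hm : fderiv ℝ ρ y = ∑ i ∈ T, c i • (fderiv ℝ (φ i) y + p.2 i)) :
    ∃ x : PP N ι, par φ col T ρ ψ i1 x = p ∧ ψ (x.2 i1) = y ∧ cf col T x.1 = c := by
  classical
  choose r hr hrc using hT
  have hT' : Both col T := fun β => ⟨r β, hr β, hrc β⟩
  set s : Bool → ℝ := fun β => pd φ p (r β) y with hs
  have hsi : ∀ i ∈ T, s (col i) = pd φ p i y := fun i hi =>
    htie _ (hr _) i hi (hrc _)
  set x : PP N ι := (fun i => if i ∈ T then s (col i) + c i else p.1 i,
    fun i => if i = i1 then ψ.symm y else p.2 i) with hx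
  have hψ : ψ (x.2 i1) = y := by
    have h1 : x.2 i1 = ψ.symm y := if_pos rfl
    rw [h1]
    exact ψ.apply_symm_apply y
  have ha : ∀ i ∈ T, x.1 i = s (col i) + c i := fun i hi => if_pos hi
  have hav : ∀ β, av col T β x.1 = s β := av_eq col T hT' x.1 c s hc ha
  have hcf : cf col T x.1 = c := cf_eq col T hT' x.1 c s hc ha
  have h2 : ∀ i, i ≠ i1 → (par φ col T ρ ψ i1 x).2 i = p.2 i := by
    intro i hi
    rw [par_snd φ col T ρ ψ i1 x i hi]
    exact if_neg hi
  have h3 : (par φ col T ρ ψ i1 x).2 i1 = p.2 i1 := by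
    have h4 := par_mult φ col T ρ ψ i1 hi1 x (by rw [hcf]; exact hc1)
    rw [hψ, hcf, hm, ← Finset.sum_sub_distrib] at h4
    have h5 : ∑ i ∈ T, (c i • (fderiv ℝ (φ i) y + p.2 i) - c i • fderiv ℝ (φ i) y) =
        ∑ i ∈ T, c i • p.2 i := by
      refine Finset.sum_congr rfl fun i _ => ?_
      rw [smul_add, add_sub_cancel_left]
    rw [h5, ← Finset.add_sum_erase T _ hi1,
      ← Finset.add_sum_erase T (fun i => c i • p.2 i) hi1] at h4
    have h6 : ∑ i ∈ T.erase i1, c i • (par φ col T ρ ψ i1 x).2 i =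
        ∑ i ∈ T.erase i1, c i • p.2 i :=
      Finset.sum_congr rfl fun i hi => by rw [h2 i (Finset.ne_of_mem_erase hi)]
    rw [h6] at h4
    have h7 := add_right_cancel h4
    exact smul_right_injective _ hc1 h7
  have h4 : ∀ i, (par φ col T ρ ψ i1 x).2 i = p.2 i := by
    intro i
    by_cases hi : i = i1
    · rw [hi]
      exact h3
    · exact h2 i hi
  refine ⟨x, Prod.ext (funext fun i => ?_) (funext h4), hψ, hcf⟩
  by_cases hi : i ∈ T
  · rw [par_tie φ col T ρ ψ i1 x i hi, hav, hψ, h4, hsi i hi]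
    unfold pd
    ring
  · rw [par_fst φ col T ρ ψ i1 x i hi]
    exact if_neg hi

end UC
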