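import Pool.Agent.UC.Gen_Onto
import Pool.Agent.UC.Gen_ParDiff
import Pool.Agent.UC.Gen_Null
import Pool.Agent.UC.Gen_Pd

/-!
# UC P2, module Reg: the set of perturbations violating (reg) is null

Let `ψ : DE N ≃L[ℝ] E N` be any continuous linear equivalence (the dimensions agree:
`ContinuousLinearEquiv.ofFinrankEq`, or from `InnerProductSpace.toDual`).  The derivative of the
`i`-th function of the
perturbed family is `fderiv (φ i) y + p.2 i` (`pd_fderiv`, `φ i` is differentiable on the open set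
Ω).
Let `p` be in the set, with `y`, `c`, and `c i1 ≠ 0`; by `coef_partner`, `i1 ∈ T` has a partner in
`T`.
Replace `c` by `c / c i1`, so that `c i1 = 1`.  By `par_onto` with `ρ = fun _ => 0`
(`fderiv ℝ ρ y = 0`) there is `x`
with `par φ col T ρ ψ i1 x = p`, `ψ (x.2 i1) = y ∈ Ω`, `cf col T x.1 i1 = 1`.  So the set is
contained in the union
over the `i1 ∈ T` with a partner in `T` of the images under `par φ col T ρ ψ i1` of
`{x | ψ (x.2 i1) ∈ Ω ∧ cf col T x.1 i1 = 1}`; these images are null by `nul_hyper`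
(`par_differentiableAt`;
the functional is `cf_linear` composed with `Prod.fst`, nonzero by `cf_ne`).  `Nul.mono`,
`Nul.iUnion` (ι is finite).
-/

open Finset Metric

namespace UC

variable {N : ℕ} {ι : Type} [Fintype ι] [DecidableEq ι]

theorem reg_null (Ω : Set (E N)) (hΩ : IsOpen Ω) (φ : ι → E N → ℝ)
    (hφ : ∀ i, ContDiffOn ℝ 2 (φ i) Ω) (col : ι → Bool) (T : Finset ι) (hT : Both col T) :
    Nul {p : PP N ι | ∃ y ∈ Gam Ω (pd φ p) col T, ∃ c, Coef col T c ∧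
      ∑ i ∈ T, c i • fderiv ℝ (pd φ p i) y = 0 ∧ ∃ i, c i ≠ 0} := by
  classical
  have hfr : Module.finrank ℝ (DE N) = Module.finrank ℝ (E N) :=
    (LinearMap.toContinuousLinearMap (𝕜 := ℝ) (E := E N) (F' := ℝ)).symm.finrank_eq.trans
      Subspace.dual_finrank_eq
  let ψ : DE N ≃L[ℝ] E N := ContinuousLinearEquiv.ofFinrankEq hfr
  let A : ι → Set (PP N ι) := fun i1 => {x | ψ (x.2 i1) ∈ Ω ∧ cf col T x.1 i1 = 1 ∧
    (i1 ∈ T ∧ ∃ j ∈ T, j ≠ i1 ∧ col j = col i1)}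
  have hnul : ∀ i1, Nul (par φ col T (fun _ => (0 : ℝ)) ψ i1 '' A i1) := by
    intro i1
    by_cases hp : i1 ∈ T ∧ ∃ j ∈ T, j ≠ i1 ∧ col j = col i1
    · obtain ⟨h1, j, hj, hji, hcj⟩ := hp
      obtain ⟨a, ha⟩ := cf_ne col T hT i1 j h1 hj hji hcj
      obtain ⟨L, hL⟩ := cf_linear col T i1
      refine nul_hyper _ _ ?_ (L ∘ₗ LinearMap.fst ℝ (ι → ℝ) (ι → DE N)) ((a, 0) : PP N ι)
        ?_ 1 ?_
      · intro x hx
        refine par_differentiableAt Ω hΩ φ hφ col T (fun _ => (0 : ℝ)) contDiffOn_const ψ i1 x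
          hx.1 ?_
        rw [hx.2.1]
        exact one_ne_zero
      · rw [LinearMap.comp_apply, LinearMap.fst_apply, hL]
        exact ha
      · intro x hx
        rw [LinearMap.comp_apply, LinearMap.fst_apply, hL]
        exact hx.2.1
    · refine Nul.mono Nul.empty ?_
      rintro _ ⟨x, hx, _⟩
      exact absurd hx.2.2 hp
  refine Nul.mono (Nul.iUnion (κ := ι) _ hnul) ?_
  rintro p ⟨y, hy, c, hc, hsum, i1, hi1⟩
  have hc' : Coef col T (fun i => (c i1)⁻¹ * c i) := by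
    refine ⟨fun i hi => ?_, fun β => ?_⟩
    · show (c i1)⁻¹ * c i = 0
      rw [hc.1 i hi, mul_zero]
    · rw [← Finset.mul_sum, hc.2 β, mul_zero]
  have h1 : (c i1)⁻¹ * c i1 = 1 := inv_mul_cancel₀ hi1
  have hpart := coef_partner col T c hc i1 hi1
  have hm : fderiv ℝ (fun _ : E N => (0 : ℝ)) y
      = ∑ i ∈ T, ((c i1)⁻¹ * c i) • (fderiv ℝ (φ i) y + p.2 i) := by
    have h2 : ∀ i ∈ T, ((c i1)⁻¹ * c i) • (fderiv ℝ (φ i) y + p.2 i)
        = (c i1)⁻¹ • (c i • fderiv ℝ (pd φ p i) y) := by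
      intro i _
      rw [pd_fderiv φ p i y (((hφ i).contDiffAt (hΩ.mem_nhds hy.1)).differentiableAt
        two_ne_zero), smul_smul]
    rw [Finset.sum_congr rfl h2, ← Finset.smul_sum, hsum, smul_zero, fderiv_fun_const]
    rfl
  obtain ⟨x, hx1, hx2, hx3⟩ := par_onto φ col T hT (fun _ => (0 : ℝ)) ψ i1 hpart.1 p y _ hc'
    (by rw [h1]; exact one_ne_zero) hy.2 hm
  refine Set.mem_iUnion.2 ⟨i1, x, ⟨?_, ?_, hpart⟩, hx1⟩
  · rw [hx2]
    exact hy.1
  · rw [hx3]
    exact h1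

end UC
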