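import Pool.Agent.UC.Next_Germ
import Pool.Agent.UC.Next_Min

open Finset Metric

namespace UC

/-- NEXT lemma (text, section 3).  Below every node (h,w) of the stratum Gam T' there is a next point x:
the lowest point of the connected component of {y in Gam T' : rr y < rr w, no function of S outside T'
tied} adjacent to w.

Proof.  b = base of T' (exists_base).  y0 from exists_germ; O = {y | rr y < rr w}, open (rr is continuous);
y0 ∈ Free.  rr y0 < rr w gives ‖y0‖ < ‖w‖; w ∈ Ω, so closedBall 0 ‖w‖ ⊆ Ω (hG.ball).  exists_min with ρ = ‖w‖ (hOlow: rr z ≤ rr y0 <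
rr w) gives J, x.  closure_comp for x: x ∈ Gam T', weak signs 0 ≤ tie_h y0 * tie_h x for h in S \ T'.
IsNext: mem, lt (rr x ≤ rr y0 < rr w).
same1: h' ∈ Neg: tie_h' y0 < 0 (germ), so tie_h' x ≤ 0, so ¬ Abv (abv_iff).
same2: h' ∉ Neg: ¬ tie_h' y0 < 0 and tie ≠ 0 (y0 ∈ Free), so > 0, so tie_h' x ≥ 0, ¬ Bel (bel_iff).
other: tie_g y0 > 0, so tie_g x ≥ 0, ¬ Bel.
memJ: tie_iff.  card, obj: exists_min.
flip: J = {h'}, col h' = β.  h' ∈ S, h' ∉ T', tie_h' x = 0.  T' ∪ {h'} = insert h' T'.  x ∈ Gam (insert h' T').  U from exists_loc.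
CLAIM: if c are multipliers of insert h' T' at x then c h' * tie_h' y0 is not negative: otherwise exists_dir_tie with
σ = tie_h' y0 gives z in U ∩ ball..., z ∈ Gam T', rr z < rr x, 0 < tie_h' y0 * tie_h' z, so z ∈ R (exists_loc (ii)), z ∈ closure R, and
‖z‖ ≤ ‖w‖ as rr z < rr x < rr w: contradiction with rr x ≤ rr z.  Also c h' ≠ 0 (mult_ne_zero) and tie_h' y0 ≠ 0: so
0 < c h' * tie_h' y0.  (→) Down gives c with c h' > 0, so tie_h' y0 > 0, so h' ∉ Neg (germ).  (←) h' ∉ Neg: tie_h' y0 > 0; take c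
from exists_mult (obj), c h' > 0 by the claim. -/
theorem exists_next {N : ℕ} {ι : Type} [DecidableEq ι] {Ω : Set (E N)} {φ : ι → E N → ℝ}
    {col : ι → Bool} {C0 : ℕ} (hG : GP Ω φ col C0) (S T' : Finset ι) (hT : Both col T') (hTS : T' ⊆ S)
    (hcard : T'.card = N ∨ T'.card = N + 1) (β : Bool) (h : ι) (w : E N)
    (hn : IsNode Ω φ col S T' β h w) :
    ∃ (J : Finset ι) (x : E N), IsNext Ω φ col S T' β h w J x := by
  obtain ⟨b, hb⟩ := exists_base hT
  obtain ⟨y0, hy0, hsame, hother⟩ := exists_germ hG hb hcard hn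
  have hO : IsOpen {y : E N | rr y < rr w} := by
    have hc : Continuous (rr : E N → ℝ) := by
      unfold rr
      fun_prop
    exact isOpen_lt hc continuous_const
  have hlt : rr y0 < rr w := hy0.2.1
  have hwG : w ∈ Gam Ω φ col (insert h T') := hn.obj.2.1
  have hsq : ∀ z : E N, rr z < rr w → ‖z‖ ≤ ‖w‖ := by
    intro z hz
    unfold rr at hz
    exact (lt_of_pow_lt_pow_left₀ 2 (norm_nonneg w) hz).le
  obtain ⟨J, x, hxcl, hxΩ, hxO, hxle, hmin, hJ, hJc, hobj⟩ := exists_min hG hb hO hy0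
    (fun z _ hz => lt_of_le_of_lt hz hlt) (hsq y0 hlt) (hG.ball w hwG.1)
  obtain ⟨hxG, hsg⟩ := closure_comp hG hb hxcl hxΩ
  have hxlt : rr x < rr w := lt_of_le_of_lt hxle hlt
  have hne : ∀ h' ∈ S, h' ∉ T' → tie φ col b h' y0 ≠ 0 := hy0.2.2
  have hpos : ∀ h' ∈ S, h' ∉ T' → col h' = β → h' ∉ Neg φ col S T' β h w →
      0 < tie φ col b h' y0 := by
    intro h' h1 h2 h3 h4
    rcases lt_or_gt_of_ne (hne h' h1 h2) with h5 | h5
    · exact absurd ((hsame h' h1 h2 h3).1 h5) h4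
    · exact h5
  refine ⟨J, x, hxG, hxlt, ?_, ?_, ?_, ?_, hJc, hobj, ?_⟩
  · rintro h' h1 h2
    have h3 := (hsame h' h1.1 h1.2.1 h1.2.2.1).2 h1
    have h4 := (abv_iff hb hxG h').1 h2
    have h5 := hsg h' h1.1 h1.2.1
    exact absurd h5 (not_le.2 (mul_neg_of_neg_of_pos h3 h4))
  · intro h' h1 h2 h3 h4 h5
    have h6 := hpos h' h1 h2 h3 h4
    have h7 := (bel_iff hb hxG h').1 h5
    exact absurd (hsg h' h1 h2) (not_le.2 (mul_neg_of_pos_of_neg h6 h7))
  · intro g h1 h2 h3 h4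
    have h5 := hother g h1 h2 h3
    have h6 := (bel_iff hb hxG g).1 h4
    exact absurd (hsg g h1 h2) (not_le.2 (mul_neg_of_pos_of_neg h5 h6))
  · intro h'
    rw [hJ, tie_iff hb hxG]
  · intro h' hJ' hcol
    have hh' : h' ∈ S ∧ h' ∉ T' ∧ tie φ col b h' x = 0 := (hJ h').1 (by rw [hJ']; simp)
    have hun : T' ∪ J = insert h' T' := by
      rw [hJ', Finset.union_comm, ← Finset.insert_eq]
    have hobj' : IsObj Ω φ col (insert h' T') x := by
      rw [← hun]
      exact hobj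
    obtain ⟨U, hUo, hxU, -, hU2⟩ := exists_loc hG hb hO hxcl hxΩ hxO J hJ
    have claim : ∀ c, IsMult φ col (insert h' T') x c → 0 < c h' * tie φ col b h' y0 := by
      intro c hc
      have h1 := mult_ne_zero hG hT hcard hh'.2.1 hobj'.2.1 hc
      have h2 := hne h' hh'.1 hh'.2.1
      by_contra h3
      have h4 : c h' * tie φ col b h' y0 < 0 :=
        lt_of_le_of_ne (not_lt.1 h3) (mul_ne_zero h1 h2)
      obtain ⟨z, hzU, hzG, hzlt, hzt⟩ := exists_dir_tie hG hb hh'.2.1 hobj'.2.1 hc h4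
        (hUo.mem_nhds hxU)
      have h5 := hU2 z hzU hzG (fun g hg => by
        rw [hJ', Finset.mem_singleton] at hg
        rw [hg]
        exact hzt)
      have h6 := hmin z (subset_closure h5) (hsq z (hzlt.trans hxlt))
      exact absurd hzlt (not_lt.2 h6)
    constructor
    · rintro ⟨c, hc, hcp⟩ hneg
      have h1 := claim c hc
      have h2 := (hsame h' hh'.1 hh'.2.1 hcol).2 hneg
      exact absurd h1 (not_lt.2 (mul_nonpos_of_nonneg_of_nonpos hcp.le h2.le))
    · intro hneg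
      have h1 := hpos h' hh'.1 hh'.2.1 hcol hneg
      obtain ⟨c, hc⟩ := exists_mult hG hobj'
      exact ⟨c, hc, pos_of_mul_pos_left (claim c hc) h1.le⟩

end UC
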