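import Pool.Agent.UC.Good_Sys
import Pool.Agent.UC.Next

open Finset Metric

namespace UC

variable {N : ℕ} {ι : Type} [Fintype ι] [DecidableEq ι] {Ω : Set (E N)} {φ : ι → E N → ℝ}
  {col : ι → Bool} {C0 : ℕ}

namespace GoodNext

theorem mem_bb (φ : ι → E N → ℝ) (col : ι → Bool) (O : Finset (Finset ι × E N)) (S : Finset ι)
    (β : Bool) (o : Finset ι × E N) (g : ι) :
    g ∈ (mkSys φ col O).bb S β o ↔ Bel φ col o.1 g o.2 ∧ g ∈ S ∧ col g = β := by
  classical
  unfold Sys.bb
  rw [Finset.mem_filter, Finset.mem_inter]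
  change (g ∈ Finset.univ.filter (fun h => Bel φ col o.1 h o.2) ∧ g ∈ S) ∧ col g = β ↔ _
  rw [Finset.mem_filter]
  constructor
  · rintro ⟨⟨⟨-, h1⟩, h2⟩, h3⟩
    exact ⟨h1, h2, h3⟩
  · rintro ⟨h1, h2, h3⟩
    exact ⟨⟨⟨Finset.mem_univ _, h1⟩, h2⟩, h3⟩

theorem mem_bg (φ : ι → E N → ℝ) (col : ι → Bool) (O : Finset (Finset ι × E N)) (S : Finset ι)
    (β : Bool) (o : Finset ι × E N) (g : ι) :
    g ∈ (mkSys φ col O).bg S β o ↔ Bel φ col o.1 g o.2 ∧ g ∈ S ∧ col g ≠ β := by
  classical
  unfold Sys.bg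
  rw [Finset.mem_filter, Finset.mem_inter]
  change (g ∈ Finset.univ.filter (fun h => Bel φ col o.1 h o.2) ∧ g ∈ S) ∧ col g ≠ β ↔ _
  rw [Finset.mem_filter]
  constructor
  · rintro ⟨⟨⟨-, h1⟩, h2⟩, h3⟩
    exact ⟨h1, h2, h3⟩
  · rintro ⟨h1, h2, h3⟩
    exact ⟨⟨⟨Finset.mem_univ _, h1⟩, h2⟩, h3⟩

/-- The stratum of a node has both colours. -/
theorem both_erase {T : Finset ι} (hT : Both col T) {β : Bool} {h : ι} (hc : col h = β)
    (h2 : 2 ≤ (T.filter (fun i => col i = β)).card) : Both col (T.erase h) := by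
  intro β'
  by_cases hb : β' = β
  · obtain ⟨a, ha, b, hb', hab⟩ := Finset.one_lt_card.1 (lt_of_lt_of_le one_lt_two h2)
    rw [Finset.mem_filter] at ha hb'
    by_cases hah : a = h
    · refine ⟨b, Finset.mem_erase.2 ⟨fun hbh => hab (hah.trans hbh.symm), hb'.1⟩, ?_⟩
      rw [hb, hb'.2]
    · refine ⟨a, Finset.mem_erase.2 ⟨hah, ha.1⟩, ?_⟩
      rw [hb, ha.2]
  · obtain ⟨i, hi, hi'⟩ := hT β'
    refine ⟨i, Finset.mem_erase.2 ⟨?_, hi⟩, hi'⟩
    rintro rfl
    exact hb (hi'.symm.trans hc)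

end GoodNext

/-- The combinatorial neg set is the set Neg.
Proof.  h' in bb: h' ∈ S, col h' = β, Bel of u.1.1, equivalent to Bel of base u (bel_iff: base u is
both because of
hu.two, point in Gam u.1.1), and then h' ∉ u.1.1 (not_bel_of_mem). -/
theorem mem_neg_iff (hG : GP Ω φ col C0) (O : Finset (Finset ι × E N))
    (hO : ∀ o, o ∈ O ↔ o ∈ Obs Ω φ col) (S : Finset ι) (β : Bool) (u : (Finset ι × E N) × ι)
    (hu : (mkSys φ col O).Nd N S β u) (h' : ι) :
    h' ∈ (mkSys φ col O).neg (fun o h => Down φ col (o.1.erase h) h o.2) S β u ↔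
      h' ∈ Neg φ col S (u.1.1.erase u.2) β u.2 u.1.2 := by
  classical
  obtain ⟨⟨T, z⟩, h⟩ := u
  have hobs := (hO _).1 hu.memO
  have hobj : IsObj Ω φ col T z := hobs.1
  have hz : z ∈ Gam Ω φ col T := hobj.2.1
  have hmem : h ∈ T := hu.mem
  have hcolh : col h = β := hu.colv
  have hsub : T ⊆ S := hu.sub
  have hB : Both col (T.erase h) := GoodNext.both_erase hobj.1 hcolh hu.two
  have hiff : Bel φ col (T.erase h) h' z ↔ Bel φ col T h' z :=
    bel_iff_of_sub hB (Finset.erase_subset _ _) hz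
  unfold Sys.neg Neg
  rw [Finset.mem_union, GoodNext.mem_bb]
  change (Bel φ col T h' z ∧ h' ∈ S ∧ col h' = β) ∨
    h' ∈ (if Down φ col (T.erase h) h z then ({h} : Finset ι) else ∅) ↔
    h' ∈ S ∧ h' ∉ T.erase h ∧ col h' = β ∧
      ((h' ≠ h ∧ Bel φ col (T.erase h) h' z) ∨ (h' = h ∧ Down φ col (T.erase h) h z))
  constructor
  · rintro (⟨h1, h2, h3⟩ | h1)
    · have h4 : h' ∉ T := fun h5 => not_bel_of_mem hz h5 h1
      refine ⟨h2, fun h5 => h4 (Finset.mem_of_mem_erase h5), h3, Or.inl ⟨?_, hiff.2 h1⟩⟩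
      rintro rfl
      exact h4 hmem
    · by_cases hD : Down φ col (T.erase h) h z
      · rw [if_pos hD, Finset.mem_singleton] at h1
        subst h1
        exact ⟨hsub hmem, Finset.notMem_erase _ _, hcolh, Or.inr ⟨rfl, hD⟩⟩
      · rw [if_neg hD] at h1
        exact absurd h1 (Finset.notMem_empty _)
  · rintro ⟨h1, h2, h3, ⟨h4, h5⟩ | ⟨h4, h5⟩⟩
    · exact Or.inl ⟨hiff.1 h5, h1, h3⟩
    · right
      rw [if_pos h5, h4]
      exact Finset.mem_singleton_self _

/-- The NEXT lemma in combinatorial form.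
Proof.  u = ((T,z),h), T' = T.erase h: both (hu.two), T' ⊆ S, T'.card is N or N + 1.  IsNode S T' β
h z: insert h T' = T;
for g ∈ S, g ∉ T', col g ≠ β: g ∉ T; g is not below (hu.vis), not tied (no_tie), so above T
(bel_or_tie_or_abv), and above T'
(abv_iff).  exists_next gives (J,x).
Case J = {h'}, col h' = β: v = ((insert h' T', x), h').  Nd: g ∈ bel ∩ S of the other colour would
be Bel T' (bel_iff),
not in T' (not_bel_of_mem), against IsNext.other.  base: erase (insert h' T') h' = T'.  neg: by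
mem_neg_iff for u and v,
h'' ≠ h': Bel T' h'' x iff h'' ∈ Neg u (same1 excludes Abv, memJ excludes Tie; same2 excludes Bel);
h'' = h': flip.
Other case: e = (T' ∪ J, x): lo by same2, hi by same1 and memJ, vis by other, new: supp e \ T' = J.
-/
theorem mk_next (hG : GP Ω φ col C0) (O : Finset (Finset ι × E N))
    (hO : ∀ o, o ∈ O ↔ o ∈ Obs Ω φ col) (S : Finset ι) (β : Bool) (u : (Finset ι × E N) × ι)
    (hu : (mkSys φ col O).Nd N S β u) :
    (∃ v, (mkSys φ col O).Q N (fun o => rr o.2) (fun o h => Down φ col (o.1.erase h) h o.2)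
      S β u v) ∨
    ∃ e, (mkSys φ col O).EndAt (fun o h => Down φ col (o.1.erase h) h o.2) S β u e := by
  classical
  have hneg := mem_neg_iff hG O hO S β u hu
  obtain ⟨⟨T, z⟩, h⟩ := u
  have hobs := (hO _).1 hu.memO
  have hobj : IsObj Ω φ col T z := hobs.1
  have hz : z ∈ Gam Ω φ col T := hobj.2.1
  have hmem : h ∈ T := hu.mem
  have hcolh : col h = β := hu.colv
  have hsub : T ⊆ S := hu.sub
  have hTc : N + 1 ≤ T.card := hu.card
  have hTc2 : T.card ≤ N + 2 := hobs.2.2
  have hB : Both col (T.erase h) := GoodNext.both_erase hobj.1 hcolh hu.two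
  obtain ⟨T', hT'⟩ : ∃ T', T' = T.erase h := ⟨_, rfl⟩
  have hT'c : T'.card + 1 = T.card := by
    rw [hT']
    exact Finset.card_erase_add_one hmem
  have hT'S : T' ⊆ S := by
    rw [hT']
    exact (Finset.erase_subset _ _).trans hsub
  change ∀ h', h' ∈ (mkSys φ col O).neg (fun o h => Down φ col (o.1.erase h) h o.2) S β
      ((T, z), h) ↔ h' ∈ Neg φ col S (T.erase h) β h z at hneg
  rw [← hT'] at hneg hB
  have hnode : IsNode Ω φ col S T' β h z := by
    refine ⟨hsub hmem, by rw [hT']; exact Finset.notMem_erase _ _, hcolh, ?_, ?_⟩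
    · rw [hT', Finset.insert_erase hmem]
      exact hobj
    · intro g hgS hgT' hgc
      have hgT : g ∉ T := by
        intro hg
        refine hgT' ?_
        rw [hT']
        refine Finset.mem_erase.2 ⟨?_, hg⟩
        rintro rfl
        exact hgc hcolh
      have h1 : ¬ Bel φ col T g z := by
        intro hb
        have h2 : g ∈ (mkSys φ col O).bg S β (T, z) :=
          (GoodNext.mem_bg φ col O S β (T, z) g).2 ⟨hb, hgS, hgc⟩
        rw [show (mkSys φ col O).bg S β (T, z) = ∅ from hu.vis] at h2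
        exact Finset.notMem_empty _ h2
      have h2 : ¬ Tie φ col T g z := no_tie hG hobj (by omega) hgT
      have h3 : Abv φ col T g z := by
        rcases bel_or_tie_or_abv hobj.1 g z with h4 | h4 | h4
        · exact absurd h4 h1
        · exact absurd h4 h2
        · exact h4
      exact (abv_iff_of_sub hB (by rw [hT']; exact Finset.erase_subset _ _) hz).2 h3
  obtain ⟨J, x, hn⟩ := exists_next hG S T' hB hT'S (by omega) β h z hnode
  have hJdisj : ∀ i ∈ J, i ∉ T' := fun i hi => ((hn.memJ i).1 hi).2.1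
  have hxU : x ∈ Gam Ω φ col (T' ∪ J) := hn.obj.2.1
  have hbelU : ∀ g, Bel φ col T' g x ↔ Bel φ col (T' ∪ J) g x := fun g =>
    bel_iff_of_sub hB Finset.subset_union_left hxU
  have hUcard : (T' ∪ J).card = T'.card + J.card :=
    Finset.card_union_of_disjoint (Finset.disjoint_right.2 hJdisj)
  have hUS : T' ∪ J ⊆ S :=
    Finset.union_subset hT'S (fun i hi => ((hn.memJ i).1 hi).1)
  have hvisU : (mkSys φ col O).bg S β (T' ∪ J, x) = ∅ := by
    rw [Finset.eq_empty_iff_forall_notMem]
    intro g hg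
    obtain ⟨h1, h2, h3⟩ := (GoodNext.mem_bg φ col O S β (T' ∪ J, x) g).1 hg
    have h4 : Bel φ col T' g x := (hbelU g).2 h1
    exact hn.other g h2 (fun h5 => not_bel_of_mem hn.mem h5 h4) h3 h4
  by_cases hcase : ∃ h', J = {h'} ∧ col h' = β
  · left
    obtain ⟨h', hJ, hc'⟩ := hcase
    have hh'J : h' ∈ J := by rw [hJ]; exact Finset.mem_singleton_self _
    obtain ⟨hh'S, hh'T', hh'tie⟩ := (hn.memJ h').1 hh'J
    have hun : T' ∪ J = insert h' T' := by
      rw [hJ, Finset.union_comm, ← Finset.insert_eq]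
    have her : (insert h' T').erase h' = T' := Finset.erase_insert hh'T'
    have hcard1 : (insert h' T').card = T'.card + 1 := Finset.card_insert_of_notMem hh'T'
    have hnd : (mkSys φ col O).Nd N S β ((insert h' T', x), h') := by
      refine ⟨(hO _).2 ⟨?_, ?_, ?_⟩, ?_, Finset.mem_insert_self _ _, hc', ?_, ?_, ?_⟩
      · rw [← hun]
        exact hn.obj
      · change N ≤ (insert h' T').card
        omega
      · change (insert h' T').card ≤ N + 2
        omega
      · change insert h' T' ⊆ S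
        rw [← hun]
        exact hUS
      · rw [← hun]
        exact hvisU
      · change N + 1 ≤ (insert h' T').card
        omega
      · change 2 ≤ ((insert h' T').filter (fun i => col i = β)).card
        obtain ⟨i, hi, hic⟩ := hB β
        have h1 : 1 < ((insert h' T').filter (fun i => col i = β)).card := by
          rw [Finset.one_lt_card]
          refine ⟨h', Finset.mem_filter.2 ⟨Finset.mem_insert_self _ _, hc'⟩, i,
            Finset.mem_filter.2 ⟨Finset.mem_insert_of_mem hi, hic⟩, ?_⟩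
          rintro rfl
          exact hh'T' hi
        omega
    refine ⟨((insert h' T', x), h'), hnd, ?_, hn.lt, ?_⟩
    · change (insert h' T').erase h' = T.erase h
      rw [her, hT']
    · ext g
      have hv := mem_neg_iff hG O hO S β ((insert h' T', x), h') hnd g
      change g ∈ (mkSys φ col O).neg (fun o h => Down φ col (o.1.erase h) h o.2) S β
        ((insert h' T', x), h') ↔ g ∈ Neg φ col S ((insert h' T').erase h') β h' x at hv
      rw [her] at hv
      rw [hv, Finset.mem_symmDiff, Finset.mem_singleton, hneg g]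
      by_cases hg : g = h'
      · subst hg
        have hfl := hn.flip g hJ hc'
        constructor
        · rintro ⟨-, -, -, ⟨h1, -⟩ | ⟨-, h1⟩⟩
          · exact absurd rfl h1
          · exact Or.inr ⟨rfl, hfl.1 h1⟩
        · rintro (⟨-, h1⟩ | ⟨-, h1⟩)
          · exact absurd rfl h1
          · exact ⟨hh'S, hh'T', hc', Or.inr ⟨rfl, hfl.2 h1⟩⟩
      · constructor
        · rintro ⟨h1, h2, h3, ⟨-, h4⟩ | ⟨h4, -⟩⟩
          · left
            refine ⟨?_, hg⟩
            by_contra h5
            exact hn.same2 g h1 h2 h3 h5 h4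
          · exact absurd h4 hg
        · rintro (⟨h1, -⟩ | ⟨h1, -⟩)
          · refine ⟨h1.1, h1.2.1, h1.2.2.1, Or.inl ⟨hg, ?_⟩⟩
            rcases bel_or_tie_or_abv hB g x with h4 | h4 | h4
            · exact h4
            · have h5 : g ∈ J := (hn.memJ g).2 ⟨h1.1, h1.2.1, h4⟩
              rw [hJ, Finset.mem_singleton] at h5
              exact absurd h5 hg
            · exact absurd h4 (hn.same1 g h1)
          · exact absurd h1 hg
  · right
    refine ⟨(T' ∪ J, x), (hO _).2 ⟨hn.obj, ?_, ?_⟩, hUS, ?_, hvisU, ?_, ?_, ?_⟩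
    · change N ≤ (T' ∪ J).card
      omega
    · change (T' ∪ J).card ≤ N + 2
      rw [hUcard]
      exact hn.card
    · change T.erase h ⊆ T' ∪ J
      rw [← hT']
      exact Finset.subset_union_left
    · intro g hg hgc
      refine hcase ⟨g, ?_, hgc⟩
      change (T' ∪ J) \ T.erase h = {g} at hg
      rw [← hT', Finset.union_sdiff_left] at hg
      rw [← hg]
      exact (Finset.sdiff_eq_self_of_disjoint (Finset.disjoint_left.2 hJdisj)).symm
    · intro g hg
      obtain ⟨h1, h2, h3⟩ := (GoodNext.mem_bb φ col O S β (T' ∪ J, x) g).1 hg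
      have h4 : Bel φ col T' g x := (hbelU g).2 h1
      rw [hneg g]
      by_contra h5
      exact hn.same2 g h2 (fun h6 => not_bel_of_mem hn.mem h6 h4) h3 h5 h4
    · intro g hg
      rw [hneg g] at hg
      rw [Finset.mem_union, GoodNext.mem_bb]
      change (Bel φ col (T' ∪ J) g x ∧ g ∈ S ∧ col g = β) ∨ g ∈ T' ∪ J
      rcases bel_or_tie_or_abv hB g x with h4 | h4 | h4
      · exact Or.inl ⟨(hbelU g).1 h4, hg.1, hg.2.2.1⟩
      · exact Or.inr (Finset.mem_union_right _ ((hn.memJ g).2 ⟨hg.1, hg.2.1, h4⟩))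
      · exact absurd h4 (hn.same1 g hg)

end UC
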