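import Pool.Agent.UC.Good_Sys

open Finset Metric

namespace UC

variable {N : ℕ} {ι : Type} [Fintype ι] [DecidableEq ι] {Ω : Set (E N)} {φ : ι → E N → ℝ}
  {col : ι → Bool} {C0 : ℕ}

namespace GoodPure

omit [Fintype ι] [DecidableEq ι] in
theorem gam_half {T T' : Finset ι} {β : Bool}
    (h1' : (T'.filter (fun i => col i = β)).card = 1)
    (h2 : T.filter (fun i => col i ≠ β) = T'.filter (fun i => col i ≠ β)) :
    Gam Ω φ col T ⊆ Gam Ω φ col T' := by
  rintro y ⟨hy, hT⟩
  refine ⟨hy, fun i hi j hj hij => ?_⟩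
  by_cases hβ : col i = β
  · rw [Finset.card_eq_one] at h1'
    obtain ⟨a, ha⟩ := h1'
    have hia : i ∈ T'.filter (fun i => col i = β) := Finset.mem_filter.2 ⟨hi, hβ⟩
    have hja : j ∈ T'.filter (fun i => col i = β) := Finset.mem_filter.2 ⟨hj, hij.symm.trans hβ⟩
    rw [ha, Finset.mem_singleton] at hia hja
    rw [hia, hja]
  · have hi1 : i ∈ T.filter (fun i => col i ≠ β) := by
      rw [h2]
      exact Finset.mem_filter.2 ⟨hi, hβ⟩
    have hj1 : j ∈ T.filter (fun i => col i ≠ β) := by
      rw [h2]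
      exact Finset.mem_filter.2 ⟨hj, by rw [← hij]; exact hβ⟩
    exact hT i (Finset.mem_filter.1 hi1).1 j (Finset.mem_filter.1 hj1).1 hij

end GoodPure

/-- Replacing the only member of colour β of the support.
Gam, hence IsObj, does not depend on it: if T, T' have exactly one member of colour β each and the
same members of the
other colour, then Gam Ω φ col T = Gam Ω φ col T'. -/
theorem gam_eq_of_one {T T' : Finset ι} {β : Bool}
    (h1 : (T.filter (fun i => col i = β)).card = 1)
    (h1' : (T'.filter (fun i => col i = β)).card = 1)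
    (h2 : T.filter (fun i => col i ≠ β) = T'.filter (fun i => col i ≠ β)) :
    Gam Ω φ col T = Gam Ω φ col T' := by
  exact Set.Subset.antisymm (GoodPure.gam_half h1' h2) (GoodPure.gam_half h1 h2.symm)

namespace GoodPure

omit [Fintype ι] [DecidableEq ι] in
theorem mem_filt {γ : Type} {p : γ → Prop} {inst : DecidablePred p} {s : Finset γ} {a : γ} :
    a ∈ @Finset.filter γ p inst s ↔ a ∈ s ∧ p a := Finset.mem_filter

omit [Fintype ι] [DecidableEq ι] in
theorem filt_empty {γ : Type} {p : γ → Prop} {inst : DecidablePred p} {s : Finset γ}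
    (h : @Finset.filter γ p inst s = ∅) (a : γ) (ha : a ∈ s) : ¬ p a :=
  fun hp => Finset.notMem_empty a (by rw [← h]; exact mem_filt.2 ⟨ha, hp⟩)

omit [Fintype ι] in
theorem split (T : Finset ι) (β : Bool) :
    T.filter (fun i => col i = β) ∪ T.filter (fun i => col i ≠ β) = T :=
  Finset.filter_union_filter_not_eq (fun i => col i = β) T

omit [Fintype ι] [DecidableEq ι] in
theorem card_split (T : Finset ι) (β : Bool) :
    T.card = (T.filter (fun i => col i = β)).card + (T.filter (fun i => col i ≠ β)).card :=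
  (Finset.card_filter_add_card_filter_not (fun i => col i = β)).symm

/-- the new support -/
def rep (col : ι → Bool) (f : ι) (β : Bool) (T : Finset ι) : Finset ι :=
  insert f (T.filter (fun i => col i ≠ β))

omit [Fintype ι] in
theorem rep_eq {f : ι} {β : Bool} (hf : col f = β) (T : Finset ι) :
    (rep col f β T).filter (fun i => col i = β) = {f} := by
  ext i
  rw [rep, Finset.mem_filter, Finset.mem_insert, Finset.mem_filter, Finset.mem_singleton]
  constructor
  · rintro ⟨h | ⟨-, h⟩, h'⟩
    · exact h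
    · exact absurd h' h
  · rintro rfl
    exact ⟨Or.inl rfl, hf⟩

omit [Fintype ι] in
theorem rep_ne {f : ι} {β : Bool} (hf : col f = β) (T : Finset ι) :
    (rep col f β T).filter (fun i => col i ≠ β) = T.filter (fun i => col i ≠ β) := by
  ext i
  rw [rep, Finset.mem_filter, Finset.mem_insert, Finset.mem_filter]
  constructor
  · rintro ⟨h | h, h'⟩
    · rw [h] at h'
      exact absurd hf h'
    · exact h
  · rintro h
    exact ⟨Or.inr h, h.2⟩

omit [Fintype ι] in
theorem rep_card {f : ι} {β : Bool} (hf : col f = β) {T : Finset ι}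
    (h1 : (T.filter (fun i => col i = β)).card = 1) : (rep col f β T).card = T.card := by
  rw [card_split (col := col) (rep col f β T) β, card_split (col := col) T β, rep_eq hf,
    rep_ne hf, h1, Finset.card_singleton]

theorem rep_gam {f : ι} {β : Bool} (hf : col f = β) {T : Finset ι}
    (h1 : (T.filter (fun i => col i = β)).card = 1) :
    Gam Ω φ col (rep col f β T) = Gam Ω φ col T := by
  refine gam_eq_of_one (β := β) ?_ h1 (rep_ne hf T)
  rw [rep_eq hf, Finset.card_singleton]

omit [Fintype ι] in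
theorem rep_both {f : ι} {β : Bool} (hf : col f = β) {T : Finset ι} (hT : Both col T) :
    Both col (rep col f β T) := by
  intro γ
  by_cases h : γ = β
  · exact ⟨f, Finset.mem_insert_self _ _, by rw [hf, h]⟩
  · obtain ⟨i, hi, hiγ⟩ := hT γ
    exact ⟨i, Finset.mem_insert_of_mem (Finset.mem_filter.2 ⟨hi, by rw [hiγ]; exact h⟩), hiγ⟩

/-- the new object -/
theorem rep_obj {f : ι} {β : Bool} (hf : col f = β) {T : Finset ι} {z : E N}
    (h1 : (T.filter (fun i => col i = β)).card = 1) (ho : (T, z) ∈ Obs Ω φ col) :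
    (rep col f β T, z) ∈ Obs Ω φ col := by
  obtain ⟨⟨h2, h3, h4⟩, h5, h6⟩ := ho
  simp only at h2 h3 h4 h5 h6
  refine ⟨⟨rep_both hf h2, ?_, ?_⟩, ?_, ?_⟩
  · show z ∈ Gam Ω φ col (rep col f β T)
    rw [rep_gam hf h1]
    exact h3
  · show IsLocalMinOn rr (Gam Ω φ col (rep col f β T)) z
    rw [rep_gam hf h1]
    exact h4
  · show N ≤ (rep col f β T).card
    rw [rep_card hf h1]
    exact h5
  · show (rep col f β T).card ≤ N + 2
    rw [rep_card hf h1]
    exact h6

/-- the old object -/
theorem obj_of_rep {f : ι} {β : Bool} (hf : col f = β) {T : Finset ι} {w : E N}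
    (hT : Both col T)
    (h1 : (T.filter (fun i => col i = β)).card = 1)
    (ho : (rep col f β T, w) ∈ Obs Ω φ col) : (T, w) ∈ Obs Ω φ col := by
  obtain ⟨⟨h2, h3, h4⟩, h5, h6⟩ := ho
  simp only at h2 h3 h4 h5 h6
  rw [rep_gam hf h1] at h3 h4
  rw [rep_card hf h1] at h5 h6
  exact ⟨⟨hT, h3, h4⟩, h5, h6⟩

/-- the index does not increase -/
theorem rep_idx (O : Finset (Finset ι × E N))
    (hO : ∀ o, o ∈ O ↔ o ∈ Obs Ω φ col) {f : ι} {β : Bool} (hf : col f = β) {T : Finset ι}
    {z : E N} (hT : Both col T) (h1 : (T.filter (fun i => col i = β)).card = 1) :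
    (mkSys φ col O).idx (rep col f β T, z) ≤ (mkSys φ col O).idx (T, z) := by
  classical
  refine Finset.card_le_card_of_injOn (fun o => (T, o.2)) ?_ ?_
  · rintro ⟨U, w⟩ ho
    obtain ⟨h2, h3, h4⟩ := mem_filt.1 (Finset.mem_coe.1 ho)
    simp only at h3 h4
    subst h3
    exact Finset.mem_coe.2 (mem_filt.2 ⟨(hO _).2 (obj_of_rep hf hT h1 ((hO _).1 h2)), rfl, h4⟩)
  · rintro ⟨U, w⟩ ho ⟨U', w'⟩ ho' h
    have h2 := (mem_filt.1 (Finset.mem_coe.1 ho)).2.1
    have h3 := (mem_filt.1 (Finset.mem_coe.1 ho')).2.1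
    simp only at h2 h3
    have h4 : w = w' := congrArg Prod.snd h
    rw [h2, h3, h4]

end GoodPure

/-- The field `pure` of Sys.Good.
Proof.  Map o = (T,z) to (insert f Tγ, z), Tγ = the members of the other colour of T.  If q = 0 no
object is both, the
left side is 0.  The image is an object (gam_eq_of_one, both by f), of the same cardinality 1 + q,
support in
insert f Sγ; of colour β only f is in insert f Sγ and f is in the support, so not below (obs_disj);
of the other colour the
functions below are the same (Bel depends only on the members of the colour in question); the index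
is the same (the objects
with support T correspond to those with support insert f Tγ).  Injective: if (T1,z), (T2,z) have
the same image, T1 =
insert f1 Tγ, T2 = insert f2 Tγ, f1, f2 ∈ S of colour β and none is below the other at z (bb
empty), so φ f1 z = φ f2 z;
no_tie for (T1,z) and f2 gives f2 ∈ T1, f1 = f2. -/
theorem mk_pure (hG : GP Ω φ col C0) (O : Finset (Finset ι × E N))
    (hO : ∀ o, o ∈ O ↔ o ∈ Obs Ω φ col) (S : Finset ι) (β : Bool) (q j : ℕ) (f : ι) (hf : f ∈ S)
    (hfβ : (mkSys φ col O).col f = β) :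
    (mkSys φ col O).cnt S β 1 q 0 j ≤
      (mkSys φ col O).cnt (insert f (S.filter (fun i => (mkSys φ col O).col i ≠ β))) β 1 q 0 j := by
  classical
  have hf' : col f = β := hfβ
  refine Finset.card_le_card_of_injOn (fun o => (GoodPure.rep col f β o.1, o.2)) ?_ ?_
  · rintro ⟨T, z⟩ ho
    obtain ⟨h1, h2, h3, h4, h5, h6, h7⟩ := Finset.mem_filter.1 (Finset.mem_coe.1 ho)
    have hobs : (T, z) ∈ Obs Ω φ col := (hO _).1 h1
    have hT2 : T ⊆ S := h2
    have hT3 : (T.filter (fun i => col i = β)).card = 1 := h3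
    have hT4 : (T.filter (fun i => col i ≠ β)).card = q := h4
    have hobs' := GoodPure.rep_obj hf' hT3 hobs
    refine Finset.mem_coe.2 (Finset.mem_filter.2 ⟨(hO _).2 hobs', ?_, ?_, ?_, ?_, ?_, ?_⟩)
    · show insert f (T.filter (fun i => col i ≠ β)) ⊆ insert f (S.filter fun i => col i ≠ β)
      exact Finset.insert_subset_insert f (Finset.filter_subset_filter _ hT2)
    · show ((GoodPure.rep col f β T).filter (fun i => col i = β)).card = 1
      rw [GoodPure.rep_eq hf', Finset.card_singleton]
    · show ((GoodPure.rep col f β T).filter (fun i => col i ≠ β)).card = q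
      rw [GoodPure.rep_ne hf', hT4]
    · rw [Nat.le_zero, Finset.card_eq_zero, Finset.filter_eq_empty_iff]
      intro h hh hhβ
      have hhβ' : col h = β := hhβ
      rw [Finset.mem_inter] at hh
      obtain ⟨hh1, hh2⟩ := hh
      rcases Finset.mem_insert.1 hh2 with hh3 | hh3
      · have hbel : Bel φ col (GoodPure.rep col f β T) h z := (Finset.mem_filter.1 hh1).2
        exact not_bel_of_mem hobs'.1.2.1 (by rw [hh3]; exact Finset.mem_insert_self _ _) hbel
      · exact (Finset.mem_filter.1 hh3).2 hhβ'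
    · rw [Finset.filter_eq_empty_iff]
      intro h hh hhβ
      have hhβ' : col h ≠ β := hhβ
      rw [Finset.mem_inter] at hh
      obtain ⟨hh1, hh2⟩ := hh
      have hhS : h ∈ S := by
        rcases Finset.mem_insert.1 hh2 with hh3 | hh3
        · rw [hh3] at hhβ'
          exact absurd hf' hhβ'
        · exact (Finset.mem_filter.1 hh3).1
      obtain ⟨i, hi, hih, hlt⟩ : Bel φ col (GoodPure.rep col f β T) h z :=
        (Finset.mem_filter.1 hh1).2
      have hiT : i ∈ T := by
        rcases Finset.mem_insert.1 hi with hi1 | hi1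
        · rw [hi1, hf'] at hih
          exact absurd hih.symm hhβ'
        · exact (Finset.mem_filter.1 hi1).1
      have h8 := GoodPure.filt_empty h6 h (Finset.mem_inter.2
        ⟨Finset.mem_filter.2 ⟨Finset.mem_univ _, ⟨i, hiT, hih, hlt⟩⟩, hhS⟩)
      exact h8 hhβ'
    · exact lt_of_le_of_lt (GoodPure.rep_idx O hO hf' hobs.1.1 hT3) h7
  · rintro ⟨T1, z⟩ ho ⟨T2, z'⟩ ho' heq
    obtain ⟨h1, h2, h3, -, h5, -, -⟩ := Finset.mem_filter.1 (Finset.mem_coe.1 ho)
    obtain ⟨h1', h2', h3', -, h5', -, -⟩ := Finset.mem_filter.1 (Finset.mem_coe.1 ho')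
    have hz : z = z' := congrArg Prod.snd heq
    subst hz
    have hT : GoodPure.rep col f β T1 = GoodPure.rep col f β T2 := congrArg Prod.fst heq
    have hγ : T1.filter (fun i => col i ≠ β) = T2.filter (fun i => col i ≠ β) := by
      rw [← GoodPure.rep_ne hf' T1, hT, GoodPure.rep_ne hf' T2]
    have hobs1 : (T1, z) ∈ Obs Ω φ col := (hO _).1 h1
    have hobs2 : (T2, z) ∈ Obs Ω φ col := (hO _).1 h1'
    have hS1 : T1 ⊆ S := h2
    have hS2 : T2 ⊆ S := h2'
    have hc1 : (T1.filter (fun i => col i = β)).card = 1 := h3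
    have hc2 : (T2.filter (fun i => col i = β)).card = 1 := h3'
    obtain ⟨f1, hf1⟩ := Finset.card_eq_one.1 hc1
    obtain ⟨f2, hf2⟩ := Finset.card_eq_one.1 hc2
    have hf1m : f1 ∈ T1.filter (fun i => col i = β) := by
      rw [hf1]
      exact Finset.mem_singleton_self _
    have hf2m : f2 ∈ T2.filter (fun i => col i = β) := by
      rw [hf2]
      exact Finset.mem_singleton_self _
    obtain ⟨hf1T, hf1β⟩ := Finset.mem_filter.1 hf1m
    obtain ⟨hf2T, hf2β⟩ := Finset.mem_filter.1 hf2m
    have e1 : ((((mkSys φ col O).bel (T1, z)) ∩ S).filter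
        (fun i => (mkSys φ col O).col i = β)) = ∅ := Finset.card_eq_zero.1 (Nat.le_zero.1 h5)
    have e2 : ((((mkSys φ col O).bel (T2, z)) ∩ S).filter
        (fun i => (mkSys φ col O).col i = β)) = ∅ := Finset.card_eq_zero.1 (Nat.le_zero.1 h5')
    have g1 : ¬ φ f2 z < φ f1 z := by
      intro hlt
      have h8 := GoodPure.filt_empty e1 f2 (Finset.mem_inter.2
        ⟨Finset.mem_filter.2 ⟨Finset.mem_univ _, ⟨f1, hf1T, hf1β.trans hf2β.symm, hlt⟩⟩,
          hS2 hf2T⟩)
      exact h8 hf2β
    have g2 : ¬ φ f1 z < φ f2 z := by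
      intro hlt
      have h8 := GoodPure.filt_empty e2 f1 (Finset.mem_inter.2
        ⟨Finset.mem_filter.2 ⟨Finset.mem_univ _, ⟨f2, hf2T, hf2β.trans hf1β.symm, hlt⟩⟩,
          hS1 hf1T⟩)
      exact h8 hf1β
    have g3 : φ f2 z = φ f1 z := le_antisymm (not_lt.1 g2) (not_lt.1 g1)
    have g4 : f2 ∈ T1 := by
      by_contra hf2n
      exact no_tie hG hobs1.1 hobs1.2.1 hf2n ⟨f1, hf1T, hf1β.trans hf2β.symm, g3⟩
    have g5 : f2 = f1 := by
      have : f2 ∈ T1.filter (fun i => col i = β) := Finset.mem_filter.2 ⟨g4, hf2β⟩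
      rw [hf1, Finset.mem_singleton] at this
      exact this
    have hTT : T1 = T2 := by
      rw [← GoodPure.split (col := col) T1 β, ← GoodPure.split (col := col) T2 β, hγ, hf1, hf2, g5]
    rw [hTT]

end UC
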