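import Pool.Agent.UC.Good_Starts

open Finset

namespace UC

variable {ι α : Type} [DecidableEq ι] {X : Sys ι α} {N C0 : ℕ} {r : α → ℝ} {down : α → ι → Prop}
  {S : Finset ι} {β : Bool}

/-- Case (ii): the chain returns to the label of the start.
Proof.  For v in A, w = w(v) with Rn m v w, 1 ≤ m ≤ t, w.2 = v.2: w is a node (Rn_nd), supp w.1 =
insert w.2 (base w) =
insert v.2 (base v) = supp v.1 (supp_eq, Rn_base), r w.1 < r v.1 (Rn_transGen, transGen_lt), so idx
w.1 < idx v.1 = j,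
bb w.1 has at most m ≤ t elements (Rn_bb_card), bg w.1 = ∅.  So w.1 is one of the objects counted
by cnt S β p q t j.
The fibre of v ↦ w(v).1 over e: v.1 has support supp e; Prod.fst is injective on A; at most C0
(hX.fib). -/
theorem caseB (hX : X.Chn N C0 r down) (p q t j : ℕ) (A : Finset (α × ι))
    (hinj : Set.InjOn Prod.fst (A : Set (α × ι)))
    (hA : ∀ v ∈ A, X.St N down S β p q v ∧ X.idx v.1 = j ∧
      ∃ m w, 1 ≤ m ∧ m ≤ t ∧ Rn (X.R N r down S β) m v w ∧ w.2 = v.2) :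
    A.card ≤ C0 * X.cnt S β p q t j := by
  classical
  have hA' : ∀ v ∈ A, ∃ e : α, (∃ m w, 1 ≤ m ∧ m ≤ t ∧ Rn (X.R N r down S β) m v w ∧ w.2 = v.2 ∧
      w.1 = e) := by
    intro v hv
    obtain ⟨-, -, m, w, h1, h2, h3, h4⟩ := hA v hv
    exact ⟨w.1, m, w, h1, h2, h3, h4, rfl⟩
  rcases A.eq_empty_or_nonempty with hA0 | ⟨a0, -⟩
  · rw [hA0, card_empty]
    exact Nat.zero_le _
  haveI : Nonempty α := ⟨a0.1⟩
  choose! φ hφ using hA'
  have hsupp : ∀ v ∈ A, X.supp (φ v) = X.supp v.1 ∧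
      φ v ∈ X.O.filter (fun o => X.supp o ⊆ S ∧
      ((X.supp o).filter (fun i => X.col i = β)).card = p ∧
      ((X.supp o).filter (fun i => X.col i ≠ β)).card = q ∧
      ((X.bel o ∩ S).filter (fun i => X.col i = β)).card ≤ t ∧
      ((X.bel o ∩ S).filter (fun i => X.col i ≠ β)) = ∅ ∧ X.idx o < j) := by
    intro v hv
    obtain ⟨hst, hj, -⟩ := hA v hv
    obtain ⟨m, w, h1, h2, h3, h4, h5⟩ := hφ v hv
    have hw : X.Nd N S β w := Rn_nd hst.nd h3
    have hs : X.supp w.1 = X.supp v.1 := by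
      rw [supp_eq hw, supp_eq hst.nd, Rn_base h3, h4]
    have hr : r w.1 < r v.1 := transGen_lt (r := fun x : α × ι => r x.1) R_lt
      (Rn_transGen h1 h3)
    have hidx : X.idx w.1 < X.idx v.1 := hX.idx_mono _ hst.nd.memO _ hw.memO hs hr
    have hbb : (X.bb S β w.1).card ≤ m := Rn_bb_card hX hst.nd hst.neg h3
    rw [← h5]
    refine ⟨hs, mem_filter.2 ⟨hw.memO, hw.sub, ?_, ?_, hbb.trans h2, hw.vis, ?_⟩⟩
    · rw [hs]
      exact hst.cp
    · rw [hs]
      exact hst.cq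
    · rw [← hj]
      exact hidx
  have himg : A.image φ ⊆ X.O.filter (fun o => X.supp o ⊆ S ∧
      ((X.supp o).filter (fun i => X.col i = β)).card = p ∧
      ((X.supp o).filter (fun i => X.col i ≠ β)).card = q ∧
      ((X.bel o ∩ S).filter (fun i => X.col i = β)).card ≤ t ∧
      ((X.bel o ∩ S).filter (fun i => X.col i ≠ β)) = ∅ ∧ X.idx o < j) := by
    intro e he
    obtain ⟨v, hv, rfl⟩ := mem_image.1 he
    exact (hsupp v hv).2
  have hfib : ∀ e ∈ A.image φ, (A.filter (fun v => φ v = e)).card ≤ C0 := by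
    intro e he
    refine le_trans ?_ (hX.fib (X.supp e))
    refine card_le_card_of_injOn Prod.fst ?_ ?_
    · intro v hv
      rw [mem_coe, mem_filter] at hv
      rw [mem_coe, mem_filter]
      exact ⟨(hA v hv.1).1.nd.memO, by rw [← hv.2]; exact (hsupp v hv.1).1.symm⟩
    · intro v hv v' hv' h
      rw [mem_coe, mem_filter] at hv hv'
      exact hinj hv.1 hv'.1 h
  exact (card_le_mul_card_image A C0 hfib).trans (Nat.mul_le_mul_left _ (card_le_card himg))

end UC
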