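import Pool.Agent.UC.Good_Starts

open Finset

namespace UC

variable {ι α : Type} [DecidableEq ι] {X : Sys ι α} {N C0 : ℕ} {r : α → ℝ} {down : α → ι → Prop}
  {S : Finset ι} {β : Bool}

namespace GoodCaseC

theorem col_card {v : α × ι} (h : X.Nd N S β v) :
    ((X.supp v.1).filter (fun i => X.col i = β)).card =
      ((X.base v).filter (fun i => X.col i = β)).card + 1 := by
  rw [supp_eq h, Finset.filter_insert, if_pos h.colv, Finset.card_insert_of_notMem]
  intro h1
  exact (Finset.mem_erase.mp (Finset.mem_filter.mp h1).1).1 rfl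

theorem col_card' {v : α × ι} (h : X.Nd N S β v) :
    ((X.supp v.1).filter (fun i => X.col i ≠ β)).card =
      ((X.base v).filter (fun i => X.col i ≠ β)).card := by
  rw [supp_eq h, Finset.filter_insert, if_neg (not_not.mpr h.colv)]

end GoodCaseC

/-- Case (iii): t steps are possible without returning to the label.
Proof.  Double counting of the relation v ~ w iff Rn m v w for some 1 ≤ m ≤ t, between A and the set
B = {w = (o,h) : o counted by cnt S β p q t C0, h ∈ supp o} (a sigma / biUnion; (supp o).card ≤ N +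
2, so
B.card ≤ (N + 2) * cnt).  Every v in A is related to ≥ t elements of B: chain_card (r w.1
decreases), each w is a node
with base w = base v, so supp w.1 = insert w.2 (base v) has p members of colour β and q others
(v.2, w.2 have colour β),
bb w.1 has at most m ≤ t elements (Rn_bb_card), bg w.1 = ∅, idx < C0.  For w in B the set of v in A
related to w has at
most C0 * GG C0 elements: starts_le with U = {w} (irreflexive by transGen_lt), ν = neg w, T' = base
w.
Conclude by Finset.card_mul_le_card_mul. -/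
theorem caseC (hX : X.Chn N C0 r down) (p q t : ℕ) (A : Finset (α × ι))
    (hA : ∀ v ∈ A, X.St N down S β p q v ∧ ∃ w, Rn (X.R N r down S β) t v w ∧
      ∀ m w', 1 ≤ m → m ≤ t → Rn (X.R N r down S β) m v w' → w'.2 ≠ v.2) :
    t * A.card ≤ (N + 2) * (C0 * GG C0) * X.cnt S β p q t C0 := by
  classical
  set F : Finset α := X.O.filter (fun o => X.supp o ⊆ S ∧
    ((X.supp o).filter (fun i => X.col i = β)).card = p ∧
    ((X.supp o).filter (fun i => X.col i ≠ β)).card = q ∧
    ((X.bel o ∩ S).filter (fun i => X.col i = β)).card ≤ t ∧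
    ((X.bel o ∩ S).filter (fun i => X.col i ≠ β)) = ∅ ∧ X.idx o < C0) with hF
  have hFc : F.card = X.cnt S β p q t C0 := rfl
  set B : Finset (α × ι) := (F ×ˢ S).filter (fun w => w.2 ∈ X.supp w.1) with hB
  have hBc : B.card ≤ (N + 2) * F.card := by
    have h1 : B.card ≤ (N + 2) * (B.image Prod.fst).card := by
      refine Finset.card_le_mul_card_image _ _ ?_
      intro o ho
      obtain ⟨w, hw, rfl⟩ := Finset.mem_image.mp ho
      rw [hB, Finset.mem_filter, Finset.mem_product] at hw
      have ho' : w.1 ∈ X.O := (Finset.mem_filter.mp hw.1.1).1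
      refine le_trans ?_ (hX.card_le w.1 ho')
      refine Finset.card_le_card_of_injOn Prod.snd ?_ ?_
      · intro z hz
        rw [Finset.mem_coe, Finset.mem_filter, hB, Finset.mem_filter] at hz
        rw [Finset.mem_coe, ← hz.2]
        exact hz.1.2
      · intro z hz z' hz' he
        rw [Finset.mem_coe, Finset.mem_filter] at hz hz'
        exact Prod.ext (hz.2.trans hz'.2.symm) he
    refine h1.trans (Nat.mul_le_mul_left _ (Finset.card_le_card ?_))
    intro o ho
    obtain ⟨w, hw, rfl⟩ := Finset.mem_image.mp ho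
    rw [hB, Finset.mem_filter, Finset.mem_product] at hw
    exact hw.1.1
  have hlt : ∀ a b : α × ι, X.R N r down S β a b → (fun v : α × ι => r v.1) b <
      (fun v : α × ι => r v.1) a := fun a b h => R_lt a b h
  have key := Finset.card_mul_le_card_mul (s := A) (t := B) (m := t) (n := C0 * GG C0)
    (fun v w => ∃ m, 1 ≤ m ∧ m ≤ t ∧ Rn (X.R N r down S β) m v w) ?_ ?_
  · calc t * A.card = A.card * t := Nat.mul_comm _ _
      _ ≤ B.card * (C0 * GG C0) := key
      _ ≤ ((N + 2) * F.card) * (C0 * GG C0) := Nat.mul_le_mul_right _ hBc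
      _ = (N + 2) * (C0 * GG C0) * X.cnt S β p q t C0 := by rw [← hFc]; ring
  · intro v hv
    obtain ⟨hst, w, hw, -⟩ := hA v hv
    obtain ⟨G, hGc, -, hG⟩ := chain_card hlt hw
    rw [← hGc]
    refine Finset.card_le_card ?_
    intro z hz
    obtain ⟨m, hm1, hm2, hmz⟩ := hG z hz
    rw [Finset.mem_bipartiteAbove]
    refine ⟨?_, m, hm1, hGc ▸ hm2, hmz⟩
    have hnd := Rn_nd hst.nd hmz
    have hbs := Rn_base hmz
    have hbb := Rn_bb_card hX hst.nd hst.neg hmz
    rw [hB, Finset.mem_filter, Finset.mem_product, hF, Finset.mem_filter]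
    refine ⟨⟨⟨hnd.memO, hnd.sub, ?_, ?_, ?_, hnd.vis, hX.idx_lt _ hnd.memO⟩,
      hnd.sub hnd.mem⟩, hnd.mem⟩
    · rw [GoodCaseC.col_card hnd, hbs, ← GoodCaseC.col_card hst.nd, hst.cp]
    · rw [GoodCaseC.col_card' hnd, hbs, ← GoodCaseC.col_card' hst.nd, hst.cq]
    · exact hbb.trans (hGc ▸ hm2)
  · intro w hw
    refine starts_le (S := S) (β := β) hX {w} (X.neg down S β w) (X.base w) ?_ ?_ _ ?_
    · rintro u rfl
      exact ⟨rfl, rfl⟩
    · rintro u hu u' hu' h
      rw [Set.mem_singleton_iff] at hu hu'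
      rw [hu, hu'] at h
      exact lt_irrefl _ (transGen_lt hlt h)
    · intro z hz
      rw [Finset.mem_bipartiteBelow] at hz
      obtain ⟨hzA, m, hm1, hm2, hmz⟩ := hz
      obtain ⟨hst, -, -, hav⟩ := hA z hzA
      exact ⟨hst.nd, hst.neg, m, w, rfl, hmz,
        fun m' v h1 h2 h3 => hav m' v h1 (h2.trans hm2) h3⟩

end UC
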