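import Pool.Agent.UC.Good_CaseA
import Pool.Agent.UC.Good_CaseB
import Pool.Agent.UC.Good_CaseC

open Finset

namespace UC

variable {ι α : Type} [DecidableEq ι] {X : Sys ι α} {N C0 : ℕ} {r : α → ℝ} {down : α → ι → Prop}

/-- The step inequality.
Proof.  D = objects counted by cnt S β p q 0 (j+1) with idx = j; cnt (j+1) ≤ cnt j + D.card.  For o
in D choose i(o) by
hX.pos (2 ≤ p); then v = (o, i o) is a start: Nd (bg = ∅), neg v = {i o} because bb o = ∅ and down.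
 A = image of D
under o ↦ (o, i o), A.card = D.card, Prod.fst injective on A.  By chain_cases (P w = (w.2 = v.2)) A
is the union of three
sets, to which caseC, caseB, caseA apply: D.card ≤ (N+2) C0 GG cnt t C0 / t + C0 cnt t j + 4^(N+2)
C0 GG ends, and each
constant is ≤ KK N C0. -/
theorem chn_step (hX : X.Chn N C0 r down) (S : Finset ι) (β : Bool) (p q t j : ℕ) (hp : 2 ≤ p)
    (hq : 1 ≤ q) (ht : 1 ≤ t) (hpq : p + q = N + 2 ∨ p + q = N + 1) :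
    (X.cnt S β p q 0 (j + 1) : ℝ) ≤ X.cnt S β p q 0 j + KK N C0 *
      ((X.cnt S β p q t C0 : ℝ) / t + X.cnt S β p q t j + X.cnt S β (p - 1) (q + 1) t C0
        + X.cnt S β (p - 1) q t C0
        + if p + q = N + 1 then ((X.cnt S β (p + 1) q t C0 : ℝ) + X.cnt S β p (q + 1) t C0
            + X.cnt S β (p - 1) (q + 2) t C0) else 0) := by
  classical
  obtain ⟨D, hD⟩ : ∃ D : Finset α, ∀ o, o ∈ D ↔ o ∈ X.cs S β p q 0 (j + 1) ∧ X.idx o = j :=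
    ⟨(X.cs S β p q 0 (j + 1)).filter fun o => X.idx o = j, fun o => Finset.mem_filter⟩
  have hcs : ∀ (p q t j : ℕ) (o : α), o ∈ X.cs S β p q t j ↔ o ∈ X.O ∧ X.supp o ⊆ S ∧
      ((X.supp o).filter (fun i => X.col i = β)).card = p ∧
      ((X.supp o).filter (fun i => X.col i ≠ β)).card = q ∧
      ((X.bel o ∩ S).filter (fun i => X.col i = β)).card ≤ t ∧
      ((X.bel o ∩ S).filter (fun i => X.col i ≠ β)) = ∅ ∧ X.idx o < j := by
    intro p q t j o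
    exact Finset.mem_filter
  have h1 : X.cnt S β p q 0 (j + 1) ≤ X.cnt S β p q 0 j + D.card := by
    rw [← cs_card, ← cs_card]
    refine le_trans (Finset.card_le_card (t := X.cs S β p q 0 j ∪ D) ?_) (Finset.card_union_le _ _)
    intro o ho
    have h2 := (hcs _ _ _ _ o).1 ho
    rw [Finset.mem_union]
    rcases Nat.lt_succ_iff_lt_or_eq.1 h2.2.2.2.2.2.2 with h3 | h3
    · exact Or.inl ((hcs _ _ _ _ o).2 ⟨h2.1, h2.2.1, h2.2.2.1, h2.2.2.2.1, h2.2.2.2.2.1,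
        h2.2.2.2.2.2.1, h3⟩)
    · exact Or.inr ((hD o).2 ⟨ho, h3⟩)
  have hcard : ∀ o ∈ D, N + 1 ≤ (X.supp o).card := by
    intro o ho
    have h2 := (hcs _ _ _ _ o).1 ((hD o).1 ho).1
    have h4 : ((X.supp o).filter (fun i => X.col i = β)).card +
        ((X.supp o).filter (fun i => X.col i ≠ β)).card = (X.supp o).card :=
      Finset.card_filter_add_card_filter_not (s := X.supp o) (fun i => X.col i = β)
    rw [h2.2.2.1, h2.2.2.2.1] at h4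
    omega
  have hex : ∀ o ∈ D, ∃ i : ι, i ∈ X.supp o ∧ X.col i = β ∧ down o i := by
    intro o ho
    have h2 := (hcs _ _ _ _ o).1 ((hD o).1 ho).1
    obtain ⟨i, hi, hc, hd⟩ := hX.pos o h2.1 β (hcard o ho) (by rw [h2.2.2.1]; exact hp)
    exact ⟨i, hi, hc, hd⟩
  choose f hf using hex
  obtain ⟨A, hAdef⟩ : ∃ A : Finset (α × ι), A = D.attach.image fun o => (o.1, f o.1 o.2) := ⟨_, rfl⟩
  have hAcard : A.card = D.card := by
    rw [hAdef, Finset.card_image_of_injective, Finset.card_attach]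
    intro o o' h
    exact Subtype.ext (Prod.mk.inj h).1
  have hAmem : ∀ v ∈ A, ∃ h : v.1 ∈ D, v.2 = f v.1 h := by
    intro v hv
    rw [hAdef, Finset.mem_image] at hv
    obtain ⟨o, _, rfl⟩ := hv
    exact ⟨o.2, rfl⟩
  have hinj : Set.InjOn Prod.fst (A : Set (α × ι)) := by
    intro v hv w hw h
    obtain ⟨hv1, hv2⟩ := hAmem v hv
    obtain ⟨hw1, hw2⟩ := hAmem w hw
    obtain ⟨v1, v2⟩ := v
    obtain ⟨w1, w2⟩ := w
    have h' : v1 = w1 := h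
    subst h'
    rw [Prod.mk.injEq]
    exact ⟨rfl, hv2.trans hw2.symm⟩
  have hst : ∀ v ∈ A, X.St N down S β p q v := by
    intro v hv
    obtain ⟨hv1, hv2⟩ := hAmem v hv
    have h2 := (hcs _ _ _ _ _).1 ((hD v.1).1 hv1).1
    have h3 := hf v.1 hv1
    rw [← hv2] at h3
    refine ⟨⟨h2.1, h2.2.1, h3.1, h3.2.1, h2.2.2.2.2.2.1, hcard _ hv1, ?_⟩, ?_, h2.2.2.1, h2.2.2.2.1⟩
    · rw [h2.2.2.1]
      exact hp
    · have h4 : X.bb S β v.1 = ∅ := Finset.card_eq_zero.1 (Nat.le_zero.1 h2.2.2.2.2.1)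
      unfold Sys.neg
      rw [h4, if_pos h3.2.2, Finset.empty_union]
  have hidx : ∀ v ∈ A, X.idx v.1 = j := by
    intro v hv
    obtain ⟨hv1, _⟩ := hAmem v hv
    exact ((hD v.1).1 hv1).2
  obtain ⟨AC, hAC⟩ : ∃ AC : Finset (α × ι), ∀ v, v ∈ AC ↔ v ∈ A ∧
      ∃ w, Rn (X.R N r down S β) t v w ∧
        ∀ m w', 1 ≤ m → m ≤ t → Rn (X.R N r down S β) m v w' → w'.2 ≠ v.2 :=
    ⟨A.filter fun v => ∃ w, Rn (X.R N r down S β) t v w ∧
        ∀ m w', 1 ≤ m → m ≤ t → Rn (X.R N r down S β) m v w' → w'.2 ≠ v.2,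
      fun v => Finset.mem_filter⟩
  obtain ⟨AB, hAB⟩ : ∃ AB : Finset (α × ι), ∀ v, v ∈ AB ↔ v ∈ A ∧
      ∃ m w, 1 ≤ m ∧ m ≤ t ∧ Rn (X.R N r down S β) m v w ∧ w.2 = v.2 :=
    ⟨A.filter fun v => ∃ m w, 1 ≤ m ∧ m ≤ t ∧ Rn (X.R N r down S β) m v w ∧ w.2 = v.2,
      fun v => Finset.mem_filter⟩
  obtain ⟨AA, hAA⟩ : ∃ AA : Finset (α × ι), ∀ v, v ∈ AA ↔ v ∈ A ∧
      ∃ m w, m < t ∧ Rn (X.R N r down S β) m v w ∧
      (∀ v', ¬ X.R N r down S β w v') ∧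
      ∀ m' w', 1 ≤ m' → m' ≤ m → Rn (X.R N r down S β) m' v w' → w'.2 ≠ v.2 :=
    ⟨A.filter fun v => ∃ m w, m < t ∧ Rn (X.R N r down S β) m v w ∧
      (∀ v', ¬ X.R N r down S β w v') ∧
      ∀ m' w', 1 ≤ m' → m' ≤ m → Rn (X.R N r down S β) m' v w' → w'.2 ≠ v.2,
      fun v => Finset.mem_filter⟩
  have hsub : A ⊆ AC ∪ (AB ∪ AA) := by
    intro v hv
    rw [Finset.mem_union, Finset.mem_union]
    rcases chain_cases (R := X.R N r down S β) R_unique (fun w => w.2 = v.2) v t with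
      ⟨w, h2, h3⟩ | ⟨m, w, h2, h3, h4, h5⟩ | ⟨m, w, h2, h3, h4, h5⟩
    · exact Or.inl ((hAC v).2 ⟨hv, w, h2, h3⟩)
    · exact Or.inr (Or.inl ((hAB v).2 ⟨hv, m, w, h2, h3, h4, h5⟩))
    · exact Or.inr (Or.inr ((hAA v).2 ⟨hv, m, w, h2, h3, h4, h5⟩))
  have hDle : D.card ≤ AC.card + (AB.card + AA.card) := by
    rw [← hAcard]
    refine (Finset.card_le_card hsub).trans ((Finset.card_union_le _ _).trans ?_)
    exact Nat.add_le_add_left (Finset.card_union_le _ _) _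
  have hC := caseC hX p q t AC fun v hv =>
    ⟨hst v ((hAC v).1 hv).1, ((hAC v).1 hv).2⟩
  have hB := caseB hX p q t j AB
    (hinj.mono fun v hv => ((hAB v).1 hv).1) fun v hv =>
    ⟨hst v ((hAB v).1 hv).1, hidx v ((hAB v).1 hv).1, ((hAB v).1 hv).2⟩
  have hA := caseA hX p q t hp AA fun v hv =>
    ⟨hst v ((hAA v).1 hv).1, ((hAA v).1 hv).2⟩
  have ht' : (0:ℝ) < t := by exact_mod_cast ht
  have hC' : (AC.card : ℝ) ≤ ((N:ℝ) + 2) * ((C0 * GG C0 : ℕ) : ℝ) *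
      ((X.cnt S β p q t C0 : ℝ) / t) := by
    have h2 : (t:ℝ) * AC.card ≤ ((N:ℝ) + 2) * ((C0 * GG C0 : ℕ) : ℝ) * X.cnt S β p q t C0 := by
      exact_mod_cast hC
    rw [← mul_div_assoc, le_div_iff₀ ht']
    linarith
  have hB' : (AB.card : ℝ) ≤ (C0:ℝ) * X.cnt S β p q t j := by exact_mod_cast hB
  obtain ⟨e5, he5⟩ : ∃ e5 : ℝ, e5 = if p + q = N + 1 then ((X.cnt S β (p + 1) q t C0 : ℝ) +
      X.cnt S β p (q + 1) t C0 + X.cnt S β (p - 1) (q + 2) t C0) else 0 := ⟨_, rfl⟩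
  have hends : (X.ends N S β p q t C0 : ℝ) = X.cnt S β (p - 1) (q + 1) t C0
        + X.cnt S β (p - 1) q t C0 + e5 := by
    rw [he5]
    unfold Sys.ends
    split_ifs
    · push_cast
      ring
    · push_cast
      ring
  have he5' : 0 ≤ e5 := by
    rw [he5]
    split_ifs
    · positivity
    · exact le_refl _
  have hA' : (AA.card : ℝ) ≤ (4:ℝ) ^ (N + 2) * ((C0 * GG C0 : ℕ) : ℝ) *
      (X.cnt S β (p - 1) (q + 1) t C0 + X.cnt S β (p - 1) q t C0 + e5) := by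
    rw [← hends]
    exact_mod_cast hA
  have h1' : (X.cnt S β p q 0 (j + 1) : ℝ) ≤ X.cnt S β p q 0 j +
      (AC.card + (AB.card + AA.card)) := by
    have h2 : X.cnt S β p q 0 (j + 1) ≤ X.cnt S β p q 0 j + (AC.card + (AB.card + AA.card)) :=
      h1.trans (Nat.add_le_add_left hDle _)
    exact_mod_cast h2
  rw [← he5]
  obtain ⟨a, ha⟩ : ∃ a : ℝ, a = (X.cnt S β p q t C0 : ℝ) / t := ⟨_, rfl⟩
  obtain ⟨g, hg⟩ : ∃ g : ℝ, g = ((C0 * GG C0 : ℕ) : ℝ) := ⟨_, rfl⟩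
  obtain ⟨F, hF⟩ : ∃ F : ℝ, F = (4:ℝ) ^ (N + 2) := ⟨_, rfl⟩
  obtain ⟨x1, hx1⟩ : ∃ x1 : ℝ, x1 = (X.cnt S β p q t j : ℝ) := ⟨_, rfl⟩
  obtain ⟨x2, hx2⟩ : ∃ x2 : ℝ, x2 = (X.cnt S β (p - 1) (q + 1) t C0 : ℝ) := ⟨_, rfl⟩
  obtain ⟨x3, hx3⟩ : ∃ x3 : ℝ, x3 = (X.cnt S β (p - 1) q t C0 : ℝ) := ⟨_, rfl⟩
  have ha0 : 0 ≤ a := by rw [ha]; positivity
  have hg0 : 0 ≤ g := by rw [hg]; positivity
  have hF0 : 0 ≤ F := by rw [hF]; positivity
  have hx10 : 0 ≤ x1 := by rw [hx1]; positivity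
  have hx20 : 0 ≤ x2 := by rw [hx2]; positivity
  have hx30 : 0 ≤ x3 := by rw [hx3]; positivity
  have hN0 : (0:ℝ) ≤ N := Nat.cast_nonneg _
  have hC00 : (0:ℝ) ≤ C0 := Nat.cast_nonneg _
  unfold KK
  rw [← ha, ← hg] at hC'
  rw [← hx1] at hB'
  rw [← hF, ← hg, ← hx2, ← hx3] at hA'
  rw [← ha, ← hg, ← hF, ← hx1, ← hx2, ← hx3]
  have e1 : 0 ≤ (C0:ℝ) * a := mul_nonneg hC00 ha0
  have e2 : 0 ≤ F * g * a := by positivity
  have e3 : 0 ≤ F * g * x1 := by positivity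
  have e4 : 0 ≤ ((N:ℝ) + 2) * g * x1 := by positivity
  have e6 : 0 ≤ (C0:ℝ) * (x2 + x3 + e5) := by positivity
  have e7 : 0 ≤ ((N:ℝ) + 2) * g * (x2 + x3 + e5) := by positivity
  linarith

end UC
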