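import Pool.Agent.UC.Next
import Pool.Agent.UC.Good_Step
import Pool.Agent.UC.Good_Next
import Pool.Agent.UC.Good_Pure

open Finset Metric

namespace UC

theorem KK_nonneg (N C0 : ℕ) : 0 ≤ KK N C0 := by
  unfold KK
  positivity

/-- The chain system of a family in general position. -/
theorem mk_chn {N C0 : ℕ} {ι : Type} [Fintype ι] [DecidableEq ι] {Ω : Set (E N)}
    {φ : ι → E N → ℝ} {col : ι → Bool} (hG : GP Ω φ col C0) (O : Finset (Finset ι × E N))
    (hO : ∀ o, o ∈ O ↔ o ∈ Obs Ω φ col) :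
    (mkSys φ col O).Chn N C0 (fun o => rr o.2) (fun o h => Down φ col (o.1.erase h) h o.2) where
  disj := fun o ho => obs_disj O (fun o h => (hO o).1 h) o ho
  idx_lt := fun o ho => obs_idx hG O (fun o h => (hO o).1 h) o ho
  fib := fun T => obs_fib hG O (fun o h => (hO o).1 h) T
  card_le := fun o ho => ((hO o).1 ho).2.2
  idx_mono := fun o _ o' ho' h hr => obs_idx_mono φ col O o o' ho' h hr
  pos := by
    intro o ho β hN h2
    obtain ⟨i, hi, hiβ, c, hc, hpos⟩ := exists_pos hG ((hO o).1 ho).1 hN β h2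
    refine ⟨i, hi, hiβ, c, ?_, hpos⟩
    have : insert i (o.1.erase i) = o.1 := Finset.insert_erase hi
    rw [this]
    exact hc
  next := fun S β u hu => mk_next hG O hO S β u hu

/-- STEP (text, sections 4, 5): the objects of a family in general position form a good system. -/
theorem exists_good (N C0 : ℕ) : ∃ K : ℝ, 0 ≤ K ∧ ∀ (ι : Type) [Fintype ι] [DecidableEq ι]
    (Ω : Set (E N)) (φ : ι → E N → ℝ) (col : ι → Bool), GP Ω φ col C0 →
    ∃ X : Sys ι (Finset ι × E N), X.Good N C0 K ∧ X.col = col ∧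
      (∀ o, o ∈ X.O ↔ IsObj Ω φ col o.1 o.2 ∧ N ≤ o.1.card ∧ o.1.card ≤ N + 2) ∧
      (∀ o, X.supp o = o.1) ∧ ∀ o h, h ∈ X.bel o ↔ Bel φ col o.1 h o.2 := by
  refine ⟨KK N C0, KK_nonneg N C0, ?_⟩
  intro ι _ _ Ω φ col hG
  have hfin := obs_finite hG
  have hO : ∀ o, o ∈ hfin.toFinset ↔ o ∈ Obs Ω φ col := fun o => Set.Finite.mem_toFinset hfin
  have hX := mk_chn hG hfin.toFinset hO
  refine ⟨mkSys φ col hfin.toFinset, ⟨hX.disj, hX.idx_lt, hX.fib, ?_, ?_⟩, rfl, ?_, fun _ => rfl,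
    ?_⟩
  · intro S β p q t j hp hq ht hpq
    exact chn_step hX S β p q t j hp hq ht hpq
  · intro S β q j f hf hfβ
    exact mk_pure hG hfin.toFinset hO S β q j f hf hfβ
  · intro o
    exact hO o
  · intro o h
    simp [mkSys]

end UC
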