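import Pool.Agent.UC.Good_Starts

open Finset

namespace UC

variable {ι α : Type} [DecidableEq ι] {X : Sys ι α} {N C0 : ℕ} {r : α → ℝ} {down : α → ι → Prop}
  {S : Finset ι} {β : Bool}

/-- The objects counted by cnt. -/
def Sys.cs (X : Sys ι α) (S : Finset ι) (β : Bool) (p q t j : ℕ) : Finset α :=
  X.O.filter (fun o => X.supp o ⊆ S ∧ ((X.supp o).filter (fun i => X.col i = β)).card = p ∧
    ((X.supp o).filter (fun i => X.col i ≠ β)).card = q ∧
    ((X.bel o ∩ S).filter (fun i => X.col i = β)).card ≤ t ∧
    ((X.bel o ∩ S).filter (fun i => X.col i ≠ β)) = ∅ ∧ X.idx o < j)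

theorem cs_card (p q t j : ℕ) : (X.cs S β p q t j).card = X.cnt S β p q t j := rfl

/-- The number of possible ends of type (p,q). -/
def Sys.ends (X : Sys ι α) (N : ℕ) (S : Finset ι) (β : Bool) (p q t j : ℕ) : ℕ :=
  X.cnt S β (p - 1) (q + 1) t j + X.cnt S β (p - 1) q t j +
    if p + q = N + 1 then X.cnt S β (p + 1) q t j + X.cnt S β p (q + 1) t j
      + X.cnt S β (p - 1) (q + 2) t j else 0

namespace GoodCaseA

omit [DecidableEq ι] in
private theorem filt_card (s : Finset ι) (c : ι → Bool) (β : Bool) :
    (s.filter (fun i => c i = β)).card + (s.filter (fun i => c i ≠ β)).card = s.card :=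
  card_filter_add_card_filter_not (fun i => c i = β)

/-- the numbers of members of both colours of the stratum of a node -/
private theorem base_cards {v : α × ι} (h : X.Nd N S β v) :
    ((X.supp v.1).filter (fun i => X.col i = β)).card =
      ((X.base v).filter (fun i => X.col i = β)).card + 1 ∧
    ((X.supp v.1).filter (fun i => X.col i ≠ β)).card =
      ((X.base v).filter (fun i => X.col i ≠ β)).card := by
  have hn : v.2 ∉ X.base v := notMem_erase _ _
  constructor
  · rw [supp_eq h, filter_insert, if_pos h.colv, card_insert_of_notMem]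
    intro h1
    exact hn (mem_filter.1 h1).1
  · rw [supp_eq h, filter_insert, if_neg (by simpa using h.colv)]

private theorem sub_cards {s s' : Finset ι} (h : s ⊆ s') (c : ι → Bool) (β : Bool) :
    (s'.filter (fun i => c i = β)).card = (s.filter (fun i => c i = β)).card +
      ((s' \ s).filter (fun i => c i = β)).card ∧
    (s'.filter (fun i => c i ≠ β)).card = (s.filter (fun i => c i ≠ β)).card +
      ((s' \ s).filter (fun i => c i ≠ β)).card := by
  have h1 : s' = s ∪ (s' \ s) := (union_sdiff_of_subset h).symm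
  constructor
  · conv_lhs => rw [h1, filter_union]
    exact card_union_of_disjoint (disjoint_filter_filter disjoint_sdiff)
  · conv_lhs => rw [h1, filter_union]
    exact card_union_of_disjoint (disjoint_filter_filter disjoint_sdiff)

end GoodCaseA

/-- The types of the ends.  Proof: B = the union of the cs sets of the summands (the last three
only if
p + q = N + 1); card_union_le.  Let J = supp e \ base u; base u has p - 1 members of colour β (u.2
has colour β) and q
of the other colour, p + q - 1 in all, base u ⊆ supp e, and (supp e).card ≤ N + 2, N + 1 ≤ p + q,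
so J.card ≤ 2, and
J.card = 2 only if p + q = N + 1.  J = ∅: type (p-1,q); J = {h}: not of colour β (EndAt.new), type
(p-1,q+1); J.card = 2:
types (p+1,q), (p,q+1), (p-1,q+2) according to the number 2, 1, 0 of members of J of colour β.
bb e ⊆ neg u has at most t elements, bg e = ∅, idx e < C0. -/
theorem end_types (hX : X.Chn N C0 r down) (p q t : ℕ) (hp : 2 ≤ p) :
    ∃ B : Finset α, B.card ≤ X.ends N S β p q t C0 ∧ ∀ (u : α × ι) (e : α), X.Nd N S β u →
      ((X.supp u.1).filter (fun i => X.col i = β)).card = p →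
      ((X.supp u.1).filter (fun i => X.col i ≠ β)).card = q →
      (X.neg down S β u).card ≤ t → X.EndAt down S β u e → e ∈ B := by
  classical
  set B2 : Finset α := if p + q = N + 1 then (X.cs S β (p + 1) q t C0 ∪ X.cs S β p (q + 1) t C0)
      ∪ X.cs S β (p - 1) (q + 2) t C0 else ∅ with hB2
  refine ⟨(X.cs S β (p - 1) (q + 1) t C0 ∪ X.cs S β (p - 1) q t C0) ∪ B2, ?_, ?_⟩
  · have h2 : B2.card ≤ if p + q = N + 1 then X.cnt S β (p + 1) q t C0 + X.cnt S β p (q + 1) t C0
      + X.cnt S β (p - 1) (q + 2) t C0 else 0 := by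
      rw [hB2]
      split_ifs with h
      · refine (card_union_le _ _).trans (Nat.add_le_add_right (card_union_le _ _) _)
      · exact le_rfl
    unfold Sys.ends
    refine (card_union_le _ _).trans (Nat.add_le_add ?_ h2)
    exact card_union_le _ _
  · intro u e hu hp' hq' ht hE
    obtain ⟨hb1, hb2⟩ := GoodCaseA.base_cards hu
    obtain ⟨hs1, hs2⟩ := GoodCaseA.sub_cards hE.base X.col β
    have hJ := GoodCaseA.filt_card (X.supp e \ X.base u) X.col β
    have he := GoodCaseA.filt_card (X.supp e) X.col β
    have hcu := GoodCaseA.filt_card (X.supp u.1) X.col β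
    have hce := hX.card_le e hE.memO
    have hNu := hu.card
    have hmem : ∀ p' q' : ℕ, ((X.supp e).filter (fun i => X.col i = β)).card = p' →
        ((X.supp e).filter (fun i => X.col i ≠ β)).card = q' → e ∈ X.cs S β p' q' t C0 := by
      intro p' q' h1 h2
      refine mem_filter.2 ⟨hE.memO, hE.sub, h1, h2, ?_, hE.vis, hX.idx_lt e hE.memO⟩
      exact (card_le_card hE.lo).trans ht
    set a := ((X.supp e \ X.base u).filter (fun i => X.col i = β)).card with ha
    set b := ((X.supp e \ X.base u).filter (fun i => X.col i ≠ β)).card with hb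
    have hone : a + b = 1 → a = 0 := by
      intro h
      rw [hJ] at h
      obtain ⟨x, hx⟩ := card_eq_one.1 h
      rw [ha, hx, filter_singleton, if_neg (hE.new x hx), card_empty]
    have hab : a + b ≤ 2 := by omega
    rcases Nat.lt_or_ge (a + b) 2 with h2 | h2
    · refine mem_union_left _ ?_
      rcases Nat.lt_or_ge (a + b) 1 with h1 | h1
      · exact mem_union_right _ (hmem _ _ (by omega) (by omega))
      · have ha0 := hone (by omega)
        exact mem_union_left _ (hmem _ _ (by omega) (by omega))
    · refine mem_union_right _ ?_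
      have hpq : p + q = N + 1 := by omega
      rw [hB2, if_pos hpq]
      rcases Nat.lt_or_ge a 1 with h1 | h1
      · exact mem_union_right _ (hmem _ _ (by omega) (by omega))
      · refine mem_union_left _ ?_
        rcases Nat.lt_or_ge a 2 with h3 | h3
        · exact mem_union_right _ (hmem _ _ (by omega) (by omega))
        · exact mem_union_left _ (hmem _ _ (by omega) (by omega))

/-- Case (i): the chain ends.
Proof.  For v in A let w = w(v) be the last point of the chain (Rn m v w, m < t), a node (Rn_nd);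
by R_live there is
e = e(w) with EndAt w e (choose e as a function of w).  supp w.1 = insert w.2 (base w) = insert w.2
(base v) has the
same numbers p, q (both v.2 and w.2 have colour β), neg w has at most m + 1 ≤ t elements
(Rn_neg_card), so e ∈ B of
end_types.  Code of v: (e, T', ν) with T' = base w ⊆ supp e and ν = neg w ∩ supp e ⊆ supp e: neg w
is determined by e and
ν, neg w = bb e ∪ ν (EndAt.lo, hi).  The codes lie in B.sigma (powerset (supp e) × powerset (supp
e)), with at most
2^(N+2) * 2^(N+2) = 4^(N+2) elements over each e.  The fibre over a code (e, T', ν): apply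
starts_le with
U = {u : no R-successor, Nd u, base u = T', neg u = bb e ∪ ν} (antichain: TransGen R u u' gives an
R-successor of u).
So A.card ≤ (C0 * GG C0) * (number of codes). -/
theorem caseA (hX : X.Chn N C0 r down) (p q t : ℕ) (hp : 2 ≤ p) (A : Finset (α × ι))
    (hA : ∀ v ∈ A, X.St N down S β p q v ∧ ∃ m w, m < t ∧ Rn (X.R N r down S β) m v w ∧
      (∀ v', ¬ X.R N r down S β w v') ∧
      ∀ m' w', 1 ≤ m' → m' ≤ m → Rn (X.R N r down S β) m' v w' → w'.2 ≠ v.2) :
    A.card ≤ 4 ^ (N + 2) * (C0 * GG C0) * X.ends N S β p q t C0 := by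
  classical
  obtain ⟨B0, hB0, hBm0⟩ := end_types (S := S) (β := β) hX p q t hp
  set B : Finset α := B0.filter (fun e => e ∈ X.O) with hBdef
  have hBc : B.card ≤ X.ends N S β p q t C0 := (card_filter_le _ _).trans hB0
  have hA' : ∀ v ∈ A, ∃ (m : ℕ) (w : α × ι) (e : α), m < t ∧ Rn (X.R N r down S β) m v w ∧
      (∀ v', ¬ X.R N r down S β w v') ∧
      (∀ m' w', 1 ≤ m' → m' ≤ m → Rn (X.R N r down S β) m' v w' → w'.2 ≠ v.2) ∧
      X.EndAt down S β w e ∧ e ∈ B := by
    intro v hv
    obtain ⟨hst, m, w, hm, hR, hno, hlab⟩ := hA v hv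
    have hw : X.Nd N S β w := Rn_nd hst.nd hR
    rcases R_live hX hw with ⟨v', hv'⟩ | ⟨e, he⟩
    · exact absurd hv' (hno v')
    · refine ⟨m, w, e, hm, hR, hno, hlab, he, ?_⟩
      have hbw := GoodCaseA.base_cards hw
      have hbv := GoodCaseA.base_cards hst.nd
      rw [Rn_base hR] at hbw
      have h1 := hst.cp
      have h2 := hst.cq
      have h3 := Rn_neg_card hst.neg hR
      refine mem_filter.2 ⟨hBm0 w e hw ?_ ?_ (h3.trans hm) he, he.memO⟩
      · rw [hbw.1, ← hbv.1]
        exact h1
      · rw [hbw.2, ← hbv.2]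
        exact h2
  rcases A.eq_empty_or_nonempty with hA0 | ⟨a0, -⟩
  · rw [hA0, card_empty]
    exact Nat.zero_le _
  haveI : Nonempty α := ⟨a0.1⟩
  haveI : Nonempty (α × ι) := ⟨a0⟩
  choose! m w e hm hR hno hlab hE heB using hA'
  set κ : α × ι → (Σ _ : α, Finset ι × Finset ι) := fun v =>
    ⟨e v, (X.base (w v), X.neg down S β (w v) ∩ X.supp (e v))⟩ with hκ
  set T : Finset (Σ _ : α, Finset ι × Finset ι) :=
    B.sigma (fun e => (X.supp e).powerset ×ˢ (X.supp e).powerset) with hT
  have himg : A.image κ ⊆ T := by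
    intro c hc
    obtain ⟨v, hv, rfl⟩ := mem_image.1 hc
    rw [hT, mem_sigma]
    refine ⟨heB v hv, ?_⟩
    rw [mem_product, mem_powerset, mem_powerset]
    exact ⟨(hE v hv).base, inter_subset_right⟩
  have hTc : T.card ≤ B.card * 4 ^ (N + 2) := by
    rw [hT, card_sigma, ← smul_eq_mul]
    refine sum_le_card_nsmul _ _ _ (fun e he => ?_)
    rw [card_product, card_powerset, ← mul_pow]
    exact Nat.pow_le_pow_right (by norm_num) (hX.card_le e (mem_filter.1 he).2)
  have hfib : ∀ c ∈ A.image κ, (A.filter (fun v => κ v = c)).card ≤ C0 * GG C0 := by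
    rintro ⟨e0, T', ν⟩ -
    refine starts_le hX {u | (∀ v', ¬ X.R N r down S β u v') ∧ X.base u = T' ∧
      X.neg down S β u = X.bb S β e0 ∪ ν} (X.bb S β e0 ∪ ν) T' (fun u hu => hu.2) ?_ _ ?_
    · intro u hu u' _ hT'
      obtain ⟨c, hc, -⟩ := Relation.TransGen.head'_iff.1 hT'
      exact hu.1 c hc
    · intro z hz
      obtain ⟨hzA, hzκ⟩ := mem_filter.1 hz
      obtain ⟨hst, -⟩ := hA z hzA
      refine ⟨hst.nd, hst.neg, m z, w z, ⟨hno z hzA, ?_⟩, hR z hzA, hlab z hzA⟩
      rw [hκ] at hzκ
      simp only [Sigma.mk.injEq, heq_eq_eq, Prod.mk.injEq] at hzκ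
      obtain ⟨h1, h2, h3⟩ := hzκ
      refine ⟨h2, ?_⟩
      rw [← h3, ← h1]
      have hlo := (hE z hzA).lo
      have hhi := (hE z hzA).hi
      ext i
      constructor
      · intro hi
        rcases mem_union.1 (hhi hi) with h | h
        · exact mem_union_left _ h
        · exact mem_union_right _ (mem_inter.2 ⟨hi, h⟩)
      · intro hi
        rcases mem_union.1 hi with h | h
        · exact hlo h
        · exact (mem_inter.1 h).1
  have h1 := card_le_mul_card_image A (C0 * GG C0) hfib
  have h2 : (A.image κ).card ≤ X.ends N S β p q t C0 * 4 ^ (N + 2) :=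
    (card_le_card himg).trans (hTc.trans (Nat.mul_le_mul_right _ hBc))
  calc A.card ≤ C0 * GG C0 * (A.image κ).card := h1
    _ ≤ C0 * GG C0 * (X.ends N S β p q t C0 * 4 ^ (N + 2)) := Nat.mul_le_mul_left _ h2
    _ = 4 ^ (N + 2) * (C0 * GG C0) * X.ends N S β p q t C0 := by ring

end UC
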