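import Pool.Agent.UC.Good_Rn

/-!
# UC, part P4: the chains of a chain system
-/

open Finset

namespace UC

variable {ι α : Type} [DecidableEq ι] {X : Sys ι α} {N C0 : ℕ} {r : α → ℝ} {down : α → ι → Prop}
  {S : Finset ι} {β : Bool}

theorem R_q {u v : α × ι} (h : X.R N r down S β u v) : X.Q N r down S β u v := by
  obtain ⟨-, h, rfl⟩ := h
  exact h.choose_spec

theorem R_unique (u v v' : α × ι) (h : X.R N r down S β u v) (h' : X.R N r down S β u v') :
    v = v' := by
  obtain ⟨-, h, rfl⟩ := h
  obtain ⟨-, h', rfl⟩ := h'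
  rfl

theorem R_lt (u v : α × ι) (h : X.R N r down S β u v) : r v.1 < r u.1 := (R_q h).lt

theorem R_live (hX : X.Chn N C0 r down) {u : α × ι} (h : X.Nd N S β u) :
    (∃ v, X.R N r down S β u v) ∨ ∃ e, X.EndAt down S β u e := by
  rcases hX.next S β u h with hv | he
  · exact Or.inl ⟨hv.choose, h, hv, rfl⟩
  · exact Or.inr he

theorem Rn_nd {n : ℕ} {u v : α × ι} (hu : X.Nd N S β u) (h : Rn (X.R N r down S β) n u v) :
    X.Nd N S β v := by
  cases n with
  | zero =>
    obtain rfl : u = v := h
    exact hu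
  | succ n =>
    obtain ⟨w, -, hR⟩ := h
    exact (R_q hR).nd

theorem Rn_base {n : ℕ} {u v : α × ι} (h : Rn (X.R N r down S β) n u v) :
    X.base v = X.base u := by
  induction n generalizing v with
  | zero =>
    obtain rfl : u = v := h
    rfl
  | succ n ih =>
    obtain ⟨w, hw, hR⟩ := h
    exact (R_q hR).base.trans (ih hw)

theorem transGen_nd {u v : α × ι} (h : Relation.TransGen (X.R N r down S β) u v) :
    X.Nd N S β v ∧ X.base v = X.base u := by
  induction h with
  | single h => exact ⟨(R_q h).nd, (R_q h).base⟩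
  | tail _ h ih => exact ⟨(R_q h).nd, (R_q h).base.trans ih.2⟩

/-- The support of a node. -/
theorem supp_eq {v : α × ι} (h : X.Nd N S β v) : X.supp v.1 = insert v.2 (X.base v) :=
  (insert_erase h.mem).symm

theorem Rn_neg_card {n : ℕ} {u v : α × ι} (hu : X.neg down S β u = {u.2})
    (h : Rn (X.R N r down S β) n u v) : (X.neg down S β v).card ≤ n + 1 := by
  induction n generalizing v with
  | zero =>
    obtain rfl : u = v := h
    rw [hu, card_singleton]
  | succ n ih =>
    obtain ⟨w, hw, hR⟩ := h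
    have h1 := ih hw
    rw [(R_q hR).neg]
    have h2 : symmDiff (X.neg down S β w) {v.2} ⊆ X.neg down S β w ∪ {v.2} := by
      intro a ha
      rw [mem_symmDiff] at ha
      rw [mem_union]
      rcases ha with ha | ha
      · exact Or.inl ha.1
      · exact Or.inr ha.1
    have h3 := card_le_card h2
    have h4 := card_union_le (X.neg down S β w) {v.2}
    rw [card_singleton] at h4
    omega

theorem GoodChain.bb_sub {v : α × ι} {a : ι} (ha : a ∈ X.bb S β v.1) :
    a ∈ X.neg down S β v := by
  unfold Sys.neg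
  exact mem_union_left _ ha

theorem GoodChain.bb_ne (hX : X.Chn N C0 r down) {v : α × ι} (hv : X.Nd N S β v) {a : ι}
    (ha : a ∈ X.bb S β v.1) : a ≠ v.2 := by
  rintro rfl
  unfold Sys.bb at ha
  exact disjoint_left.1 (hX.disj v.1 hv.memO) hv.mem (mem_inter.1 (mem_filter.1 ha).1).1

/-- Proof: v.2 is not in bb v.1 (it is in supp v.1, which is disjoint from bel v.1), and bb v.1 ⊆
neg v.  n = 0:
neg u = {u.2}, so bb u.1 is empty.  n+1: v comes after w, neg v = symmDiff (neg w) {v.2}, so
bb v.1 ⊆ neg v \ {v.2} ⊆ neg w, which has at most n + 1 elements. -/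
theorem Rn_bb_card (hX : X.Chn N C0 r down) {n : ℕ} {u v : α × ι} (hu : X.Nd N S β u)
    (hu' : X.neg down S β u = {u.2}) (h : Rn (X.R N r down S β) n u v) :
    (X.bb S β v.1).card ≤ n := by
  cases n with
  | zero =>
    obtain rfl : u = v := h
    rw [Nat.le_zero, card_eq_zero]
    apply eq_empty_of_forall_notMem
    intro a ha
    have h1 : a ∈ X.neg down S β u := GoodChain.bb_sub ha
    rw [hu', mem_singleton] at h1
    exact GoodChain.bb_ne hX hu ha h1
  | succ n =>
    obtain ⟨w, hw, hR⟩ := h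
    have h1 := Rn_neg_card hu' hw
    refine le_trans (card_le_card ?_) h1
    intro a ha
    have h2 : a ∈ X.neg down S β v := GoodChain.bb_sub ha
    have h3 := GoodChain.bb_ne hX (R_q hR).nd ha
    rw [(R_q hR).neg, mem_symmDiff] at h2
    rcases h2 with h2 | h2
    · exact h2.1
    · exact absurd (mem_singleton.1 h2.1) h3

theorem Rn_neg_keep {n : ℕ} {u v : α × ι} {h : ι} (hu : h ∈ X.neg down S β u)
    (hr : Rn (X.R N r down S β) n u v)
    (hl : ∀ m w, 1 ≤ m → m ≤ n → Rn (X.R N r down S β) m u w → w.2 ≠ h) :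
    h ∈ X.neg down S β v := by
  induction n generalizing v with
  | zero =>
    obtain rfl : u = v := hr
    exact hu
  | succ n ih =>
    have hr' := hr
    obtain ⟨w, hw, hR⟩ := hr
    have h1 := ih hw (fun m w' h2 h3 => hl m w' h2 (by omega))
    rw [(R_q hR).neg, mem_symmDiff]
    refine Or.inl ⟨h1, fun h2 => ?_⟩
    exact hl (n + 1) v (by omega) le_rfl hr' (mem_singleton.1 h2).symm

theorem Rn_neg_change {n : ℕ} {u v : α × ι} {h : ι} (hr : Rn (X.R N r down S β) n u v)
    (hu : h ∉ X.neg down S β u) (hv : h ∈ X.neg down S β v) :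
    ∃ m w, 1 ≤ m ∧ m ≤ n ∧ Rn (X.R N r down S β) m u w ∧ w.2 = h ∧
      Relation.ReflTransGen (X.R N r down S β) w v := by
  induction n generalizing v with
  | zero =>
    obtain rfl : u = v := hr
    exact absurd hv hu
  | succ n ih =>
    have hr' := hr
    obtain ⟨w, hw, hR⟩ := hr
    by_cases h1 : h ∈ X.neg down S β w
    · obtain ⟨m, w', h2, h3, h4, h5, h6⟩ := ih hw h1
      exact ⟨m, w', h2, by omega, h4, h5, h6.tail hR⟩
    · rw [(R_q hR).neg, mem_symmDiff] at hv
      rcases hv with hv | hv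
      · exact absurd hv.1 h1
      · exact ⟨n + 1, v, by omega, le_rfl, hr', (mem_singleton.1 hv.1).symm,
          Relation.ReflTransGen.refl⟩

end UC
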