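import Pool.Agent.UC.Defs

/-!
# UC, part P4: chain systems

`Sys.Chn` is the combinatorial form of the NEXT lemma: a node is a pair (o,h), o an object, h a
function of
colour β of its support.  Everything in `Good_Forest .. Good_Step` is finite combinatorics of
`Sys.Chn`.
-/

open Finset

namespace UC

/-- The bound of the forest lemma. -/
def GG : ℕ → ℕ
  | 0 => 1
  | c + 1 => 1 + (c + 1) * GG c

/-- The constant of the step inequality. -/
noncomputable def KK (N C0 : ℕ) : ℝ :=
  (C0 : ℝ) + ((4 : ℝ) ^ (N + 2) + (N + 2)) * ((C0 * GG C0 : ℕ) : ℝ)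

section
variable {ι α : Type} [DecidableEq ι] [DecidableEq α]

/-- The functions of colour β of S below o. -/
def Sys.bb (X : Sys ι α) (S : Finset ι) (β : Bool) (o : α) : Finset ι :=
  (X.bel o ∩ S).filter (fun i => X.col i = β)

/-- The functions of the other colour of S below o. -/
def Sys.bg (X : Sys ι α) (S : Finset ι) (β : Bool) (o : α) : Finset ι :=
  (X.bel o ∩ S).filter (fun i => X.col i ≠ β)

open Classical in
/-- The functions of colour β below the tie in the region below the node v = (o,h). -/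
noncomputable def Sys.neg (X : Sys ι α) (down : α → ι → Prop) (S : Finset ι) (β : Bool)
    (v : α × ι) : Finset ι :=
  X.bb S β v.1 ∪ (if down v.1 v.2 then {v.2} else ∅)

/-- The stratum of a node. -/
def Sys.base (X : Sys ι α) (v : α × ι) : Finset ι := (X.supp v.1).erase v.2

/-- Nodes. -/
structure Sys.Nd (X : Sys ι α) (N : ℕ) (S : Finset ι) (β : Bool) (v : α × ι) : Prop where
  memO : v.1 ∈ X.O
  sub : X.supp v.1 ⊆ S
  mem : v.2 ∈ X.supp v.1
  colv : X.col v.2 = β
  vis : X.bg S β v.1 = ∅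
  card : N + 1 ≤ (X.supp v.1).card
  two : 2 ≤ ((X.supp v.1).filter (fun i => X.col i = β)).card

/-- v is a possible next node after u. -/
structure Sys.Q (X : Sys ι α) (N : ℕ) (r : α → ℝ) (down : α → ι → Prop) (S : Finset ι) (β : Bool)
    (u v : α × ι) : Prop where
  nd : X.Nd N S β v
  base : X.base v = X.base u
  lt : r v.1 < r u.1
  neg : X.neg down S β v = symmDiff (X.neg down S β u) {v.2}

/-- The chain may end in the object e after the node u. -/
structure Sys.EndAt (X : Sys ι α) (down : α → ι → Prop) (S : Finset ι) (β : Bool)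
    (u : α × ι) (e : α) : Prop where
  memO : e ∈ X.O
  sub : X.supp e ⊆ S
  base : X.base u ⊆ X.supp e
  vis : X.bg S β e = ∅
  new : ∀ h, X.supp e \ X.base u = {h} → X.col h ≠ β
  lo : X.bb S β e ⊆ X.neg down S β u
  hi : X.neg down S β u ⊆ X.bb S β e ∪ X.supp e

/-- A chain system. -/
structure Sys.Chn (X : Sys ι α) (N C0 : ℕ) (r : α → ℝ) (down : α → ι → Prop) : Prop where
  disj : ∀ o ∈ X.O, Disjoint (X.supp o) (X.bel o)
  idx_lt : ∀ o ∈ X.O, X.idx o < C0
  fib : ∀ T : Finset ι, (X.O.filter (fun o => X.supp o = T)).card ≤ C0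
  card_le : ∀ o ∈ X.O, (X.supp o).card ≤ N + 2
  idx_mono : ∀ o ∈ X.O, ∀ o' ∈ X.O, X.supp o' = X.supp o → r o' < r o → X.idx o' < X.idx o
  pos : ∀ o ∈ X.O, ∀ β, N + 1 ≤ (X.supp o).card →
    2 ≤ ((X.supp o).filter (fun i => X.col i = β)).card → ∃ i ∈ X.supp o, X.col i = β ∧ down o i
  next : ∀ (S : Finset ι) (β : Bool) (u : α × ι), X.Nd N S β u →
    (∃ v, X.Q N r down S β u v) ∨ ∃ e, X.EndAt down S β u e

/-- The chosen next node. -/
def Sys.R (X : Sys ι α) (N : ℕ) (r : α → ℝ) (down : α → ι → Prop) (S : Finset ι) (β : Bool)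
    (u v : α × ι) : Prop :=
  X.Nd N S β u ∧ ∃ h : (∃ w, X.Q N r down S β u w), v = h.choose

/-- n steps of a relation. -/
def Rn {V : Type} (R : V → V → Prop) : ℕ → V → V → Prop
  | 0, u, v => u = v
  | n + 1, u, v => ∃ w, Rn R n u w ∧ R w v

end

end UC
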