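import Pool.Agent.UC.Good_Defs

open Finset

namespace UC

/-- FOREST LEMMA (abstract form).
Proof.  Induction on c, for all W and Z.  c = 0: if z ≠ z' in Z, h2 gives v in W with lab v = lab z,
so the filter of h4 is nonempty, contradiction; hence Z.card ≤ 1 = GG 0.
c + 1: Z empty is trivial; take z0 in Z.  For v in W with lab v = lab z0 put Zv = {z ∈ Z : lt z v} and
Wv = {u ∈ W : lt u v}.  By h2 every z ≠ z0 of Z lies in some Zv (h2 for z0, z).  So
Z.card ≤ 1 + Σ_{v ∈ W, lab v = lab z0} Zv.card and there are ≤ c + 1 such v; it is enough that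
Zv.card ≤ GG c.
Induction hypothesis for (Wv, Zv): h1 is inherited.  h2: z ≠ z' in Zv, let u in W, lt z' u,
lab u = lab z.  By hcmp for z', u, v: u = v or lt v u would give lt z u (as lt z v), contradicting h1
for z; so lt u v, u in Wv.
h4: for z in Zv: z ≠ z0 (h1 for z0 and v: lab v = lab z0), so by h2 (for z, z0) there is u0 in W with
lt z0 u0, lab u0 = lab z.  u0 is not in Wv (lt u0 v gives lt z0 v, contradicting h1 for z0).  So the
filter of Wv is a proper subset of the filter of W: card ≤ c. -/
theorem forest {V L : Type} [DecidableEq V] [DecidableEq L] (lt : V → V → Prop)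
    (htr : ∀ u v w, lt u v → lt v w → lt u w)
    (hcmp : ∀ u v v', lt u v → lt u v' → v = v' ∨ lt v v' ∨ lt v' v) (lab : V → L) (c : ℕ)
    (W Z : Finset V)
    (h1 : ∀ z ∈ Z, ∀ v ∈ W, lt z v → lab v ≠ lab z)
    (h2 : ∀ z ∈ Z, ∀ z' ∈ Z, z ≠ z' → ∃ v ∈ W, lt z' v ∧ lab v = lab z)
    (h4 : ∀ z ∈ Z, (W.filter (fun v => lab v = lab z)).card ≤ c) : Z.card ≤ GG c := by
  classical
  induction c generalizing W Z with
  | zero =>
    change Z.card ≤ 1
    rw [Finset.card_le_one]
    intro z hz z' hz'
    by_contra hne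
    obtain ⟨v, hv, _, hlab⟩ := h2 z hz z' hz' hne
    have h := h4 z hz
    have hmem : v ∈ W.filter (fun v => lab v = lab z) := Finset.mem_filter.2 ⟨hv, hlab⟩
    have := Finset.card_pos.2 ⟨v, hmem⟩
    omega
  | succ c ih =>
    rcases Z.eq_empty_or_nonempty with rfl | ⟨z0, hz0⟩
    · simp
    have hsub : Z ⊆ {z0} ∪ (W.filter (fun v => lab v = lab z0)).biUnion
        (fun v => Z.filter (fun z => lt z v)) := by
      intro z hz
      by_cases h : z = z0
      · simp [h]
      · obtain ⟨v, hv, hlt, hlab⟩ := h2 z0 hz0 z hz (fun h' => h h'.symm)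
        refine Finset.mem_union_right _ (Finset.mem_biUnion.2 ⟨v, ?_, ?_⟩)
        · exact Finset.mem_filter.2 ⟨hv, hlab⟩
        · exact Finset.mem_filter.2 ⟨hz, hlt⟩
    have hkey : ∀ v ∈ W.filter (fun v => lab v = lab z0),
        (Z.filter (fun z => lt z v)).card ≤ GG c := by
      intro v hv
      obtain ⟨hvW, hvl⟩ := Finset.mem_filter.1 hv
      refine ih (W.filter (fun u => lt u v)) (Z.filter (fun z => lt z v)) ?_ ?_ ?_
      · intro z hz u hu h
        exact h1 z (Finset.mem_filter.1 hz).1 u (Finset.mem_filter.1 hu).1 h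
      · intro z hz z' hz' hne
        obtain ⟨hzZ, hzv⟩ := Finset.mem_filter.1 hz
        obtain ⟨hz'Z, hz'v⟩ := Finset.mem_filter.1 hz'
        obtain ⟨u, hu, hlt, hlab⟩ := h2 z hzZ z' hz'Z hne
        refine ⟨u, Finset.mem_filter.2 ⟨hu, ?_⟩, hlt, hlab⟩
        rcases hcmp z' u v hlt hz'v with h | h | h
        · subst h
          exact absurd hlab (h1 z hzZ u hu hzv)
        · exact h
        · exact absurd hlab (h1 z hzZ u hu (htr _ _ _ hzv h))
      · intro z hz
        obtain ⟨hzZ, hzv⟩ := Finset.mem_filter.1 hz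
        have hne : z ≠ z0 := by
          rintro rfl
          exact h1 z hz0 v hvW hzv hvl
        obtain ⟨u0, hu0, hlt, hlab⟩ := h2 z hzZ z0 hz0 hne
        have hmem : u0 ∈ W.filter (fun v => lab v = lab z) := Finset.mem_filter.2 ⟨hu0, hlab⟩
        have hss : (W.filter (fun u => lt u v)).filter (fun v => lab v = lab z) ⊆
            (W.filter (fun v => lab v = lab z)).erase u0 := by
          intro u hu
          obtain ⟨hu1, hu2⟩ := Finset.mem_filter.1 hu
          obtain ⟨hu3, hu4⟩ := Finset.mem_filter.1 hu1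
          refine Finset.mem_erase.2 ⟨?_, Finset.mem_filter.2 ⟨hu3, hu2⟩⟩
          rintro rfl
          exact h1 z0 hz0 v hvW (htr _ _ _ hlt hu4) hvl
        have h5 := Finset.card_le_card hss
        rw [Finset.card_erase_of_mem hmem] at h5
        have h6 := h4 z hzZ
        omega
    calc Z.card ≤ _ := Finset.card_le_card hsub
      _ ≤ ({z0} : Finset V).card + _ := Finset.card_union_le _ _
      _ ≤ 1 + (W.filter (fun v => lab v = lab z0)).card * GG c := by
        refine Nat.add_le_add (by simp) ?_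
        exact Finset.card_biUnion_le_card_mul _ _ _ hkey
      _ ≤ 1 + (c + 1) * GG c := by
        have := h4 z0 hz0
        gcongr
      _ = GG (c + 1) := rfl

end UC
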