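import Pool.Agent.UC.Defs

open Finset Metric

namespace UC

/-- Lagrange multipliers: an object is a critical point.
Proof.  Choose i0 : Bool → ι with i0 β in T, col (i0 β) = β (Both).  Let I be the subtype of the i
in T with
i ≠ i0 (col i), f i = φ i - φ (i0 (col i)) for i in I.  Near z, Gam Ω φ col T is {y : f i y = f i z
for i in I} (Ω is an
open neighbourhood of z and f i z = 0), so z is a local minimum of rr on the latter set.  φ i is
C^1 near z, so it has the
strict derivative fderiv (ContDiffAt.hasStrictFDerivAt), and rr is smooth.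
IsLocalExtrOn.exists_multipliers_of_hasStrictFDerivAt gives (Λ, Λ0) ≠ 0 with
Σ Λ i (dφ i - dφ (i0 (col i))) + Λ0 drr = 0.  Let c i = Λ i for i in I, c (i0 β) = - Σ of Λ over
the i in I of colour β, c = 0
outside T: Coef col T c and Σ_T c i dφ i + Λ0 drr = 0.  If Λ0 = 0 then c = 0 by hG.reg, so Λ = 0, a
contradiction.
So -c/Λ0 are multipliers. -/
theorem obj_crit {N : ℕ} {ι : Type} {Ω : Set (E N)} {φ : ι → E N → ℝ} {col : ι → Bool} {C0 : ℕ}
    (hG : GP Ω φ col C0) {T : Finset ι} {z : E N} (h : IsObj Ω φ col T z) :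
    ∃ c, IsMult φ col T z c := by
  classical
  obtain ⟨hBoth, hz, hmin⟩ := h
  choose i0 hi0 hc0 using hBoth
  have hzΩ : z ∈ Ω := hz.1
  have hΩ : Ω ∈ nhds z := hG.isOpen.mem_nhds hzΩ
  set T' : Finset ι := T.filter (fun i => i ≠ i0 (col i)) with hT'
  have hT'mem : ∀ i, i ∈ T' ↔ i ∈ T ∧ i ≠ i0 (col i) := fun i => by
    rw [hT', Finset.mem_filter]
  set f : T' → E N → ℝ := fun i y => φ i y - φ (i0 (col i)) y with hf
  have hstr : ∀ i, HasStrictFDerivAt (φ i) (fderiv ℝ (φ i) z) z := fun i =>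
    ((hG.smooth i).contDiffAt hΩ).hasStrictFDerivAt (by norm_num)
  have hrr : HasStrictFDerivAt (rr : E N → ℝ) (fderiv ℝ rr z) z := by
    have h1 : ContDiff ℝ 1 (rr : E N → ℝ) := contDiff_norm_sq ℝ
    exact h1.contDiffAt.hasStrictFDerivAt (by norm_num)
  have hsub : {y | ∀ i, f i y = f i z} ∩ Ω ⊆ Gam Ω φ col T := by
    rintro y ⟨hy, hyΩ⟩
    have h1 : ∀ i ∈ T, φ i y = φ (i0 (col i)) y := by
      intro i hi
      by_cases hii : i = i0 (col i)
      · rw [← hii]
      · have h2 := hy ⟨i, (hT'mem i).mpr ⟨hi, hii⟩⟩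
        have h3 : φ i z = φ (i0 (col i)) z := hz.2 i hi _ (hi0 _) (hc0 _).symm
        simp only [hf] at h2
        linarith
    refine ⟨hyΩ, fun i hi j hj hij => ?_⟩
    rw [h1 i hi, h1 j hj, hij]
  have hext : IsLocalExtrOn rr {y | ∀ i, f i y = f i z} z := by
    left
    have h1 : nhdsWithin z {y | ∀ i, f i y = f i z} ≤ nhdsWithin z (Gam Ω φ col T) := by
      rw [← nhdsWithin_inter_of_mem' (s := {y | ∀ i, f i y = f i z}) (t := Ω)
        (mem_nhdsWithin_of_mem_nhds hΩ)]
      exact nhdsWithin_mono _ hsub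
    exact hmin.filter_mono h1
  obtain ⟨Λ, Λ₀, hne, hsum⟩ := hext.exists_multipliers_of_hasStrictFDerivAt
    (f' := fun i : T' => fderiv ℝ (φ i) z - fderiv ℝ (φ (i0 (col i))) z)
    (fun i => (hstr i).sub (hstr _)) hrr
  set c : ι → ℝ := fun i => ∑ j : T', Λ j * ((if i = j then 1 else 0) -
    (if i = i0 (col j) then 1 else 0)) with hc
  have hcoef : Coef col T c := by
    constructor
    · intro i hi
      refine Finset.sum_eq_zero (fun j _ => ?_)
      have h1 : i ≠ j := fun h => hi (by rw [h]; exact ((hT'mem j).mp j.2).1)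
      have h2 : i ≠ i0 (col j) := fun h => hi (by rw [h]; exact hi0 _)
      rw [if_neg h1, if_neg h2, sub_zero, mul_zero]
    · intro β
      rw [Finset.sum_comm]
      refine Finset.sum_eq_zero (fun j _ => ?_)
      rw [← Finset.mul_sum, Finset.sum_sub_distrib, Finset.sum_ite_eq', Finset.sum_ite_eq']
      have h1 : ((j : ι) ∈ T.filter (fun i => col i = β)) ↔ col j = β := by
        rw [Finset.mem_filter]
        exact ⟨fun h => h.2, fun h => ⟨((hT'mem j).mp j.2).1, h⟩⟩
      have h2 : (i0 (col j) ∈ T.filter (fun i => col i = β)) ↔ col j = β := by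
        rw [Finset.mem_filter, hc0]
        exact ⟨fun h => h.2, fun h => ⟨hi0 _, h⟩⟩
      by_cases h3 : col j = β
      · rw [if_pos (h1.mpr h3), if_pos (h2.mpr h3), sub_self, mul_zero]
      · rw [if_neg (fun h => h3 (h1.mp h)), if_neg (fun h => h3 (h2.mp h)), sub_self, mul_zero]
  have hcsum : ∑ i ∈ T, c i • fderiv ℝ (φ i) z =
      ∑ j : T', Λ j • (fderiv ℝ (φ j) z - fderiv ℝ (φ (i0 (col j))) z) := by
    simp only [hc, Finset.sum_smul]
    rw [Finset.sum_comm]
    refine Finset.sum_congr rfl (fun j _ => ?_)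
    simp only [mul_smul, sub_smul, ite_smul, one_smul, zero_smul]
    rw [← Finset.smul_sum, Finset.sum_sub_distrib, Finset.sum_ite_eq', Finset.sum_ite_eq',
      if_pos ((hT'mem j).mp j.2).1, if_pos (hi0 _)]
  have hck : ∀ k : T', c k = Λ k := by
    intro k
    simp only [hc, mul_sub, Finset.sum_sub_distrib, mul_ite, mul_one, mul_zero]
    have h1 : ∑ j : T', (if (k : ι) = j then Λ j else 0) = Λ k := by
      rw [Finset.sum_eq_single k]
      · rw [if_pos rfl]
      · intro j _ hjk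
        rw [if_neg (fun h => hjk (Subtype.ext h.symm))]
      · intro h
        exact absurd (Finset.mem_univ k) h
    have h2 : ∑ j : T', (if (k : ι) = i0 (col j) then Λ j else 0) = 0 := by
      refine Finset.sum_eq_zero (fun j _ => ?_)
      rw [if_neg]
      intro h
      apply ((hT'mem k).mp k.2).2
      have h3 : col k = col j := by rw [h, hc0]
      rw [h3]
      exact h
    rw [h1, h2, sub_zero]
  rw [← hcsum] at hsum
  by_cases hΛ : Λ₀ = 0
  · exfalso
    rw [hΛ, zero_smul, add_zero] at hsum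
    have h0 := hG.reg T (fun β => ⟨i0 β, hi0 β, hc0 β⟩) z hz c hcoef hsum
    apply hne
    refine Prod.ext ?_ hΛ
    funext k
    have h1 := h0 k
    rw [hck] at h1
    exact h1
  · refine ⟨fun i => -(Λ₀⁻¹ * c i), ⟨fun i hi => ?_, fun β => ?_⟩, ?_⟩
    · show -(Λ₀⁻¹ * c i) = 0
      rw [hcoef.1 i hi, mul_zero, neg_zero]
    · rw [Finset.sum_neg_distrib, ← Finset.mul_sum, hcoef.2 β, mul_zero, neg_zero]
    · have h1 : fderiv ℝ rr z = -(Λ₀⁻¹ • ∑ i ∈ T, c i • fderiv ℝ (φ i) z) := by
        have h2 : ∑ i ∈ T, c i • fderiv ℝ (φ i) z = -(Λ₀ • fderiv ℝ rr z) :=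
          eq_neg_of_add_eq_zero_left hsum
        rw [h2, smul_neg, neg_neg, smul_smul, inv_mul_cancel₀ hΛ, one_smul]
      rw [h1, Finset.smul_sum, ← Finset.sum_neg_distrib]
      refine Finset.sum_congr rfl (fun i _ => ?_)
      rw [neg_smul, mul_smul]

end UC
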