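import Pool.Agent.UC.Good_Defs

/-!
# UC, part P4: n steps of a functional relation
-/

open Finset

namespace UC

variable {V : Type} {R : V → V → Prop}

theorem Rn_add {m n : ℕ} {a b c : V} (h1 : Rn R m a b) (h2 : Rn R n b c) : Rn R (m + n) a c := by
  induction n generalizing c with
  | zero =>
    have h3 : b = c := h2
    rw [← h3]
    exact h1
  | succ n ih =>
    obtain ⟨w, hw, hwc⟩ := h2
    exact ⟨w, ih hw, hwc⟩

theorem Rn_split {m n : ℕ} {a c : V} (h : Rn R (m + n) a c) : ∃ b, Rn R m a b ∧ Rn R n b c := by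
  induction n generalizing c with
  | zero => exact ⟨c, h, rfl⟩
  | succ n ih =>
    obtain ⟨w, hw, hwc⟩ := h
    obtain ⟨b, hb1, hb2⟩ := ih hw
    exact ⟨b, hb1, w, hb2, hwc⟩

theorem Rn_unique (hR : ∀ a b c, R a b → R a c → b = c) {n : ℕ} {a b c : V} (h1 : Rn R n a b)
    (h2 : Rn R n a c) : b = c := by
  induction n generalizing b c with
  | zero =>
    have h3 : a = b := h1
    have h4 : a = c := h2
    exact h3.symm.trans h4
  | succ n ih =>
    obtain ⟨w, hw, hwb⟩ := h1
    obtain ⟨w', hw', hwc⟩ := h2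
    have h3 := ih hw hw'
    rw [← h3] at hwc
    exact hR w b c hwb hwc

theorem Rn_reflTransGen {n : ℕ} {a b : V} (h : Rn R n a b) : Relation.ReflTransGen R a b := by
  induction n generalizing b with
  | zero =>
    have h3 : a = b := h
    rw [h3]
  | succ n ih =>
    obtain ⟨w, hw, hwb⟩ := h
    exact (ih hw).tail hwb

theorem Rn_transGen {n : ℕ} {a b : V} (hn : 1 ≤ n) (h : Rn R n a b) : Relation.TransGen R a b := by
  cases n with
  | zero => omega
  | succ n =>
    obtain ⟨w, hw, hwb⟩ := h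
    exact Relation.TransGen.tail' (Rn_reflTransGen hw) hwb

theorem exists_Rn_of_transGen {a b : V} (h : Relation.TransGen R a b) :
    ∃ n, 1 ≤ n ∧ Rn R n a b := by
  induction h with
  | single h => exact ⟨1, le_rfl, a, rfl, h⟩
  | tail _ h ih =>
    obtain ⟨n, hn, h1⟩ := ih
    exact ⟨n + 1, by omega, _, h1, h⟩

/-- Points after a common point are comparable. -/
theorem transGen_cmp (hR : ∀ a b c, R a b → R a c → b = c) (u v v' : V)
    (h1 : Relation.TransGen R u v) (h2 : Relation.TransGen R u v') :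
    v = v' ∨ Relation.TransGen R v v' ∨ Relation.TransGen R v' v := by
  obtain ⟨n, hn, hv⟩ := exists_Rn_of_transGen h1
  obtain ⟨n', hn', hv'⟩ := exists_Rn_of_transGen h2
  rcases lt_trichotomy n n' with h | h | h
  · obtain ⟨k, rfl⟩ : ∃ k, n' = n + k := ⟨n' - n, by omega⟩
    obtain ⟨b, hb1, hb2⟩ := Rn_split hv'
    have h3 := Rn_unique hR hv hb1
    rw [← h3] at hb2
    exact Or.inr (Or.inl (Rn_transGen (by omega) hb2))
  · subst h
    exact Or.inl (Rn_unique hR hv hv')
  · obtain ⟨k, rfl⟩ : ∃ k, n = n' + k := ⟨n - n', by omega⟩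
    obtain ⟨b, hb1, hb2⟩ := Rn_split hv
    have h3 := Rn_unique hR hv' hb1
    rw [← h3] at hb2
    exact Or.inr (Or.inr (Rn_transGen (by omega) hb2))

theorem transGen_lt {r : V → ℝ} (hr : ∀ a b, R a b → r b < r a) {a b : V}
    (h : Relation.TransGen R a b) : r b < r a := by
  induction h with
  | single h => exact hr _ _ h
  | tail _ h ih => exact (hr _ _ h).trans ih

/-- The t points after u on a chain with t steps. -/
theorem chain_card [DecidableEq V] {r : V → ℝ} (hr : ∀ a b, R a b → r b < r a) {n : ℕ} {u v : V}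
    (h : Rn R n u v) : ∃ F : Finset V, F.card = n ∧ (∀ w ∈ F, r v ≤ r w) ∧
      ∀ w ∈ F, ∃ m, 1 ≤ m ∧ m ≤ n ∧ Rn R m u w := by
  induction n generalizing v with
  | zero => exact ⟨∅, rfl, by simp, by simp⟩
  | succ n ih =>
    obtain ⟨w, hw, hwv⟩ := h
    obtain ⟨F, hF1, hF2, hF3⟩ := ih hw
    have hlt := hr w v hwv
    have hv : v ∉ F := fun hv => absurd (hF2 v hv) (not_le.2 hlt)
    refine ⟨insert v F, by rw [card_insert_of_notMem hv, hF1], fun x hx => ?_, fun x hx => ?_⟩
    · rcases mem_insert.1 hx with rfl | hx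
      · exact le_rfl
      · exact hlt.le.trans (hF2 x hx)
    · rcases mem_insert.1 hx with rfl | hx
      · exact ⟨n + 1, by omega, le_rfl, w, hw, hwv⟩
      · obtain ⟨m, h1, h2, h3⟩ := hF3 x hx
        exact ⟨m, h1, by omega, h3⟩

/-- Follow the chain of u for at most t steps: t steps without a point satisfying P, or a point
satisfying P
is reached, or the chain ends before.
Proof: induction on t (t = 0: first alternative, v = u).  Step: the second and third alternatives
persist;
in the first one either no next point exists (third alternative for m = t), or the next point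
satisfies P
(second) or does not (first; the point after t+1 steps is unique). -/
theorem chain_cases (hR : ∀ a b c, R a b → R a c → b = c) (P : V → Prop) (u : V) (t : ℕ) :
    (∃ v, Rn R t u v ∧ ∀ m w, 1 ≤ m → m ≤ t → Rn R m u w → ¬ P w) ∨
    (∃ m w, 1 ≤ m ∧ m ≤ t ∧ Rn R m u w ∧ P w) ∨
    (∃ m w, m < t ∧ Rn R m u w ∧ (∀ v, ¬ R w v) ∧
      ∀ m' w', 1 ≤ m' → m' ≤ m → Rn R m' u w' → ¬ P w') := by
  induction t with
  | zero => exact Or.inl ⟨u, rfl, fun m w h1 h2 _ => by omega⟩
  | succ t ih =>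
    rcases ih with ⟨v, hv, hP⟩ | ⟨m, w, h1, h2, h3, h4⟩ | ⟨m, w, h1, h2, h3, h4⟩
    · by_cases hw : ∃ w, R v w
      · obtain ⟨w, hw⟩ := hw
        have hw' : Rn R (t + 1) u w := ⟨v, hv, hw⟩
        by_cases hPw : P w
        · exact Or.inr (Or.inl ⟨t + 1, w, by omega, le_rfl, hw', hPw⟩)
        · refine Or.inl ⟨w, hw', fun m x h1 h2 h3 => ?_⟩
          rcases Nat.lt_or_ge t m with h | h
          · obtain rfl : m = t + 1 := by omega
            rw [← Rn_unique hR hw' h3]
            exact hPw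
          · exact hP m x h1 h h3
      · push Not at hw
        exact Or.inr (Or.inr ⟨t, v, by omega, hv, hw, hP⟩)
    · exact Or.inr (Or.inl ⟨m, w, h1, by omega, h3, h4⟩)
    · exact Or.inr (Or.inr ⟨m, w, by omega, h2, h3, h4⟩)

end UC
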