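import Pool.Agent.UC.Good_Forest
import Pool.Agent.UC.Good_Chain

open Finset

namespace UC

variable {ι α : Type} [DecidableEq ι] {X : Sys ι α} {N C0 : ℕ} {r : α → ℝ} {down : α → ι → Prop}
  {S : Finset ι} {β : Bool}

/-- A start v of type (p,q): a node with nothing of S below it and down v. -/
structure Sys.St (X : Sys ι α) (N : ℕ) (down : α → ι → Prop) (S : Finset ι) (β : Bool) (p q : ℕ)
    (v : α × ι) : Prop where
  nd : X.Nd N S β v
  neg : X.neg down S β v = {v.2}
  cp : ((X.supp v.1).filter (fun i => X.col i = β)).card = p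
  cq : ((X.supp v.1).filter (fun i => X.col i ≠ β)).card = q

namespace GoodStarts

theorem fib_le (hX : X.Chn N C0 r down) (T' : Finset ι) (h : ι) (Z : Finset (α × ι))
    (hZ : ∀ z ∈ Z, X.Nd N S β z ∧ X.base z = T' ∧ z.2 = h) : Z.card ≤ C0 := by
  classical
  refine le_trans ?_ (hX.fib (insert h T'))
  refine Finset.card_le_card_of_injOn Prod.fst ?_ ?_
  · intro z hz
    obtain ⟨h1, h2, h3⟩ := hZ z hz
    rw [Finset.mem_coe, Finset.mem_filter]
    refine ⟨h1.memO, ?_⟩
    rw [supp_eq h1, h2, h3]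
  · intro z hz z' hz' he
    exact Prod.ext he ((hZ z hz).2.2.trans (hZ z' hz').2.2.symm)

theorem inj_le (hX : X.Chn N C0 r down) (U : Set (α × ι)) (ν : Finset ι) (T' : Finset ι)
    (hU : ∀ u ∈ U, X.base u = T' ∧ X.neg down S β u = ν)
    (hanti : ∀ u ∈ U, ∀ u' ∈ U, ¬ Relation.TransGen (X.R N r down S β) u u')
    (Z : Finset (α × ι)) (hinj : ∀ z ∈ Z, ∀ z' ∈ Z, z.2 = z'.2 → z = z')
    (hZ : ∀ z ∈ Z, X.Nd N S β z ∧ X.neg down S β z = {z.2} ∧
      ∃ n u, u ∈ U ∧ Rn (X.R N r down S β) n z u ∧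
        ∀ m v, 1 ≤ m → m ≤ n → Rn (X.R N r down S β) m z v → v.2 ≠ z.2) :
    Z.card ≤ GG C0 := by
  classical
  have hR : ∀ a b c, X.R N r down S β a b → X.R N r down S β a c → b = c :=
    fun a b c h h' => R_unique a b c h h'
  refine forest (Relation.TransGen (X.R N r down S β)) (fun u v w h h' => h.trans h')
    (fun u v v' h h' => transGen_cmp hR u v v' h h') Prod.snd C0
    ((X.O ×ˢ S).filter (fun v => X.Nd N S β v ∧ X.base v = T' ∧
      ∃ u ∈ U, Relation.ReflTransGen (X.R N r down S β) v u)) Z ?_ ?_ ?_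
  · intro z hz v hv hlt
    rw [Finset.mem_filter] at hv
    obtain ⟨-, -, -, u', hu', hvu'⟩ := hv
    obtain ⟨m, hm, hzv⟩ := exists_Rn_of_transGen hlt
    obtain ⟨-, -, n, u, hu, hzu, hav⟩ := hZ z hz
    by_cases hmn : m ≤ n
    · exact hav m v hm hmn hzv
    · exfalso
      push Not at hmn
      obtain ⟨k, rfl⟩ := Nat.exists_eq_add_of_lt hmn
      obtain ⟨b, hzb, hbv⟩ := Rn_split (m := n) (n := k + 1) (by rwa [← add_assoc])
      have hbu : b = u := Rn_unique hR hzb hzu
      subst hbu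
      exact hanti b hu u' hu' ((Rn_transGen (by omega) hbv).trans_left hvu')
  · intro z hz z' hz' hne
    obtain ⟨-, hneg, n, u, hu, hzu, hav⟩ := hZ z hz
    obtain ⟨hnd', hneg', n', u', hu', hzu', hav'⟩ := hZ z' hz'
    have hlab : z.2 ≠ z'.2 := fun h => hne (hinj z hz z' hz' h)
    have h1 : z.2 ∈ X.neg down S β u :=
      Rn_neg_keep (by rw [hneg]; exact Finset.mem_singleton_self _) hzu
        (fun m w hm hmn hw => hav m w hm hmn hw)
    have h2 : z.2 ∈ X.neg down S β u' := by
      rw [(hU u' hu').2, ← (hU u hu).2]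
      exact h1
    have h3 : z.2 ∉ X.neg down S β z' := by
      rw [hneg', Finset.mem_singleton]
      exact hlab
    obtain ⟨m, w, hm, hmn, hw, hw2, hwu⟩ := Rn_neg_change hzu' h3 h2
    have hlt := Rn_transGen hm hw
    obtain ⟨hndw, hbw⟩ := transGen_nd hlt
    refine ⟨w, ?_, hlt, hw2⟩
    rw [Finset.mem_filter, Finset.mem_product]
    refine ⟨⟨hndw.memO, hndw.sub hndw.mem⟩, hndw, ?_, u', hu', hwu⟩
    rw [hbw, ← Rn_base hzu', (hU u' hu').1]
  · intro z hz
    refine fib_le (N := N) (S := S) (β := β) hX T' z.2 _ ?_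
    intro v hv
    rw [Finset.mem_filter, Finset.mem_filter] at hv
    exact ⟨hv.1.2.1, hv.1.2.2.1, hv.2⟩

end GoodStarts

/-- Forest lemma for the chains.  Z is a set of starts on the stratum T' whose chains pass through
the
antichain U, on which neg is constant, without meeting their own label again before.
Proof.  Write R, lt = TransGen R (transitive, transGen_cmp, irreflexive by transGen_lt).  First let
the labels
(second components) of Z be different: claim Z.card ≤ GG C0.  Apply `forest` with lt, lab =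
Prod.snd, c = C0 and
W = {v ∈ X.O ×ˢ S : Nd v, base v = T', ∃ u ∈ U, ReflTransGen R v u}.
 h1: z in Z, lt z v, v in W, ReflTransGen R v u'.  Rn m z v, 1 ≤ m (exists_Rn_of_transGen); Rn n z
u, u in U.
   If n < m: Rn_split and Rn_unique give TransGen R u v, so TransGen R u u', against hanti; so m ≤
n and
   v.2 ≠ z.2 by hZ.
 h2: z ≠ z' in Z, Rn n z u, Rn n' z' u'.  z.2 ∈ neg z = {z.2}, so z.2 ∈ neg u = neg u'
(Rn_neg_keep), and
   z.2 ∉ neg z' = {z'.2}.  Rn_neg_change gives Rn m z' w, 1 ≤ m ≤ n', w.2 = z.2, ReflTransGen R w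
u'.  w in W:
   transGen_nd, base w = base z' = base u' = T', w.2 ∈ supp w.1 ⊆ S.
 h4: the elements v = (o,h) of W with fixed h have supp o = insert h T' (supp_eq): v ↦ v.1 is
injective on them with
   values in {o ∈ X.O : supp o = insert h T'}: at most C0 (hX.fib).
General Z: choose one element of Z for every label in Z.image Prod.snd (the chosen set satisfies
the hypotheses):
(Z.image Prod.snd).card ≤ GG C0; and the elements of Z with a given label h have supp v.1 = insert
h T' (base z =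
base u = T'), at most C0 of them.  Z.card ≤ C0 * (image).card (card_le_mul_card_image). -/
theorem starts_le (hX : X.Chn N C0 r down) (U : Set (α × ι)) (ν : Finset ι) (T' : Finset ι)
    (hU : ∀ u ∈ U, X.base u = T' ∧ X.neg down S β u = ν)
    (hanti : ∀ u ∈ U, ∀ u' ∈ U, ¬ Relation.TransGen (X.R N r down S β) u u')
    (Z : Finset (α × ι))
    (hZ : ∀ z ∈ Z, X.Nd N S β z ∧ X.neg down S β z = {z.2} ∧
      ∃ n u, u ∈ U ∧ Rn (X.R N r down S β) n z u ∧
        ∀ m v, 1 ≤ m → m ≤ n → Rn (X.R N r down S β) m z v → v.2 ≠ z.2) :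
    Z.card ≤ C0 * GG C0 := by
  classical
  rcases Z.eq_empty_or_nonempty with rfl | ⟨z0, hz0⟩
  · simp
  haveI : Nonempty (α × ι) := ⟨z0⟩
  have hch : ∀ h ∈ Z.image Prod.snd, ∃ z ∈ Z, z.2 = h := fun h hh => by
    obtain ⟨z, hz, rfl⟩ := Finset.mem_image.mp hh
    exact ⟨z, hz, rfl⟩
  choose! g hg1 hg2 using hch
  have hginj : Set.InjOn g ((Z.image Prod.snd : Finset ι) : Set ι) := by
    intro h hh h' hh' he
    rw [← hg2 h hh, ← hg2 h' hh', he]
  have hcard : ((Z.image Prod.snd).image g).card = (Z.image Prod.snd).card :=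
    Finset.card_image_of_injOn hginj
  have h1 : ((Z.image Prod.snd).image g).card ≤ GG C0 := by
    refine GoodStarts.inj_le hX U ν T' hU hanti _ ?_ ?_
    · intro z hz z' hz' he
      obtain ⟨h, hh, rfl⟩ := Finset.mem_image.mp hz
      obtain ⟨h', hh', rfl⟩ := Finset.mem_image.mp hz'
      rw [hg2 h hh, hg2 h' hh'] at he
      rw [he]
    · intro z hz
      obtain ⟨h, hh, rfl⟩ := Finset.mem_image.mp hz
      exact hZ _ (hg1 h hh)
  rw [hcard] at h1
  have h2 : Z.card ≤ C0 * (Z.image Prod.snd).card := by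
    refine Finset.card_le_mul_card_image _ _ ?_
    intro h _
    refine GoodStarts.fib_le (N := N) (S := S) (β := β) hX T' h _ ?_
    intro z hz
    rw [Finset.mem_filter] at hz
    obtain ⟨hnd, -, n, u, hu, hzu, -⟩ := hZ z hz.1
    exact ⟨hnd, by rw [← Rn_base hzu, (hU u hu).1], hz.2⟩
  exact h2.trans (Nat.mul_le_mul_left _ h1)

end UC
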