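import Pool.Agent.UC.Good_Tie
import Pool.Agent.UC.Good_Defs

open Finset Metric

namespace UC

section
variable {N : ℕ} {ι : Type}

/-- The objects of cardinality N, N+1, N+2. -/
def Obs (Ω : Set (E N)) (φ : ι → E N → ℝ) (col : ι → Bool) : Set (Finset ι × E N) :=
  {o | IsObj Ω φ col o.1 o.2 ∧ N ≤ o.1.card ∧ o.1.card ≤ N + 2}

open Classical in
/-- The system of the objects O. -/
noncomputable def mkSys [Fintype ι] (φ : ι → E N → ℝ) (col : ι → Bool)
    (O : Finset (Finset ι × E N)) : Sys ι (Finset ι × E N) where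
  col := col
  O := O
  supp := fun o => o.1
  bel := fun o => Finset.univ.filter (fun h => Bel φ col o.1 h o.2)
  idx := fun o => (O.filter (fun o' => o'.1 = o.1 ∧ rr o'.2 < rr o.2)).card

variable {Ω : Set (E N)} {φ : ι → E N → ℝ} {col : ι → Bool} {C0 : ℕ}

/-- Proof: Obs is contained in the union over the finitely many T of {T} × Crit(T), finite by
obj_crit and hG.fin. -/
theorem obs_finite [Fintype ι] (hG : GP Ω φ col C0) : (Obs Ω φ col).Finite := by
  classical
  have h1 : (⋃ T : Finset ι, (fun y : E N => (T, y)) ''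
      {y | IsObj Ω φ col T y ∧ N ≤ T.card ∧ T.card ≤ N + 2}).Finite := by
    refine Set.finite_iUnion fun T => Set.Finite.image _ ?_
    by_cases hT : Both col T ∧ N ≤ T.card ∧ T.card ≤ N + 2
    · refine (hG.fin T hT.1 hT.2.1 hT.2.2).1.subset ?_
      rintro y ⟨h1, -, -⟩
      exact ⟨h1.2.1, obj_crit hG h1⟩
    · refine Set.finite_empty.subset ?_
      rintro y ⟨h1, h2, h3⟩
      exact hT ⟨h1.1, h2, h3⟩
  refine h1.subset ?_
  rintro ⟨T, y⟩ ho
  exact Set.mem_iUnion.2 ⟨T, y, ho, rfl⟩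

/-- Proof: o ↦ o.2 is injective on the objects with support T, with values in the critical points
(obj_crit, hG.fin). -/
theorem obs_fib (hG : GP Ω φ col C0) (O : Finset (Finset ι × E N)) (hO : ∀ o ∈ O, o ∈ Obs Ω φ col)
    (T : Finset ι) [DecidablePred (fun o : Finset ι × E N => o.1 = T)] :
    (O.filter (fun o => o.1 = T)).card ≤ C0 := by
  classical
  by_cases hne : (O.filter (fun o => o.1 = T)).Nonempty
  · obtain ⟨o, ho⟩ := hne
    obtain ⟨hoO, hoT⟩ := Finset.mem_filter.1 ho
    obtain ⟨h1, h2, h3⟩ := hO o hoO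
    rw [hoT] at h1 h2 h3
    have hfin := hG.fin T h1.1 h2 h3
    refine le_trans ?_ hfin.2
    rw [← Set.ncard_coe_finset]
    refine Set.ncard_le_ncard_of_injOn (fun o : Finset ι × E N => o.2) ?_ ?_ hfin.1
    · intro o' ho'
      obtain ⟨h4, h5⟩ := Finset.mem_filter.1 (Finset.mem_coe.1 ho')
      have h6 := (hO o' h4).1
      rw [h5] at h6
      exact ⟨h6.2.1, obj_crit hG h6⟩
    · intro a ha b hb hab
      have h4 := (Finset.mem_filter.1 (Finset.mem_coe.1 ha)).2
      have h5 := (Finset.mem_filter.1 (Finset.mem_coe.1 hb)).2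
      exact Prod.ext (h4.trans h5.symm) hab
  · rw [Finset.not_nonempty_iff_eq_empty] at hne
    rw [hne, Finset.card_empty]
    exact Nat.zero_le _

/-- The index is < C0: the objects counted have support o.1 and are different from o (obs_fib). -/
theorem obs_idx [Fintype ι] (hG : GP Ω φ col C0) (O : Finset (Finset ι × E N))
    (hO : ∀ o ∈ O, o ∈ Obs Ω φ col) (o : Finset ι × E N) (ho : o ∈ O) :
    (mkSys φ col O).idx o < C0 := by
  classical
  have h1 := obs_fib hG O hO o.1
  refine lt_of_lt_of_le ?_ h1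
  change (O.filter (fun o' => o'.1 = o.1 ∧ rr o'.2 < rr o.2)).card < _
  refine Finset.card_lt_card ?_
  rw [Finset.ssubset_iff_of_subset]
  · exact ⟨o, Finset.mem_filter.2 ⟨ho, rfl⟩, fun h =>
      absurd (Finset.mem_filter.1 h).2.2 (lt_irrefl _)⟩
  · intro o' ho'
    obtain ⟨h2, h3, -⟩ := Finset.mem_filter.1 ho'
    exact Finset.mem_filter.2 ⟨h2, h3⟩

theorem obs_idx_mono [Fintype ι] (φ : ι → E N → ℝ) (col : ι → Bool) (O : Finset (Finset ι × E N))
    (o o' : Finset ι × E N) (ho' : o' ∈ O) (h : o'.1 = o.1)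
    (hr : rr o'.2 < rr o.2) : (mkSys φ col O).idx o' < (mkSys φ col O).idx o := by
  classical
  change (O.filter (fun o'' => o''.1 = o'.1 ∧ rr o''.2 < rr o'.2)).card <
    (O.filter (fun o'' => o''.1 = o.1 ∧ rr o''.2 < rr o.2)).card
  refine Finset.card_lt_card ?_
  rw [Finset.ssubset_iff_of_subset]
  · exact ⟨o', Finset.mem_filter.2 ⟨ho', h, hr⟩, fun h =>
      absurd (Finset.mem_filter.1 h).2.2 (lt_irrefl _)⟩
  · intro o'' ho''
    obtain ⟨h2, h3, h4⟩ := Finset.mem_filter.1 ho''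
    exact Finset.mem_filter.2 ⟨h2, h3.trans h, h4.trans hr⟩

theorem obs_disj [Fintype ι] [DecidableEq ι] (O : Finset (Finset ι × E N))
    (hO : ∀ o ∈ O, o ∈ Obs Ω φ col) (o : Finset ι × E N) (ho : o ∈ O) :
    Disjoint ((mkSys φ col O).supp o) ((mkSys φ col O).bel o) := by
  rw [Finset.disjoint_left]
  intro h hs hb
  have hb' : Bel φ col o.1 h o.2 := by
    simp only [mkSys, Finset.mem_filter] at hb
    exact hb.2
  exact not_bel_of_mem (hO o ho).1.2.1 hs hb'

end

end UC
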