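import Pool.Agent.UC.Good_Lagr

open Finset Metric

namespace UC

variable {N : ℕ} {ι : Type} {Ω : Set (E N)} {φ : ι → E N → ℝ} {col : ι → Bool} {C0 : ℕ}

/-- Regularity bounds the cardinality of T.
Proof.  If N + 3 ≤ T.card the linear map (T → ℝ) → (Bool → ℝ) × (E N →L[ℝ] ℝ), c ↦ (sums over the
colours,
Σ c i dφ i) goes to a space of dimension N + 2 and has a nonzero kernel element, contradicting
hG.reg. -/
theorem card_le_of_gam (hG : GP Ω φ col C0) {T : Finset ι} (hT : Both col T) {y : E N}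
    (hy : y ∈ Gam Ω φ col T) : T.card ≤ N + 2 := by
  classical
  let v : T → (Bool → ℝ) × (E N →L[ℝ] ℝ) := fun i =>
    (Pi.single (col (i : ι)) 1, fderiv ℝ (φ (i : ι)) y)
  have hv : LinearIndependent ℝ v := by
    rw [Fintype.linearIndependent_iff]
    intro g hg i
    let c : ι → ℝ := fun i => if h : i ∈ T then g ⟨i, h⟩ else 0
    have hc : ∀ i : T, c (i : ι) = g i := fun i => dif_pos i.2
    have h1 : ∀ β : Bool, ∑ i : T, g i * (Pi.single (col (i : ι)) 1 : Bool → ℝ) β = 0 := by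
      intro β
      have h := congrArg (fun q : (Bool → ℝ) × (E N →L[ℝ] ℝ) => q.1 β) hg
      simp only [v, Prod.fst_sum, Prod.smul_mk, Finset.sum_apply, Pi.smul_apply, smul_eq_mul,
        Prod.fst_zero, Pi.zero_apply] at h
      exact h
    have h2 : ∑ i : T, g i • fderiv ℝ (φ (i : ι)) y = 0 := by
      have h := congrArg (fun q : (Bool → ℝ) × (E N →L[ℝ] ℝ) => q.2) hg
      simp only [v, Prod.snd_sum, Prod.smul_mk, Prod.snd_zero] at h
      exact h
    have hcoef : Coef col T c := by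
      refine ⟨fun i hi => dif_neg hi, fun β => ?_⟩
      rw [← h1 β, Finset.sum_filter, ← Finset.sum_coe_sort T]
      refine Finset.sum_congr rfl fun i _ => ?_
      rw [Pi.single_apply, hc]
      by_cases hb : col (i : ι) = β
      · rw [if_pos hb, if_pos hb.symm, mul_one]
      · rw [if_neg hb, if_neg (fun h => hb h.symm), mul_zero]
    have hsum : ∑ i ∈ T, c i • fderiv ℝ (φ i) y = 0 := by
      rw [← h2, ← Finset.sum_coe_sort T]
      refine Finset.sum_congr rfl fun i _ => ?_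
      rw [hc]
    rw [← hc]
    exact hG.reg T hT y hy c hcoef hsum i
  have hle := hv.fintype_card_le_finrank
  have hfr : Module.finrank ℝ (E N →L[ℝ] ℝ) = N := by
    have h1 : Module.finrank ℝ (E N →L[ℝ] ℝ) = Module.finrank ℝ (E N) :=
      (LinearMap.toContinuousLinearMap (𝕜 := ℝ) (E := E N) (F' := ℝ)).symm.finrank_eq.trans
        Subspace.dual_finrank_eq
    rw [h1, finrank_euclideanSpace, Fintype.card_fin]
  rw [Module.finrank_prod, hfr, Module.finrank_fintype_fun_eq_card, Fintype.card_bool,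
    Fintype.card_coe] at hle
  omega

/-- Exact ties.
Proof.  Suppose Tie φ col T h z, h ∉ T.  Then z ∈ Gam Ω φ col (insert h T) (T has members of the
colour of h, all with the
same value at z).  So T.card + 1 ≤ N + 2 by card_le_of_gam; T.card + 1 is N + 1 or N + 2.  The
multipliers c of (T,z)
(obj_crit) vanish at h, and are multipliers for insert h T; hG.mult says c h ≠ 0 (T has another
member of the colour of h). -/
theorem no_tie (hG : GP Ω φ col C0) {T : Finset ι} {z : E N} (ho : IsObj Ω φ col T z)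
    (hN : N ≤ T.card) {h : ι} (hh : h ∉ T) : ¬ Tie φ col T h z := by
  classical
  rintro ⟨i0, hi0, hc0, hv0⟩
  obtain ⟨hT, hz, -⟩ := id ho
  have hval : ∀ j ∈ T, col j = col h → φ j z = φ h z := fun j hj hcj => by
    rw [hv0]
    exact hz.2 j hj i0 hi0 (hcj.trans hc0.symm)
  have hB : Both col (insert h T) := fun β => by
    obtain ⟨i, hi, hc⟩ := hT β
    exact ⟨i, Finset.mem_insert_of_mem hi, hc⟩
  have hz' : z ∈ Gam Ω φ col (insert h T) := by
    refine ⟨hz.1, fun i hi j hj hij => ?_⟩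
    rcases Finset.mem_insert.1 hi with hi1 | hi1
    · rcases Finset.mem_insert.1 hj with hj1 | hj1
      · rw [hi1, hj1]
      · rw [hi1] at hij ⊢
        exact (hval j hj1 hij.symm).symm
    · rcases Finset.mem_insert.1 hj with hj1 | hj1
      · rw [hj1] at hij ⊢
        exact hval i hi1 hij
      · exact hz.2 i hi1 j hj1 hij
  have hcard := card_le_of_gam hG hB hz'
  rw [Finset.card_insert_of_notMem hh] at hcard
  obtain ⟨c, hc⟩ := obj_crit hG ho
  have hch : c h = 0 := hc.1.1 h hh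
  have hm : IsMult φ col (insert h T) z c := by
    refine ⟨⟨fun i hi => hc.1.1 i fun h1 => hi (Finset.mem_insert_of_mem h1), fun β => ?_⟩, ?_⟩
    · rw [Finset.sum_filter, Finset.sum_insert hh, hch, ite_self, zero_add, ← Finset.sum_filter]
      exact hc.1.2 β
    · rw [Finset.sum_insert hh, hch, zero_smul, zero_add]
      exact hc.2
  refine hG.mult (insert h T) hB ?_ z hz' c hm h (Finset.mem_insert_self _ _)
    ⟨i0, Finset.mem_insert_of_mem hi0, fun h1 => hh (h1 ▸ hi0), hc0⟩ hch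
  rw [Finset.card_insert_of_notMem hh]
  omega

/-- Some multiplier of colour β is positive.
Proof.  T.card is N + 1 or N + 2 (card_le_of_gam); multipliers c exist (obj_crit); for i in T of
colour β, c i ≠ 0 by hG.mult (there
is another member of colour β); their sum is zero, so one is positive. -/
theorem exists_pos (hG : GP Ω φ col C0) {T : Finset ι} {z : E N} (ho : IsObj Ω φ col T z)
    (hN : N + 1 ≤ T.card) (β : Bool) (h2 : 2 ≤ (T.filter (fun i => col i = β)).card) :
    ∃ i ∈ T, col i = β ∧ ∃ c, IsMult φ col T z c ∧ 0 < c i := by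
  classical
  obtain ⟨hT, hz, -⟩ := id ho
  have hcard := card_le_of_gam hG hT hz
  obtain ⟨c, hc⟩ := obj_crit hG ho
  obtain ⟨i, hi⟩ : (T.filter (fun i => col i = β)).Nonempty := by
    rw [← Finset.card_pos]
    omega
  obtain ⟨j, hj, hji⟩ := Finset.exists_mem_ne (s := T.filter (fun i => col i = β)) (by omega) i
  obtain ⟨hiT, hiβ⟩ := Finset.mem_filter.1 hi
  obtain ⟨hjT, hjβ⟩ := Finset.mem_filter.1 hj
  have hne : c i ≠ 0 := hG.mult T hT (by omega) z hz c hc i hiT
    ⟨j, hjT, hji, hjβ.trans hiβ.symm⟩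
  obtain ⟨k, hk, hpos⟩ := Finset.exists_pos_of_sum_zero_of_exists_nonzero c (hc.1.2 β)
    ⟨i, hi, hne⟩
  obtain ⟨hkT, hkβ⟩ := Finset.mem_filter.1 hk
  exact ⟨k, hkT, hkβ, c, hc, hpos⟩

theorem bel_or_tie_or_abv {T : Finset ι} (hT : Both col T) (h : ι) (z : E N) :
    Bel φ col T h z ∨ Tie φ col T h z ∨ Abv φ col T h z := by
  obtain ⟨i, hi, hc⟩ := hT (col h)
  rcases lt_trichotomy (φ h z) (φ i z) with h1 | h1 | h1
  · exact Or.inl ⟨i, hi, hc, h1⟩
  · exact Or.inr (Or.inl ⟨i, hi, hc, h1⟩)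
  · exact Or.inr (Or.inr ⟨i, hi, hc, h1⟩)

theorem not_abv_of_bel {T : Finset ι} {h : ι} {z : E N} (hz : z ∈ Gam Ω φ col T)
    (hb : Bel φ col T h z) : ¬ Abv φ col T h z := by
  obtain ⟨i, hi, hci, h1⟩ := hb
  rintro ⟨j, hj, hcj, h2⟩
  rw [hz.2 i hi j hj (hci.trans hcj.symm)] at h1
  exact lt_asymm h1 h2

theorem not_tie_of_bel {T : Finset ι} {h : ι} {z : E N} (hz : z ∈ Gam Ω φ col T)
    (hb : Bel φ col T h z) : ¬ Tie φ col T h z := by
  obtain ⟨i, hi, hci, h1⟩ := hb
  rintro ⟨j, hj, hcj, h2⟩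
  rw [hz.2 i hi j hj (hci.trans hcj.symm)] at h1
  exact h1.ne h2

theorem not_bel_of_mem {T : Finset ι} {h : ι} {z : E N} (hz : z ∈ Gam Ω φ col T) (hh : h ∈ T) :
    ¬ Bel φ col T h z := by
  rintro ⟨i, hi, hci, h1⟩
  exact h1.ne (hz.2 h hh i hi hci.symm)

/-- Bel does not depend on the tie set (for points of the larger tie set). -/
theorem bel_iff_of_sub {T T' : Finset ι} (hT : Both col T) (hTT : T ⊆ T') {h : ι} {z : E N}
    (hz : z ∈ Gam Ω φ col T') : Bel φ col T h z ↔ Bel φ col T' h z := by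
  constructor
  · rintro ⟨i, hi, hci, h1⟩
    exact ⟨i, hTT hi, hci, h1⟩
  · rintro ⟨i, hi, hci, h1⟩
    obtain ⟨j, hj, hcj⟩ := hT (col h)
    refine ⟨j, hj, hcj, ?_⟩
    rw [hz.2 j (hTT hj) i hi (hcj.trans hci.symm)]
    exact h1

theorem abv_iff_of_sub {T T' : Finset ι} (hT : Both col T) (hTT : T ⊆ T') {h : ι} {z : E N}
    (hz : z ∈ Gam Ω φ col T') : Abv φ col T h z ↔ Abv φ col T' h z := by
  constructor
  · rintro ⟨i, hi, hci, h1⟩
    exact ⟨i, hTT hi, hci, h1⟩
  · rintro ⟨i, hi, hci, h1⟩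
    obtain ⟨j, hj, hcj⟩ := hT (col h)
    refine ⟨j, hj, hcj, ?_⟩
    rw [hz.2 j (hTT hj) i hi (hcj.trans hci.symm)]
    exact h1

end UC
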