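import Pool.Agent.UC.Defs

/-!
# UC part P5 (NEXT lemma, sandwich lemmas): definitions

A base `b` of a two-coloured set T' picks one function of each colour; `tie φ col b i y = φ i y - φ (b (col i)) y`.
On Gam T' the value φ (b β) y is the common value of the functions of T' of colour β.
-/

open Finset Metric

namespace UC

variable {N : ℕ} {ι : Type}

/-- b picks a member of each colour in T. -/
def IsBase (col : ι → Bool) (b : Bool → ι) (T : Finset ι) : Prop := ∀ β, b β ∈ T ∧ col (b β) = β

/-- The difference of φ i and the base function of its colour. -/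
def tie (φ : ι → E N → ℝ) (col : ι → Bool) (b : Bool → ι) (i : ι) (y : E N) : ℝ :=
  φ i y - φ (b (col i)) y

open Classical in
/-- The members of T which are not base elements. -/
noncomputable def nb (col : ι → Bool) (b : Bool → ι) (T : Finset ι) : Finset ι :=
  T.filter (fun i => i ≠ b (col i))

theorem mem_nb {ι : Type} {col : ι → Bool} {b : Bool → ι} {T : Finset ι} {i : ι} :
    i ∈ nb col b T ↔ i ∈ T ∧ i ≠ b (col i) := by
  classical
  unfold nb
  exact Finset.mem_filter

/-- The points of the stratum Gam T' in O at which no function of S outside T' is tied. -/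
def Free (Ω : Set (E N)) (φ : ι → E N → ℝ) (col : ι → Bool) (b : Bool → ι) (S T' : Finset ι)
    (O : Set (E N)) : Set (E N) :=
  {y | y ∈ Gam Ω φ col T' ∧ y ∈ O ∧ ∀ h ∈ S, h ∉ T' → tie φ col b h y ≠ 0}

end UC
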