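import Pool.Agent.UC.Next_Defs

open Finset Metric

namespace UC

/-- Linearly independent functionals separate: their joint map is onto. -/
theorem NextDir_surj {N : ℕ} {κ : Type} [Fintype κ] (f' : κ → (E N →L[ℝ] ℝ))
    (hli : LinearIndependent ℝ f') :
    Function.Surjective (ContinuousLinearMap.pi f' : E N →L[ℝ] (κ → ℝ)) := by
  classical
  rw [← ContinuousLinearMap.coe_coe, ← LinearMap.range_eq_top]
  by_contra hne
  obtain ⟨g, hg0, hg⟩ := Submodule.exists_le_ker_of_lt_top _ (lt_top_iff_ne_top.2 hne)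
  have hg1 : ∀ z : κ → ℝ, g z = ∑ i, z i * g (Pi.single i 1) := by
    intro z
    conv_lhs => rw [← Finset.univ_sum_single z]
    rw [map_sum]
    refine Finset.sum_congr rfl fun i _ => ?_
    have h1 : (Pi.single i (z i) : κ → ℝ) = z i • Pi.single i 1 := by
      rw [← Pi.single_smul, smul_eq_mul, mul_one]
    rw [h1, map_smul, smul_eq_mul]
  have hg2 : ∀ v : E N, ∑ i, f' i v * g (Pi.single i 1) = 0 := by
    intro v
    have h1 : g ((ContinuousLinearMap.pi f' : E N →L[ℝ] (κ → ℝ)) v) = 0 := hg ⟨v, rfl⟩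
    rw [hg1] at h1
    exact h1
  have h3 := Fintype.linearIndependent_iff.1 hli (fun i => g (Pi.single i 1)) (by
    ext v
    simp only [_root_.sum_apply, smul_apply, smul_eq_mul,
      zero_apply]
    rw [← hg2 v]
    exact Finset.sum_congr rfl fun i _ => mul_comm _ _)
  refine hg0 (LinearMap.ext fun z => ?_)
  rw [hg1, LinearMap.zero_apply]
  exact Finset.sum_eq_zero fun i _ => by rw [h3 i, mul_zero]

/-- DIR, the direction lemma.  If the derivatives f'_i at x are linearly independent and the derivative of ρ at x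
is sum a_i f'_i with sum a_i u_i < 0, then arbitrarily near x there is a point y with f_i(y) = f_i(x) + s u_i for
all i, for some s > 0, and ρ(y) < ρ(x).

Proof.  Φ y = (f_i y)_i : E N → (κ → ℝ) has the strict derivative Φ' = pi f' at x (hasStrictFDerivAt_pi), which is
surjective (linear independence of the components; compare Persist_A_surj in Pool/Agent/UC/Persist.lean).
LINEAR BOUND: there is C > 0 such that for all v close to Φ x there is y with Φ y = v and
‖y - x‖ ≤ C ‖v - Φ x‖.  (One way: Φ' has a continuous linear right inverse R (finite dimension; e.g.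
LinearMap.exists_rightInverse_of_surjective, toContinuousLinearMap); the map
Ψ z = Φ (x + R z), κ → ℝ → κ → ℝ, has strict derivative Φ' ∘ R = id at 0, so by the inverse function theorem
(HasStrictFDerivAt.to_localInverse / ContDiffAt not needed) there is a local inverse θ with strict derivative
id at Φ x, θ (Φ x) = 0, Ψ (θ v) = v near Φ x; put y = x + R (θ v), ‖θ v‖ ≤ 2 ‖v - Φ x‖ near Φ x.)
For s > 0 small let y_s be the point for v = Φ x + s u: ‖y_s - x‖ ≤ C s ‖u‖, so y_s → x and y_s is in V.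
ρ(y_s) - ρ(x) = ρ'(y_s - x) + o(s) and ρ'(y_s - x) = sum a_i f'_i (y_s - x) = sum a_i (f_i(y_s) - f_i(x) + o(s)) =
s sum a_i u_i + o(s) < 0 for small s.  (Simplest: apply the little-o property of HasFDerivAt to the function
ρ - sum a_i f_i, whose derivative at x is 0.) -/
theorem exists_dir {N : ℕ} {κ : Type} [Fintype κ] (f : κ → E N → ℝ) (f' : κ → (E N →L[ℝ] ℝ))
    (ρ : E N → ℝ) (x : E N) (hf : ∀ i, HasStrictFDerivAt (f i) (f' i) x)
    (hli : LinearIndependent ℝ f') (a : κ → ℝ) (hρ : HasFDerivAt ρ (∑ i, a i • f' i) x)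
    (u : κ → ℝ) (hu : ∑ i, a i * u i < 0) (V : Set (E N)) (hV : V ∈ nhds x) :
    ∃ y ∈ V, ∃ s : ℝ, 0 < s ∧ (∀ i, f i y = f i x + s * u i) ∧ ρ y < ρ x := by
  classical
  -- a linear right inverse
  obtain ⟨R₀, hR₀⟩ := LinearMap.exists_rightInverse_of_surjective
    ((ContinuousLinearMap.pi f' : E N →L[ℝ] (κ → ℝ)) : E N →ₗ[ℝ] (κ → ℝ))
    (LinearMap.range_eq_top.2 (NextDir_surj f' hli))
  have hR₁ : ∀ z i, f' i (R₀ z) = z i := fun z i => by
    have h := congrArg (fun L : (κ → ℝ) →ₗ[ℝ] (κ → ℝ) => L z i) hR₀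
    exact h
  obtain ⟨R, hR⟩ : ∃ R : (κ → ℝ) →L[ℝ] E N, ∀ z i, f' i (R z) = z i :=
    ⟨LinearMap.toContinuousLinearMap R₀, hR₁⟩
  -- the map of the z-space
  have hΨ : HasStrictFDerivAt (fun z : κ → ℝ => fun i => f i (x + R z))
      ((ContinuousLinearEquiv.refl ℝ (κ → ℝ) : (κ → ℝ) ≃L[ℝ] (κ → ℝ)) :
        (κ → ℝ) →L[ℝ] (κ → ℝ)) 0 := by
    rw [hasStrictFDerivAt_pi']
    intro i
    have h1 : HasStrictFDerivAt (fun z : κ → ℝ => x + R z) R 0 :=
      R.hasStrictFDerivAt.const_add x
    have h2 : HasStrictFDerivAt (f i) (f' i) ((fun z : κ → ℝ => x + R z) 0) := by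
      simp only [map_zero, add_zero]
      exact hf i
    have h3 := h2.comp (0 : κ → ℝ) h1
    refine h3.congr_fderiv ?_
    ext z
    exact hR z i
  obtain ⟨θ, hθ0, hθ1, hθ2⟩ : ∃ θ : (κ → ℝ) → (κ → ℝ), θ (fun i => f i x) = 0 ∧
      HasFDerivAt θ (ContinuousLinearMap.id ℝ (κ → ℝ)) (fun i => f i x) ∧
      ∀ᶠ v in nhds (fun i => f i x), ∀ i, f i (x + R (θ v)) = v i := by
    have e0 : (fun i => f i (x + R (0 : κ → ℝ))) = fun i => f i x := by
      simp only [map_zero, add_zero]
    refine ⟨hΨ.localInverse _ _ _, ?_, ?_, ?_⟩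
    · have h := hΨ.localInverse_apply_image
      rwa [e0] at h
    · have h := hΨ.to_localInverse.hasFDerivAt
      rw [e0] at h
      exact h
    · have h := hΨ.eventually_right_inverse
      rw [e0] at h
      filter_upwards [h] with v hv i
      exact congrFun hv i
  -- the curve
  have hv : HasDerivAt (fun s : ℝ => fun i => f i x + s * u i) u 0 := by
    rw [hasDerivAt_pi]
    intro i
    have h := ((hasDerivAt_id (0 : ℝ)).mul_const (u i)).const_add (f i x)
    simpa using h
  have ev0 : (fun i => f i x + (0 : ℝ) * u i) = fun i => f i x := by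
    funext i
    rw [zero_mul, add_zero]
  have hy : HasDerivAt (fun s : ℝ => x + R (θ (fun i => f i x + s * u i))) (R u) 0 := by
    have h1 : HasDerivAt (fun s : ℝ => θ (fun i => f i x + s * u i)) u 0 := by
      have h2 : HasFDerivAt θ (ContinuousLinearMap.id ℝ (κ → ℝ))
          (fun i => f i x + (0 : ℝ) * u i) := by
        rw [ev0]
        exact hθ1
      exact h2.comp_hasDerivAt (0 : ℝ) hv
    exact (R.hasFDerivAt.comp_hasDerivAt (0 : ℝ) h1).const_add x
  have hy0 : x + R (θ (fun i => f i x + (0 : ℝ) * u i)) = x := by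
    rw [ev0, hθ0, map_zero, add_zero]
  have hd : HasDerivAt (fun s : ℝ => ρ (x + R (θ (fun i => f i x + s * u i))))
      (∑ i, a i * u i) 0 := by
    have h2 : HasFDerivAt ρ (∑ i, a i • f' i) (x + R (θ (fun i => f i x + (0 : ℝ) * u i))) := by
      rw [hy0]
      exact hρ
    have h3 := h2.comp_hasDerivAt (0 : ℝ) hy
    refine h3.congr_deriv ?_
    simp only [_root_.sum_apply, smul_apply, smul_eq_mul, hR]
  -- eventually for small positive s
  have e1 : ∀ᶠ s : ℝ in nhdsWithin 0 (Set.Ioi 0),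
      x + R (θ (fun i => f i x + s * u i)) ∈ V := by
    have h := hy.continuousAt.tendsto
    simp only [hy0] at h
    exact (h.eventually hV).filter_mono nhdsWithin_le_nhds
  have e2 : ∀ᶠ s : ℝ in nhdsWithin 0 (Set.Ioi 0),
      ∀ i, f i (x + R (θ (fun j => f j x + s * u j))) = f i x + s * u i := by
    have h := hv.continuousAt.tendsto
    simp only [zero_mul, add_zero] at h
    exact (h.eventually hθ2).filter_mono nhdsWithin_le_nhds
  have e3 : ∀ᶠ s : ℝ in nhdsWithin 0 (Set.Ioi 0),
      ρ (x + R (θ (fun i => f i x + s * u i))) < ρ x := by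
    have h := (hasDerivAt_iff_tendsto_slope.1 hd).mono_left
      (nhdsWithin_mono (0 : ℝ) (fun s (hs : 0 < s) => ne_of_gt hs))
    have h1 := h.eventually (gt_mem_nhds hu)
    filter_upwards [h1, self_mem_nhdsWithin] with s hs hs0
    have hs0 : 0 < s := hs0
    rw [slope_def_field, hy0, sub_zero] at hs
    by_contra hcon
    push Not at hcon
    exact absurd hs (not_lt.2 (div_nonneg (by linarith) hs0.le))
  obtain ⟨s, h1, h2, h3, h4⟩ := (e1.and (e2.and (e3.and self_mem_nhdsWithin))).exists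
  exact ⟨_, h1, s, h4, h2, h3⟩

end UC
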