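import Pool.Agent.UC.Next_Reg

open Finset Metric

namespace UC

variable {N : ℕ} {ι : Type} {Ω : Set (E N)} {φ : ι → E N → ℝ} {col : ι → Bool} {b : Bool → ι}
  {C0 : ℕ}

private theorem nmult_sum {V : Type*} [AddCommGroup V] [Module ℝ V] {T : Finset ι}
    {c : ι → ℝ} (hc : Coef col T c) (f : ι → V) :
    ∑ i ∈ T, c i • f i = ∑ i ∈ nb col b T, c i • (f i - f (b (col i))) := by
  classical
  have h1 : ∑ i ∈ T, c i • f (b (col i)) = 0 := by
    rw [← Finset.sum_fiberwise T col (fun i => c i • f (b (col i)))]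
    refine Finset.sum_eq_zero fun β _ => ?_
    have h2 : ∑ i ∈ T with col i = β, c i • f (b (col i)) =
        ∑ i ∈ T with col i = β, c i • f (b β) := by
      refine Finset.sum_congr rfl fun i hi => ?_
      rw [(Finset.mem_filter.1 hi).2]
    rw [h2, ← Finset.sum_smul, hc.2 β, zero_smul]
  have h3 : ∑ i ∈ nb col b T, c i • (f i - f (b (col i))) =
      ∑ i ∈ T, c i • (f i - f (b (col i))) := by
    refine Finset.sum_subset (fun i hi => (mem_nb.1 hi).1) fun i hi hin => ?_
    have h4 : i = b (col i) := by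
      by_contra h
      exact hin (mem_nb.2 ⟨hi, h⟩)
    rw [← h4, sub_self, smul_zero]
  rw [h3]
  simp only [smul_sub]
  rw [Finset.sum_sub_distrib, h1, sub_zero]

/-- The derivative of rr in terms of multipliers and ties: if c are multipliers then
d rr = sum over the i in T which are not base elements of c_i d tie_i.
Proof: sum_{i in T} c_i dφ_i = sum_{i in T} c_i (dφ_i - dφ_{b (col i)}) + sum_β (sum_{T_β} c_i) dφ_{b β}; the last
sums are zero, and the terms of the base elements vanish (their tie is identically zero). -/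
theorem mult_tie (hG : GP Ω φ col C0) {T : Finset ι} (hb : IsBase col b T) {y : E N}
    (hy : y ∈ Gam Ω φ col T) {c : ι → ℝ} (hc : IsMult φ col T y c) :
    fderiv ℝ rr y =
      ∑ i : ↥(nb col b T), c i • fderiv ℝ (tie φ col b i) y := by
  rw [hc.2, nmult_sum (b := b) hc.1 (fun i => fderiv ℝ (φ i) y)]
  rw [Finset.sum_coe_sort (nb col b T) (fun i => c i • fderiv ℝ (tie φ col b i) y)]
  refine Finset.sum_congr rfl fun i _ => ?_
  rw [tie_fderiv hG i hy.1]

/-- Conversely such a representation gives multipliers.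
Proof: c i = a i for the i in the subtype, c (b β) = - (sum of the a_i of colour β), zero outside T. -/
theorem mult_of_tie (hG : GP Ω φ col C0) {T : Finset ι} (hb : IsBase col b T) {y : E N}
    (hy : y ∈ Gam Ω φ col T) (a : ↥(nb col b T) → ℝ)
    (ha : fderiv ℝ rr y = ∑ i, a i • fderiv ℝ (tie φ col b i) y) :
    ∃ c, IsMult φ col T y c ∧ ∀ i : ↥(nb col b T), c i = a i := by
  classical
  obtain ⟨g, hg⟩ : ∃ g : ι → ℝ, ∀ i : ↥(nb col b T), g i = a i :=
    ⟨fun i => if h : i ∈ nb col b T then a ⟨i, h⟩ else 0, fun i => by simp⟩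
  obtain ⟨c, hcd⟩ : ∃ c : ι → ℝ, c = fun i => if i ∈ nb col b T then g i else
      if i ∈ T then -(∑ j ∈ (nb col b T).filter (fun j => col j = col i), g j) else 0 := ⟨_, rfl⟩
  have hc1 : ∀ i ∈ nb col b T, c i = g i := fun i hi => by rw [hcd]; exact if_pos hi
  have hcoef : Coef col T c := by
    refine ⟨fun i hi => ?_, fun β => ?_⟩
    · have h1 : i ∉ nb col b T := fun h => hi (mem_nb.1 h).1
      rw [hcd]
      simp [h1, hi]
    · have hb1 : b β ∉ nb col b T := fun h => (mem_nb.1 h).2 (by rw [(hb β).2])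
      have h2 : T.filter (fun i => col i = β) =
          insert (b β) ((nb col b T).filter (fun i => col i = β)) := by
        ext i
        simp only [Finset.mem_filter, Finset.mem_insert, mem_nb]
        constructor
        · rintro ⟨h3, h4⟩
          by_cases h5 : i = b (col i)
          · left
            rw [h5, h4]
          · right
            exact ⟨⟨h3, h5⟩, h4⟩
        · rintro (h3 | ⟨⟨h3, _⟩, h4⟩)
          · rw [h3]
            exact hb β
          · exact ⟨h3, h4⟩
      rw [h2, Finset.sum_insert (fun h => hb1 (Finset.mem_filter.1 h).1)]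
      have h6 : c (b β) = -(∑ j ∈ (nb col b T).filter (fun j => col j = β), g j) := by
        rw [hcd]
        simp only [if_neg hb1, if_pos (hb β).1, (hb β).2]
      have h7 : ∑ i ∈ (nb col b T).filter (fun i => col i = β), c i =
          ∑ i ∈ (nb col b T).filter (fun i => col i = β), g i :=
        Finset.sum_congr rfl fun i hi => hc1 i (Finset.mem_filter.1 hi).1
      rw [h6, h7, neg_add_cancel]
  refine ⟨c, ⟨hcoef, ?_⟩, fun i => by rw [hc1 i i.2, hg i]⟩
  rw [nmult_sum (b := b) hcoef (fun i => fderiv ℝ (φ i) y), ha]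
  have h8 : ∑ i : ↥(nb col b T), a i • fderiv ℝ (tie φ col b i) y =
      ∑ i : ↥(nb col b T), c i • fderiv ℝ (tie φ col b i) y :=
    Finset.sum_congr rfl fun i _ => by rw [hc1 i i.2, hg i]
  rw [h8, Finset.sum_coe_sort (nb col b T) (fun i => c i • fderiv ℝ (tie φ col b i) y)]
  refine Finset.sum_congr rfl fun i _ => ?_
  rw [tie_fderiv hG i hy.1]

/-- The multipliers are unique (difference of two: hG.reg). -/
theorem mult_unique (hG : GP Ω φ col C0) {T : Finset ι} (hT : Both col T) {y : E N}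
    (hy : y ∈ Gam Ω φ col T) {c c' : ι → ℝ} (hc : IsMult φ col T y c)
    (hc' : IsMult φ col T y c') : c = c' := by
  have h1 : Coef col T (fun i => c i - c' i) := by
    refine ⟨fun i hi => by simp only [hc.1.1 i hi, hc'.1.1 i hi, sub_self], fun β => ?_⟩
    rw [Finset.sum_sub_distrib, hc.1.2 β, hc'.1.2 β, sub_self]
  have h2 : ∑ i ∈ T, (c i - c' i) • fderiv ℝ (φ i) y = 0 := by
    simp only [sub_smul]
    rw [Finset.sum_sub_distrib, ← hc.2, ← hc'.2, sub_self]
  funext i
  exact sub_eq_zero.1 (hG.reg T hT y hy _ h1 h2 i)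

/-- rr has a strict derivative everywhere. -/
theorem rr_hasStrict (y : E N) : HasStrictFDerivAt (rr : E N → ℝ) (fderiv ℝ rr y) y := by
  have h : ContDiffAt ℝ 1 (rr : E N → ℝ) y := (contDiff_norm_sq ℝ).contDiffAt
  exact h.hasStrictFDerivAt (by norm_num)

/-- Lagrange: at an object there are multipliers.
Proof.  y is a local minimum of rr on Gam T.  Let b be a base (exists_base), κ = the subtype of non-base elements.
Near y (Ω is open) Gam T = {z | tie_i z = tie_i y (= 0) for all i in κ}, so y is a local minimum of rr on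
{z | ∀ i, tie_i z = tie_i y} (IsLocalMinOn: eventually in nhdsWithin; intersect with Ω), so by
IsLocalExtrOn.exists_multipliers_of_hasStrictFDerivAt (rr_hasStrict, tie_hasStrict) there are Λ, Λ0, not both zero,
with sum Λ_i d tie_i + Λ0 d rr = 0.  Λ0 = 0 contradicts tie_linearIndependent, so d rr = sum (-Λ_i/Λ0) d tie_i, and
mult_of_tie applies. -/
theorem exists_mult (hG : GP Ω φ col C0) {T : Finset ι} {y : E N} (hy : IsObj Ω φ col T y) :
    ∃ c, IsMult φ col T y c := by
  classical
  obtain ⟨b, hb⟩ := exists_base hy.1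
  have hyG := hy.2.1
  have hyΩ : y ∈ Ω := hyG.1
  have hmin : IsLocalMinOn (rr : E N → ℝ)
      {x | ∀ i : ↥(nb col b T), tie φ col b i x = tie φ col b i y} y := by
    have h1 : ∀ᶠ z in nhds y, z ∈ Gam Ω φ col T → rr y ≤ rr z :=
      eventually_nhdsWithin_iff.1 hy.2.2
    have h2 : ∀ᶠ z in nhds y, z ∈ Ω := hG.isOpen.mem_nhds hyΩ
    refine eventually_nhdsWithin_iff.2 ?_
    filter_upwards [h1, h2] with z hz1 hz2 hz3
    refine hz1 ((mem_Gam_iff hb z).2 ⟨hz2, fun i hi => ?_⟩)
    by_cases h5 : i = b (col i)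
    · have h6 := tie_base (φ := φ) hb (col i) z
      rwa [← h5] at h6
    · have h6 := hz3 ⟨i, mem_nb.2 ⟨hi, h5⟩⟩
      rw [h6]
      exact ((mem_Gam_iff hb y).1 hyG).2 i hi
  obtain ⟨Λ, Λ0, hne, hsum⟩ := IsLocalExtrOn.exists_multipliers_of_hasStrictFDerivAt
    (Or.inl hmin : IsLocalExtrOn (rr : E N → ℝ)
      {x | ∀ i : ↥(nb col b T), tie φ col b i x = tie φ col b i y} y)
    (fun i => tie_hasStrict hG i hyΩ) (rr_hasStrict y)
  have hΛ0 : Λ0 ≠ 0 := by
    rintro rfl
    rw [zero_smul, add_zero] at hsum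
    have h1 := Fintype.linearIndependent_iff.1 (tie_linearIndependent hG hb hyG) Λ hsum
    exact hne (by
      rw [Prod.mk_eq_zero]
      exact ⟨funext h1, rfl⟩)
  obtain ⟨c, hc, -⟩ := mult_of_tie hG hb hyG (fun i => -(Λ i / Λ0)) (by
    have h1 : Λ0 • fderiv ℝ rr y = -∑ i, Λ i • fderiv ℝ (tie φ col b i) y :=
      eq_neg_of_add_eq_zero_right hsum
    have h2 : fderiv ℝ rr y = Λ0⁻¹ • (Λ0 • fderiv ℝ rr y) := by
      rw [smul_smul, inv_mul_cancel₀ hΛ0, one_smul]
    rw [h2, h1, smul_neg, Finset.smul_sum, ← Finset.sum_neg_distrib]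
    refine Finset.sum_congr rfl fun i _ => ?_
    rw [smul_smul, neg_smul, div_eq_inv_mul])
  exact ⟨c, hc⟩

end UC
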