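import Pool.Agent.UC.Next_Dir
import Pool.Agent.UC.Next_Mult

open Finset Metric

namespace UC

variable {N : ℕ} {ι : Type} [DecidableEq ι] {Ω : Set (E N)} {φ : ι → E N → ℝ} {col : ι → Bool}
  {b : Bool → ι} {C0 : ℕ}

/-- Objects have exact ties.
Proof.  Suppose Tie φ col T h z.  Then z is in Gam (insert h T) (mem_Gam_iff, tie_iff with a base of T, which is a
base of insert h T).  (insert h T).card = T.card + 1 ≤ N + 2 by card_le_of_mem_Gam, so T.card = N + 1.  By
exists_mult there are multipliers c for T at z; c is zero outside T, and it is also IsMult for insert h T (the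
term of h is zero; Coef: filter_insert).  hG.mult for insert h T (card N+2), i = h and a member j of T of the
colour of h (h.both) gives c h ≠ 0; contradiction. -/
theorem not_tie_of_obj (hG : GP Ω φ col C0) {T : Finset ι}
    (hcard : T.card = N + 1 ∨ T.card = N + 2) {z : E N} (hz : IsObj Ω φ col T z) {h : ι} (hh : h ∉ T) :
    ¬ Tie φ col T h z := by
  intro ht
  obtain ⟨b, hb⟩ := exists_base hz.1
  have hbU : IsBase col b (insert h T) := hb.mono (subset_insert h T)
  have hmem : z ∈ Gam Ω φ col (insert h T) := by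
    rw [mem_Gam_iff hbU]
    refine ⟨hz.2.1.1, fun i hi => ?_⟩
    rcases mem_insert.1 hi with rfl | hi
    · exact (tie_iff hb hz.2.1 i).1 ht
    · exact ((mem_Gam_iff hb z).1 hz.2.1).2 i hi
  have hle := card_le_of_mem_Gam hG hbU.both hmem
  have hins := card_insert_of_notMem hh
  obtain ⟨c, hc⟩ := exists_mult hG hz
  have hc0 : c h = 0 := hc.1.1 h hh
  have hmult : IsMult φ col (insert h T) z c := by
    refine ⟨⟨fun i hi => hc.1.1 i fun h1 => hi (mem_insert_of_mem h1), fun β => ?_⟩, ?_⟩
    · rw [filter_insert]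
      split_ifs with h1
      · rw [sum_insert (fun h2 => hh (mem_filter.1 h2).1), hc0, zero_add]
        exact hc.1.2 β
      · exact hc.1.2 β
    · rw [sum_insert hh, hc0, zero_smul, zero_add]
      exact hc.2
  obtain ⟨j, hj, hjc⟩ := hz.1 (col h)
  have hjh : j ≠ h := fun h1 => hh (h1 ▸ hj)
  exact hG.mult (insert h T) hbU.both (by omega) z hmem c hmult h (mem_insert_self h T)
    ⟨j, mem_insert_of_mem hj, hjh, hjc⟩ hc0

/-- The multiplier of the label of a node is not zero: hG.mult for insert h T'. -/
theorem mult_ne_zero (hG : GP Ω φ col C0) {T' : Finset ι} (hT : Both col T')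
    (hcard : T'.card = N ∨ T'.card = N + 1) {h : ι} (hh : h ∉ T') {w : E N}
    (hw : w ∈ Gam Ω φ col (insert h T')) {c : ι → ℝ} (hc : IsMult φ col (insert h T') w c) :
    c h ≠ 0 := by
  have hins := card_insert_of_notMem hh
  obtain ⟨j, hj, hjc⟩ := hT (col h)
  have hjh : j ≠ h := fun h1 => hh (h1 ▸ hj)
  have hboth : Both col (insert h T') := fun β => by
    obtain ⟨i, hi, hic⟩ := hT β
    exact ⟨i, mem_insert_of_mem hi, hic⟩
  exact hG.mult (insert h T') hboth (by omega) w hw c hc h (mem_insert_self h T')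
    ⟨j, mem_insert_of_mem hj, hjh, hjc⟩

/-- The direction lemma at a point of a stratum: let w be in Gam (insert h T'), c multipliers there and σ a number
with c h * σ < 0.  Then arbitrarily near w there is a point y of the stratum Gam T' with rr y < rr w at which the
tie of h has the sign of σ.
Proof.  exists_dir for the family tie_i, i in the subtype of the non-base elements of insert h T' (b is a base of
T', hence of insert h T', IsBase.mono; h is not a base element as h ∉ T'), ρ = rr, a = c (mult_tie; rr_hasStrict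
gives HasFDerivAt), u = σ at h and 0 elsewhere (sum a_i u_i = c h * σ), V ∩ Ω.  The point y satisfies tie_i y = 0 for
i in T' (base elements: tie_base) and tie_h y = s σ. -/
theorem exists_dir_tie (hG : GP Ω φ col C0) {T' : Finset ι} (hb : IsBase col b T') {h : ι}
    (hh : h ∉ T') {w : E N} (hw : w ∈ Gam Ω φ col (insert h T')) {c : ι → ℝ}
    (hc : IsMult φ col (insert h T') w c) {σ : ℝ} (hσ : c h * σ < 0) {V : Set (E N)}
    (hV : V ∈ nhds w) :
    ∃ y ∈ V, y ∈ Gam Ω φ col T' ∧ rr y < rr w ∧ 0 < σ * tie φ col b h y := by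
  have hbU : IsBase col b (insert h T') := hb.mono (subset_insert h T')
  have hne : h ≠ b (col h) := fun h1 => hh (h1 ▸ (hb (col h)).1)
  have hmemh : h ∈ nb col b (insert h T') := mem_nb.2 ⟨mem_insert_self h T', hne⟩
  have hw0 := ((mem_Gam_iff hbU w).1 hw).2
  have hsum : ∑ i : ↥(nb col b (insert h T')), c i * (if (i : ι) = h then σ else 0) < 0 := by
    rw [Finset.sum_eq_single (⟨h, hmemh⟩ : ↥(nb col b (insert h T')))]
    · simpa using hσ
    · intro i _ hi
      have : (i : ι) ≠ h := fun h1 => hi (Subtype.ext h1)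
      rw [if_neg this, mul_zero]
    · intro h1
      exact absurd (mem_univ _) h1
  have hρ : HasFDerivAt (rr : E N → ℝ)
      (∑ i : ↥(nb col b (insert h T')), c i • fderiv ℝ (tie φ col b i) w) w := by
    rw [← mult_tie hG hbU hw hc]
    exact (rr_hasStrict w).hasFDerivAt
  obtain ⟨y, hy, s, hs, hfy, hρy⟩ := exists_dir
    (fun i : ↥(nb col b (insert h T')) => tie φ col b i)
    (fun i => fderiv ℝ (tie φ col b i) w) rr w (fun i => tie_hasStrict hG i hw.1)
    (tie_linearIndependent hG hbU hw) (fun i => c i) hρ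
    (fun i => if (i : ι) = h then σ else 0) hsum (V ∩ Ω)
    (Filter.inter_mem hV (hG.isOpen.mem_nhds hw.1))
  refine ⟨y, hy.1, ?_, hρy, ?_⟩
  · rw [mem_Gam_iff hb]
    refine ⟨hy.2, fun i hi => ?_⟩
    by_cases hi' : i = b (col i)
    · have h1 := tie_base (φ := φ) hb (col i) y
      rwa [← hi'] at h1
    · have h1 := hfy ⟨i, mem_nb.2 ⟨mem_insert_of_mem hi, hi'⟩⟩
      have h2 : i ≠ h := fun h3 => hh (h3 ▸ hi)
      simp only at h1
      rw [h1, if_neg h2, mul_zero, add_zero]
      exact hw0 i (mem_insert_of_mem hi)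
  · have h1 := hfy ⟨h, hmemh⟩
    simp only [if_true] at h1
    rw [h1, hw0 h (mem_insert_self h T'), zero_add]
    have h2 : σ ≠ 0 := by
      rintro rfl
      simp at hσ
    have h3 : σ * (s * σ) = s * σ ^ 2 := by ring
    rw [h3]
    positivity

end UC
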