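import Pool.Agent.UC.Next_Exact

open Finset Metric

namespace UC

variable {N : ℕ} {ι : Type} [DecidableEq ι] {Ω : Set (E N)} {φ : ι → E N → ℝ} {col : ι → Bool}
  {b : Bool → ι} {C0 : ℕ}

/-- GERM.  Just below a node (h,w) there is a point y of the stratum without ties, at which exactly the functions
of Neg lie below.
Proof.  Let T = insert h T', card N+1 or N+2, IsObj T w.  c = multipliers (exists_mult), c h ≠ 0 (mult_ne_zero).
σ = -1 if c h > 0, σ = 1 if c h < 0.  V = set of the points y such that for all h' in S, h' ∉ T', h' ≠ h: tie_h' y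
has the sign of tie_h' w (which is ≠ 0 by not_tie_of_obj for T and tie_iff for Gam T, base b of T; the tie
function is the same for T and T'); V is a neighbourhood of w by continuity at w (finitely many conditions,
Filter.eventually_all_finset, tie_hasStrict.continuousAt).  exists_dir_tie gives y in V, in Gam T', rr y < rr w,
0 < σ * tie_h y.  All ties are ≠ 0: y in Free.  For h' ≠ h in S \ T' of colour β: h' ∈ Neg iff Bel T' h' w iff tie_h' w < 0
(w in Gam T' by Gam_anti, bel_iff) iff tie_h' y < 0.  For h' = h: Neg iff Down; if c h > 0 then Down holds (witness c)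
and tie_h y < 0; if c h < 0 then Down fails, by mult_unique, and tie_h y > 0.  For g of the other colour: g ≠ h,
hn.other gives Abv T' g w, so tie_g w > 0 and tie_g y > 0. -/
theorem exists_germ (hG : GP Ω φ col C0) {S T' : Finset ι} (hb : IsBase col b T')
    (hcard : T'.card = N ∨ T'.card = N + 1) {β : Bool} {h : ι} {w : E N}
    (hn : IsNode Ω φ col S T' β h w) :
    ∃ y, y ∈ Free Ω φ col b S T' {y | rr y < rr w} ∧
      (∀ h' ∈ S, h' ∉ T' → col h' = β →
        (tie φ col b h' y < 0 ↔ h' ∈ Neg φ col S T' β h w)) ∧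
      (∀ g ∈ S, g ∉ T' → col g ≠ β → 0 < tie φ col b g y) := by
  have hobj := hn.obj
  have hcard' : (insert h T').card = N + 1 ∨ (insert h T').card = N + 2 := by
    rw [Finset.card_insert_of_notMem hn.notMem]
    omega
  have hbT : IsBase col b (insert h T') := hb.mono (Finset.subset_insert h T')
  have hwG : w ∈ Gam Ω φ col (insert h T') := hobj.2.1
  have hwG' : w ∈ Gam Ω φ col T' := Gam_anti (Finset.subset_insert h T') hwG
  have hwΩ : w ∈ Ω := hwG.1
  obtain ⟨c, hc⟩ := exists_mult hG hobj
  have hch : c h ≠ 0 := mult_ne_zero hG hb.both hcard hn.notMem hwG hc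
  have hσ0 : ∃ σ : ℝ, c h * σ < 0 ∧ (0 < c h → σ = -1) ∧ (c h < 0 → σ = 1) := by
    rcases lt_or_gt_of_ne hch with h1 | h1
    · exact ⟨1, by linarith, fun h2 => absurd h2 (not_lt.2 h1.le), fun _ => rfl⟩
    · exact ⟨-1, by linarith, fun _ => rfl, fun h2 => absurd h2 (not_lt.2 (le_of_lt h1))⟩
  obtain ⟨σ, hσ, hσ1, hσ2⟩ := hσ0
  have hV : {y : E N | ∀ h' ∈ S, h' ∉ T' → h' ≠ h →
      0 < tie φ col b h' y * tie φ col b h' w} ∈ nhds w := by
    refine (Filter.eventually_all_finset S).2 fun h' _ => ?_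
    by_cases h1 : h' ∉ T' ∧ h' ≠ h
    · have h2 : h' ∉ insert h T' := by
        rw [Finset.mem_insert]
        rintro (h3 | h3)
        · exact h1.2 h3
        · exact h1.1 h3
      have h3 : tie φ col b h' w ≠ 0 := fun h4 =>
        not_tie_of_obj hG hcard' hobj h2 ((tie_iff hbT hwG h').2 h4)
      have h4 : ContinuousAt (fun y => tie φ col b h' y * tie φ col b h' w) w :=
        (tie_hasStrict hG h' hwΩ).continuousAt.mul continuousAt_const
      have h5 : 0 < tie φ col b h' w * tie φ col b h' w := mul_self_pos.2 h3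
      filter_upwards [h4.eventually (lt_mem_nhds h5)] with y hy _ _
      exact hy
    · filter_upwards with y h2 h3
      exact absurd ⟨h2, h3⟩ h1
  obtain ⟨y, hyV, hyG, hyr, hys⟩ := exists_dir_tie hG hb hn.notMem hwG hc hσ hV
  have hprod : ∀ h' ∈ S, h' ∉ T' → h' ≠ h → 0 < tie φ col b h' y * tie φ col b h' w := hyV
  refine ⟨y, ⟨hyG, hyr, fun h' hS hT => ?_⟩, fun h' hS hT hcol => ?_, fun g hS hT hcol => ?_⟩
  · by_cases h1 : h' = h
    · subst h1
      intro h2
      rw [h2, mul_zero] at hys
      exact lt_irrefl _ hys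
    · intro h2
      have h3 := hprod h' hS hT h1
      rw [h2, zero_mul] at h3
      exact lt_irrefl _ h3
  · by_cases h1 : h' = h
    · subst h1
      rcases lt_or_gt_of_ne hch with h2 | h2
      · rw [hσ2 h2, one_mul] at hys
        refine ⟨fun h3 => absurd h3 (not_lt.2 hys.le), fun h3 => ?_⟩
        rcases h3.2.2.2 with h4 | h4
        · exact absurd rfl h4.1
        · obtain ⟨c', hc', hc2⟩ := h4.2
          have h5 := mult_unique hG hobj.1 hwG hc hc'
          rw [h5] at h2
          exact absurd hc2 (not_lt.2 h2.le)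
      · rw [hσ1 h2] at hys
        refine ⟨fun _ => ⟨hS, hT, hcol, Or.inr ⟨rfl, c, hc, h2⟩⟩, fun _ => by linarith⟩
    · have h2 := hprod h' hS hT h1
      have h3 : h' ∈ Neg φ col S T' β h w ↔ tie φ col b h' w < 0 := by
        rw [← bel_iff hb hwG' h']
        refine ⟨fun h4 => ?_, fun h4 => ⟨hS, hT, hcol, Or.inl ⟨h1, h4⟩⟩⟩
        rcases h4.2.2.2 with h5 | h5
        · exact h5.2
        · exact absurd h5.1 h1
      rw [h3]
      rcases mul_pos_iff.1 h2 with h4 | h4
      · exact ⟨fun h5 => absurd h5 (not_lt.2 h4.1.le), fun h5 => absurd h5 (not_lt.2 h4.2.le)⟩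
      · exact ⟨fun _ => h4.2, fun _ => h4.1⟩
  · have h1 : g ≠ h := by
      rintro rfl
      exact hcol hn.colh
    have h2 := hprod g hS hT h1
    have h3 : 0 < tie φ col b g w := (abv_iff hb hwG' g).1 (hn.other g hS hT hcol)
    exact pos_of_mul_pos_left h2 h3.le

end UC
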