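import Pool.Agent.UC.Next_Defs

open Finset Metric

namespace UC

private theorem Next_LS_surj {N : ℕ} {κ : Type} [Fintype κ] (L : κ → (E N →L[ℝ] ℝ))
    (hL : LinearIndependent ℝ L) : Function.Surjective (ContinuousLinearMap.pi L) := by
  classical
  rw [← ContinuousLinearMap.coe_coe, ← LinearMap.range_eq_top]
  by_contra hne
  obtain ⟨ψ, hψ0, hψ⟩ := Submodule.exists_le_ker_of_lt_top _ (lt_top_iff_ne_top.2 hne)
  have h1 : ∀ z : κ → ℝ, ψ z = ∑ i, z i * ψ (Pi.single i 1) := by
    intro z
    conv_lhs => rw [← Finset.univ_sum_single z]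
    rw [map_sum]
    refine Finset.sum_congr rfl fun i _ => ?_
    have h2 : (Pi.single i (z i) : κ → ℝ) = z i • Pi.single i 1 := by
      rw [← Pi.single_smul, smul_eq_mul, mul_one]
    rw [h2, map_smul, smul_eq_mul]
  have h3 : ∑ i, ψ (Pi.single i 1) • L i = 0 := by
    refine ContinuousLinearMap.ext fun p => ?_
    have h4 : ψ (fun i => L i p) = 0 := hψ ⟨p, rfl⟩
    rw [h1] at h4
    rw [_root_.sum_apply, zero_apply, ← h4]
    refine Finset.sum_congr rfl fun i _ => ?_
    rw [smul_apply, smul_eq_mul, mul_comm]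
  have h5 := Fintype.linearIndependent_iff.1 hL _ h3
  refine hψ0 (LinearMap.ext fun z => ?_)
  rw [h1, LinearMap.zero_apply]
  exact Finset.sum_eq_zero fun i _ => by rw [h5 i, mul_zero]

/-- LS, local structure (implicit function theorem).  Near a point x at which the functions f_i (i in κ₁) and
g_l (l in κ₂) vanish and have linearly independent derivatives there are arbitrarily small open U such that
every sector {y in U : all f_i(y) = 0, all σ_l g_l(y) > 0} (σ_l nonzero) is preconnected and has all the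
common zeros in U in its closure.

Proof.  Let κ = κ₁ ⊕ κ₂, Φ : E N → (κ → ℝ), Φ y = Sum.elim (f · y) (g · y), Φ' = pi of Sum.elim f' g'.
HasStrictFDerivAt Φ Φ' x (hasStrictFDerivAt_pi).  Φ' is surjective because its components are linearly
independent (if not, a nonzero functional on κ → ℝ vanishes on the range, which is a nontrivial relation
between the components; compare Persist_A_surj in Pool/Agent/UC/Persist.lean).  Let
e = hΦ.implicitToOpenPartialHomeomorph Φ Φ' (range = ⊤) : OpenPartialHomeomorph (E N) ((κ → ℝ) × Φ'.ker);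
(e y).1 = Φ y for all y, e x = (Φ x, 0) = (0, 0), x in e.source (lemmas implicitToOpenPartialHomeomorph_fst,
_self, mem_implicitToOpenPartialHomeomorph_source, ..._target).  The set e.target ∩ e.symm ⁻¹' (interior V) is a
neighbourhood of (0,0) (e.symm is continuous at (0,0), e.symm (0,0) = x), so it contains the box
Bx = ball 0 ε ×ˢ ball 0 ε for some ε > 0 (Metric.mem_nhds_iff and Prod: ball of the product = product of balls,
sup norm).  Put U = e.source ∩ e ⁻¹' Bx, open (e.isOpen_inter_preimage), contains x, and U ⊆ V because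
e.symm (e y) = y.  The sector of σ is the image under e.symm of the set
  C = {v in ball 0 ε | v (inl i) = 0 for all i, 0 < σ l * v (inr l) for all l} ×ˢ ball 0 ε
(y in the sector iff y in e.source and e y in C, as (e y).1 = Φ y); C is convex (intersection of convex
conditions), hence preconnected, and e.symm is continuous on e.target ⊇ Bx ⊇ C: IsPreconnected.image.
Closure: let y in U with f_i y = 0, g_l y = 0; e y = (0, k) with k in ball 0 ε.  Let u = Sum.elim 0 σ.  For small
s > 0, (s • u, k) is in C and e.symm (s • u, k) tends to e.symm (0, k) = y as s → 0+ (continuity at a point of the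
open set e.target); so y is in the closure (mem_closure_of_tendsto with the filter 𝓝[>] 0).  No positivity of
σ is used; for l with σ l * σ l > 0 we need σ l ≠ 0. -/
theorem local_structure {N : ℕ} {κ₁ κ₂ : Type} [Fintype κ₁] [Fintype κ₂] (f : κ₁ → E N → ℝ)
    (g : κ₂ → E N → ℝ) (f' : κ₁ → (E N →L[ℝ] ℝ)) (g' : κ₂ → (E N →L[ℝ] ℝ)) (x : E N)
    (hf : ∀ i, HasStrictFDerivAt (f i) (f' i) x) (hg : ∀ l, HasStrictFDerivAt (g l) (g' l) x)
    (hli : LinearIndependent ℝ (Sum.elim f' g')) (hf0 : ∀ i, f i x = 0) (hg0 : ∀ l, g l x = 0)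
    (V : Set (E N)) (hV : V ∈ nhds x) :
    ∃ U : Set (E N), IsOpen U ∧ x ∈ U ∧ U ⊆ V ∧ ∀ σ : κ₂ → ℝ, (∀ l, σ l ≠ 0) →
      IsPreconnected {y | y ∈ U ∧ (∀ i, f i y = 0) ∧ ∀ l, 0 < σ l * g l y} ∧
      {y | y ∈ U ∧ (∀ i, f i y = 0) ∧ ∀ l, g l y = 0} ⊆
        closure {y | y ∈ U ∧ (∀ i, f i y = 0) ∧ ∀ l, 0 < σ l * g l y} := by
  classical
  set F : E N → (κ₁ ⊕ κ₂ → ℝ) := fun y i => Sum.elim f g i y with hF
  set F' : E N →L[ℝ] (κ₁ ⊕ κ₂ → ℝ) := ContinuousLinearMap.pi (Sum.elim f' g') with hF'
  have hFd : HasStrictFDerivAt F F' x := by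
    refine hasStrictFDerivAt_pi.2 fun i => ?_
    rcases i with i | i
    · exact hf i
    · exact hg i
  have hr : F'.range = ⊤ := by
    have h1 := Next_LS_surj (Sum.elim f' g') hli
    exact LinearMap.range_eq_top.2 h1
  have hFx : F x = 0 := by
    funext i
    rcases i with i | i
    · exact hf0 i
    · exact hg0 i
  set e := hFd.implicitToOpenPartialHomeomorph F F' hr with he
  have e1 : ∀ y, (e y).1 = F y := fun y => hFd.implicitToOpenPartialHomeomorph_fst hr y
  have ex : e x = (0, 0) := by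
    have h1 := hFd.implicitToOpenPartialHomeomorph_self hr
    rw [hFx] at h1
    exact h1
  have hxs : x ∈ e.source := hFd.mem_implicitToOpenPartialHomeomorph_source hr
  have hxt : ((0 : κ₁ ⊕ κ₂ → ℝ), (0 : F'.ker)) ∈ e.target := by
    rw [← ex]
    exact e.map_source hxs
  have hsx : e.symm (0, 0) = x := by
    rw [← ex]
    exact e.left_inv hxs
  have hnh : e.target ∩ e.symm ⁻¹' V ∈ nhds ((0 : κ₁ ⊕ κ₂ → ℝ), (0 : F'.ker)) := by
    refine Filter.inter_mem (e.open_target.mem_nhds hxt) ?_
    refine (e.continuousAt_symm hxt).preimage_mem_nhds ?_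
    rw [hsx]
    exact hV
  obtain ⟨ε, hε, hball⟩ := Metric.mem_nhds_iff.1 hnh
  refine ⟨e.source ∩ e ⁻¹' ball (0, 0) ε, e.isOpen_inter_preimage isOpen_ball,
    ⟨hxs, by
      change e x ∈ ball (0, 0) ε
      rw [ex]
      exact mem_ball_self hε⟩, ?_, ?_⟩
  · rintro y ⟨hy1, hy2⟩
    have h1 := (hball hy2).2
    change e.symm (e y) ∈ V at h1
    rwa [e.left_inv hy1] at h1
  · intro σ hσ
    set Sct : Set (E N) := {y | y ∈ e.source ∩ e ⁻¹' ball (0, 0) ε ∧ (∀ i, f i y = 0) ∧
      ∀ l, 0 < σ l * g l y} with hSct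
    set C : Set ((κ₁ ⊕ κ₂ → ℝ) × F'.ker) := {v | v ∈ ball (0, 0) ε ∧
      (∀ i, v.1 (Sum.inl i) = 0) ∧ ∀ l, 0 < σ l * v.1 (Sum.inr l)} with hC
    have hCS : ∀ v ∈ C, e.symm v ∈ Sct := by
      intro v hv
      have h1 : v ∈ e.target := (hball hv.1).1
      have h2 : e (e.symm v) = v := e.right_inv h1
      have h3 : ∀ i, F (e.symm v) i = v.1 i := fun i => by rw [← e1, h2]
      refine ⟨⟨e.map_target h1, ?_⟩, fun i => ?_, fun l => ?_⟩
      · change e (e.symm v) ∈ ball (0, 0) ε
        rw [h2]
        exact hv.1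
      · exact (h3 (Sum.inl i)).trans (hv.2.1 i)
      · have h4 : g l (e.symm v) = v.1 (Sum.inr l) := h3 (Sum.inr l)
        rw [h4]
        exact hv.2.2 l
    constructor
    · have hconv : Convex ℝ C := by
        intro a ha b hb s t hs ht hst
        refine ⟨(convex_ball _ _) ha.1 hb.1 hs ht hst, fun i => ?_, fun l => ?_⟩
        · change s * a.1 (Sum.inl i) + t * b.1 (Sum.inl i) = 0
          rw [ha.2.1 i, hb.2.1 i, mul_zero, mul_zero, add_zero]
        · change 0 < σ l * (s * a.1 (Sum.inr l) + t * b.1 (Sum.inr l))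
          have h1 := ha.2.2 l
          have h2 := hb.2.2 l
          have h3 : σ l * (s * a.1 (Sum.inr l) + t * b.1 (Sum.inr l)) =
              s * (σ l * a.1 (Sum.inr l)) + t * (σ l * b.1 (Sum.inr l)) := by ring
          rw [h3]
          rcases hs.eq_or_lt with h0 | h0
          · have h4 : t = 1 := by linarith
            rw [← h0, h4, zero_mul, one_mul, zero_add]
            exact h2
          · have h4 := mul_pos h0 h1
            have h5 := mul_nonneg ht h2.le
            linarith
      have himg : Sct = e.symm '' C := by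
        refine Set.Subset.antisymm ?_ ?_
        · rintro y ⟨⟨hy1, hy2⟩, hy3, hy4⟩
          refine ⟨e y, ⟨hy2, fun i => ?_, fun l => ?_⟩, e.left_inv hy1⟩
          · rw [e1]
            exact hy3 i
          · rw [e1]
            exact hy4 l
        · rintro _ ⟨v, hv, rfl⟩
          exact hCS v hv
      rw [himg]
      exact hconv.isPreconnected.image _
        (e.continuousOn_symm.mono fun v hv => (hball hv.1).1)
    · rintro y ⟨⟨hy1, hy2⟩, hy3, hy4⟩
      have hw1 : (e y).1 = 0 := by
        rw [e1]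
        funext i
        rcases i with i | i
        · exact hy3 i
        · exact hy4 i
      let u : κ₁ ⊕ κ₂ → ℝ := Sum.elim (fun _ => 0) σ
      let γ : ℝ → (κ₁ ⊕ κ₂ → ℝ) × F'.ker := fun s =>
        e y + s • ((u, 0) : (κ₁ ⊕ κ₂ → ℝ) × F'.ker)
      have hγc : Continuous γ := by
        change Continuous fun s : ℝ => e y + s • ((u, 0) : (κ₁ ⊕ κ₂ → ℝ) × F'.ker)
        fun_prop
      have hγ0 : γ 0 = e y := by
        change e y + (0 : ℝ) • _ = e y
        rw [zero_smul, add_zero]
      have hlim : Filter.Tendsto γ (nhdsWithin 0 (Set.Ioi 0)) (nhds (e y)) := by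
        have h1 := hγc.tendsto 0
        rw [hγ0] at h1
        exact h1.mono_left nhdsWithin_le_nhds
      have hyt : e y ∈ e.target := e.map_source hy1
      have hlim2 : Filter.Tendsto (fun s => e.symm (γ s)) (nhdsWithin 0 (Set.Ioi 0))
          (nhds y) := by
        have h1 := (e.continuousAt_symm hyt).tendsto.comp hlim
        rw [e.left_inv hy1] at h1
        exact h1
      refine mem_closure_of_tendsto hlim2 ?_
      have hb : ∀ᶠ s in nhdsWithin (0:ℝ) (Set.Ioi 0), γ s ∈ ball (0, 0) ε :=
        hlim.eventually (isOpen_ball.mem_nhds hy2)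
      filter_upwards [hb, self_mem_nhdsWithin] with s hs hs0
      have hs0' : 0 < s := hs0
      refine hCS _ ⟨hs, fun i => ?_, fun l => ?_⟩
      · change (e y).1 (Sum.inl i) + s * 0 = 0
        rw [hw1, mul_zero, add_zero]
        rfl
      · change 0 < σ l * ((e y).1 (Sum.inr l) + s * σ l)
        rw [hw1]
        have h1 : 0 < σ l * σ l := mul_self_pos.2 (hσ l)
        have h2 : σ l * ((0 : κ₁ ⊕ κ₂ → ℝ) (Sum.inr l) + s * σ l) = s * (σ l * σ l) := by
          rw [Pi.zero_apply]
          ring
        rw [h2]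
        exact mul_pos hs0' h1

end UC
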