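import Pool.Agent.UC.Next_Tie

open Finset Metric

namespace UC

variable {N : ℕ} {ι : Type} {Ω : Set (E N)} {φ : ι → E N → ℝ} {col : ι → Bool} {b : Bool → ι}
  {C0 : ℕ}

/-- The tie functions are strictly differentiable on Ω. -/
theorem tie_hasStrict (hG : GP Ω φ col C0) (i : ι) {y : E N} (hy : y ∈ Ω) :
    HasStrictFDerivAt (tie φ col b i) (fderiv ℝ (tie φ col b i) y) y := by
  have h1 : ∀ j, ContDiffAt ℝ 1 (φ j) y := fun j =>
    (hG.smooth j).contDiffAt (hG.isOpen.mem_nhds hy)
  have h2 : ContDiffAt ℝ 1 (tie φ col b i) y := (h1 i).sub (h1 (b (col i)))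
  exact h2.hasStrictFDerivAt one_ne_zero

/-- Their derivative. -/
theorem tie_fderiv (hG : GP Ω φ col C0) (i : ι) {y : E N} (hy : y ∈ Ω) :
    fderiv ℝ (tie φ col b i) y = fderiv ℝ (φ i) y - fderiv ℝ (φ (b (col i))) y := by
  have h1 : ∀ j, DifferentiableAt ℝ (φ j) y := fun j =>
    ((hG.smooth j).contDiffAt (hG.isOpen.mem_nhds hy)).differentiableAt one_ne_zero
  exact fderiv_sub (h1 i) (h1 (b (col i)))

/-- The tie functions are continuous on Ω. -/
theorem tie_continuousOn (hG : GP Ω φ col C0) (i : ι) : ContinuousOn (tie φ col b i) Ω := by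
  exact (hG.smooth i).continuousOn.sub (hG.smooth (b (col i))).continuousOn

/-- (reg) in terms of ties: at a point of Gam T the derivatives of tie_i, i in T not a base
element, are linearly
independent.

Proof.  LinearIndependent over the subtype ↥(nb col b T): use Fintype.linearIndependent_iff (the
subtype is finite) or linearIndependent_iff'.  From a relation sum g_i d tie_i = 0 define c : ι →
ℝ by c i = g i for
i in the subtype, c (b β) = - sum of g_i over the i in the subtype of colour β, c i = 0 for i not
in T.  Then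
Coef col T c and sum_{i in T} c_i dφ_i = sum g_i (dφ_i - dφ_{b(col i)}) = 0, so c = 0 by hG.reg,
so g = 0. -/
theorem tie_linearIndependent (hG : GP Ω φ col C0) {T : Finset ι} (hb : IsBase col b T) {y : E N}
    (hy : y ∈ Gam Ω φ col T) :
    LinearIndependent ℝ
      (fun i : ↥(nb col b T) => fderiv ℝ (tie φ col b i) y) := by
  classical
  rw [Fintype.linearIndependent_iff]
  intro g hg
  set G : ι → ℝ := fun i => if h : i ∈ nb col b T then g ⟨i, h⟩ else 0 with hGd
  have hGv : ∀ i (h : i ∈ nb col b T), G i = g ⟨i, h⟩ := fun i h => dif_pos h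
  have hbT : ∀ β, b β ∈ T := fun β => (hb β).1
  have hbc : ∀ β, col (b β) = β := fun β => (hb β).2
  set c : ι → ℝ := fun i => ∑ j ∈ nb col b T,
    G j * ((if i = j then 1 else 0) - (if i = b (col j) then 1 else 0)) with hc
  have hcoef : Coef col T c := by
    refine ⟨fun i hi => ?_, fun β => ?_⟩
    · refine Finset.sum_eq_zero fun j hj => ?_
      have h1 : i ≠ j := fun h => hi (h ▸ (mem_nb.1 hj).1)
      have h2 : i ≠ b (col j) := fun h => hi (h ▸ hbT _)
      rw [if_neg h1, if_neg h2, sub_zero, mul_zero]
    · rw [hc, Finset.sum_comm]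
      refine Finset.sum_eq_zero fun j hj => ?_
      rw [← Finset.mul_sum, Finset.sum_sub_distrib, Finset.sum_ite_eq', Finset.sum_ite_eq']
      have h1 : (j ∈ T.filter fun i => col i = β) ↔ col j = β := by
        rw [Finset.mem_filter]
        exact and_iff_right (mem_nb.1 hj).1
      have h2 : (b (col j) ∈ T.filter fun i => col i = β) ↔ col j = β := by
        rw [Finset.mem_filter, hbc]
        exact and_iff_right (hbT _)
      simp only [h1, h2, sub_self, mul_zero]
  have hsum : ∑ i ∈ T, c i • fderiv ℝ (φ i) y = 0 := by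
    have h1 : ∑ i ∈ T, c i • fderiv ℝ (φ i) y =
        ∑ j ∈ nb col b T, G j • (fderiv ℝ (φ j) y - fderiv ℝ (φ (b (col j))) y) := by
      simp only [hc, Finset.sum_smul]
      rw [Finset.sum_comm]
      refine Finset.sum_congr rfl fun j hj => ?_
      simp only [mul_smul, ← Finset.smul_sum, sub_smul, Finset.sum_sub_distrib, ite_smul,
        one_smul, zero_smul]
      rw [Finset.sum_ite_eq', Finset.sum_ite_eq', if_pos (mem_nb.1 hj).1, if_pos (hbT _)]
    rw [h1, ← Finset.sum_coe_sort, ← hg]
    refine Finset.sum_congr rfl fun j _ => ?_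
    rw [tie_fderiv hG j hy.1, hGv j j.2]
  intro i
  have h0 := hG.reg T hb.both y hy c hcoef hsum i
  have h1 : c i = G i := by
    rw [hc]
    simp only
    rw [Finset.sum_eq_single (i : ι)]
    · rw [if_pos rfl, if_neg (mem_nb.1 i.2).2, sub_zero, mul_one]
    · intro j hj hne
      have h2 : (i : ι) ≠ b (col j) := by
        intro h
        apply (mem_nb.1 i.2).2
        have h3 : col i = col j := by rw [h, hbc]
        rw [h3]
        exact h
      rw [if_neg hne.symm, if_neg h2, sub_zero, mul_zero]
    · intro h
      exact absurd i.2 h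
  rw [← hGv i i.2, ← h1, h0]

/-- At most N+2 functions are tied: the subtype has T.card - 2 elements, and the dual space of E
N has
dimension N (LinearIndependent.fintype_card_le_finrank or LinearIndependent.finset_card_le_finrank;
finrank ℝ (E N →L[ℝ] ℝ) = N through e.g. LinearMap.toContinuousLinearMap and
Subspace.dual_finrank_eq, or
map the independent family to linear functionals). -/
theorem card_le_of_mem_Gam (hG : GP Ω φ col C0) {T : Finset ι} (hT : Both col T) {y : E N}
    (hy : y ∈ Gam Ω φ col T) : T.card ≤ N + 2 := by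
  classical
  obtain ⟨b, hb⟩ := exists_base hT
  have h1 := (tie_linearIndependent hG hb hy).fintype_card_le_finrank
  have h2 : Module.finrank ℝ (E N →L[ℝ] ℝ) = N := by
    rw [← (LinearMap.toContinuousLinearMap (𝕜 := ℝ) (E := E N) (F' := ℝ)).finrank_eq]
    exact Subspace.dual_finrank_eq.trans finrank_euclideanSpace_fin
  rw [h2, Fintype.card_coe] at h1
  have h3 : T ⊆ nb col b T ∪ {b true, b false} := by
    intro i hi
    by_cases h : i = b (col i)
    · refine Finset.mem_union_right _ ?_
      rw [Finset.mem_insert, Finset.mem_singleton]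
      cases hci : col i
      · exact Or.inr (by rw [hci] at h; exact h)
      · exact Or.inl (by rw [hci] at h; exact h)
    · exact Finset.mem_union_left _ (mem_nb.2 ⟨hi, h⟩)
  have h4 := (Finset.card_le_card h3).trans (Finset.card_union_le _ _)
  have h5 : ({b true, b false} : Finset ι).card ≤ 2 := Finset.card_le_two
  omega

end UC
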