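import Pool.Agent.UC.Next_LS
import Pool.Agent.UC.Next_Reg

open Finset Metric

namespace UC

variable {N : ℕ} {ι : Type} [DecidableEq ι] {Ω : Set (E N)} {φ : ι → E N → ℝ} {col : ι → Bool}
  {b : Bool → ι} {C0 : ℕ}

private theorem nlLoc_cont (hG : GP Ω φ col C0) (i : ι) {x : E N} (hx : x ∈ Ω) :
    ContinuousAt (tie φ col b i) x :=
  (tie_continuousOn hG i).continuousAt (hG.isOpen.mem_nhds hx)

private theorem nlLoc_y0 {F : Set (E N)} {y0 y : E N} (hy : y ∈ connectedComponentIn F y0) :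
    y0 ∈ F := by
  by_contra h
  rw [connectedComponentIn_eq_empty h] at hy
  exact hy

/-- Signs are constant on the components of Free.
Proof: connectedComponentIn (Free ..) y0 is preconnected and contained in Free ⊆ Ω; tie_h is continuous and
nonzero on it; a sign change would give a zero (IsPreconnected.intermediate_value, or isPreconnected_iff
image in ℝ is ordConnected). -/
theorem sign_const (hG : GP Ω φ col C0) {S T' : Finset ι} {O : Set (E N)} {y0 y : E N}
    (hy : y ∈ connectedComponentIn (Free Ω φ col b S T' O) y0) {h : ι} (hS : h ∈ S) (hT : h ∉ T') :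
    0 < tie φ col b h y0 * tie φ col b h y := by
  have h0 := nlLoc_y0 hy
  have hy0 := mem_connectedComponentIn h0
  have hpre : IsPreconnected (connectedComponentIn (Free Ω φ col b S T' O) y0) :=
    isPreconnected_connectedComponentIn
  have hsub := connectedComponentIn_subset (Free Ω φ col b S T' O) y0
  have hne : ∀ z ∈ connectedComponentIn (Free Ω φ col b S T' O) y0, tie φ col b h z ≠ 0 :=
    fun z hz => (hsub hz).2.2 h hS hT
  have hc : ContinuousOn (tie φ col b h) (connectedComponentIn (Free Ω φ col b S T' O) y0) :=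
    (tie_continuousOn hG h).mono fun z hz => (hsub hz).1.1
  by_contra hle
  have h1 := hne y0 hy0
  have h2 := hne y hy
  rcases lt_or_gt_of_ne h1 with a | a <;> rcases lt_or_gt_of_ne h2 with c | c
  · exact hle (mul_pos_of_neg_of_neg a c)
  · obtain ⟨z, hz, hz0⟩ := hpre.intermediate_value hy0 hy hc ⟨a.le, c.le⟩
    exact hne z hz hz0
  · obtain ⟨z, hz, hz0⟩ := hpre.intermediate_value hy hy0 hc ⟨c.le, a.le⟩
    exact hne z hz hz0
  · exact hle (mul_pos a c)

/-- Points of Ω in the closure of a component: they lie on the stratum, and the ties have the weak signs.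
Proof.  x in Ω is a limit of points of R = connectedComponentIn (Free ..) y0 ⊆ Gam T'; the ties are continuous at x.
(mem_closure_iff_seq_limit, or ContinuousWithinAt.closure arguments: le_of_tendsto.) -/
theorem closure_comp (hG : GP Ω φ col C0) {S T' : Finset ι} (hb : IsBase col b T')
    {O : Set (E N)} {y0 x : E N}
    (hx : x ∈ closure (connectedComponentIn (Free Ω φ col b S T' O) y0)) (hxΩ : x ∈ Ω) :
    x ∈ Gam Ω φ col T' ∧ ∀ h ∈ S, h ∉ T' → 0 ≤ tie φ col b h y0 * tie φ col b h x := by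
  have hsub := connectedComponentIn_subset (Free Ω φ col b S T' O) y0
  have hN : (nhdsWithin x (connectedComponentIn (Free Ω φ col b S T' O) y0)).NeBot :=
    mem_closure_iff_nhdsWithin_neBot.1 hx
  have ht : ∀ i, Filter.Tendsto (tie φ col b i)
      (nhdsWithin x (connectedComponentIn (Free Ω φ col b S T' O) y0))
      (nhds (tie φ col b i x)) := fun i =>
    (nlLoc_cont hG i hxΩ).tendsto.mono_left nhdsWithin_le_nhds
  constructor
  · rw [mem_Gam_iff hb]
    refine ⟨hxΩ, fun i hi => ?_⟩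
    refine tendsto_nhds_unique (ht i) (tendsto_const_nhds.congr' ?_)
    filter_upwards [self_mem_nhdsWithin] with z hz
    exact (((mem_Gam_iff hb z).1 (hsub hz).1).2 i hi).symm
  · intro h hS hT
    refine ge_of_tendsto ((ht h).const_mul (tie φ col b h y0)) ?_
    filter_upwards [self_mem_nhdsWithin] with z hz
    exact (sign_const hG hz hS hT).le

/-- LOC: the component R of y0 near a point x of its closure.  J = the functions tied at x.  There is an open
neighbourhood U of x with (i) Gam (T' ∪ J) ∩ U ⊆ closure R, (ii) every point z of Gam T' ∩ U at which, for all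
h in J, tie_h z has the (strict) sign of tie_h y0 belongs to R.

Proof.  x is in Gam T' (closure_comp) and in Gam (T' ∪ J) (mem_Gam_iff, base b of T' ∪ J).  κ₁ = ↥(nb col b T'),
κ₂ = {h // h ∈ J}.  LinearIndependent ℝ (Sum.elim (d tie_i) (d tie_h)): from tie_linearIndependent for T' ∪ J
(members of J are not in T', so not base elements), reindexed along the injective map
Sum.elim (..) : κ₁ ⊕ κ₂ → ↥(nb col b (T' ∪ J)) (LinearIndependent.comp).
V = O ∩ Ω ∩ {z | tie_h z ≠ 0 for all h in S, h ∉ T', h ∉ J}: a neighbourhood of x (O, Ω open, finitely many continuous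
functions which are nonzero at x by hJ).  local_structure gives U ⊆ V.  As x in closure R and U open there is
y1 in R ∩ U.  σ_h = tie_h y1 (h in J), nonzero since y1 in R ⊆ Free (connectedComponentIn_subset; members of J
are in S and not in T').  The sector Sec = {z in U | tie_i z = 0 (i in κ₁), 0 < σ_h tie_h z (h in J)} contains y1, is
preconnected, and is contained in Free: z in Ω, z in Gam T' (mem_Gam_iff, base elements by tie_base), z in O, and
no h in S \ T' is tied at z.  So Sec ⊆ connectedComponentIn (Free ..) y1 = R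
(IsPreconnected.subset_connectedComponentIn, connectedComponentIn_eq).
(i) z in Gam (T' ∪ J) ∩ U is in the closure of Sec by local_structure.
(ii) z in Gam T' ∩ U with 0 < tie_h y0 * tie_h z for h in J: sign_const gives 0 < tie_h y0 * tie_h y1, so
0 < σ_h * tie_h z, z in Sec ⊆ R. -/
theorem exists_loc (hG : GP Ω φ col C0) {S T' : Finset ι} (hb : IsBase col b T')
    {O : Set (E N)} (hO : IsOpen O) {y0 x : E N}
    (hx : x ∈ closure (connectedComponentIn (Free Ω φ col b S T' O) y0)) (hxΩ : x ∈ Ω)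
    (hxO : x ∈ O) (J : Finset ι)
    (hJ : ∀ h, h ∈ J ↔ h ∈ S ∧ h ∉ T' ∧ tie φ col b h x = 0) :
    ∃ U : Set (E N), IsOpen U ∧ x ∈ U ∧
      (∀ z ∈ U, z ∈ Gam Ω φ col (T' ∪ J) →
        z ∈ closure (connectedComponentIn (Free Ω φ col b S T' O) y0)) ∧
      (∀ z ∈ U, z ∈ Gam Ω φ col T' → (∀ h ∈ J, 0 < tie φ col b h y0 * tie φ col b h z) →
        z ∈ connectedComponentIn (Free Ω φ col b S T' O) y0) := by
  classical
  have hxG := closure_comp hG hb hx hxΩ
  have hJS : ∀ h ∈ J, h ∈ S := fun h hh => ((hJ h).1 hh).1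
  have hJT : ∀ h ∈ J, h ∉ T' := fun h hh => ((hJ h).1 hh).2.1
  have hJ0 : ∀ h ∈ J, tie φ col b h x = 0 := fun h hh => ((hJ h).1 hh).2.2
  have hbU : IsBase col b (T' ∪ J) := hb.mono Finset.subset_union_left
  have hxTJ : x ∈ Gam Ω φ col (T' ∪ J) := by
    rw [mem_Gam_iff hbU]
    refine ⟨hxΩ, fun i hi => ?_⟩
    rcases Finset.mem_union.1 hi with h | h
    · exact ((mem_Gam_iff hb x).1 hxG.1).2 i h
    · exact hJ0 i h
  have hJb : ∀ h ∈ J, h ≠ b (col h) := by
    intro h hh heq
    apply hJT h hh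
    rw [heq]
    exact (hb (col h)).1
  let m : ↥(nb col b T') ⊕ ↥J → ↥(nb col b (T' ∪ J)) := Sum.elim
    (fun i => ⟨i.1, mem_nb.2 ⟨Finset.mem_union_left _ (mem_nb.1 i.2).1, (mem_nb.1 i.2).2⟩⟩)
    (fun h => ⟨h.1, mem_nb.2 ⟨Finset.mem_union_right _ h.2, hJb h.1 h.2⟩⟩)
  have hm : Function.Injective m := by
    rintro (i | i) (j | j) hij
    · have h1 : (i : ι) = j := congrArg (fun t : ↥(nb col b (T' ∪ J)) => (t : ι)) hij
      rw [Subtype.ext h1]
    · have h1 : (i : ι) = j := congrArg (fun t : ↥(nb col b (T' ∪ J)) => (t : ι)) hij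
      exact absurd (h1 ▸ (mem_nb.1 i.2).1) (hJT j.1 j.2)
    · have h1 : (i : ι) = j := congrArg (fun t : ↥(nb col b (T' ∪ J)) => (t : ι)) hij
      exact absurd (h1 ▸ (mem_nb.1 j.2).1) (hJT i.1 i.2)
    · have h1 : (i : ι) = j := congrArg (fun t : ↥(nb col b (T' ∪ J)) => (t : ι)) hij
      rw [Subtype.ext h1]
  have hli : LinearIndependent ℝ (Sum.elim
      (fun i : ↥(nb col b T') => fderiv ℝ (tie φ col b i) x)
      (fun h : ↥J => fderiv ℝ (tie φ col b h) x)) := by
    have h1 := (tie_linearIndependent hG hbU hxTJ).comp m hm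
    convert! h1 using 1
    funext i
    rcases i with i | i <;> rfl
  have hV : O ∩ Ω ∩ {z | ∀ h ∈ S, h ∉ T' → h ∉ J → tie φ col b h z ≠ 0} ∈ nhds x := by
    refine Filter.inter_mem (Filter.inter_mem (hO.mem_nhds hxO) (hG.isOpen.mem_nhds hxΩ)) ?_
    have h1 : ∀ᶠ z in nhds x, ∀ h ∈ S, h ∉ T' → h ∉ J → tie φ col b h z ≠ 0 := by
      rw [Filter.eventually_all_finset]
      intro h hh
      by_cases hc : h ∉ T' ∧ h ∉ J
      · have h2 : tie φ col b h x ≠ 0 := fun h3 => hc.2 ((hJ h).2 ⟨hh, hc.1, h3⟩)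
        filter_upwards [(nlLoc_cont hG h hxΩ).eventually_ne h2] with z hz _ _
        exact hz
      · refine Filter.Eventually.of_forall fun z h3 h4 => absurd ⟨h3, h4⟩ hc
    exact h1
  obtain ⟨U, hUo, hxU, hUV, hU⟩ := local_structure
    (fun i : ↥(nb col b T') => tie φ col b i) (fun h : ↥J => tie φ col b h)
    (fun i => fderiv ℝ (tie φ col b i) x) (fun h => fderiv ℝ (tie φ col b h) x) x
    (fun i => tie_hasStrict hG i hxΩ) (fun h => tie_hasStrict hG h hxΩ) hli
    (fun i => ((mem_Gam_iff hb x).1 hxG.1).2 i (mem_nb.1 i.2).1) (fun h => hJ0 h h.2) _ hV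
  obtain ⟨y1, hy1U, hy1⟩ := mem_closure_iff.1 hx U hUo hxU
  have hsub := connectedComponentIn_subset (Free Ω φ col b S T' O) y0
  have hσ : ∀ l : ↥J, tie φ col b l y1 ≠ 0 := fun l =>
    (hsub hy1).2.2 l (hJS l l.2) (hJT l l.2)
  obtain ⟨hpre, hcl⟩ := hU (fun l => tie φ col b l y1) hσ
  have hGam : ∀ z ∈ U, (∀ i : ↥(nb col b T'), tie φ col b i z = 0) → z ∈ Gam Ω φ col T' := by
    intro z hz h0
    rw [mem_Gam_iff hb]
    refine ⟨(hUV hz).1.2, fun i hi => ?_⟩
    by_cases hib : i = b (col i)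
    · rw [hib]
      exact tie_base hb _ z
    · exact h0 ⟨i, mem_nb.2 ⟨hi, hib⟩⟩
  have hSec : {z | z ∈ U ∧ (∀ i : ↥(nb col b T'), tie φ col b i z = 0) ∧
      ∀ l : ↥J, 0 < tie φ col b l y1 * tie φ col b l z} ⊆
      connectedComponentIn (Free Ω φ col b S T' O) y0 := by
    have hy1S : y1 ∈ {z | z ∈ U ∧ (∀ i : ↥(nb col b T'), tie φ col b i z = 0) ∧
        ∀ l : ↥J, 0 < tie φ col b l y1 * tie φ col b l z} :=
      ⟨hy1U, fun i => ((mem_Gam_iff hb y1).1 (hsub hy1).1).2 i (mem_nb.1 i.2).1,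
        fun l => mul_self_pos.2 (hσ l)⟩
    have hF : {z | z ∈ U ∧ (∀ i : ↥(nb col b T'), tie φ col b i z = 0) ∧
        ∀ l : ↥J, 0 < tie φ col b l y1 * tie φ col b l z} ⊆ Free Ω φ col b S T' O := by
      rintro z ⟨hz1, hz2, hz3⟩
      refine ⟨hGam z hz1 hz2, (hUV hz1).1.1, fun h hS hT h0 => ?_⟩
      by_cases hh : h ∈ J
      · have h4 : 0 < tie φ col b h y1 * tie φ col b h z := hz3 ⟨h, hh⟩
        rw [h0, mul_zero] at h4
        exact lt_irrefl _ h4
      · exact (hUV hz1).2 h hS hT hh h0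
    rw [connectedComponentIn_eq hy1]
    exact hpre.subset_connectedComponentIn hy1S hF
  refine ⟨U, hUo, hxU, fun z hz hzG => ?_, fun z hz hzG hs => ?_⟩
  · refine closure_mono hSec (hcl ⟨hz, fun i => ?_, fun l => ?_⟩)
    · exact ((mem_Gam_iff hbU z).1 hzG).2 i (Finset.mem_union_left _ (mem_nb.1 i.2).1)
    · exact ((mem_Gam_iff hbU z).1 hzG).2 l (Finset.mem_union_right _ l.2)
  · refine hSec ⟨hz, fun i => ((mem_Gam_iff hb z).1 hzG).2 i (mem_nb.1 i.2).1, fun l => ?_⟩
    have h1 := hs l l.2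
    have h2 := sign_const hG hy1 (hJS l l.2) (hJT l l.2)
    have h3 : 0 < (tie φ col b l y0 * tie φ col b l z) *
        (tie φ col b l y0 * tie φ col b l y1) := mul_pos h1 h2
    have h4 : (tie φ col b l y0 * tie φ col b l z) *
        (tie φ col b l y0 * tie φ col b l y1) =
        tie φ col b l y0 ^ 2 * (tie φ col b l y1 * tie φ col b l z) := by ring
    rw [h4] at h3
    by_contra hc
    have h5 := mul_nonneg_of_nonpos_of_nonpos (neg_nonpos.2 (sq_nonneg (tie φ col b l y0)))
      (not_lt.1 hc)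
    linarith

end UC
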