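import Pool.Agent.UC.Next_Defs

open Finset Metric

namespace UC

variable {N : ℕ} {ι : Type} {Ω : Set (E N)} {φ : ι → E N → ℝ} {col : ι → Bool} {b : Bool → ι}

/-- a two-coloured set has a base -/
theorem exists_base {T : Finset ι} (hT : Both col T) : ∃ b : Bool → ι, IsBase col b T := by
  choose b h1 h2 using hT
  exact ⟨b, fun β => ⟨h1 β, h2 β⟩⟩

/-- a base of a smaller set is a base of the larger one -/
theorem IsBase.mono {T U : Finset ι} (hb : IsBase col b T) (h : T ⊆ U) : IsBase col b U := by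
  exact fun β => ⟨h (hb β).1, (hb β).2⟩

theorem IsBase.both {T : Finset ι} (hb : IsBase col b T) : Both col T := by
  exact fun β => ⟨b β, (hb β).1, (hb β).2⟩

/-- the base functions are tied with themselves -/
theorem tie_base {T : Finset ι} (hb : IsBase col b T) (β : Bool) (y : E N) :
    tie φ col b (b β) y = 0 := by
  unfold tie
  rw [(hb β).2, sub_self]

/-- Gam in terms of the ties -/
theorem mem_Gam_iff {T : Finset ι} (hb : IsBase col b T) (y : E N) :
    y ∈ Gam Ω φ col T ↔ y ∈ Ω ∧ ∀ i ∈ T, tie φ col b i y = 0 := by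
  constructor
  · rintro ⟨h1, h2⟩
    refine ⟨h1, fun i hi => ?_⟩
    unfold tie
    rw [h2 i hi (b (col i)) (hb (col i)).1 (hb (col i)).2.symm, sub_self]
  · rintro ⟨h1, h2⟩
    refine ⟨h1, fun i hi j hj hij => ?_⟩
    have e1 := h2 i hi
    have e2 := h2 j hj
    unfold tie at e1 e2
    rw [← hij] at e2
    rw [sub_eq_zero.1 e1, sub_eq_zero.1 e2]

/-- the functions of T of the colour of h have the value of the base function -/
private theorem ntTie_val {T : Finset ι} (hb : IsBase col b T) {y : E N}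
    (hy : y ∈ Gam Ω φ col T) {h i : ι} (hi : i ∈ T) (hc : col i = col h) :
    φ i y = φ (b (col h)) y :=
  hy.2 i hi (b (col h)) (hb (col h)).1 (hc.trans (hb (col h)).2.symm)

/-- below = negative tie (all functions of T of the colour of h have the value of the base
function) -/
theorem bel_iff {T : Finset ι} (hb : IsBase col b T) {y : E N} (hy : y ∈ Gam Ω φ col T) (h : ι) :
    Bel φ col T h y ↔ tie φ col b h y < 0 := by
  unfold tie
  rw [sub_neg]
  constructor
  · rintro ⟨i, hi, hc, hlt⟩
    rw [ntTie_val hb hy hi hc] at hlt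
    exact hlt
  · intro hlt
    exact ⟨b (col h), (hb (col h)).1, (hb (col h)).2, hlt⟩

theorem abv_iff {T : Finset ι} (hb : IsBase col b T) {y : E N} (hy : y ∈ Gam Ω φ col T) (h : ι) :
    Abv φ col T h y ↔ 0 < tie φ col b h y := by
  unfold tie
  rw [sub_pos]
  constructor
  · rintro ⟨i, hi, hc, hlt⟩
    rw [ntTie_val hb hy hi hc] at hlt
    exact hlt
  · intro hlt
    exact ⟨b (col h), (hb (col h)).1, (hb (col h)).2, hlt⟩

theorem tie_iff {T : Finset ι} (hb : IsBase col b T) {y : E N} (hy : y ∈ Gam Ω φ col T) (h : ι) :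
    Tie φ col T h y ↔ tie φ col b h y = 0 := by
  unfold tie
  rw [sub_eq_zero]
  constructor
  · rintro ⟨i, hi, hc, heq⟩
    rw [ntTie_val hb hy hi hc] at heq
    exact heq
  · intro heq
    exact ⟨b (col h), (hb (col h)).1, (hb (col h)).2, heq⟩

/-- Gam decreases -/
theorem Gam_anti {T U : Finset ι} (h : T ⊆ U) : Gam Ω φ col U ⊆ Gam Ω φ col T := by
  rintro y ⟨h1, h2⟩
  exact ⟨h1, fun i hi j hj hij => h2 i (h hi) j (h hj) hij⟩

end UC
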