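import Mathlib

/-!
# UC part P3, row Seq: the two sequences of constants
-/

open Finset

namespace UC

/-- Downward recursion from j = C0.  Given v = ν (j+1) > 0 choose a natural number t ≥ 2 with A * t^(-ρ) ≤ v / 8
(t^(-ρ) → 0 as t → ∞: `tendsto_rpow_neg_atTop` composed with `tendsto_natCast_atTop_atTop`), then ν j = v / (8 (1 + A t)), which
is positive and ≤ v ≤ 1.  Formally: by recursion on k (`Nat.rec` or an existence proof by induction on C0) get a function g : ℕ → ℕ × ℝ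
with g 0 = (2,1) and g (k+1) = (t, ν) obtained from (g k).2, and put t j = (g (C0 - j)).1, ν j = (g (C0 - j)).2; for j < C0 one has
C0 - j = (C0 - (j+1)) + 1. -/
theorem seq_exists (C0 : ℕ) (A ρ : ℝ) (hA : 0 ≤ A) (hρ : 0 < ρ) : ∃ (t : ℕ → ℕ) (ν : ℕ → ℝ), ν C0 = 1 ∧
    (∀ j, 2 ≤ t j) ∧ (∀ j, 0 < ν j) ∧ (∀ j, ν j ≤ 1) ∧ ∀ j < C0,
      A * (t j : ℝ) ^ (-ρ) ≤ ν (j + 1) / 8 ∧ (1 + A * t j) * ν j ≤ ν (j + 1) / 8 := by
  have hT : ∀ v : ℝ, ∃ t : ℕ, 2 ≤ t ∧ (0 < v → A * (t : ℝ) ^ (-ρ) ≤ v / 8) := by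
    intro v
    by_cases hv : 0 < v
    · have h1 : Filter.Tendsto (fun n : ℕ => A * (n : ℝ) ^ (-ρ)) Filter.atTop (nhds (A * 0)) :=
        ((tendsto_rpow_neg_atTop hρ).comp tendsto_natCast_atTop_atTop).const_mul A
      rw [mul_zero] at h1
      have h2 := h1.eventually (ge_mem_nhds (show (0 : ℝ) < v / 8 by positivity))
      obtain ⟨t, ht, ht2⟩ := (h2.and (Filter.eventually_ge_atTop 2)).exists
      exact ⟨t, ht2, fun _ => ht⟩
    · exact ⟨2, le_rfl, fun h => absurd h hv⟩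
  choose T hT2 hTv using hT
  let g : ℕ → ℕ × ℝ := fun k => Nat.rec (2, 1)
    (fun _ p => (T p.2, p.2 / (8 * (1 + A * T p.2)))) k
  have hg0 : g 0 = (2, 1) := rfl
  have hgs : ∀ k, g (k + 1) = (T (g k).2, (g k).2 / (8 * (1 + A * T (g k).2))) := fun k => rfl
  have hden : ∀ v : ℝ, 1 ≤ 1 + A * (T v : ℝ) := fun v => by
    have : 0 ≤ A * (T v : ℝ) := mul_nonneg hA (Nat.cast_nonneg _)
    linarith
  have h1 : ∀ k, 2 ≤ (g k).1 ∧ 0 < (g k).2 ∧ (g k).2 ≤ 1 := by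
    intro k
    induction k with
    | zero =>
      rw [hg0]
      exact ⟨le_rfl, one_pos, le_rfl⟩
    | succ k ih =>
      rw [hgs]
      have h2 := hden (g k).2
      have h3 : 0 < 8 * (1 + A * (T (g k).2 : ℝ)) := by linarith
      refine ⟨hT2 _, div_pos ih.2.1 h3, ?_⟩
      refine (div_le_self ih.2.1.le (by linarith)).trans ih.2.2
  refine ⟨fun j => (g (C0 - j)).1, fun j => (g (C0 - j)).2, ?_, fun j => (h1 _).1,
    fun j => (h1 _).2.1, fun j => (h1 _).2.2, ?_⟩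
  · simp only [Nat.sub_self]
    rw [hg0]
  · intro j hj
    have h2 : C0 - j = (C0 - (j + 1)) + 1 := by omega
    simp only [h2, hgs]
    refine ⟨hTv _ (h1 _).2.1, ?_⟩
    have h3 := hden (g (C0 - (j + 1))).2
    have h4 : 1 + A * (T (g (C0 - (j + 1))).2 : ℝ) ≠ 0 := by linarith
    rw [← mul_div_assoc, mul_comm 8, mul_div_mul_left _ _ h4]

end UC
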