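import Pool.Agent.UC.Rec_Defs
import Pool.Agent.UC.Rec_Seq

/-!
# UC part P3, row Consts: the choice of the constants
-/

open Finset

namespace UC

theorem rec_consts_bounds (C0 : ℕ) (t : ℕ → ℕ) (ν : ℕ → ℝ) (hν : ∀ j, 0 < ν j) :
    ∃ v T : ℝ, 0 < v ∧ 1 ≤ T ∧ (∀ j ≤ C0, v ≤ ν j) ∧ ∀ j < C0, (t j : ℝ) ≤ T := by
  obtain ⟨j0, -, h0⟩ := Finset.exists_min_image (range (C0 + 1)) ν ⟨0, by simp⟩
  refine ⟨ν j0, ∑ j ∈ range C0, (t j : ℝ) + 1, hν j0, ?_, ?_, ?_⟩
  · have : 0 ≤ ∑ j ∈ range C0, (t j : ℝ) := Finset.sum_nonneg fun _ _ => Nat.cast_nonneg _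
    linarith
  · intro j hj
    exact h0 j (mem_range.mpr (by omega))
  · intro j hj
    have := Finset.single_le_sum (f := fun j => (t j : ℝ)) (fun _ _ => Nat.cast_nonneg _)
      (mem_range.mpr hj)
    linarith

theorem rec_consts_lam {H : ℝ} (hH : 1 ≤ H) {a N : ℕ} (h : a ≤ N) :
    0 < lam H N ∧ lam H N ≤ lam H a := by
  have h0 : (0 : ℝ) < H := by linarith
  refine ⟨inv_pos.mpr (pow_pos h0 _), ?_⟩
  unfold lam
  exact inv_anti₀ (pow_pos h0 _) (pow_le_pow_right₀ hH (Nat.pow_le_pow_left h 2))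

theorem rec_consts_div {x y z H : ℝ} (hH : 0 < H) (h : x ≤ y * H) (hyz : y ≤ z) :
    x * H⁻¹ ≤ z := by
  rw [← div_eq_mul_inv, div_le_iff₀ hH]
  exact h.trans (mul_le_mul_of_nonneg_right hyz hH.le)

/-- Choice of the constants, in this order.  κ = KCS (N+2) > 0.
1. (t', ν') from seq_exists C0 (K κ) ρ: b1, b2.  Let v' = a positive lower bound of ν' j for j ≤ C0 (for example the minimum
over range (C0+1), or note ν' j ≤ ν' (j+1) for j < C0 by b2, so v' = ν' 0 works), and T' = Σ_{j < C0} t' j + 1.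
2. δ1 > 0 with K κ δ1 ≤ v'/8, for example δ1 = v' / (8 (K κ + 1)): b3.
3. c1 = 1 + 8 K κ T' / v' (b5: K κ t' j ≤ K κ T' ≤ (v'/8) c1 ≤ (ν' (j+1)/8) c1), c2 = c1 * (1 + 1/δ1) (so c2 ≥ c1: b6, and c1 ≤ δ1 c2: r1).
4. (t, ν) from seq_exists C0 (K κ (1 + c1 + c2)) ρ: a1, a2; v = lower bound of ν j, T = Σ t j + 1.
5. H = 1 + 1/δ1 + 16 K κ (1 + c1 + c2) T / v + 16 K κ T' / v': H ≥ 1, H⁻¹ ≤ δ1 (r2), a3, b4 (multiply by H > 0).
6. M = 1 + Σ_{j < C0} 4 t j (N+3) + Σ_{j < C0} 4 t' j (N+3): M1, M2, hM.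
7. D = C0 (H^(2N) M)^(N+2) + |Cp| + C0 + 8 K C0 + 1 and Θ = D / (min v v' * lam H N): lam H a ≥ lam H N > 0 for a ≤ N
(H ≥ 1, a^2 ≤ N^2), so ν j * (Θ * lam H a) ≥ v Θ lam H N ≥ D: s1, s2, p1, p2, b7.
The real numbers ν j with j > C0 do not matter (ν_pos: from seq_exists for all j). -/
theorem cst_exists (N C0 : ℕ) (K ρ Cp : ℝ) (hK : 0 ≤ K) (hρ : 0 < ρ) : Nonempty (Cst N C0 K ρ Cp) := by
  have hκ : 0 < KCS (N + 2) := by
    unfold KCS
    positivity
  set P : ℝ := K * KCS (N + 2) with hP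
  have hP0 : 0 ≤ P := mul_nonneg hK hκ.le
  obtain ⟨t', ν', nC', ht', np', n1', hs'⟩ := seq_exists C0 P ρ hP0 hρ
  obtain ⟨v', T', hv', hT', hvν', htT'⟩ := rec_consts_bounds C0 t' ν' np'
  set δ1 : ℝ := v' / (8 * (P + 1)) with hδ
  have hδ0 : 0 < δ1 := by positivity
  set c1 : ℝ := 1 + 8 * P * T' / v' with hc1
  have hq1 : 0 ≤ 8 * P * T' / v' := by positivity
  have hc1' : 1 ≤ c1 := by rw [hc1]; linarith
  set c2 : ℝ := c1 * (1 + 1 / δ1) with hc2
  have hq2 : 0 < 1 / δ1 := by positivity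
  have hc12 : c1 ≤ c2 := by
    rw [hc2]
    nlinarith
  have hc2' : 1 ≤ c2 := hc1'.trans hc12
  have hA0 : 0 ≤ P * (1 + c1 + c2) := mul_nonneg hP0 (by linarith)
  obtain ⟨t, ν, nC, ht, np, n1, hs⟩ := seq_exists C0 (P * (1 + c1 + c2)) ρ hA0 hρ
  obtain ⟨v, T, hv, hT, hvν, htT⟩ := rec_consts_bounds C0 t ν np
  set H : ℝ := 1 + 1 / δ1 + 16 * (P * (1 + c1 + c2)) * T / v + 16 * P * T' / v' with hH
  have hq3 : 0 ≤ 16 * (P * (1 + c1 + c2)) * T / v := by positivity
  have hq4 : 0 ≤ 16 * P * T' / v' := by positivity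
  have hH1 : 1 ≤ H := by rw [hH]; linarith
  have hH0 : 0 < H := by linarith
  set M : ℕ := 1 + ∑ j ∈ range C0, 4 * t j * (N + 3) + ∑ j ∈ range C0, 4 * t' j * (N + 3) with hM
  set D : ℝ := C0 * (H ^ (2 * N) * M) ^ (N + 2) + |Cp| + C0 + 8 * K * C0 + 1 with hD
  have hE0 : 0 ≤ C0 * (H ^ (2 * N) * M) ^ (N + 2) := by positivity
  have hKC : 0 ≤ 8 * K * C0 := by positivity
  have hC0 : (0 : ℝ) ≤ C0 := Nat.cast_nonneg _
  have hD0 : 0 < D := by
    rw [hD]
    have := abs_nonneg Cp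
    linarith
  have hm0 : 0 < min v v' := lt_min hv hv'
  have hlN : 0 < lam H N := (rec_consts_lam hH1 le_rfl).1
  set Θ : ℝ := D / (min v v' * lam H N) with hΘ
  have hΘ0 : 0 < Θ := by positivity
  have hmain : ∀ x : ℝ, min v v' ≤ x → ∀ a ≤ N, D ≤ x * (Θ * lam H a) := by
    intro x hx a ha
    have h1 : D = min v v' * (Θ * lam H N) := by
      rw [hΘ]
      field_simp
    have h2 : Θ * lam H N ≤ Θ * lam H a :=
      mul_le_mul_of_nonneg_left (rec_consts_lam hH1 ha).2 hΘ0.le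
    calc D = min v v' * (Θ * lam H N) := h1
      _ ≤ x * (Θ * lam H a) := mul_le_mul hx h2 (by positivity) (by linarith)
  have hA : ∀ j ≤ C0, ∀ a ≤ N, D ≤ ν j * (Θ * lam H a) := fun j hj =>
    hmain _ ((min_le_left _ _).trans (hvν j hj))
  have hB : ∀ j ≤ C0, ∀ a ≤ N, D ≤ ν' j * (Θ * lam H a) := fun j hj =>
    hmain _ ((min_le_right _ _).trans (hvν' j hj))
  have hb5 : ∀ j < C0, P * t' j ≤ ν' (j + 1) / 8 * c1 := by
    intro j hj
    have h1 : P * t' j ≤ P * T' := mul_le_mul_of_nonneg_left (htT' j hj) hP0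
    have h2 : v' / 8 * c1 = v' / 8 + P * T' := by
      rw [hc1]
      field_simp
    have h3 : v' / 8 * c1 ≤ ν' (j + 1) / 8 * c1 :=
      mul_le_mul_of_nonneg_right (by linarith [hvν' (j + 1) hj]) (by linarith)
    linarith
  refine ⟨{ t := t, t' := t', ν := ν, ν' := ν', c1 := c1, c2 := c2, H := H, Θ := Θ, δ1 := δ1,
            M := M, νC := nC, νC' := nC', ht := ht, ht' := ht', ν_pos := np, ν_pos' := np',
            hc1 := hc1', hc2 := hc2', hH := hH1, hΘ := hΘ0, hδ1 := hδ0.le, hM := by omega,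
            a1 := fun j hj => (hs j hj).1, a2 := fun j hj => (hs j hj).2, a3 := ?_,
            b1 := fun j hj => (hs' j hj).1, b2 := fun j hj => (hs' j hj).2, b3 := ?_,
            b4 := ?_, b5 := hb5, b6 := ?_, b7 := ?_, r1 := ?_, r2 := ?_, M1 := ?_, M2 := ?_,
            s1 := ?_, s2 := ?_, p1 := ?_, p2 := ?_ }⟩
  · -- a3
    intro j hj
    refine rec_consts_div (y := v / 16) hH0 ?_ (by linarith [hvν (j + 1) hj])
    have h1 : P * (1 + c1 + c2) * t j ≤ P * (1 + c1 + c2) * T :=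
      mul_le_mul_of_nonneg_left (htT j hj) hA0
    have h2 : v / 16 * (16 * (P * (1 + c1 + c2)) * T / v) = P * (1 + c1 + c2) * T := by
      field_simp
    have h3 : 16 * (P * (1 + c1 + c2)) * T / v ≤ H := by rw [hH]; linarith
    have h4 := mul_le_mul_of_nonneg_left h3 (by positivity : (0 : ℝ) ≤ v / 16)
    linarith
  · -- b3
    intro j hj
    have h1 : P * δ1 ≤ v' / 8 := by
      have h2 : (P + 1) * δ1 = v' / 8 := by
        rw [hδ]
        field_simp
      linarith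
    linarith [hvν' (j + 1) hj]
  · -- b4
    intro j hj
    refine rec_consts_div (y := v' / 16) hH0 ?_ (by linarith [hvν' (j + 1) hj])
    have h1 : P * t' j ≤ P * T' := mul_le_mul_of_nonneg_left (htT' j hj) hP0
    have h2 : v' / 16 * (16 * P * T' / v') = P * T' := by
      field_simp
    have h3 : 16 * P * T' / v' ≤ H := by rw [hH]; linarith
    have h4 := mul_le_mul_of_nonneg_left h3 (by positivity : (0 : ℝ) ≤ v' / 16)
    linarith
  · -- b6
    intro j hj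
    have h1 := hb5 j hj
    have h2 : ν' (j + 1) / 8 * c1 ≤ ν' (j + 1) / 8 * c2 :=
      mul_le_mul_of_nonneg_left hc12 (by linarith [np' (j + 1)])
    linarith
  · -- b7
    intro j hj a ha
    have h1 := hB (j + 1) hj a ha
    have h2 : 8 * K * C0 ≤ D := by
      rw [hD]
      have := abs_nonneg Cp
      linarith
    linarith
  · -- r1
    have h1 : δ1 * c2 = c1 * (δ1 + 1) := by
      rw [hc2]
      field_simp
    rw [h1]
    nlinarith
  · -- r2
    have h1 : 1 / δ1 ≤ H := by rw [hH]; linarith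
    rw [inv_le_comm₀ hH0 hδ0, inv_eq_one_div]
    exact h1
  · -- M1
    intro j hj
    have := Finset.single_le_sum (f := fun j => 4 * t j * (N + 3)) (fun _ _ => Nat.zero_le _)
      (mem_range.mpr hj)
    omega
  · -- M2
    intro j hj
    have := Finset.single_le_sum (f := fun j => 4 * t' j * (N + 3)) (fun _ _ => Nat.zero_le _)
      (mem_range.mpr hj)
    omega
  · -- s1
    intro j hj a ha
    refine le_trans ?_ (hA j hj a ha)
    rw [hD]
    have := abs_nonneg Cp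
    linarith
  · -- s2
    intro j hj a ha
    refine le_trans ?_ (hB j hj a ha)
    rw [hD]
    have := abs_nonneg Cp
    linarith
  · -- p1
    intro j hj a ha
    refine le_trans ?_ (hA j hj a ha)
    rw [hD]
    have := le_abs_self Cp
    linarith
  · -- p2
    intro j hj a ha
    refine le_trans ?_ (hB j hj a ha)
    rw [hD]
    have := abs_nonneg Cp
    linarith

end UC
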