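import Pool.Agent.UC.Rec_Defs

/-!
# UC part P3: the weights
-/

open Finset

namespace UC

theorem lam_pos {H : ℝ} (hH : 1 ≤ H) (a : ℕ) : 0 < lam H a := by
  unfold lam; positivity

theorem wt_pos {H : ℝ} (hH : 1 ≤ H) (β : Bool) (a b : ℕ) : 0 < wt H β a b := by
  unfold wt; split_ifs <;> exact lam_pos hH _

theorem lam_succ {H : ℝ} (hH : 1 ≤ H) (a : ℕ) : lam H a = lam H (a + 1) * H ^ (2 * a + 1) := by
  have h0 : 0 < H := by linarith
  unfold lam
  have : (a + 1) ^ 2 = a ^ 2 + (2 * a + 1) := by ring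
  rw [this, pow_add H (a ^ 2)]
  field_simp

theorem lam_up {H : ℝ} (hH : 1 ≤ H) (a : ℕ) {x y : ℝ} (h : H ^ (2 * (a + 1)) * y ≤ x) :
    lam H a * y ≤ H⁻¹ * (lam H (a + 1) * x) := by
  have h0 : 0 < H := by linarith
  have hl := lam_pos hH (a + 1)
  have h1 : lam H a * y = H⁻¹ * (lam H (a + 1) * (H ^ (2 * (a + 1)) * y)) := by
    rw [lam_succ hH a]
    have : H ^ (2 * (a + 1)) = H ^ (2 * a + 1) * H := by rw [← pow_succ]; congr 1
    rw [this]; field_simp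
  rw [h1]
  gcongr

theorem lam_down {H : ℝ} (hH : 1 ≤ H) (a : ℕ) {x y : ℝ} (h : x ≤ H ^ (2 * a) * y) :
    lam H (a + 1) * x ≤ H⁻¹ * (lam H a * y) := by
  have h0 : 0 < H := by linarith
  have hl := lam_pos hH (a + 1)
  have h1 : H⁻¹ * (lam H a * y) = lam H (a + 1) * (H ^ (2 * a) * y) := by
    rw [lam_succ hH a, pow_succ]; field_simp
  rw [h1]
  gcongr

theorem wt_not (H : ℝ) (β : Bool) (a b : ℕ) : wt H (!β) b a = wt H β a b := by
  cases β <;> simp [wt]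

theorem BA_swap (Θ ρ H x y : ℝ) (β : Bool) (a b : ℕ) :
    BA Θ ρ (wt H β) x y a b = BA Θ ρ (wt H (!β)) y x b a := by
  unfold BA
  rw [wt_not, mul_comm y x]; ring

theorem BB_swap (Θ ρ H c1 c2 x y : ℝ) (β : Bool) (a b : ℕ) :
    BB Θ ρ (wt H β) (dd c1 c2 β) (dd c1 c2 (!β)) x y a b =
      BB Θ ρ (wt H (!β)) (dd c1 c2 (!β)) (dd c1 c2 β) y x b a := by
  unfold BB
  rw [wt_not, wt_not, mul_comm y x]; ring

theorem dd_one {c1 c2 : ℝ} (h1 : 1 ≤ c1) (h2 : 1 ≤ c2) (β : Bool) : 1 ≤ dd c1 c2 β := by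
  unfold dd; split_ifs <;> assumption

section
variable {ι α : Type} [DecidableEq ι]

theorem m_add (X : Sys ι α) (S : Finset ι) (β : Bool) : X.m S β + X.m S (!β) = S.card := by
  unfold Sys.m
  rw [← Finset.card_filter_add_card_filter_not (s := S) (fun i => X.col i = β)]
  congr 2
  ext i
  simp only [Finset.mem_filter]
  cases X.col i <;> cases β <;> simp

theorem Sub_card (X : Sys ι α) {S S' : Finset ι} {β : Bool} {t : ℕ} (h : X.Sub S S' β t) (ht : 2 ≤ t)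
    (hm : 1 ≤ X.m S β) : S'.card < S.card := by
  rw [← m_add X S' β, ← m_add X S β, h.2.1, h.2.2]
  have : X.m S β / t < X.m S β := Nat.div_lt_self hm ht
  omega

end

end UC
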