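import Pool.Agent.UC.Rec_PureOne

/-!
# UC part P3, row PureZero: the pure types with N + 2 supports
-/

open Finset

namespace UC

theorem rec_purezero_m {ι α : Type} [DecidableEq ι] (X : Sys ι α) (S : Finset ι) (β : Bool) (f : ι)
    (hf : X.col f = β) :
    X.m (insert f (S.filter (fun i => X.col i ≠ β))) β = 1 ∧
      X.m (insert f (S.filter (fun i => X.col i ≠ β))) (!β) = X.m S (!β) := by
  constructor
  · unfold Sys.m
    rw [Finset.card_eq_one]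
    refine ⟨f, ?_⟩
    ext i
    rw [Finset.mem_filter, Finset.mem_insert, Finset.mem_filter, Finset.mem_singleton]
    constructor
    · rintro ⟨h | h, h1⟩
      · exact h
      · exact absurd h1 h.2
    · rintro rfl
      exact ⟨Or.inl rfl, hf⟩
  · unfold Sys.m
    congr 1
    ext i
    rw [Finset.mem_filter, Finset.mem_insert, Finset.mem_filter, Finset.mem_filter]
    constructor
    · rintro ⟨h | h, h1⟩
      · exfalso
        rw [h, hf] at h1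
        cases β <;> simp at h1
      · exact ⟨h.1, h1⟩
    · rintro ⟨h, h1⟩
      refine ⟨Or.inr ⟨h, ?_⟩, h1⟩
      rw [h1]
      cases β <;> simp

/-- The pure types with N + 2 supports.  If X.m S β = 0 then cnt = 0 (cnt_le_pow with 0^1 = 0) and the right side is ≥ 0.
Otherwise choose f in S of colour β; by `pure`, cnt S β 1 (N+1) 0 j ≤ cnt S₁ β 1 (N+1) 0 j with
S₁ = insert f (S.filter (col ≠ β)), X.m S₁ β = 1, X.m S₁ (!β) = X.m S (!β).  By cnt_swap this is cnt S₁ (!β) (N+1) 1 0 j.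
N ≥ 1: apply pure_one with γ = !β (!γ = β).  N = 0: apply cnt_pure_le with the colour !β, q = 1 = N + 1: cnt S₁ (!β) 1 1 0 j ≤
C0 * (X.m S₁ β)^1 = C0; if X.m S (!β) = 0 the count is 0 by cnt_le_pow (0^1 = 0), otherwise (X.m S (!β))^(0+ρ) ≥ 1.
So C = C_one + C0 works in both cases. -/
theorem pure_zero (N C0 : ℕ) (K ρ : ℝ) (hK : 0 ≤ K) (hρ : 0 < ρ) : ∃ C : ℝ, 0 ≤ C ∧
    ∀ (ι α : Type) [DecidableEq ι] (X : Sys ι α), X.Good N C0 K → ∀ (S : Finset ι) (β : Bool), ∀ j ≤ C0,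
        (X.cnt S β 1 (N + 1) 0 j : ℝ) ≤ C * (X.m S (!β) : ℝ) ^ ((N : ℝ) + ρ) := by
  obtain ⟨C1, hC1, h1⟩ : ∃ C1 : ℝ, 0 ≤ C1 ∧ (1 ≤ N → ∀ (ι α : Type) [DecidableEq ι] (X : Sys ι α),
      X.Good N C0 K → ∀ (S : Finset ι) (γ : Bool), X.m S (!γ) ≤ 1 → ∀ j ≤ C0,
        (X.cnt S γ (N + 1) 1 0 j : ℝ) ≤ C1 * (X.m S γ : ℝ) ^ ((N : ℝ) + ρ)) := by
    by_cases hN : 1 ≤ N
    · obtain ⟨C, hC, h⟩ := pure_one N C0 K ρ hK hρ hN
      exact ⟨C, hC, fun _ => h⟩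
    · exact ⟨0, le_refl _, fun h => absurd h hN⟩
  refine ⟨C1 + C0, by positivity, ?_⟩
  intro ι α _ X hX S β j hj
  have hpow : (0 : ℝ) ≤ (X.m S (!β) : ℝ) ^ ((N : ℝ) + ρ) :=
    Real.rpow_nonneg (Nat.cast_nonneg _) _
  have hrhs : 0 ≤ (C1 + C0) * (X.m S (!β) : ℝ) ^ ((N : ℝ) + ρ) :=
    mul_nonneg (by positivity) hpow
  have htriv := cnt_le_pow X hX.fib S β 1 (N + 1) 0 j
  by_cases hβ : X.m S β = 0
  · refine le_trans htriv (le_trans (le_of_eq ?_) hrhs)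
    rw [hβ]
    simp
  by_cases hβ' : X.m S (!β) = 0
  · refine le_trans htriv (le_trans (le_of_eq ?_) hrhs)
    rw [hβ']
    simp
  obtain ⟨f, hf⟩ : (S.filter (fun i => X.col i = β)).Nonempty := by
    rw [← Finset.card_pos]
    exact Nat.pos_of_ne_zero hβ
  rw [Finset.mem_filter] at hf
  have h2 := hX.pure S β (N + 1) j f hf.1 hf.2
  obtain ⟨m1, m2⟩ := rec_purezero_m X S β f hf.2
  set S₁ := insert f (S.filter (fun i => X.col i ≠ β)) with hS₁
  have h3 : (X.cnt S β 1 (N + 1) 0 j : ℝ) ≤ (X.cnt S₁ (!β) (N + 1) 1 0 j : ℝ) := by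
    rw [cnt_swap X S₁ β 1 (N + 1) j] at h2
    exact_mod_cast h2
  refine h3.trans ?_
  have hnn : (!(!β)) = β := Bool.not_not β
  rcases Nat.eq_zero_or_pos N with hN | hN
  · subst hN
    have h4 := cnt_pure_le X hX S₁ (!β) 1 j
    rw [hnn, m1] at h4
    have h5 : (1 : ℝ) ≤ (X.m S (!β) : ℝ) ^ (((0 : ℕ) : ℝ) + ρ) := by
      apply Real.one_le_rpow
      · exact_mod_cast Nat.pos_of_ne_zero hβ'
      · rw [Nat.cast_zero, zero_add]
        exact hρ.le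
    have h6 : (C0 : ℝ) * 1 ≤ (C1 + C0) * (X.m S (!β) : ℝ) ^ (((0 : ℕ) : ℝ) + ρ) :=
      mul_le_mul (by linarith) h5 zero_le_one (by positivity)
    refine le_trans h4 (le_trans (le_of_eq ?_) h6)
    simp
  · have h4 := h1 hN ι α X hX S₁ (!β) (by rw [hnn, m1]) j hj
    rw [m2] at h4
    refine h4.trans (mul_le_mul_of_nonneg_right ?_ hpow)
    have : (0 : ℝ) ≤ C0 := Nat.cast_nonneg C0
    linarith

end UC
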