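import Pool.Agent.UC.Rec_Defs

/-!
# UC part P3, row Basic: elementary properties of cnt
-/

open Finset

namespace UC

variable {ι α : Type} [DecidableEq ι]

private theorem rec_basic_ne (a b : Bool) : a ≠ b ↔ a = !b := by
  cases a <;> cases b <;> simp

private theorem rec_basic_m_ne (X : Sys ι α) (S : Finset ι) (β : Bool) :
    (S.filter (fun i => X.col i ≠ β)).card = X.m S (!β) := by
  unfold Sys.m
  congr 1
  exact Finset.filter_congr fun i _ => rec_basic_ne _ _

/-- No index is < 0. -/
theorem cnt_idx_zero (X : Sys ι α) (S : Finset ι) (β : Bool) (p q t : ℕ) : X.cnt S β p q t 0 = 0 := by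
  unfold Sys.cnt
  rw [Finset.card_eq_zero, Finset.filter_eq_empty_iff]
  rintro o - ⟨-, -, -, -, -, h⟩
  exact Nat.not_lt_zero _ h

/-- At level 0 the two colours play the same role: for Booleans col i ≠ β ↔ col i = !β and col i ≠ !β ↔ col i = β;
(card ≤ 0 ↔ empty).  The two filters are equal (`Finset.filter_congr`). -/
theorem cnt_swap (X : Sys ι α) (S : Finset ι) (β : Bool) (p q j : ℕ) :
    X.cnt S β p q 0 j = X.cnt S (!β) q p 0 j := by
  unfold Sys.cnt
  congr 1
  refine Finset.filter_congr fun o _ => ?_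
  have h1 : ∀ T : Finset ι, T.filter (fun i => X.col i = !β) = T.filter (fun i => X.col i ≠ β) :=
    fun T => Finset.filter_congr fun i _ => (rec_basic_ne _ _).symm
  have h2 : ∀ T : Finset ι, T.filter (fun i => X.col i ≠ !β) = T.filter (fun i => X.col i = β) :=
    fun T => Finset.filter_congr fun i _ => by
      rw [rec_basic_ne, Bool.not_not]
  rw [h1, h2, h1, h2]
  simp only [Nat.le_zero, Finset.card_eq_zero]
  tauto

/-- Trivial bound.  The map o ↦ supp o sends the objects counted to sets T ⊆ S with |T.filter (col = β)| = p and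
|T.filter (col ≠ β)| = q; T is determined by the pair (T.filter (col = β), T.filter (col ≠ β)) in
(S.filter (col = β)).powersetCard p ×ˢ (S.filter (col ≠ β)).powersetCard q, of cardinality C(m,p) C(n,q) (note that col i ≠ β ↔
col i = !β), and each fibre has at most C0 elements by hf (`Finset.card_le_mul_card_image` or
`Finset.card_le_mul_card_image_of_maps_to`). -/
theorem cnt_le_choose (X : Sys ι α) {C0 : ℕ} (hf : ∀ T : Finset ι, (X.O.filter (fun o => X.supp o = T)).card ≤ C0)
    (S : Finset ι) (β : Bool) (p q t j : ℕ) :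
    X.cnt S β p q t j ≤ C0 * ((X.m S β).choose p * (X.m S (!β)).choose q) := by
  unfold Sys.cnt
  have h1 := Finset.card_le_mul_card_image_of_maps_to
    (s := X.O.filter (fun o => X.supp o ⊆ S ∧ ((X.supp o).filter (fun i => X.col i = β)).card = p ∧
      ((X.supp o).filter (fun i => X.col i ≠ β)).card = q ∧
      ((X.bel o ∩ S).filter (fun i => X.col i = β)).card ≤ t ∧
      ((X.bel o ∩ S).filter (fun i => X.col i ≠ β)) = ∅ ∧ X.idx o < j))
    (t := S.powerset.filter (fun T => (T.filter (fun i => X.col i = β)).card = p ∧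
      (T.filter (fun i => X.col i ≠ β)).card = q)) (f := X.supp)
    (fun o ho => by
      rw [Finset.mem_filter] at ho ⊢
      exact ⟨Finset.mem_powerset.2 ho.2.1, ho.2.2.1, ho.2.2.2.1⟩) C0
    (fun T _ => (Finset.card_le_card (Finset.filter_subset_filter _
      (Finset.filter_subset _ _))).trans (hf T))
  refine h1.trans (Nat.mul_le_mul_left C0 ?_)
  have h2 : (X.m S β).choose p * (X.m S (!β)).choose q =
      ((S.filter (fun i => X.col i = β)).powersetCard p ×ˢ
        (S.filter (fun i => X.col i ≠ β)).powersetCard q).card := by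
    rw [Finset.card_product, Finset.card_powersetCard, Finset.card_powersetCard,
      rec_basic_m_ne X S β]
    rfl
  rw [h2]
  refine Finset.card_le_card_of_injOn (fun T => (T.filter (fun i => X.col i = β),
    T.filter (fun i => X.col i ≠ β))) ?_ ?_
  · intro T hT
    have hT' := Finset.mem_filter.1 (Finset.mem_coe.1 hT)
    have hS := Finset.mem_powerset.1 hT'.1
    refine Finset.mem_coe.2 (Finset.mem_product.2 ⟨Finset.mem_powersetCard.2
      ⟨Finset.filter_subset_filter _ hS, hT'.2.1⟩, Finset.mem_powersetCard.2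
      ⟨Finset.filter_subset_filter _ hS, hT'.2.2⟩⟩)
  · intro T _ T' _ h
    have e1 := congrArg Prod.fst h
    have e2 := congrArg Prod.snd h
    simp only at e1 e2
    rw [← Finset.filter_union_filter_not_eq (fun i => X.col i = β) T,
      ← Finset.filter_union_filter_not_eq (fun i => X.col i = β) T', e1, e2]

/-- From cnt_le_choose and `Nat.choose_le_pow` (C(n,k) ≤ n^k). -/
theorem cnt_le_pow (X : Sys ι α) {C0 : ℕ} (hf : ∀ T : Finset ι, (X.O.filter (fun o => X.supp o = T)).card ≤ C0)
    (S : Finset ι) (β : Bool) (p q t j : ℕ) :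
    (X.cnt S β p q t j : ℝ) ≤ C0 * ((X.m S β : ℝ) ^ p * (X.m S (!β) : ℝ) ^ q) := by
  have h1 : X.cnt S β p q t j ≤ C0 * ((X.m S β) ^ p * (X.m S (!β)) ^ q) :=
    (cnt_le_choose X hf S β p q t j).trans (Nat.mul_le_mul_left C0
      (Nat.mul_le_mul (Nat.choose_le_pow _ _) (Nat.choose_le_pow _ _)))
  exact_mod_cast h1

/-- The pure types: if X.m S β = 0 then cnt = 0 by cnt_le_pow; otherwise choose f in S with col f = β; by `pure`
cnt S β 1 q 0 j ≤ cnt S₁ β 1 q 0 j with S₁ = insert f (S.filter (col ≠ β)), X.m S₁ β = 1 and X.m S₁ (!β) = X.m S (!β); apply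
cnt_le_pow. -/
theorem cnt_pure_le (X : Sys ι α) {N C0 : ℕ} {K : ℝ} (hX : X.Good N C0 K) (S : Finset ι) (β : Bool) (q j : ℕ) :
    (X.cnt S β 1 q 0 j : ℝ) ≤ C0 * (X.m S (!β) : ℝ) ^ q := by
  rcases Nat.eq_zero_or_pos (X.m S β) with h0 | h0
  · have h1 := cnt_le_pow X hX.fib S β 1 q 0 j
    rw [h0] at h1
    refine h1.trans ?_
    simp only [Nat.cast_zero, pow_one, zero_mul, mul_zero]
    positivity
  · obtain ⟨f, hf⟩ := Finset.card_pos.1 h0
    obtain ⟨hfS, hfc⟩ := Finset.mem_filter.1 hf
    have h2 : ((X.cnt S β 1 q 0 j : ℕ) : ℝ) ≤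
        ((X.cnt (insert f (S.filter (fun i => X.col i ≠ β))) β 1 q 0 j : ℕ) : ℝ) := by
      exact_mod_cast hX.pure S β q j f hfS hfc
    refine h2.trans ?_
    have h3 := cnt_le_pow X hX.fib (insert f (S.filter (fun i => X.col i ≠ β))) β 1 q 0 j
    have h4 : X.m (insert f (S.filter (fun i => X.col i ≠ β))) β = 1 := by
      unfold Sys.m
      rw [Finset.card_eq_one]
      refine ⟨f, ?_⟩
      ext i
      simp only [Finset.mem_filter, Finset.mem_insert, Finset.mem_singleton]
      constructor
      · rintro ⟨h | ⟨-, h⟩, h5⟩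
        · exact h
        · exact absurd h5 h
      · rintro rfl
        exact ⟨Or.inl rfl, hfc⟩
    have h5 : X.m (insert f (S.filter (fun i => X.col i ≠ β))) (!β) = X.m S (!β) := by
      unfold Sys.m
      congr 1
      ext i
      simp only [Finset.mem_filter, Finset.mem_insert]
      constructor
      · rintro ⟨h | ⟨h, -⟩, h6⟩
        · rw [h, hfc] at h6
          exact absurd h6 (by cases β <;> simp)
        · exact ⟨h, h6⟩
      · rintro ⟨h, h6⟩
        exact ⟨Or.inr ⟨h, (rec_basic_ne _ _).2 h6⟩, h6⟩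
    rw [h4, h5] at h3
    simpa using h3

end UC
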