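import Pool.Agent.UC.Rec_CSAB
import Pool.Agent.UC.Rec_Basic

/-!
# UC part P3, row StepB: one step for the objects with N + 1 supports
-/

open Finset

namespace UC

/-- The arithmetic of the step, with all counts replaced by real numbers. -/
theorem rec_stepb_arith {K κ τ t d1 d2 δ δ1 νj ν' u v z V cj T1 T2 T3 T4 T5 T6 T7 C : ℝ}
    (hK : 0 ≤ K) (hκ : 0 ≤ κ) (hτ0 : 0 ≤ τ) (hτ1 : τ ≤ 1) (ht : 1 ≤ t) (hd1 : 1 ≤ d1) (hd2 : 1 ≤ d2)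
    (hδ : 0 ≤ δ) (hνj : 0 ≤ νj) (hν' : 0 ≤ ν') (hu : 0 ≤ u) (hv : 0 ≤ v) (hz : 0 ≤ z)
    (hV : V = d1 * u + d2 * v)
    (hcj : cj ≤ νj * V)
    (hT1 : T1 ≤ κ * τ * (d1 * u + t * d2 * v))
    (hT2 : T2 ≤ νj * (κ * τ * (d1 * u + t * d2 * v)))
    (hT3 : T3 ≤ κ * τ * (d1 * v + t * d2 * z))
    (hT4 : K * T4 ≤ ν' / 8 * v)
    (hT5 : T5 ≤ κ * (t * τ) * u)
    (hT6 : T6 ≤ κ * (t * τ) * v)
    (hT7 : T7 ≤ κ * (t * τ) * z)
    (h1 : K * κ * τ ≤ ν' / 8)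
    (h2 : (1 + K * κ * t) * νj ≤ ν' / 8)
    (h3 : K * κ * δ1 ≤ ν' / 8)
    (h4 : K * κ * t * δ ≤ ν' / 16)
    (h5 : K * κ * t ≤ ν' / 8 * d1)
    (h6 : K * κ * t ≤ ν' / 8 * d2)
    (hr : z ≤ δ * v)
    (hr3 : d1 * v ≤ δ1 * V)
    (hC : C ≤ cj + K * (T1 / t + T2 + T3 + T4 + (T5 + T6 + T7))) :
    C ≤ ν' * V := by
  have hd1' : 0 ≤ d1 := by linarith
  have hd2' : 0 ≤ d2 := by linarith
  have ht' : 0 < t := by linarith
  have hdu : 0 ≤ d1 * u := mul_nonneg hd1' hu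
  have hdv : 0 ≤ d2 * v := mul_nonneg hd2' hv
  have hV0 : 0 ≤ V := by rw [hV]; linarith
  have hvV : v ≤ V := by
    have : v ≤ d2 * v := le_mul_of_one_le_left hv hd2
    rw [hV]; linarith
  have hdvV : d2 * v ≤ V := by rw [hV]; linarith
  have hKκ : 0 ≤ K * κ := mul_nonneg hK hκ
  have hW : d1 * u + t * d2 * v ≤ t * V := by
    have e1 : d1 * u ≤ t * (d1 * u) := le_mul_of_one_le_left hdu ht
    rw [hV]; nlinarith
  have hW0 : 0 ≤ t * V := mul_nonneg ht'.le hV0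
  -- T1
  have b1 : K * (T1 / t) ≤ ν' / 8 * V := by
    have e1 : T1 ≤ κ * τ * (t * V) :=
      hT1.trans (mul_le_mul_of_nonneg_left hW (mul_nonneg hκ hτ0))
    have e2 : T1 / t ≤ κ * τ * V := by
      rw [div_le_iff₀ ht']
      calc T1 ≤ κ * τ * (t * V) := e1
        _ = κ * τ * V * t := by ring
    calc K * (T1 / t) ≤ K * (κ * τ * V) := mul_le_mul_of_nonneg_left e2 hK
      _ = (K * κ * τ) * V := by ring
      _ ≤ ν' / 8 * V := mul_le_mul_of_nonneg_right h1 hV0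
  -- T2
  have hτW : κ * τ * (d1 * u + t * d2 * v) ≤ κ * (t * V) := by
    have e0 : 0 ≤ d1 * u + t * d2 * v := by
      have : 0 ≤ t * d2 * v := mul_nonneg (mul_nonneg ht'.le hd2') hv
      linarith
    calc κ * τ * (d1 * u + t * d2 * v) ≤ κ * 1 * (d1 * u + t * d2 * v) := by gcongr
      _ = κ * (d1 * u + t * d2 * v) := by ring
      _ ≤ κ * (t * V) := mul_le_mul_of_nonneg_left hW hκ
  have b2 : cj + K * T2 ≤ ν' / 8 * V := by
    have e1 : T2 ≤ νj * (κ * (t * V)) := hT2.trans (mul_le_mul_of_nonneg_left hτW hνj)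
    calc cj + K * T2 ≤ νj * V + K * (νj * (κ * (t * V))) :=
          add_le_add hcj (mul_le_mul_of_nonneg_left e1 hK)
      _ = ((1 + K * κ * t) * νj) * V := by ring
      _ ≤ ν' / 8 * V := mul_le_mul_of_nonneg_right h2 hV0
  -- T3
  have hd2z : d2 * z ≤ δ * V := by
    calc d2 * z ≤ d2 * (δ * v) := mul_le_mul_of_nonneg_left hr hd2'
      _ = δ * (d2 * v) := by ring
      _ ≤ δ * V := mul_le_mul_of_nonneg_left hdvV hδ
  have b3 : K * T3 ≤ (ν' / 8 + ν' / 16) * V := by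
    have e0 : 0 ≤ d1 * v + t * d2 * z :=
      add_nonneg (mul_nonneg hd1' hv) (mul_nonneg (mul_nonneg ht'.le hd2') hz)
    have e1 : T3 ≤ κ * (d1 * v + t * d2 * z) := by
      refine hT3.trans ?_
      calc κ * τ * (d1 * v + t * d2 * z) ≤ κ * 1 * (d1 * v + t * d2 * z) := by gcongr
        _ = κ * (d1 * v + t * d2 * z) := by ring
    have e2 : d1 * v + t * d2 * z ≤ δ1 * V + t * (δ * V) := by
      have : t * d2 * z ≤ t * (δ * V) := by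
        rw [mul_assoc]
        exact mul_le_mul_of_nonneg_left hd2z ht'.le
      linarith
    calc K * T3 ≤ K * (κ * (δ1 * V + t * (δ * V))) :=
          mul_le_mul_of_nonneg_left (e1.trans (mul_le_mul_of_nonneg_left e2 hκ)) hK
      _ = (K * κ * δ1 + K * κ * t * δ) * V := by ring
      _ ≤ (ν' / 8 + ν' / 16) * V := mul_le_mul_of_nonneg_right (add_le_add h3 h4) hV0
  -- T4
  have b4 : K * T4 ≤ ν' / 8 * V :=
    hT4.trans (mul_le_mul_of_nonneg_left hvV (by positivity))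
  -- T5, T6
  have htτ : t * τ ≤ t := by
    have := mul_le_mul_of_nonneg_left hτ1 ht'.le
    linarith
  have htτ0 : 0 ≤ t * τ := mul_nonneg ht'.le hτ0
  have b5 : K * T5 ≤ ν' / 8 * (d1 * u) := by
    have e1 : T5 ≤ κ * t * u := hT5.trans (by gcongr)
    calc K * T5 ≤ K * (κ * t * u) := mul_le_mul_of_nonneg_left e1 hK
      _ = (K * κ * t) * u := by ring
      _ ≤ (ν' / 8 * d1) * u := mul_le_mul_of_nonneg_right h5 hu
      _ = ν' / 8 * (d1 * u) := by ring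
  have b6 : K * T6 ≤ ν' / 8 * (d2 * v) := by
    have e1 : T6 ≤ κ * t * v := hT6.trans (by gcongr)
    calc K * T6 ≤ K * (κ * t * v) := mul_le_mul_of_nonneg_left e1 hK
      _ = (K * κ * t) * v := by ring
      _ ≤ (ν' / 8 * d2) * v := mul_le_mul_of_nonneg_right h6 hv
      _ = ν' / 8 * (d2 * v) := by ring
  have b56 : K * T5 + K * T6 ≤ ν' / 8 * V := by
    calc K * T5 + K * T6 ≤ ν' / 8 * (d1 * u) + ν' / 8 * (d2 * v) := add_le_add b5 b6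
      _ = ν' / 8 * V := by rw [hV]; ring
  -- T7
  have b7 : K * T7 ≤ ν' / 16 * V := by
    have e1 : T7 ≤ κ * t * z := hT7.trans (by gcongr)
    have e2 : κ * t * z ≤ κ * t * (δ * v) := mul_le_mul_of_nonneg_left hr (mul_nonneg hκ ht'.le)
    calc K * T7 ≤ K * (κ * t * (δ * v)) := mul_le_mul_of_nonneg_left (e1.trans e2) hK
      _ = (K * κ * t * δ) * v := by ring
      _ ≤ ν' / 16 * v := mul_le_mul_of_nonneg_right h4 hv
      _ ≤ ν' / 16 * V := mul_le_mul_of_nonneg_left hvV (by positivity)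
  have hνV : 0 ≤ ν' * V := mul_nonneg hν' hV0
  calc C ≤ cj + K * (T1 / t + T2 + T3 + T4 + (T5 + T6 + T7)) := hC
    _ = K * (T1 / t) + (cj + K * T2) + K * T3 + K * T4 + (K * T5 + K * T6) + K * T7 := by ring
    _ ≤ ν' / 8 * V + ν' / 8 * V + (ν' / 8 + ν' / 16) * V + ν' / 8 * V + ν' / 8 * V
        + ν' / 16 * V := by gcongr
    _ = ν' * V - ν' * V / 4 := by ring
    _ ≤ ν' * V := by linarith

/-- Type (a+2, b+1), a + 2 + b = N.  Put x = X.m S β ≥ 1 (by hm), y = X.m S (!β) ≥ 1, κ = KCS (N+2), τ = t^(-ρ) (0 < τ ≤ 1),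
P = (x y)^ρ ≥ 1, u = Θ w (a+2) b x^(a+2) y^b P, v = Θ w (a+1) (b+1) x^(a+1) y^(b+1) P,
V = BB Θ ρ w d1 d2 x y (a+1) b = d1 u + d2 v.  X.Good.step with p = a + 2, q = b + 1, p + q = N + 1:
cnt (j+1) ≤ cnt j + K (T1 / t + T2 + T3 + T4 + (T5 + T6 + T7)),
T1 = cnt S β (a+2) (b+1) t C0 ≤ κ τ (d1 u + t d2 v) ≤ κ τ t V   [cs_BB (a+1,b), c = 1 = ν C0, t ≥ 1], so T1 / t ≤ κ τ V;
T2 = cnt S β (a+2) (b+1) t j ≤ ν j κ τ t V ≤ ν j κ t V;
T3 = cnt S β (a+1) (b+2) t C0 ≤ κ τ (d1 v + t d2 Θ w a (b+2) x^a y^(b+2) P) ≤ κ d1 v + κ t d2 δ v ≤ κ δ1 V + κ t δ V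
   [cs_BB (a, b+1), c = 1; hr times Θ x^a y^(b+1) P; hr3 times Θ x^(a+1) y^b P: d1 v ≤ δ1 (d1 u + d2 v)];
T4 = cnt S β (a+1) (b+1) t C0 ≤ C0 x^(a+1) y^(b+1)   [cnt_le_pow; hX.fib]; K T4 ≤ (K C0) x^(a+1) y^(b+1)
   ≤ (ν (j+1) / 8) Θ w (a+1) (b+1) x^(a+1) y^(b+1) P ≤ (ν (j+1)/8) v ≤ (ν (j+1) / 8) V   [h7, P ≥ 1, d2 ≥ 1];
T5 = cnt S β (a+3) (b+1) t C0 ≤ κ t τ u   [cs_BA (a+2, b)], K T5 ≤ K κ t u ≤ (ν (j+1)/8) d1 u ≤ (ν (j+1)/8) V   [h5];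
T6 = cnt S β (a+2) (b+2) t C0 ≤ κ t τ v   [cs_BA (a+1, b+1)], K T6 ≤ (ν (j+1)/8) d2 v ≤ (ν (j+1)/8) V   [h6];
T7 = cnt S β (a+1) (b+3) t C0 ≤ κ t τ Θ w a (b+2) x^a y^(b+2) P ≤ κ t δ v ≤ κ t δ V   [cs_BA (a, b+2), hr, d2 ≥ 1].
To be careful with T5 + T6: K κ t u ≤ (ν/8) d1 u and K κ t v ≤ (ν/8) d2 v, so K (T5 + T6) ≤ (ν/8) V.
The sum is at most V * [ (1 + K κ t) ν j + K κ τ + K κ δ1 + 2 K κ t δ + ν(j+1)/8 + ν(j+1)/8 ] ≤ V * (6/8) ν (j+1) by h1, h2, h3, h4. -/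
theorem stepB {ι α : Type} [DecidableEq ι] (X : Sys ι α) {N C0 : ℕ} {K : ℝ} (hX : X.Good N C0 K) (hK : 0 ≤ K)
    {Θ ρ d1 d2 δ δ1 : ℝ} {w : ℕ → ℕ → ℝ} {ν : ℕ → ℝ} (hΘ : 0 ≤ Θ) (hρ : 0 ≤ ρ) (hd1 : 1 ≤ d1) (hd2 : 1 ≤ d2)
    (hδ : 0 ≤ δ) (hδ1 : 0 ≤ δ1) (hw : ∀ a b, 0 ≤ w a b) (hν : ∀ j, 0 ≤ ν j) (hνC : ν C0 = 1)
    (S : Finset ι) (β : Bool) (a b j t : ℕ) (hab : a + 2 + b = N) (hj : j < C0) (ht : 2 ≤ t)
    (hm : 4 * t * (N + 3) ≤ X.m S β) (hy : 1 ≤ X.m S (!β))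
    (ihA : ∀ S', X.Sub S S' β t → ∀ a b, a + b = N →
      (X.cnt S' β (a + 1) (b + 1) 0 C0 : ℝ) ≤ BA Θ ρ w (X.m S' β) (X.m S' (!β)) a b)
    (ihB : ∀ S', X.Sub S S' β t → ∀ i ≤ C0, ∀ a b, a + b + 1 = N →
      (X.cnt S' β (a + 1) (b + 1) 0 i : ℝ) ≤ ν i * BB Θ ρ w d1 d2 (X.m S' β) (X.m S' (!β)) a b)
    (hS : (X.cnt S β (a + 2) (b + 1) 0 j : ℝ) ≤
      ν j * BB Θ ρ w d1 d2 (X.m S β) (X.m S (!β)) (a + 1) b)
    (h1 : K * KCS (N + 2) * (t : ℝ) ^ (-ρ) ≤ ν (j + 1) / 8)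
    (h2 : (1 + K * KCS (N + 2) * t) * ν j ≤ ν (j + 1) / 8)
    (h3 : K * KCS (N + 2) * δ1 ≤ ν (j + 1) / 8)
    (h4 : K * KCS (N + 2) * t * δ ≤ ν (j + 1) / 16)
    (h5 : K * KCS (N + 2) * t ≤ ν (j + 1) / 8 * d1)
    (h6 : K * KCS (N + 2) * t ≤ ν (j + 1) / 8 * d2)
    (h7 : K * C0 ≤ ν (j + 1) / 8 * (Θ * w (a + 1) (b + 1)))
    (hr : w a (b + 2) * X.m S (!β) ≤ δ * (w (a + 1) (b + 1) * X.m S β))
    (hr3 : d1 * (w (a + 1) (b + 1) * X.m S (!β)) ≤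
      δ1 * (d1 * (w (a + 2) b * X.m S β) + d2 * (w (a + 1) (b + 1) * X.m S (!β)))) :
    (X.cnt S β (a + 2) (b + 1) 0 (j + 1) : ℝ) ≤
      ν (j + 1) * BB Θ ρ w d1 d2 (X.m S β) (X.m S (!β)) (a + 1) b := by
  have hdisj := hX.disj
  have hd1' : 0 ≤ d1 := by linarith
  have hd2' : 0 ≤ d2 := by linarith
  have htR : (2 : ℝ) ≤ (t : ℝ) := by exact_mod_cast ht
  have hx1 : (1 : ℝ) ≤ (X.m S β : ℝ) := by
    have h : 1 ≤ X.m S β := by
      refine le_trans ?_ hm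
      have : 0 < 4 * t * (N + 3) := by positivity
      omega
    exact_mod_cast h
  have hy1 : (1 : ℝ) ≤ (X.m S (!β) : ℝ) := by exact_mod_cast hy
  have hκ : 0 ≤ KCS (N + 2) := by unfold KCS; positivity
  have hτ0 : 0 ≤ (t : ℝ) ^ (-ρ) := Real.rpow_nonneg (by linarith) _
  have hτ1 : (t : ℝ) ^ (-ρ) ≤ 1 :=
    Real.rpow_le_one_of_one_le_of_nonpos (by linarith) (by linarith)
  have hP1 : (1 : ℝ) ≤ ((X.m S β : ℝ) * (X.m S (!β) : ℝ)) ^ ρ :=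
    Real.one_le_rpow (by nlinarith) hρ
  -- the inequalities of the recursion
  have c1 := cs_BB X hdisj (N := N) ht hΘ hρ (c := 1) zero_le_one hd1' hd2' hw S β (a + 1) b C0
    (by omega) hm (fun S' hS' => by
      have := ihB S' hS' C0 le_rfl (a + 1) b (by omega)
      rwa [hνC] at this)
  have c2 := cs_BB X hdisj (N := N) ht hΘ hρ (c := ν j) (hν j) hd1' hd2' hw S β (a + 1) b j
    (by omega) hm (fun S' hS' => ihB S' hS' j hj.le (a + 1) b (by omega))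
  have c3 := cs_BB X hdisj (N := N) ht hΘ hρ (c := 1) zero_le_one hd1' hd2' hw S β a (b + 1) C0
    (by omega) hm (fun S' hS' => by
      have := ihB S' hS' C0 le_rfl a (b + 1) (by omega)
      rwa [hνC] at this)
  have c4 := cnt_le_pow X hX.fib S β (a + 1) (b + 1) t C0
  have c5 := cs_BA X hdisj (N := N) ht hΘ hρ (c := 1) zero_le_one hw S β (a + 2) b C0
    (by omega) hm (fun S' hS' => by
      have := ihA S' hS' (a + 2) b (by omega)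
      rwa [one_mul])
  have c6 := cs_BA X hdisj (N := N) ht hΘ hρ (c := 1) zero_le_one hw S β (a + 1) (b + 1) C0
    (by omega) hm (fun S' hS' => by
      have := ihA S' hS' (a + 1) (b + 1) (by omega)
      rwa [one_mul])
  have c7 := cs_BA X hdisj (N := N) ht hΘ hρ (c := 1) zero_le_one hw S β a (b + 2) C0
    (by omega) hm (fun S' hS' => by
      have := ihA S' hS' a (b + 2) (by omega)
      rwa [one_mul])
  have hstep := hX.step S β (a + 2) (b + 1) t j (by omega) (by omega) (by omega)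
    (Or.inr (by omega))
  rw [if_pos (by omega : a + 2 + (b + 1) = N + 1)] at hstep
  have e1 : a + 2 - 1 = a + 1 := by omega
  rw [e1] at hstep
  unfold BA at c5 c6 c7
  unfold BB at c1 c2 c3 hS ⊢
  generalize (X.m S β : ℝ) = x at *
  generalize (X.m S (!β) : ℝ) = y at *
  generalize KCS (N + 2) = κ at *
  generalize (t : ℝ) ^ (-ρ) = τ at *
  generalize hPd : (x * y) ^ ρ = P at *
  have hx0 : 0 ≤ x := by linarith
  have hy0 : 0 ≤ y := by linarith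
  have hP0 : 0 ≤ P := by linarith
  have hu : 0 ≤ Θ * (w (a + 2) b * x ^ (a + 2) * y ^ b) * P := by
    have := hw (a + 2) b; positivity
  have hv : 0 ≤ Θ * (w (a + 1) (b + 1) * x ^ (a + 1) * y ^ (b + 1)) * P := by
    have := hw (a + 1) (b + 1); positivity
  have hz : 0 ≤ Θ * (w a (b + 2) * x ^ a * y ^ (b + 2)) * P := by
    have := hw a (b + 2); positivity
  have hrz : Θ * (w a (b + 2) * x ^ a * y ^ (b + 2)) * P ≤
      δ * (Θ * (w (a + 1) (b + 1) * x ^ (a + 1) * y ^ (b + 1)) * P) := by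
    have h0 : 0 ≤ Θ * x ^ a * y ^ (b + 1) * P := by positivity
    have := mul_le_mul_of_nonneg_left hr h0
    calc Θ * (w a (b + 2) * x ^ a * y ^ (b + 2)) * P
        = Θ * x ^ a * y ^ (b + 1) * P * (w a (b + 2) * y) := by ring
      _ ≤ Θ * x ^ a * y ^ (b + 1) * P * (δ * (w (a + 1) (b + 1) * x)) := this
      _ = δ * (Θ * (w (a + 1) (b + 1) * x ^ (a + 1) * y ^ (b + 1)) * P) := by ring
  have hr3' : d1 * (Θ * (w (a + 1) (b + 1) * x ^ (a + 1) * y ^ (b + 1)) * P) ≤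
      δ1 * (d1 * (Θ * (w (a + 2) b * x ^ (a + 2) * y ^ b) * P) +
        d2 * (Θ * (w (a + 1) (b + 1) * x ^ (a + 1) * y ^ (b + 1)) * P)) := by
    have h0 : 0 ≤ Θ * x ^ (a + 1) * y ^ b * P := by positivity
    have := mul_le_mul_of_nonneg_left hr3 h0
    calc d1 * (Θ * (w (a + 1) (b + 1) * x ^ (a + 1) * y ^ (b + 1)) * P)
        = Θ * x ^ (a + 1) * y ^ b * P * (d1 * (w (a + 1) (b + 1) * y)) := by ring
      _ ≤ _ := this
      _ = _ := by ring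
  have hT4 : K * (C0 * (x ^ (a + 1) * y ^ (b + 1))) ≤
      ν (j + 1) / 8 * (Θ * (w (a + 1) (b + 1) * x ^ (a + 1) * y ^ (b + 1)) * P) := by
    have h0 : 0 ≤ x ^ (a + 1) * y ^ (b + 1) := by positivity
    have e2 := mul_le_mul_of_nonneg_right h7 h0
    have e3 : 0 ≤ ν (j + 1) / 8 * (Θ * w (a + 1) (b + 1)) * (x ^ (a + 1) * y ^ (b + 1)) := by
      have := hw (a + 1) (b + 1); have := hν (j + 1); positivity
    calc K * (C0 * (x ^ (a + 1) * y ^ (b + 1))) = K * C0 * (x ^ (a + 1) * y ^ (b + 1)) := by ring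
      _ ≤ ν (j + 1) / 8 * (Θ * w (a + 1) (b + 1)) * (x ^ (a + 1) * y ^ (b + 1)) := e2
      _ ≤ ν (j + 1) / 8 * (Θ * w (a + 1) (b + 1)) * (x ^ (a + 1) * y ^ (b + 1)) * P :=
          le_mul_of_one_le_right e3 hP1
      _ = _ := by ring
  have key := rec_stepb_arith (V := d1 * (Θ * (w (a + 2) b * x ^ (a + 2) * y ^ b) * P) +
        d2 * (Θ * (w (a + 1) (b + 1) * x ^ (a + 1) * y ^ (b + 1)) * P)) hK hκ hτ0 hτ1
    (by linarith : (1 : ℝ) ≤ (t : ℝ)) hd1 hd2 hδ (hν j) (hν (j + 1)) hu hv hz rfl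
    (cj := (X.cnt S β (a + 2) (b + 1) 0 j : ℝ)) (hS.trans (le_of_eq (by ring)))
    (T1 := (X.cnt S β (a + 2) (b + 1) t C0 : ℝ)) (c1.trans (le_of_eq (by ring)))
    (T2 := (X.cnt S β (a + 2) (b + 1) t j : ℝ)) (c2.trans (le_of_eq (by ring)))
    (T3 := (X.cnt S β (a + 1) (b + 1 + 1) t C0 : ℝ)) (c3.trans (le_of_eq (by ring)))
    (T4 := (X.cnt S β (a + 1) (b + 1) t C0 : ℝ))
    ((mul_le_mul_of_nonneg_left c4 hK).trans hT4)
    (T5 := (X.cnt S β (a + 2 + 1) (b + 1) t C0 : ℝ)) (c5.trans (le_of_eq (by ring)))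
    (T6 := (X.cnt S β (a + 2) (b + 1 + 1) t C0 : ℝ)) (c6.trans (le_of_eq (by ring)))
    (T7 := (X.cnt S β (a + 1) (b + 1 + 2) t C0 : ℝ)) (c7.trans (le_of_eq (by ring)))
    h1 h2 h3 h4 h5 h6 hrz hr3' hstep
  exact key.trans (le_of_eq (by ring))

end UC
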