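import Pool.Agent.UC.Rec_StepA
import Pool.Agent.UC.Rec_StepB
import Pool.Agent.UC.Rec_PureZero
import Pool.Agent.UC.Rec_Consts
import Pool.Agent.UC.Rec_Lam

/-!
# UC part P3: the induction
-/

open Finset

namespace UC

section
variable {ι α : Type} [DecidableEq ι]

/-- The bound A at the set S and the index j for the colour β. -/
def ClA (X : Sys ι α) {N C0 : ℕ} {K ρ Cp : ℝ} (c : Cst N C0 K ρ Cp) (S : Finset ι) (β : Bool) (j : ℕ) : Prop :=
  ∀ a b : ℕ, a + b = N → (X.cnt S β (a + 1) (b + 1) 0 j : ℝ) ≤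
    c.ν j * BA c.Θ ρ (wt c.H β) (X.m S β) (X.m S (!β)) a b

/-- The bound B at the set S and the index j for the colour β. -/
def ClB (X : Sys ι α) {N C0 : ℕ} {K ρ Cp : ℝ} (c : Cst N C0 K ρ Cp) (S : Finset ι) (β : Bool) (j : ℕ) : Prop :=
  ∀ a b : ℕ, a + b + 1 = N → (X.cnt S β (a + 1) (b + 1) 0 j : ℝ) ≤
    c.ν' j * BB c.Θ ρ (wt c.H β) (dd c.c1 c.c2 β) (dd c.c1 c.c2 (!β)) (X.m S β) (X.m S (!β)) a b

theorem ClA_swap (X : Sys ι α) {N C0 : ℕ} {K ρ Cp : ℝ} (c : Cst N C0 K ρ Cp) (S : Finset ι) (j : ℕ)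
    (h : ClA X c S true j) : ∀ β, ClA X c S β j := by
  intro β
  cases β
  · intro a b hab
    have := h b a (by omega)
    rw [cnt_swap, BA_swap]
    simpa using this
  · exact h

theorem ClB_swap (X : Sys ι α) {N C0 : ℕ} {K ρ Cp : ℝ} (c : Cst N C0 K ρ Cp) (S : Finset ι) (j : ℕ)
    (h : ClB X c S true j) : ∀ β, ClB X c S β j := by
  intro β
  cases β
  · intro a b hab
    have := h b a (by omega)
    rw [cnt_swap, BB_swap]
    simpa using this
  · exact h

theorem BA_nonneg {Θ ρ : ℝ} (hΘ : 0 ≤ Θ) {H : ℝ} (hH : 1 ≤ H) (β : Bool) (x y : ℕ) (a b : ℕ) :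
    0 ≤ BA Θ ρ (wt H β) x y a b := by
  have := wt_pos hH β a b
  unfold BA; positivity

theorem BB_nonneg {Θ ρ : ℝ} (hΘ : 0 ≤ Θ) {H c1 c2 : ℝ} (hH : 1 ≤ H) (h1 : 1 ≤ c1) (h2 : 1 ≤ c2) (β : Bool)
    (x y : ℕ) (a b : ℕ) :
    0 ≤ BB Θ ρ (wt H β) (dd c1 c2 β) (dd c1 c2 (!β)) x y a b := by
  have := wt_pos hH β (a + 1) b
  have := wt_pos hH β a (b + 1)
  have := dd_one h1 h2 β
  have := dd_one h1 h2 (!β)
  unfold BB; positivity

/-- lower bound for BA -/
theorem BA_ge {Θ ρ : ℝ} (hΘ : 0 < Θ) (hρ : 0 < ρ) {H : ℝ} (hH : 1 ≤ H) (x y : ℕ) (hx : 1 ≤ x) (hy : 1 ≤ y)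
    (a b : ℕ) : Θ * lam H a ≤ BA Θ ρ (wt H true) x y a b := by
  have hl := lam_pos hH a
  have hx' : (1 : ℝ) ≤ x := by exact_mod_cast hx
  have hy' : (1 : ℝ) ≤ y := by exact_mod_cast hy
  have h1 : (1 : ℝ) ≤ (x : ℝ) ^ a := one_le_pow₀ hx'
  have h2 : (1 : ℝ) ≤ (y : ℝ) ^ b := one_le_pow₀ hy'
  have h3 : (1 : ℝ) ≤ ((x : ℝ) * y) ^ ρ := Real.one_le_rpow (by nlinarith) hρ.le
  unfold BA
  have hw : wt H true a b = lam H a := by simp [wt]
  rw [hw]
  calc Θ * lam H a = Θ * (lam H a * 1 * 1) * 1 := by ring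
    _ ≤ _ := by gcongr

/-- lower bounds for BB -/
theorem BB_ge {Θ ρ : ℝ} (hΘ : 0 < Θ) (hρ : 0 < ρ) {H c1 c2 : ℝ} (hH : 1 ≤ H) (h1 : 1 ≤ c1) (h2 : 1 ≤ c2)
    (x y : ℕ) (hx : 1 ≤ x) (hy : 1 ≤ y) (a b : ℕ) :
    Θ * lam H (a + 1) * (x : ℝ) ^ (a + 1) ≤ BB Θ ρ (wt H true) (dd c1 c2 true) (dd c1 c2 (!true)) x y a b ∧
    Θ * lam H a * (y : ℝ) ^ (b + 1) ≤ BB Θ ρ (wt H true) (dd c1 c2 true) (dd c1 c2 (!true)) x y a b := by
  have hl := lam_pos hH a
  have hl' := lam_pos hH (a + 1)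
  have hx' : (1 : ℝ) ≤ x := by exact_mod_cast hx
  have hy' : (1 : ℝ) ≤ y := by exact_mod_cast hy
  have h3 : (1 : ℝ) ≤ ((x : ℝ) * y) ^ ρ := Real.one_le_rpow (by nlinarith) hρ.le
  have e1 : BB Θ ρ (wt H true) (dd c1 c2 true) (dd c1 c2 (!true)) x y a b =
      (Θ * (c1 * (lam H (a + 1) * (x : ℝ) ^ (a + 1) * (y : ℝ) ^ b)) +
        Θ * (c2 * (lam H a * (x : ℝ) ^ a * (y : ℝ) ^ (b + 1)))) * ((x : ℝ) * y) ^ ρ := by
    simp only [BB, wt, dd, Bool.not_true, if_true, Bool.false_eq_true, if_false]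
    ring
  rw [e1]
  have h4 : (1 : ℝ) ≤ (y : ℝ) ^ b := one_le_pow₀ hy'
  have h5 : (1 : ℝ) ≤ (x : ℝ) ^ a := one_le_pow₀ hx'
  have p1 : 0 ≤ Θ * (c1 * (lam H (a + 1) * (x : ℝ) ^ (a + 1) * (y : ℝ) ^ b)) := by positivity
  have p2 : 0 ≤ Θ * (c2 * (lam H a * (x : ℝ) ^ a * (y : ℝ) ^ (b + 1))) := by positivity
  have q1 : Θ * lam H (a + 1) * (x : ℝ) ^ (a + 1) ≤
      Θ * (c1 * (lam H (a + 1) * (x : ℝ) ^ (a + 1) * (y : ℝ) ^ b)) := by
    calc Θ * lam H (a + 1) * (x : ℝ) ^ (a + 1) = Θ * (1 * (lam H (a + 1) * (x : ℝ) ^ (a + 1) * 1)) := by ring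
      _ ≤ _ := by gcongr
  have q2 : Θ * lam H a * (y : ℝ) ^ (b + 1) ≤
      Θ * (c2 * (lam H a * (x : ℝ) ^ a * (y : ℝ) ^ (b + 1))) := by
    calc Θ * lam H a * (y : ℝ) ^ (b + 1) = Θ * (1 * (lam H a * 1 * (y : ℝ) ^ (b + 1))) := by ring
      _ ≤ _ := by gcongr
  constructor
  · calc _ ≤ Θ * (c1 * (lam H (a + 1) * (x : ℝ) ^ (a + 1) * (y : ℝ) ^ b)) := q1
      _ ≤ (Θ * (c1 * (lam H (a + 1) * (x : ℝ) ^ (a + 1) * (y : ℝ) ^ b)) +
        Θ * (c2 * (lam H a * (x : ℝ) ^ a * (y : ℝ) ^ (b + 1)))) * 1 := by linarith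
      _ ≤ _ := by gcongr
  · calc _ ≤ Θ * (c2 * (lam H a * (x : ℝ) ^ a * (y : ℝ) ^ (b + 1))) := q2
      _ ≤ (Θ * (c1 * (lam H (a + 1) * (x : ℝ) ^ (a + 1) * (y : ℝ) ^ b)) +
        Θ * (c2 * (lam H a * (x : ℝ) ^ a * (y : ℝ) ^ (b + 1)))) * 1 := by linarith
      _ ≤ _ := by gcongr

/-- small sets -/
theorem cnt_small (X : Sys ι α) {N C0 : ℕ} {K ρ Cp : ℝ} (c : Cst N C0 K ρ Cp) (hX : X.Good N C0 K)
    (S : Finset ι) (a b j : ℕ) (hab : a + b ≤ N)
    (hx : (X.m S true : ℝ) ≤ c.H ^ (2 * N) * c.M) (hy : (X.m S false : ℝ) ≤ c.H ^ (2 * N) * c.M) :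
    (X.cnt S true (a + 1) (b + 1) 0 j : ℝ) ≤ C0 * (c.H ^ (2 * N) * c.M) ^ (N + 2) := by
  have hH := c.hH
  have hM : (1 : ℝ) ≤ c.M := by exact_mod_cast c.hM
  have h1 : (1 : ℝ) ≤ c.H ^ (2 * N) * c.M := by
    have : (1 : ℝ) ≤ c.H ^ (2 * N) := one_le_pow₀ hH
    nlinarith
  refine (cnt_le_pow X hX.fib S true (a + 1) (b + 1) 0 j).trans ?_
  have h2 : (X.m S true : ℝ) ^ (a + 1) * (X.m S (!true) : ℝ) ^ (b + 1) ≤
      (c.H ^ (2 * N) * c.M) ^ (a + 1) * (c.H ^ (2 * N) * c.M) ^ (b + 1) := by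
    simp only [Bool.not_true]
    gcongr
  have h3 : (c.H ^ (2 * N) * (c.M : ℝ)) ^ (a + 1) * (c.H ^ (2 * N) * c.M) ^ (b + 1) ≤
      (c.H ^ (2 * N) * c.M) ^ (N + 2) := by
    rw [← pow_add]
    exact pow_le_pow_right₀ h1 (by omega)
  exact mul_le_mul_of_nonneg_left (h2.trans h3) (by positivity)

/-- The step for A. -/
theorem ClA_step (X : Sys ι α) {N C0 : ℕ} {K ρ Cp : ℝ} (hK : 0 ≤ K) (hρ : 0 < ρ) (c : Cst N C0 K ρ Cp)
    (hX : X.Good N C0 K)
    (hp : ∀ (S : Finset ι) (β : Bool), ∀ j ≤ C0,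
        (X.cnt S β 1 (N + 1) 0 j : ℝ) ≤ Cp * (X.m S (!β) : ℝ) ^ ((N : ℝ) + ρ))
    (hCp : 0 ≤ Cp)
    (S : Finset ι) (j : ℕ) (hj : j < C0)
    (ihA : ∀ S' : Finset ι, S'.card < S.card → ∀ i ≤ C0, ∀ β, ClA X c S' β i)
    (ihB : ∀ S' : Finset ι, S'.card < S.card → ∀ i ≤ C0, ∀ β, ClB X c S' β i)
    (hS : ∀ β, ClA X c S β j) : ClA X c S true (j + 1) := by
  intro a b hab
  have hΘ := c.hΘ
  have hH := c.hH
  have hH0 : 0 < c.H := by linarith
  have hν := c.ν_pos (j + 1)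
  have hνn : ∀ j, 0 ≤ c.ν j := fun j => (c.ν_pos j).le
  have hwn : ∀ β a b, 0 ≤ wt c.H β a b := fun β a b => (wt_pos hH β a b).le
  -- empty classes
  rcases Nat.eq_zero_or_pos (X.m S true) with hm0 | hm0
  · have := cnt_le_pow X hX.fib S true (a + 1) (b + 1) 0 (j + 1)
    rw [hm0] at this
    have h0 := BA_nonneg (ρ := ρ) hΘ.le hH true (X.m S true) (X.m S (!true)) a b
    refine (this.trans (le_of_eq ?_)).trans (mul_nonneg hν.le h0)
    simp
  rcases Nat.eq_zero_or_pos (X.m S false) with hn0 | hn0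
  · have := cnt_le_pow X hX.fib S true (a + 1) (b + 1) 0 (j + 1)
    simp only [Bool.not_true] at this
    rw [hn0] at this
    have h0 := BA_nonneg (ρ := ρ) hΘ.le hH true (X.m S true) (X.m S (!true)) a b
    refine (this.trans (le_of_eq ?_)).trans (mul_nonneg hν.le h0)
    simp
  have hm1 : (1 : ℝ) ≤ X.m S true := by exact_mod_cast hm0
  have hn1 : (1 : ℝ) ≤ X.m S false := by exact_mod_cast hn0
  have hge := BA_ge (H := c.H) hΘ hρ hH (X.m S true) (X.m S false) hm0 hn0 a b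
  -- pure types
  rcases Nat.eq_zero_or_pos a with ha0 | ha0
  · subst ha0
    have hbN : b = N := by omega
    subst hbN
    have h1 := hp S true (j + 1) hj
    simp only [Bool.not_true] at h1 ⊢
    refine h1.trans ?_
    have h2 := c.p1 (j + 1) hj 0 (Nat.zero_le _)
    have e : c.ν (j + 1) * BA c.Θ ρ (wt c.H true) (X.m S true) (X.m S false) 0 b =
        (c.ν (j + 1) * (c.Θ * lam c.H 0)) * ((X.m S true : ℝ) ^ ρ * (X.m S false : ℝ) ^ ((b : ℝ) + ρ)) := by
      simp only [BA, wt, if_true, pow_zero, mul_one]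
      rw [Real.mul_rpow (by positivity) (by positivity), Real.rpow_add (by linarith), Real.rpow_natCast]
      ring
    rw [e]
    have h3 : (1 : ℝ) ≤ (X.m S true : ℝ) ^ ρ := Real.one_le_rpow hm1 hρ.le
    have h4 : 0 ≤ (X.m S false : ℝ) ^ ((b : ℝ) + ρ) := by positivity
    have h5 : 0 ≤ c.ν (j + 1) * (c.Θ * lam c.H 0) := hCp.trans h2
    calc Cp * (X.m S false : ℝ) ^ ((b : ℝ) + ρ) ≤
        (c.ν (j + 1) * (c.Θ * lam c.H 0)) * (1 * (X.m S false : ℝ) ^ ((b : ℝ) + ρ)) := by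
          rw [one_mul]; gcongr
      _ ≤ _ := by gcongr
  rcases Nat.eq_zero_or_pos b with hb0 | hb0
  · subst hb0
    have haN : a = N := by omega
    subst haN
    have h1 := hp S false (j + 1) hj
    have hsw := cnt_swap X S true (a + 1) 1 (j + 1)
    simp only [Bool.not_true, Bool.not_false] at h1 hsw ⊢
    rw [zero_add, hsw]
    refine h1.trans ?_
    have h2 := c.p1 (j + 1) hj a le_rfl
    have e : c.ν (j + 1) * BA c.Θ ρ (wt c.H true) (X.m S true) (X.m S false) a 0 =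
        (c.ν (j + 1) * (c.Θ * lam c.H a)) * ((X.m S false : ℝ) ^ ρ * (X.m S true : ℝ) ^ ((a : ℝ) + ρ)) := by
      simp only [BA, wt, if_true, pow_zero, mul_one]
      rw [Real.mul_rpow (by positivity) (by positivity), Real.rpow_add (by linarith), Real.rpow_natCast]
      ring
    rw [e]
    have h3 : (1 : ℝ) ≤ (X.m S false : ℝ) ^ ρ := Real.one_le_rpow hn1 hρ.le
    have h4 : 0 ≤ (X.m S true : ℝ) ^ ((a : ℝ) + ρ) := by positivity
    have h5 : 0 ≤ c.ν (j + 1) * (c.Θ * lam c.H a) := hCp.trans h2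
    calc Cp * (X.m S true : ℝ) ^ ((a : ℝ) + ρ) ≤
        (c.ν (j + 1) * (c.Θ * lam c.H a)) * (1 * (X.m S true : ℝ) ^ ((a : ℝ) + ρ)) := by
          rw [one_mul]; gcongr
      _ ≤ _ := by gcongr
  obtain ⟨a', rfl⟩ : ∃ a', a = a' + 1 := ⟨a - 1, by omega⟩
  obtain ⟨b', rfl⟩ : ∃ b', b = b' + 1 := ⟨b - 1, by omega⟩
  -- small sets
  have small : (X.m S true : ℝ) ≤ c.H ^ (2 * N) * c.M → (X.m S false : ℝ) ≤ c.H ^ (2 * N) * c.M →
      (X.cnt S true (a' + 1 + 1) (b' + 1 + 1) 0 (j + 1) : ℝ) ≤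
        c.ν (j + 1) * BA c.Θ ρ (wt c.H true) (X.m S true) (X.m S (!true)) (a' + 1) (b' + 1) := by
    intro hx hy
    refine (cnt_small X c hX S (a' + 1) (b' + 1) (j + 1) (by omega) hx hy).trans ?_
    refine (c.s1 (j + 1) hj (a' + 1) (by omega)).trans ?_
    exact mul_le_mul_of_nonneg_left hge hν.le
  have hHp : ∀ i : ℕ, (1 : ℝ) ≤ c.H ^ i := fun i => one_le_pow₀ hH
  have hMn : (1 : ℝ) ≤ c.M := by exact_mod_cast c.hM
  have hHN : (c.M : ℝ) ≤ c.H ^ (2 * N) * c.M := by nlinarith [hHp (2 * N)]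
  rcases le_or_gt (c.H ^ (2 * (a' + 1)) * (X.m S false : ℝ)) (X.m S true) with hc | hc
  · -- colour true
    rcases le_or_gt c.M (X.m S true) with hM | hM
    · have hm : 4 * c.t j * (N + 3) ≤ X.m S true := (c.M1 j hj).trans hM
      have h := stepA X hX hK (Θ := c.Θ) (ρ := ρ) (d1 := dd c.c1 c.c2 true) (d2 := dd c.c1 c.c2 (!true))
        (δ := c.H⁻¹) (w := wt c.H true) (ν := c.ν) hΘ.le hρ.le
        (by have := dd_one c.hc1 c.hc2 true; linarith) (by have := dd_one c.hc1 c.hc2 (!true); linarith)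
        (by positivity) (hwn true) hνn c.νC S true a' (b' + 1) j (c.t j) (by omega) hj (c.ht j) hm
        (fun S' hS' i hi => ihA S' (Sub_card X hS' (c.ht j) hm0) i hi true)
        (fun S' hS' a b hab => by
          have := ihB S' (Sub_card X hS' (c.ht j) hm0) C0 le_rfl true a b hab
          rwa [c.νC', one_mul] at this)
        (hS true (a' + 1) (b' + 1) hab)
        (by simpa [dd] using c.a1 j hj) (by simpa [dd] using c.a2 j hj) (by simpa [dd] using c.a3 j hj)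
        (by simpa [wt] using lam_up hH a' hc)
      exact h
    · refine small ?_ ?_
      · have : (X.m S true : ℝ) ≤ c.M := by exact_mod_cast hM.le
        linarith
      · have : (X.m S true : ℝ) ≤ c.M := by exact_mod_cast hM.le
        nlinarith [hHp (2 * (a' + 1))]
  · -- colour false
    rcases le_or_gt c.M (X.m S false) with hM | hM
    · have hm : 4 * c.t j * (N + 3) ≤ X.m S false := (c.M1 j hj).trans hM
      have h := stepA X hX hK (Θ := c.Θ) (ρ := ρ) (d1 := dd c.c1 c.c2 false) (d2 := dd c.c1 c.c2 (!false))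
        (δ := c.H⁻¹) (w := wt c.H false) (ν := c.ν) hΘ.le hρ.le
        (by have := dd_one c.hc1 c.hc2 false; linarith) (by have := dd_one c.hc1 c.hc2 (!false); linarith)
        (by positivity) (hwn false) hνn c.νC S false b' (a' + 1) j (c.t j) (by omega) hj (c.ht j) hm
        (fun S' hS' i hi => ihA S' (Sub_card X hS' (c.ht j) hn0) i hi false)
        (fun S' hS' a b hab => by
          have := ihB S' (Sub_card X hS' (c.ht j) hn0) C0 le_rfl false a b hab
          rwa [c.νC', one_mul] at this)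
        (hS false (b' + 1) (a' + 1) (by omega))
        (by
          have := c.a1 j hj
          simp only [dd, Bool.not_false, if_true, Bool.false_eq_true, if_false]
          rw [show (1 : ℝ) + c.c2 + c.c1 = 1 + c.c1 + c.c2 by ring]; exact this)
        (by
          have := c.a2 j hj
          simp only [dd, Bool.not_false, if_true, Bool.false_eq_true, if_false]
          rw [show (1 : ℝ) + c.c2 + c.c1 = 1 + c.c1 + c.c2 by ring]; exact this)
        (by
          have := c.a3 j hj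
          simp only [dd, Bool.not_false, if_true, Bool.false_eq_true, if_false]
          rw [show (1 : ℝ) + c.c2 + c.c1 = 1 + c.c1 + c.c2 by ring]; exact this)
        (by simpa [wt] using lam_down hH (a' + 1) hc.le)
      rw [cnt_swap, BA_swap]
      simpa using h
    · have hM' : (X.m S false : ℝ) ≤ c.M := by exact_mod_cast hM.le
      refine small ?_ ?_
      · have h1 : c.H ^ (2 * (a' + 1)) ≤ c.H ^ (2 * N) := pow_le_pow_right₀ hH (by omega)
        calc (X.m S true : ℝ) ≤ c.H ^ (2 * (a' + 1)) * (X.m S false : ℝ) := hc.le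
          _ ≤ c.H ^ (2 * N) * c.M := by gcongr
      · linarith

/-- The step for B. -/
theorem ClB_step (X : Sys ι α) {N C0 : ℕ} {K ρ Cp : ℝ} (hK : 0 ≤ K) (hρ : 0 < ρ) (c : Cst N C0 K ρ Cp)
    (hX : X.Good N C0 K)
    (S : Finset ι) (j : ℕ) (hj : j < C0)
    (ihA : ∀ S' : Finset ι, S'.card < S.card → ∀ i ≤ C0, ∀ β, ClA X c S' β i)
    (ihB : ∀ S' : Finset ι, S'.card < S.card → ∀ i ≤ C0, ∀ β, ClB X c S' β i)
    (hS : ∀ β, ClB X c S β j) : ClB X c S true (j + 1) := by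
  intro a b hab
  have hΘ := c.hΘ
  have hH := c.hH
  have hH0 : 0 < c.H := by linarith
  have hν := c.ν_pos' (j + 1)
  have hνn : ∀ j, 0 ≤ c.ν' j := fun j => (c.ν_pos' j).le
  have hwn : ∀ β a b, 0 ≤ wt c.H β a b := fun β a b => (wt_pos hH β a b).le
  rcases Nat.eq_zero_or_pos (X.m S true) with hm0 | hm0
  · have := cnt_le_pow X hX.fib S true (a + 1) (b + 1) 0 (j + 1)
    rw [hm0] at this
    have h0 := BB_nonneg (ρ := ρ) hΘ.le hH c.hc1 c.hc2 true (X.m S true) (X.m S (!true)) a b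
    refine (this.trans (le_of_eq ?_)).trans (mul_nonneg hν.le h0)
    simp
  rcases Nat.eq_zero_or_pos (X.m S false) with hn0 | hn0
  · have := cnt_le_pow X hX.fib S true (a + 1) (b + 1) 0 (j + 1)
    simp only [Bool.not_true] at this
    rw [hn0] at this
    have h0 := BB_nonneg (ρ := ρ) hΘ.le hH c.hc1 c.hc2 true (X.m S true) (X.m S (!true)) a b
    refine (this.trans (le_of_eq ?_)).trans (mul_nonneg hν.le h0)
    simp
  have hm1 : (1 : ℝ) ≤ X.m S true := by exact_mod_cast hm0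
  have hn1 : (1 : ℝ) ≤ X.m S false := by exact_mod_cast hn0
  have hge := BB_ge (H := c.H) hΘ hρ hH c.hc1 c.hc2 (X.m S true) (X.m S false) hm0 hn0 a b
  rcases Nat.eq_zero_or_pos a with ha0 | ha0
  · subst ha0
    have h1 := cnt_pure_le X hX S true (b + 1) (j + 1)
    refine h1.trans ?_
    have h2 := c.p2 (j + 1) hj 0 (Nat.zero_le _)
    calc (C0 : ℝ) * (X.m S (!true) : ℝ) ^ (b + 1) ≤
        (c.ν' (j + 1) * (c.Θ * lam c.H 0)) * (X.m S false : ℝ) ^ (b + 1) := by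
          simp only [Bool.not_true]; gcongr
      _ = c.ν' (j + 1) * (c.Θ * lam c.H 0 * (X.m S false : ℝ) ^ (b + 1)) := by ring
      _ ≤ _ := mul_le_mul_of_nonneg_left hge.2 hν.le
  rcases Nat.eq_zero_or_pos b with hb0 | hb0
  · subst hb0
    have h1 := cnt_pure_le X hX S false (a + 1) (j + 1)
    have hsw := cnt_swap X S true (a + 1) 1 (j + 1)
    simp only [Bool.not_true] at hsw
    rw [zero_add, hsw]
    refine h1.trans ?_
    have h2 := c.p2 (j + 1) hj (a + 1) (by omega)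
    calc (C0 : ℝ) * (X.m S (!false) : ℝ) ^ (a + 1) ≤
        (c.ν' (j + 1) * (c.Θ * lam c.H (a + 1))) * (X.m S true : ℝ) ^ (a + 1) := by
          simp only [Bool.not_false]; gcongr
      _ = c.ν' (j + 1) * (c.Θ * lam c.H (a + 1) * (X.m S true : ℝ) ^ (a + 1)) := by ring
      _ ≤ _ := mul_le_mul_of_nonneg_left hge.1 hν.le
  obtain ⟨a', rfl⟩ : ∃ a', a = a' + 1 := ⟨a - 1, by omega⟩
  obtain ⟨b', rfl⟩ : ∃ b', b = b' + 1 := ⟨b - 1, by omega⟩
  have small : (X.m S true : ℝ) ≤ c.H ^ (2 * N) * c.M → (X.m S false : ℝ) ≤ c.H ^ (2 * N) * c.M →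
      (X.cnt S true (a' + 1 + 1) (b' + 1 + 1) 0 (j + 1) : ℝ) ≤
        c.ν' (j + 1) * BB c.Θ ρ (wt c.H true) (dd c.c1 c.c2 true) (dd c.c1 c.c2 (!true))
          (X.m S true) (X.m S (!true)) (a' + 1) (b' + 1) := by
    intro hx hy
    refine (cnt_small X c hX S (a' + 1) (b' + 1) (j + 1) (by omega) hx hy).trans ?_
    refine (c.s2 (j + 1) hj (a' + 1) (by omega)).trans ?_
    refine mul_le_mul_of_nonneg_left ?_ hν.le
    refine le_trans ?_ hge.2
    have hl := lam_pos hH (a' + 1)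
    have : (1 : ℝ) ≤ (X.m S false : ℝ) ^ (b' + 1 + 1) := one_le_pow₀ hn1
    calc c.Θ * lam c.H (a' + 1) = c.Θ * lam c.H (a' + 1) * 1 := by ring
      _ ≤ _ := by gcongr
  have hHp : ∀ i : ℕ, (1 : ℝ) ≤ c.H ^ i := fun i => one_le_pow₀ hH
  have hMn : (1 : ℝ) ≤ c.M := by exact_mod_cast c.hM
  have hHN : (c.M : ℝ) ≤ c.H ^ (2 * N) * c.M := by nlinarith [hHp (2 * N)]
  rcases le_or_gt (c.H ^ (2 * (a' + 1)) * (X.m S false : ℝ)) (X.m S true) with hc | hc
  · -- colour true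
    rcases le_or_gt c.M (X.m S true) with hM | hM
    · have hm : 4 * c.t' j * (N + 3) ≤ X.m S true := (c.M2 j hj).trans hM
      have h := stepB X hX hK (Θ := c.Θ) (ρ := ρ) (d1 := dd c.c1 c.c2 true) (d2 := dd c.c1 c.c2 (!true))
        (δ := c.H⁻¹) (δ1 := c.δ1) (w := wt c.H true) (ν := c.ν') hΘ.le hρ.le
        (dd_one c.hc1 c.hc2 true) (dd_one c.hc1 c.hc2 (!true))
        (by positivity) c.hδ1 (hwn true) hνn c.νC' S true a' (b' + 1) j (c.t' j) (by omega) hj (c.ht' j) hm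
        hn0
        (fun S' hS' a b hab => by
          have := ihA S' (Sub_card X hS' (c.ht' j) hm0) C0 le_rfl true a b hab
          rwa [c.νC, one_mul] at this)
        (fun S' hS' i hi => ihB S' (Sub_card X hS' (c.ht' j) hm0) i hi true)
        (hS true (a' + 1) (b' + 1) hab)
        (c.b1 j hj) (c.b2 j hj) (c.b3 j hj) (c.b4 j hj)
        (by simpa [dd] using c.b5 j hj) (by simpa [dd] using c.b6 j hj)
        (by simpa [wt] using c.b7 j hj (a' + 1) (by omega))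
        (by simpa [wt] using lam_up hH a' hc)
        (by
          have hl := lam_pos hH (a' + 1)
          have hl2 := lam_pos hH (a' + 2)
          have h1 := c.r1
          have h2 := c.hδ1
          have h3 := c.hc1
          simp only [wt, dd, Bool.not_true, if_true, Bool.false_eq_true, if_false]
          have e1 : c.c1 * (lam c.H (a' + 1) * (X.m S false : ℝ)) ≤
              (c.δ1 * c.c2) * (lam c.H (a' + 1) * (X.m S false : ℝ)) := by gcongr
          have e2 : 0 ≤ c.δ1 * (c.c1 * (lam c.H (a' + 2) * (X.m S true : ℝ))) := by positivity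
          linarith)
      exact h
    · refine small ?_ ?_
      · have : (X.m S true : ℝ) ≤ c.M := by exact_mod_cast hM.le
        linarith
      · have : (X.m S true : ℝ) ≤ c.M := by exact_mod_cast hM.le
        nlinarith [hHp (2 * (a' + 1))]
  · -- colour false
    rcases le_or_gt c.M (X.m S false) with hM | hM
    · have hm : 4 * c.t' j * (N + 3) ≤ X.m S false := (c.M2 j hj).trans hM
      have h := stepB X hX hK (Θ := c.Θ) (ρ := ρ) (d1 := dd c.c1 c.c2 false) (d2 := dd c.c1 c.c2 (!false))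
        (δ := c.H⁻¹) (δ1 := c.δ1) (w := wt c.H false) (ν := c.ν') hΘ.le hρ.le
        (dd_one c.hc1 c.hc2 false) (dd_one c.hc1 c.hc2 (!false))
        (by positivity) c.hδ1 (hwn false) hνn c.νC' S false b' (a' + 1) j (c.t' j) (by omega) hj (c.ht' j) hm
        hm0
        (fun S' hS' a b hab => by
          have := ihA S' (Sub_card X hS' (c.ht' j) hn0) C0 le_rfl false a b hab
          rwa [c.νC, one_mul] at this)
        (fun S' hS' i hi => ihB S' (Sub_card X hS' (c.ht' j) hn0) i hi false)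
        (hS false (b' + 1) (a' + 1) (by omega))
        (c.b1 j hj) (c.b2 j hj) (c.b3 j hj) (c.b4 j hj)
        (by simpa [dd] using c.b6 j hj) (by simpa [dd] using c.b5 j hj)
        (by simpa [wt] using c.b7 j hj (a' + 1 + 1) (by omega))
        (by
          have h1 : (X.m S true : ℝ) ≤ c.H ^ (2 * (a' + 2)) * (X.m S false : ℝ) := by
            refine hc.le.trans ?_
            have : c.H ^ (2 * (a' + 1)) ≤ c.H ^ (2 * (a' + 2)) := pow_le_pow_right₀ hH (by omega)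
            gcongr
          simpa [wt] using lam_down hH (a' + 2) h1)
        (by
          have hl := lam_pos hH (a' + 1)
          have hl2 := lam_pos hH (a' + 2)
          have h1 := c.r2
          have h2 := c.hδ1
          have h3 := c.hc1
          have h4 := c.hc2
          simp only [wt, dd, Bool.not_false, if_true, Bool.false_eq_true, if_false]
          have e0 := lam_down hH (a' + 1) hc.le
          have e1 : c.H⁻¹ * (lam c.H (a' + 1) * (X.m S false : ℝ)) ≤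
              c.δ1 * (lam c.H (a' + 1) * (X.m S false : ℝ)) := by gcongr
          have e2 : 0 ≤ c.δ1 * (c.c1 * (lam c.H (a' + 1 + 1) * (X.m S true : ℝ))) := by
            have := lam_pos hH (a' + 1 + 1)
            positivity
          have e3 : c.c2 * (lam c.H (a' + 1 + 1) * (X.m S true : ℝ)) ≤
              c.c2 * (c.δ1 * (lam c.H (a' + 1) * (X.m S false : ℝ))) :=
            mul_le_mul_of_nonneg_left (e0.trans e1) (by linarith)
          linarith)
      rw [cnt_swap, BB_swap]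
      simpa using h
    · have hM' : (X.m S false : ℝ) ≤ c.M := by exact_mod_cast hM.le
      refine small ?_ ?_
      · have h1 : c.H ^ (2 * (a' + 1)) ≤ c.H ^ (2 * N) := pow_le_pow_right₀ hH (by omega)
        calc (X.m S true : ℝ) ≤ c.H ^ (2 * (a' + 1)) * (X.m S false : ℝ) := hc.le
          _ ≤ c.H ^ (2 * N) * c.M := by gcongr
      · linarith

theorem Cl_zero (X : Sys ι α) {N C0 : ℕ} {K ρ Cp : ℝ} (c : Cst N C0 K ρ Cp) (S : Finset ι) (β : Bool) :
    ClA X c S β 0 ∧ ClB X c S β 0 := by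
  have hH := c.hH
  constructor
  · intro a b hab
    rw [cnt_idx_zero, Nat.cast_zero]
    exact mul_nonneg (c.ν_pos 0).le (BA_nonneg c.hΘ.le hH β _ _ a b)
  · intro a b hab
    rw [cnt_idx_zero, Nat.cast_zero]
    exact mul_nonneg (c.ν_pos' 0).le (BB_nonneg c.hΘ.le hH c.hc1 c.hc2 β _ _ a b)

theorem Cl_all (X : Sys ι α) {N C0 : ℕ} {K ρ Cp : ℝ} (hK : 0 ≤ K) (hρ : 0 < ρ) (c : Cst N C0 K ρ Cp)
    (hX : X.Good N C0 K)
    (hp : ∀ (S : Finset ι) (β : Bool), ∀ j ≤ C0,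
        (X.cnt S β 1 (N + 1) 0 j : ℝ) ≤ Cp * (X.m S (!β) : ℝ) ^ ((N : ℝ) + ρ))
    (hCp : 0 ≤ Cp) : ∀ (n : ℕ) (S : Finset ι), S.card = n → ∀ j ≤ C0, ∀ β, ClA X c S β j ∧ ClB X c S β j := by
  intro n
  induction n using Nat.strong_induction_on with
  | _ n ih =>
    intro S hSn j
    induction j with
    | zero => intro _ β; exact Cl_zero X c S β
    | succ j ihj =>
      intro hj β
      have h1 := ihj (by omega)
      have hA : ∀ S' : Finset ι, S'.card < S.card → ∀ i ≤ C0, ∀ β, ClA X c S' β i :=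
        fun S' hS' i hi β => (ih S'.card (by omega) S' rfl i hi β).1
      have hB : ∀ S' : Finset ι, S'.card < S.card → ∀ i ≤ C0, ∀ β, ClB X c S' β i :=
        fun S' hS' i hi β => (ih S'.card (by omega) S' rfl i hi β).2
      exact ⟨ClA_swap X c S (j + 1) (ClA_step X hK hρ c hX hp hCp S j (by omega) hA hB (fun β => (h1 β).1)) β,
        ClB_swap X c S (j + 1) (ClB_step X hK hρ c hX S j (by omega) hA hB (fun β => (h1 β).2)) β⟩

end

end UC
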