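import Pool.Agent.UC.Defs
import Pool.Agent.UC.Rec_Main

open Finset

namespace UC

theorem rec_rpow_le {m n M ρ : ℝ} {a b N : ℕ} (hm0 : 0 ≤ m) (hn0 : 0 ≤ n) (hm : m ≤ M) (hn : n ≤ M)
    (hρ : 0 < ρ) (hab : a + b = N) :
    m ^ a * n ^ b * (m * n) ^ (ρ / 2) ≤ M ^ ((N : ℝ) + ρ) := by
  have hM : 0 ≤ M := hm0.trans hm
  have h2 : (0 : ℝ) ≤ ρ / 2 := by positivity
  calc m ^ a * n ^ b * (m * n) ^ (ρ / 2) ≤ M ^ a * M ^ b * (M * M) ^ (ρ / 2) := by gcongr
    _ = M ^ ((N : ℝ) + ρ) := by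
      rw [Real.mul_rpow hM hM, ← Real.rpow_add_of_nonneg hM h2 h2, add_halves, ← pow_add, hab,
        Real.rpow_add_of_nonneg hM (Nat.cast_nonneg N) hρ.le, Real.rpow_natCast]

theorem lam_le_one {H : ℝ} (hH : 1 ≤ H) (a : ℕ) : lam H a ≤ 1 := by
  unfold lam
  exact inv_le_one_of_one_le₀ (one_le_pow₀ hH)

/-- The solution of the recursion (text, section 6). -/
theorem rec_bound (N C0 : ℕ) (K ρ : ℝ) (hK : 0 ≤ K) (hρ : 0 < ρ) : ∃ C : ℝ, 0 ≤ C ∧
    ∀ (ι α : Type) [Fintype ι] [DecidableEq ι] (X : Sys ι α), X.Good N C0 K →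
      ∀ p q : ℕ, 1 ≤ p → 1 ≤ q → (p + q = N + 2 ∨ p + q = N + 1) →
        (X.cnt Finset.univ true p q 0 C0 : ℝ) ≤ C * (Fintype.card ι : ℝ) ^ ((N : ℝ) + ρ) := by
  have hρ2 : 0 < ρ / 2 := by positivity
  obtain ⟨Cp, hCp, hp⟩ := pure_zero N C0 K (ρ / 2) hK hρ2
  obtain ⟨c⟩ := cst_exists N C0 K (ρ / 2) Cp hK hρ2
  have hΘ := c.hΘ
  have hH := c.hH
  have hc1 := c.hc1
  have hc2 := c.hc2
  refine ⟨c.Θ * (1 + c.c1 + c.c2), by positivity, ?_⟩
  intro ι α _ _ X hX p q hp1 hq1 hpq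
  obtain ⟨a, rfl⟩ : ∃ a, p = a + 1 := ⟨p - 1, by omega⟩
  obtain ⟨b, rfl⟩ : ∃ b, q = b + 1 := ⟨q - 1, by omega⟩
  have hcl := Cl_all X hK hρ2 c hX (fun S β j hj => hp ι α X hX S β j hj) hCp _ Finset.univ rfl C0 le_rfl true
  have hsum := m_add X Finset.univ true
  rw [Finset.card_univ] at hsum
  simp only [Bool.not_true] at hsum
  have hm : (X.m Finset.univ true : ℝ) ≤ Fintype.card ι := by exact_mod_cast (by omega)
  have hn : (X.m Finset.univ false : ℝ) ≤ Fintype.card ι := by exact_mod_cast (by omega)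
  have hm0 : (0 : ℝ) ≤ X.m Finset.univ true := Nat.cast_nonneg _
  have hn0 : (0 : ℝ) ≤ X.m Finset.univ false := Nat.cast_nonneg _
  rcases hpq with hpq | hpq
  · have h := hcl.1 a b (by omega)
    rw [c.νC, one_mul] at h
    refine h.trans ?_
    have h1 := rec_rpow_le (a := a) (b := b) (N := N) hm0 hn0 hm hn hρ (by omega)
    have h2 := lam_le_one hH a
    have h3 := (lam_pos hH a).le
    have h4 : (0 : ℝ) ≤ (Fintype.card ι : ℝ) ^ ((N : ℝ) + ρ) := by positivity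
    calc BA c.Θ (ρ / 2) (wt c.H true) (X.m univ true) (X.m univ (!true)) a b
        = c.Θ * (lam c.H a * ((X.m univ true : ℝ) ^ a * (X.m univ false : ℝ) ^ b *
            ((X.m univ true : ℝ) * (X.m univ false : ℝ)) ^ (ρ / 2))) := by
          simp only [BA, wt, if_true, Bool.not_true]; ring
      _ ≤ c.Θ * (1 * (Fintype.card ι : ℝ) ^ ((N : ℝ) + ρ)) := by gcongr
      _ ≤ c.Θ * ((1 + c.c1 + c.c2) * (Fintype.card ι : ℝ) ^ ((N : ℝ) + ρ)) := by
          gcongr; linarith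
      _ = _ := by ring
  · have h := hcl.2 a b (by omega)
    rw [c.νC', one_mul] at h
    refine h.trans ?_
    have h1 := rec_rpow_le (a := a + 1) (b := b) (N := N) hm0 hn0 hm hn hρ (by omega)
    have h1' := rec_rpow_le (a := a) (b := b + 1) (N := N) hm0 hn0 hm hn hρ (by omega)
    have h2 := lam_le_one hH a
    have h3 := (lam_pos hH a).le
    have h2' := lam_le_one hH (a + 1)
    have h3' := (lam_pos hH (a + 1)).le
    have h4 : (0 : ℝ) ≤ (Fintype.card ι : ℝ) ^ ((N : ℝ) + ρ) := by positivity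
    calc BB c.Θ (ρ / 2) (wt c.H true) (dd c.c1 c.c2 true) (dd c.c1 c.c2 (!true))
          (X.m univ true) (X.m univ (!true)) a b
        = c.Θ * (c.c1 * (lam c.H (a + 1) * ((X.m univ true : ℝ) ^ (a + 1) * (X.m univ false : ℝ) ^ b *
            ((X.m univ true : ℝ) * (X.m univ false : ℝ)) ^ (ρ / 2))) +
            c.c2 * (lam c.H a * ((X.m univ true : ℝ) ^ a * (X.m univ false : ℝ) ^ (b + 1) *
            ((X.m univ true : ℝ) * (X.m univ false : ℝ)) ^ (ρ / 2)))) := by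
          simp only [BB, wt, dd, if_true, Bool.not_true, Bool.false_eq_true, if_false]; ring
      _ ≤ c.Θ * (c.c1 * (1 * (Fintype.card ι : ℝ) ^ ((N : ℝ) + ρ)) +
            c.c2 * (1 * (Fintype.card ι : ℝ) ^ ((N : ℝ) + ρ))) := by gcongr
      _ ≤ _ := by nlinarith [mul_nonneg hΘ.le h4]

end UC
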