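import Mathlib

/-!
# UC part P3, row Choose: a ratio of two binomial coefficients
-/

open Finset

namespace UC

/-- One step down in both arguments. -/
theorem rec_choose_down {m s q t : ℕ} (hms : m < t * (s + 1)) (hq : 2 * q + 1 ≤ s) (hqm : q < m) :
    (m - q).choose (s - q) ≤ 2 * t * (m - (q + 1)).choose (s - (q + 1)) := by
  obtain ⟨M, hM⟩ : ∃ M, m = q + 1 + M := ⟨m - (q + 1), by omega⟩
  obtain ⟨r, hr⟩ : ∃ r, s = q + 1 + r := ⟨s - (q + 1), by omega⟩
  have e1 : m - q = M + 1 := by omega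
  have e2 : s - q = r + 1 := by omega
  have e3 : m - (q + 1) = M := by omega
  have e4 : s - (q + 1) = r := by omega
  rw [e1, e2, e3, e4]
  have h1 := Nat.add_one_mul_choose_eq M r
  have h2 : M + 1 ≤ 2 * t * (r + 1) := by
    have h3 : s + 1 ≤ 2 * (r + 1) := by omega
    have h4 : t * (s + 1) ≤ t * (2 * (r + 1)) := Nat.mul_le_mul_left t h3
    have h5 : t * (2 * (r + 1)) = 2 * t * (r + 1) := by ring
    omega
  have h6 : (M + 1).choose (r + 1) * (r + 1) ≤ (2 * t * M.choose r) * (r + 1) := by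
    calc (M + 1).choose (r + 1) * (r + 1) = (M + 1) * M.choose r := h1.symm
      _ ≤ 2 * t * (r + 1) * M.choose r := Nat.mul_le_mul_right _ h2
      _ = (2 * t * M.choose r) * (r + 1) := by ring
  exact Nat.le_of_mul_le_mul_right h6 (Nat.succ_pos r)

/-- One step down in the first argument. -/
theorem rec_choose_left {M r t : ℕ} (ht : 0 < t) (hrM : r < M) (h : t * r ≤ 4 * (M - r)) :
    (M.choose r : ℝ) ≤ (1 + 4 / (t : ℝ)) * ((M - 1).choose r : ℝ) := by
  obtain ⟨n, rfl⟩ : ∃ n, M = n + 1 := ⟨M - 1, by omega⟩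
  rw [Nat.add_sub_cancel]
  have h1 := Nat.choose_mul_succ_eq n r
  have h2 : ((n.choose r : ℕ) : ℝ) * ((n + 1 : ℕ) : ℝ) =
      (((n + 1).choose r : ℕ) : ℝ) * ((n + 1 - r : ℕ) : ℝ) := by
    exact_mod_cast h1
  have ht0 : (0 : ℝ) < (t : ℝ) := by exact_mod_cast ht
  have hd : (0 : ℝ) < ((n + 1 - r : ℕ) : ℝ) := by
    have : 0 < n + 1 - r := by omega
    exact_mod_cast this
  have h3 : (t : ℝ) * (r : ℝ) ≤ 4 * ((n + 1 - r : ℕ) : ℝ) := by exact_mod_cast h
  have h4 : ((n + 1 : ℕ) : ℝ) = ((n + 1 - r : ℕ) : ℝ) + (r : ℝ) := by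
    have : n + 1 = n + 1 - r + r := by omega
    exact_mod_cast this
  have h5 : (r : ℝ) ≤ 4 / (t : ℝ) * ((n + 1 - r : ℕ) : ℝ) := by
    rw [div_mul_eq_mul_div, le_div_iff₀ ht0]
    linarith
  have h6 : ((n + 1 : ℕ) : ℝ) ≤ (1 + 4 / (t : ℝ)) * ((n + 1 - r : ℕ) : ℝ) := by
    rw [h4, add_mul, one_mul]
    linarith
  have h7 : (((n + 1).choose r : ℕ) : ℝ) * ((n + 1 - r : ℕ) : ℝ) ≤
      ((1 + 4 / (t : ℝ)) * ((n.choose r : ℕ) : ℝ)) * ((n + 1 - r : ℕ) : ℝ) := by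
    rw [← h2]
    have h8 := mul_le_mul_of_nonneg_left h6 (Nat.cast_nonneg (n.choose r) : (0 : ℝ) ≤ _)
    refine h8.trans (le_of_eq ?_)
    ring
  exact le_of_mul_le_mul_right h7 hd

/-- Write s = m / t (natural division), so that (m : ℝ) / t - 1 < s ≤ m / t and s ≥ 4 (P + 1) > p.
(1) `m.choose s * (s - p + 1)^p ≤ m^p * (m - p).choose (s - p)` (as real or natural numbers): induction on p with
`Nat.succ_mul_choose_eq` (C(M+1, r+1) (r+1) = (M+1) C(M, r)): C(m,s) = (m/s) C(m-1,s-1), ..., and every factor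
(m-i)/(s-i), i < p, is at most m/(s-p+1).  As s - p + 1 ≥ m/t - p ≥ m/(2t) (because m ≥ 2 t p), this gives
C(m,s) ≤ (2t)^p C(m-p, s-p) ≤ 2^P t^p C(m-p, s-p).
(2) C(M, r) = (M/(M-r)) C(M-1, r) for r < M (`Nat.choose_mul_succ_eq`: C(n,k)(n+1) = C(n+1,k)(n+1-k)).  With M = m-p-i,
r = s-p, i < u ≤ t: M - r = m-s-i ≥ m - s - t ≥ m/4 (s ≤ m/2 as t ≥ 2, and t ≤ m/4), so the factor
M/(M-r) = 1 + r/(M-r) ≤ 1 + (m/t)/(m/4) = 1 + 4/t.  Hence C(m-p, s-p) ≤ (1+4/t)^u C(m-p-u, s-p)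
≤ (1+4/t)^t C(m-p-u,s-p) ≤ exp 4 * C(m-p-u, s-p), using `Real.add_one_le_exp` and (exp (4/t))^t = exp 4. -/
theorem choose_ratio (P t m p u : ℕ) (ht : 2 ≤ t) (hp : p ≤ P) (hu : u ≤ t) (hm : 4 * t * (P + 1) ≤ m) :
    ((m.choose (m / t) : ℕ) : ℝ) ≤
      2 ^ P * Real.exp 4 * (t : ℝ) ^ p * (((m - p - u).choose (m / t - p) : ℕ) : ℝ) := by
  have ht0 : 0 < t := by omega
  have htr : (0 : ℝ) < (t : ℝ) := by exact_mod_cast ht0
  have hs4 : 4 * (P + 1) ≤ m / t := by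
    rw [Nat.le_div_iff_mul_le ht0]
    calc 4 * (P + 1) * t = 4 * t * (P + 1) := by ring
      _ ≤ m := hm
  have hsm : t * (m / t) ≤ m := Nat.mul_div_le m t
  have hms : m < t * (m / t + 1) := Nat.lt_mul_div_succ m ht0
  generalize m / t = s at hs4 hsm hms
  have h4t : 4 * t ≤ m := by
    calc 4 * t = 4 * t * 1 := by ring
      _ ≤ 4 * t * (P + 1) := Nat.mul_le_mul_left _ (by omega)
      _ ≤ m := hm
  have h2s : 2 * s ≤ m := (Nat.mul_le_mul_right s ht).trans hsm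
  -- first step
  have h1 : ∀ q, q ≤ p → m.choose s ≤ (2 * t) ^ q * (m - q).choose (s - q) := by
    intro q
    induction q with
    | zero =>
      intro _
      rw [pow_zero, one_mul, Nat.sub_zero, Nat.sub_zero]
    | succ q ih =>
      intro hq
      refine (ih (by omega)).trans ?_
      have h3 := rec_choose_down (q := q) hms (by omega) (by omega)
      calc (2 * t) ^ q * (m - q).choose (s - q) ≤
          (2 * t) ^ q * (2 * t * (m - (q + 1)).choose (s - (q + 1))) :=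
            Nat.mul_le_mul_left _ h3
        _ = (2 * t) ^ (q + 1) * (m - (q + 1)).choose (s - (q + 1)) := by ring
  -- second step
  have h2 : ∀ i, i ≤ u → ((m - p).choose (s - p) : ℝ) ≤
      (1 + 4 / (t : ℝ)) ^ i * ((m - p - i).choose (s - p) : ℝ) := by
    intro i
    induction i with
    | zero =>
      intro _
      rw [pow_zero, one_mul, Nat.sub_zero]
    | succ i ih =>
      intro hi
      refine (ih (by omega)).trans ?_
      have h5 : t * (s - p) ≤ 4 * (m - p - i - (s - p)) := by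
        have h6 : t * (s - p) ≤ t * s := Nat.mul_le_mul_left t (by omega)
        omega
      have h3 := rec_choose_left (M := m - p - i) (r := s - p) ht0 (by omega) h5
      have h7 : m - p - i - 1 = m - p - (i + 1) := by omega
      rw [h7] at h3
      have h8 := mul_le_mul_of_nonneg_left h3
        (show (0 : ℝ) ≤ (1 + 4 / (t : ℝ)) ^ i by positivity)
      refine h8.trans (le_of_eq ?_)
      ring
  have h3 : (1 + 4 / (t : ℝ)) ^ u ≤ Real.exp 4 := by
    have h4 : (1 : ℝ) ≤ 1 + 4 / (t : ℝ) := by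
      have : (0 : ℝ) ≤ 4 / (t : ℝ) := by positivity
      linarith
    have h5 : 1 + 4 / (t : ℝ) ≤ Real.exp (4 / (t : ℝ)) := by
      have := Real.add_one_le_exp (4 / (t : ℝ))
      linarith
    calc (1 + 4 / (t : ℝ)) ^ u ≤ (1 + 4 / (t : ℝ)) ^ t := pow_le_pow_right₀ h4 hu
      _ ≤ Real.exp (4 / (t : ℝ)) ^ t := pow_le_pow_left₀ (by linarith) h5 t
      _ = Real.exp 4 := by
        rw [← Real.exp_nat_mul]
        congr 1
        field_simp
  have h4 : (m.choose s : ℝ) ≤ (2 * (t : ℝ)) ^ p * ((m - p).choose (s - p) : ℝ) := by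
    exact_mod_cast h1 p le_rfl
  have h5 : ((m - p).choose (s - p) : ℝ) ≤ Real.exp 4 * ((m - p - u).choose (s - p) : ℝ) :=
    (h2 u le_rfl).trans (mul_le_mul_of_nonneg_right h3 (Nat.cast_nonneg _))
  have h6 : (2 : ℝ) ^ p ≤ 2 ^ P := pow_le_pow_right₀ (by norm_num) hp
  calc (m.choose s : ℝ) ≤ (2 * (t : ℝ)) ^ p * ((m - p).choose (s - p) : ℝ) := h4
    _ ≤ (2 * (t : ℝ)) ^ p * (Real.exp 4 * ((m - p - u).choose (s - p) : ℝ)) :=
      mul_le_mul_of_nonneg_left h5 (by positivity)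
    _ = 2 ^ p * (Real.exp 4 * (t : ℝ) ^ p * ((m - p - u).choose (s - p) : ℝ)) := by
      rw [mul_pow]
      ring
    _ ≤ 2 ^ P * (Real.exp 4 * (t : ℝ) ^ p * ((m - p - u).choose (s - p) : ℝ)) :=
      mul_le_mul_of_nonneg_right h6 (by positivity)
    _ = 2 ^ P * Real.exp 4 * (t : ℝ) ^ p * ((m - p - u).choose (s - p) : ℝ) := by ring

end UC
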