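import Mathlib

/-!
# UC part P3, row Count: the number of s-subsets between two sets
-/

open Finset

namespace UC

/-- The s-subsets R of A with U ⊆ R ⊆ V, where U ⊆ V ⊆ A and |U| ≤ s, correspond to the (s - |U|)-subsets of V \ U by
R ↦ R \ U (inverse Q ↦ U ∪ Q).  (Only the inequality is needed: inject `(V \ U).powersetCard (s - U.card)` into the filter by
Q ↦ U ∪ Q and use `Finset.card_powersetCard`.) -/
theorem count_between {ι : Type} [DecidableEq ι] (A U V : Finset ι) (s : ℕ) (hUV : U ⊆ V) (hVA : V ⊆ A)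
    (hs : U.card ≤ s) :
    (V.card - U.card).choose (s - U.card) ≤
      ((A.powersetCard s).filter (fun R => U ⊆ R ∧ R ⊆ V)).card := by
  have h1 : (V.card - U.card).choose (s - U.card) = ((V \ U).powersetCard (s - U.card)).card := by
    rw [card_powersetCard, card_sdiff_of_subset hUV]
  rw [h1]
  apply card_le_card_of_injOn (fun Q => U ∪ Q)
  · intro Q hQ
    rw [mem_coe, mem_powersetCard] at hQ
    obtain ⟨hQ1, hQ2⟩ := hQ
    have hdisj : Disjoint U Q :=
      disjoint_left.mpr fun a haU haQ => (mem_sdiff.mp (hQ1 haQ)).2 haU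
    have hQV : Q ⊆ V := hQ1.trans sdiff_subset
    rw [mem_coe, mem_filter, mem_powersetCard]
    refine ⟨⟨(union_subset hUV hQV).trans hVA, ?_⟩, subset_union_left, union_subset hUV hQV⟩
    rw [card_union_of_disjoint hdisj, hQ2]
    omega
  · intro Q hQ Q' hQ' h
    rw [mem_coe, mem_powersetCard] at hQ hQ'
    have key : ∀ P : Finset ι, P ⊆ V \ U → (U ∪ P) \ U = P := by
      intro P hP
      ext a
      simp only [mem_sdiff, mem_union]
      constructor
      · rintro ⟨h1 | h1, h2⟩
        · exact absurd h1 h2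
        · exact h1
      · intro ha
        exact ⟨Or.inr ha, (mem_sdiff.mp (hP ha)).2⟩
    have h' : (U ∪ Q) \ U = (U ∪ Q') \ U := by
      simp only at h
      rw [h]
    rwa [key Q hQ.1, key Q' hQ'.1] at h'

end UC
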