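import Pool.Agent.UC.Rec_Defs
import Pool.Agent.UC.Rec_Choose
import Pool.Agent.UC.Rec_Count

/-!
# UC part P3, row CS: the Clarkson-Shor bound
-/

open Finset

namespace UC

section
variable {ι α : Type} [DecidableEq ι]

/-- The objects counted by `Sys.cnt`. -/
private def rec_cs_F (X : Sys ι α) (S : Finset ι) (β : Bool) (p q t j : ℕ) : Finset α :=
  X.O.filter (fun o => X.supp o ⊆ S ∧ ((X.supp o).filter (fun i => X.col i = β)).card = p ∧
    ((X.supp o).filter (fun i => X.col i ≠ β)).card = q ∧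
    ((X.bel o ∩ S).filter (fun i => X.col i = β)).card ≤ t ∧
    ((X.bel o ∩ S).filter (fun i => X.col i ≠ β)) = ∅ ∧ X.idx o < j)

omit [DecidableEq ι] in
private theorem rec_cs_m_not (X : Sys ι α) (S : Finset ι) (β : Bool) :
    X.m S (!β) = (S.filter (fun i => X.col i ≠ β)).card := by
  unfold Sys.m
  congr 1
  refine Finset.filter_congr fun i _ => ?_
  cases X.col i <;> cases β <;> simp

private theorem rec_cs_filter (X : Sys ι α) (S : Finset ι) (β : Bool) {R : Finset ι}
    (hR : R ⊆ S.filter (fun i => X.col i = β)) :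
    (R ∪ S.filter (fun i => X.col i ≠ β)).filter (fun i => X.col i = β) = R := by
  ext i
  rw [Finset.mem_filter, Finset.mem_union, Finset.mem_filter]
  constructor
  · rintro ⟨h | h, h'⟩
    · exact h
    · exact absurd h' h.2
  · intro h
    exact ⟨Or.inl h, (Finset.mem_filter.1 (hR h)).2⟩

private theorem rec_cs_filter' (X : Sys ι α) (S : Finset ι) (β : Bool) {R : Finset ι}
    (hR : R ⊆ S.filter (fun i => X.col i = β)) :
    (R ∪ S.filter (fun i => X.col i ≠ β)).filter (fun i => X.col i ≠ β) =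
      S.filter (fun i => X.col i ≠ β) := by
  ext i
  rw [Finset.mem_filter, Finset.mem_union, Finset.mem_filter]
  constructor
  · rintro ⟨h | h, h'⟩
    · exact absurd (Finset.mem_filter.1 (hR h)).2 h'
    · exact h
  · intro h
    exact ⟨Or.inr h, h.2⟩

private theorem rec_cs_sub (X : Sys ι α) (S : Finset ι) (β : Bool) (t : ℕ) {R : Finset ι}
    (hR : R ⊆ S.filter (fun i => X.col i = β)) (hc : R.card = X.m S β / t) :
    X.Sub S (R ∪ S.filter (fun i => X.col i ≠ β)) β t := by
  refine ⟨Finset.union_subset (hR.trans (Finset.filter_subset _ _)) (Finset.filter_subset _ _),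
    ?_, ?_⟩
  · rw [← hc]
    exact congrArg Finset.card (rec_cs_filter X S β hR)
  · rw [rec_cs_m_not, rec_cs_m_not, rec_cs_filter' X S β hR]

private theorem rec_cs_mem (X : Sys ι α) (S : Finset ι) (β : Bool) (p q t j : ℕ) {R : Finset ι}
    {o : α} (ho : o ∈ rec_cs_F X S β p q t j) (hR : R ⊆ S.filter (fun i => X.col i = β))
    (h1 : (X.supp o).filter (fun i => X.col i = β) ⊆ R)
    (h2 : R ⊆ S.filter (fun i => X.col i = β) \ (X.bel o ∩ S).filter (fun i => X.col i = β)) :
    o ∈ rec_cs_F X (R ∪ S.filter (fun i => X.col i ≠ β)) β p q 0 j := by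
  unfold rec_cs_F at ho ⊢
  rw [Finset.mem_filter] at ho ⊢
  obtain ⟨ho, k1, k2, k3, k4, k5, k6⟩ := ho
  have hSR : R ∪ S.filter (fun i => X.col i ≠ β) ⊆ S :=
    Finset.union_subset (hR.trans (Finset.filter_subset _ _)) (Finset.filter_subset _ _)
  refine ⟨ho, ?_, k2, k3, ?_, ?_, k6⟩
  · intro i hi
    by_cases hc : X.col i = β
    · exact Finset.mem_union_left _ (h1 (Finset.mem_filter.2 ⟨hi, hc⟩))
    · exact Finset.mem_union_right _ (Finset.mem_filter.2 ⟨k1 hi, hc⟩)
  · rw [Nat.le_zero, Finset.card_eq_zero, Finset.eq_empty_iff_forall_notMem]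
    intro i hi
    rw [Finset.mem_filter, Finset.mem_inter, Finset.mem_union] at hi
    obtain ⟨⟨hb, h | h⟩, hc⟩ := hi
    · have h3 := Finset.mem_sdiff.1 (h2 h)
      exact h3.2 (Finset.mem_filter.2 ⟨Finset.mem_inter.2
        ⟨hb, (Finset.mem_filter.1 h3.1).1⟩, hc⟩)
    · exact (Finset.mem_filter.1 h).2 hc
  · rw [Finset.eq_empty_iff_forall_notMem]
    intro i hi
    have h3 : i ∈ (X.bel o ∩ S).filter (fun i => X.col i ≠ β) := by
      rw [Finset.mem_filter, Finset.mem_inter] at hi ⊢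
      exact ⟨⟨hi.1.1, hSR hi.1.2⟩, hi.2⟩
    rw [k5] at h3
    exact Finset.notMem_empty i h3

/-- The number of good samples for one object. -/
private theorem rec_cs_one (X : Sys ι α)
    (hd : ∀ o ∈ X.O, Disjoint (X.supp o) (X.bel o)) (P t : ℕ) (ht : 2 ≤ t) (S : Finset ι) (β : Bool)
    (p q j : ℕ) (hp : p ≤ P) (hm : 4 * t * (P + 1) ≤ X.m S β) {o : α}
    (ho : o ∈ rec_cs_F X S β p q t j) [DecidableEq α] :
    (((X.m S β).choose (X.m S β / t) : ℕ) : ℝ) ≤ KCS P * (t : ℝ) ^ p *
      ((((S.filter (fun i => X.col i = β)).powersetCard (X.m S β / t)).filter (fun R =>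
        o ∈ rec_cs_F X (R ∪ S.filter (fun i => X.col i ≠ β)) β p q 0 j)).card : ℕ) := by
  have ho' := ho
  unfold rec_cs_F at ho'
  rw [Finset.mem_filter] at ho'
  obtain ⟨hO, k1, k2, k3, k4, k5, k6⟩ := ho'
  set A := S.filter (fun i => X.col i = β) with hA
  set U := (X.supp o).filter (fun i => X.col i = β) with hU
  set W := (X.bel o ∩ S).filter (fun i => X.col i = β) with hW
  have hWA : W ⊆ A := by
    intro i hi
    rw [hW, Finset.mem_filter, Finset.mem_inter] at hi
    exact Finset.mem_filter.2 ⟨hi.1.2, hi.2⟩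
  have hUA : U ⊆ A := by
    intro i hi
    rw [hU, Finset.mem_filter] at hi
    exact Finset.mem_filter.2 ⟨k1 hi.1, hi.2⟩
  have hUV : U ⊆ A \ W := by
    intro i hi
    refine Finset.mem_sdiff.2 ⟨hUA hi, fun h => ?_⟩
    rw [hU, Finset.mem_filter] at hi
    rw [hW, Finset.mem_filter, Finset.mem_inter] at h
    exact (Finset.disjoint_left.1 (hd o hO)) hi.1 h.1.1
  have hps : p ≤ X.m S β / t := by
    rw [Nat.le_div_iff_mul_le (by omega)]
    refine le_trans ?_ hm
    have h1 : p * t ≤ P * t := Nat.mul_le_mul_right t hp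
    nlinarith
  have h1 := count_between A U (A \ W) (X.m S β / t) hUV Finset.sdiff_subset (by rw [k2]; exact hps)
  have h2 := choose_ratio P t (X.m S β) p W.card ht hp k4 hm
  have h3 : (A \ W).card - U.card = X.m S β - p - W.card := by
    rw [Finset.card_sdiff_of_subset hWA, k2, Nat.sub_right_comm]
    rfl
  rw [h3, k2] at h1
  have h4 : ((A.powersetCard (X.m S β / t)).filter (fun R => U ⊆ R ∧ R ⊆ A \ W)).card ≤
      ((A.powersetCard (X.m S β / t)).filter (fun R =>
        o ∈ rec_cs_F X (R ∪ S.filter (fun i => X.col i ≠ β)) β p q 0 j)).card := by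
    refine Finset.card_le_card fun R hR => ?_
    rw [Finset.mem_filter] at hR ⊢
    exact ⟨hR.1, rec_cs_mem X S β p q t j ho (Finset.mem_powersetCard.1 hR.1).1 hR.2.1 hR.2.2⟩
  refine h2.trans ?_
  have h5 : (0 : ℝ) ≤ 2 ^ P * Real.exp 4 * (t : ℝ) ^ p := by positivity
  exact mul_le_mul_of_nonneg_left (by exact_mod_cast h1.trans h4) h5

end

/-- Clarkson-Shor.  Let A = S.filter (col = β), D = S.filter (col ≠ β), m = A.card = X.m S β, s = m / t.  For R in
A.powersetCard s put S_R = R ∪ D ⊆ S.  As R ⊆ A has colour β and D the other one, (S_R).filter (col = β) = R, so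
X.m S_R β = s = X.m S β / t, and (S_R).filter (col ≠ β) = D, so X.m S_R (!β) = X.m S (!β) (note col i ≠ β ↔ col i = !β for
Booleans).  So X.Sub S S_R β t and hB applies: cnt S_R β p q 0 j ≤ B.
Let F be the set of objects counted by cnt S β p q t j, and o in F with U = (supp o).filter (col = β) (U ⊆ A, |U| = p),
W = (bel o ∩ S).filter (col = β) (W ⊆ A, |W| ≤ t), U and W disjoint (hd).  If R in A.powersetCard s satisfies U ⊆ R ⊆ A \ W, then o is
counted by cnt S_R β p q 0 j: supp o ⊆ S_R (members of colour β are in U ⊆ R, the others in D), the numbers p and q are unchanged,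
(bel o ∩ S_R).filter (col = β) ⊆ W ∩ R = ∅, and (bel o ∩ S_R).filter (col ≠ β) ⊆ (bel o ∩ S).filter (col ≠ β) = ∅.
By count_between (A, U, V = A \ W, |V| - |U| = m - |W| - p; p ≤ s because 4 t (P+1) ≤ m) there are at least C(m - p - |W|, s - p)
such R, and by choose_ratio C(m,s) ≤ KCS P * t^p * C(m - p - |W|, s - p).
Double counting of the pairs (o,R) (`Finset.sum_card_bipartiteAbove_eq_sum_card_bipartiteBelow` or `Finset.sum_comm` with indicator
functions): |F| C(m,s) ≤ KCS P * t^p * Σ_{o ∈ F} #{R : U ⊆ R ⊆ A \ W} ≤ KCS P * t^p * Σ_R cnt S_R β p q 0 j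
≤ KCS P * t^p * C(m,s) * B.  Divide by C(m,s) > 0 (s ≤ m). -/
theorem cs_bound {ι α : Type} [DecidableEq ι] (X : Sys ι α)
    (hd : ∀ o ∈ X.O, Disjoint (X.supp o) (X.bel o)) (P t : ℕ) (ht : 2 ≤ t) (S : Finset ι) (β : Bool)
    (p q j : ℕ) (hp : p ≤ P) (hm : 4 * t * (P + 1) ≤ X.m S β) (B : ℝ)
    (hB : ∀ S', X.Sub S S' β t → (X.cnt S' β p q 0 j : ℝ) ≤ B) :
    (X.cnt S β p q t j : ℝ) ≤ KCS P * (t : ℝ) ^ p * B := by
  classical
  have hcF : ∀ S' t', X.cnt S' β p q t' j = (rec_cs_F X S' β p q t' j).card := fun _ _ => rfl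
  set C : ℝ := KCS P * (t : ℝ) ^ p with hC
  have hC0 : 0 ≤ C := by
    rw [hC]
    unfold KCS
    positivity
  set PS := (S.filter (fun i => X.col i = β)).powersetCard (X.m S β / t) with hPS
  have hcard : PS.card = (X.m S β).choose (X.m S β / t) := by
    rw [hPS, Finset.card_powersetCard]
    rfl
  have hpos : 0 < (X.m S β).choose (X.m S β / t) := Nat.choose_pos (Nat.div_le_self _ _)
  -- double counting
  have h1 : (rec_cs_F X S β p q t j).card * (((X.m S β).choose (X.m S β / t) : ℕ) : ℝ) ≤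
      C * ∑ o ∈ rec_cs_F X S β p q t j, ((PS.filter (fun R =>
        o ∈ rec_cs_F X (R ∪ S.filter (fun i => X.col i ≠ β)) β p q 0 j)).card : ℝ) := by
    rw [Finset.mul_sum, ← nsmul_eq_mul, ← Finset.sum_const]
    exact Finset.sum_le_sum fun o ho => rec_cs_one X hd P t ht S β p q j hp hm ho
  have h2 : ∑ o ∈ rec_cs_F X S β p q t j, (PS.filter (fun R =>
        o ∈ rec_cs_F X (R ∪ S.filter (fun i => X.col i ≠ β)) β p q 0 j)).card =
      ∑ R ∈ PS, ((rec_cs_F X S β p q t j).filter (fun o =>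
        o ∈ rec_cs_F X (R ∪ S.filter (fun i => X.col i ≠ β)) β p q 0 j)).card :=
    Finset.sum_card_bipartiteAbove_eq_sum_card_bipartiteBelow
      (fun o R => o ∈ rec_cs_F X (R ∪ S.filter (fun i => X.col i ≠ β)) β p q 0 j)
  have h3 : (∑ o ∈ rec_cs_F X S β p q t j, ((PS.filter (fun R =>
        o ∈ rec_cs_F X (R ∪ S.filter (fun i => X.col i ≠ β)) β p q 0 j)).card : ℝ)) ≤
      (((X.m S β).choose (X.m S β / t) : ℕ) : ℝ) * B := by
    rw [← Nat.cast_sum, h2, Nat.cast_sum, ← hcard, ← nsmul_eq_mul, ← Finset.sum_const]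
    refine Finset.sum_le_sum fun R hR => ?_
    rw [hPS, Finset.mem_powersetCard] at hR
    refine le_trans ?_ (hB _ (rec_cs_sub X S β t hR.1 hR.2))
    rw [hcF]
    exact_mod_cast Finset.card_le_card fun o ho => (Finset.mem_filter.1 ho).2
  have h4 : ((rec_cs_F X S β p q t j).card : ℝ) * (((X.m S β).choose (X.m S β / t) : ℕ) : ℝ) ≤
      (C * B) * (((X.m S β).choose (X.m S β / t) : ℕ) : ℝ) := by
    refine h1.trans ((mul_le_mul_of_nonneg_left h3 hC0).trans (le_of_eq ?_))
    ring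
  rw [hcF]
  exact le_of_mul_le_mul_right h4 (by exact_mod_cast hpos)

end UC
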