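import Mathlib

/-!
# UC part P3, row Pow: powers of x / t
-/

open Finset

namespace UC

/-- x' ≤ x / t gives x'^e ≤ x^e / t^e and (x' y)^ρ ≤ ((x y)/t)^ρ = (x y)^ρ t^(-ρ) (`Real.rpow_le_rpow`,
`Real.div_rpow`, `Real.rpow_neg`).  Multiply by t^e y^f. -/
theorem pow_cs0 (e f : ℕ) (t x' x y ρ : ℝ) (ht : 1 ≤ t) (hx' : 0 ≤ x') (hx : x' ≤ x / t) (hy : 0 ≤ y)
    (hρ : 0 ≤ ρ) :
    t ^ e * (x' ^ e * y ^ f * (x' * y) ^ ρ) ≤ t ^ (-ρ) * (x ^ e * y ^ f * (x * y) ^ ρ) := by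
  have ht0 : 0 < t := lt_of_lt_of_le one_pos ht
  have hx0 : 0 ≤ x := by
    have h1 : 0 ≤ x / t := hx'.trans hx
    rcases (div_nonneg_iff.1 h1) with h | h
    · exact h.1
    · exact absurd h.2 (not_le.2 ht0)
  have h1 : x' ^ e ≤ (x / t) ^ e := pow_le_pow_left₀ hx' hx e
  have h2 : (x' * y) ^ ρ ≤ (x * y) ^ ρ * t ^ (-ρ) := by
    calc (x' * y) ^ ρ ≤ (x / t * y) ^ ρ :=
          Real.rpow_le_rpow (mul_nonneg hx' hy) (mul_le_mul_of_nonneg_right hx hy) hρ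
      _ = (x * y) ^ ρ * t ^ (-ρ) := by
          rw [div_mul_eq_mul_div, Real.div_rpow (mul_nonneg hx0 hy) ht0.le,
            Real.rpow_neg ht0.le, div_eq_mul_inv]
  calc t ^ e * (x' ^ e * y ^ f * (x' * y) ^ ρ)
      ≤ t ^ e * ((x / t) ^ e * y ^ f * ((x * y) ^ ρ * t ^ (-ρ))) := by
        gcongr
    _ = t ^ (-ρ) * (x ^ e * y ^ f * (x * y) ^ ρ) := by
        rw [div_pow]
        field_simp

/-- The same with one more factor t. -/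
theorem pow_cs1 (e f : ℕ) (t x' x y ρ : ℝ) (ht : 1 ≤ t) (hx' : 0 ≤ x') (hx : x' ≤ x / t) (hy : 0 ≤ y)
    (hρ : 0 ≤ ρ) :
    t ^ (e + 1) * (x' ^ e * y ^ f * (x' * y) ^ ρ) ≤ t * t ^ (-ρ) * (x ^ e * y ^ f * (x * y) ^ ρ) := by
  have h1 := pow_cs0 e f t x' x y ρ ht hx' hx hy hρ
  have h2 := mul_le_mul_of_nonneg_left h1 (zero_le_one.trans ht)
  calc t ^ (e + 1) * (x' ^ e * y ^ f * (x' * y) ^ ρ)
      = t * (t ^ e * (x' ^ e * y ^ f * (x' * y) ^ ρ)) := by ring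
    _ ≤ t * (t ^ (-ρ) * (x ^ e * y ^ f * (x * y) ^ ρ)) := h2
    _ = t * t ^ (-ρ) * (x ^ e * y ^ f * (x * y) ^ ρ) := by ring

end UC
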