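import Pool.Agent.UC.Rec_CS
import Pool.Agent.UC.Rec_Pow

/-!
# UC part P3, row CSAB: Clarkson-Shor applied to the bounds BA and BB
-/

open Finset

namespace UC

variable {ι α : Type} [DecidableEq ι]

/-- The support numbers are (a+1, b+1), a + b = N.  Put x = X.m S β, y = X.m S (!β), x' = X.m S β / t (natural
division).  For every S' with X.Sub S S' β t we have X.m S' β = x' and X.m S' (!β) = y, so ih bounds cnt S' by the fixed number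
B = c * BA Θ ρ w x' y a b.  cs_bound with P = N + 2 (a + 1 ≤ N + 2; 4 t (N+3) ≤ X.m S β) gives
cnt S β (a+1) (b+1) t i ≤ KCS (N+2) * t^(a+1) * B, and t^(a+1) * (x'^a * y^b * (x' y)^ρ) ≤ t t^(-ρ) x^a y^b (x y)^ρ by pow_cs1
(x' ≤ x / t: `Nat.cast_div_le`); multiply by c Θ w a b ≥ 0. -/
theorem cs_BA (X : Sys ι α) (hd : ∀ o ∈ X.O, Disjoint (X.supp o) (X.bel o)) {N t : ℕ} (ht : 2 ≤ t)
    {Θ ρ c : ℝ} {w : ℕ → ℕ → ℝ} (hΘ : 0 ≤ Θ) (hρ : 0 ≤ ρ) (hc : 0 ≤ c) (hw : ∀ a b, 0 ≤ w a b)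
    (S : Finset ι) (β : Bool) (a b i : ℕ) (hab : a + b = N) (hm : 4 * t * (N + 3) ≤ X.m S β)
    (ih : ∀ S', X.Sub S S' β t → (X.cnt S' β (a + 1) (b + 1) 0 i : ℝ) ≤
      c * BA Θ ρ w (X.m S' β) (X.m S' (!β)) a b) :
    (X.cnt S β (a + 1) (b + 1) t i : ℝ) ≤
      c * (KCS (N + 2) * (t * (t : ℝ) ^ (-ρ)) * BA Θ ρ w (X.m S β) (X.m S (!β)) a b) := by
  have hx' : (0 : ℝ) ≤ ((X.m S β / t : ℕ) : ℝ) := Nat.cast_nonneg _
  have hx : ((X.m S β / t : ℕ) : ℝ) ≤ (X.m S β : ℝ) / t := Nat.cast_div_le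
  have hy : (0 : ℝ) ≤ (X.m S (!β) : ℝ) := Nat.cast_nonneg _
  have ht1 : (1 : ℝ) ≤ (t : ℝ) := by exact_mod_cast (by omega : 1 ≤ t)
  have e : N + 2 + 1 = N + 3 := rfl
  have h1 := cs_bound X hd (N + 2) t ht S β (a + 1) (b + 1) i (by omega) (by rw [e]; exact hm)
    (c * BA Θ ρ w ((X.m S β / t : ℕ) : ℝ) (X.m S (!β)) a b) (fun S' hS' => by
      have h2 := ih S' hS'
      rw [hS'.2.1, hS'.2.2] at h2
      exact h2)
  refine h1.trans ?_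
  have h3 := pow_cs1 a b t _ _ _ ρ ht1 hx' hx hy hρ
  have h4 : 0 ≤ c * (Θ * (w a b * KCS (N + 2))) := by
    have hk : 0 ≤ KCS (N + 2) := by
      unfold KCS
      positivity
    have := hw a b
    positivity
  have h5 := mul_le_mul_of_nonneg_left h3 h4
  unfold BA
  calc KCS (N + 2) * (t : ℝ) ^ (a + 1) * (c * (Θ * (w a b * ((X.m S β / t : ℕ) : ℝ) ^ a *
        (X.m S (!β) : ℝ) ^ b) * (((X.m S β / t : ℕ) : ℝ) * (X.m S (!β) : ℝ)) ^ ρ))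
      = c * (Θ * (w a b * KCS (N + 2))) * ((t : ℝ) ^ (a + 1) * (((X.m S β / t : ℕ) : ℝ) ^ a *
        (X.m S (!β) : ℝ) ^ b * (((X.m S β / t : ℕ) : ℝ) * (X.m S (!β) : ℝ)) ^ ρ)) := by ring
    _ ≤ _ := h5
    _ = _ := by ring

/-- The same with BB, a + b + 1 = N: the summand with x^(a+1) gets the factor t^(-ρ) (pow_cs0) and the
summand with x^a gets t * t^(-ρ) (pow_cs1). -/
theorem cs_BB (X : Sys ι α) (hd : ∀ o ∈ X.O, Disjoint (X.supp o) (X.bel o)) {N t : ℕ} (ht : 2 ≤ t)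
    {Θ ρ c d1 d2 : ℝ} {w : ℕ → ℕ → ℝ} (hΘ : 0 ≤ Θ) (hρ : 0 ≤ ρ) (hc : 0 ≤ c) (hd1 : 0 ≤ d1) (hd2 : 0 ≤ d2)
    (hw : ∀ a b, 0 ≤ w a b)
    (S : Finset ι) (β : Bool) (a b i : ℕ) (hab : a + b + 1 = N) (hm : 4 * t * (N + 3) ≤ X.m S β)
    (ih : ∀ S', X.Sub S S' β t → (X.cnt S' β (a + 1) (b + 1) 0 i : ℝ) ≤
      c * BB Θ ρ w d1 d2 (X.m S' β) (X.m S' (!β)) a b) :
    (X.cnt S β (a + 1) (b + 1) t i : ℝ) ≤
      c * (KCS (N + 2) * (t : ℝ) ^ (-ρ) * BB Θ ρ w d1 (t * d2) (X.m S β) (X.m S (!β)) a b) := by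
  have hx' : (0 : ℝ) ≤ ((X.m S β / t : ℕ) : ℝ) := Nat.cast_nonneg _
  have hx : ((X.m S β / t : ℕ) : ℝ) ≤ (X.m S β : ℝ) / t := Nat.cast_div_le
  have hy : (0 : ℝ) ≤ (X.m S (!β) : ℝ) := Nat.cast_nonneg _
  have ht1 : (1 : ℝ) ≤ (t : ℝ) := by exact_mod_cast (by omega : 1 ≤ t)
  have e : N + 2 + 1 = N + 3 := rfl
  have h1 := cs_bound X hd (N + 2) t ht S β (a + 1) (b + 1) i (by omega) (by rw [e]; exact hm)
    (c * BB Θ ρ w d1 d2 ((X.m S β / t : ℕ) : ℝ) (X.m S (!β)) a b) (fun S' hS' => by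
      have h2 := ih S' hS'
      rw [hS'.2.1, hS'.2.2] at h2
      exact h2)
  refine h1.trans ?_
  have h3 := pow_cs0 (a + 1) b t _ _ _ ρ ht1 hx' hx hy hρ
  have h3' := pow_cs1 a (b + 1) t _ _ _ ρ ht1 hx' hx hy hρ
  have hk : 0 ≤ KCS (N + 2) := by
    unfold KCS
    positivity
  have h4 : 0 ≤ c * (Θ * (d1 * w (a + 1) b * KCS (N + 2))) := by
    have := hw (a + 1) b
    positivity
  have h4' : 0 ≤ c * (Θ * (d2 * w a (b + 1) * KCS (N + 2))) := by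
    have := hw a (b + 1)
    positivity
  have h5 := mul_le_mul_of_nonneg_left h3 h4
  have h5' := mul_le_mul_of_nonneg_left h3' h4'
  unfold BB
  calc KCS (N + 2) * (t : ℝ) ^ (a + 1) * (c * (Θ * (d1 * (w (a + 1) b *
        ((X.m S β / t : ℕ) : ℝ) ^ (a + 1) * (X.m S (!β) : ℝ) ^ b) + d2 * (w a (b + 1) *
        ((X.m S β / t : ℕ) : ℝ) ^ a * (X.m S (!β) : ℝ) ^ (b + 1))) *
        (((X.m S β / t : ℕ) : ℝ) * (X.m S (!β) : ℝ)) ^ ρ))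
      = c * (Θ * (d1 * w (a + 1) b * KCS (N + 2))) * ((t : ℝ) ^ (a + 1) *
        (((X.m S β / t : ℕ) : ℝ) ^ (a + 1) * (X.m S (!β) : ℝ) ^ b *
        (((X.m S β / t : ℕ) : ℝ) * (X.m S (!β) : ℝ)) ^ ρ)) +
        c * (Θ * (d2 * w a (b + 1) * KCS (N + 2))) * ((t : ℝ) ^ (a + 1) *
        (((X.m S β / t : ℕ) : ℝ) ^ a * (X.m S (!β) : ℝ) ^ (b + 1) *
        (((X.m S β / t : ℕ) : ℝ) * (X.m S (!β) : ℝ)) ^ ρ)) := by ring
    _ ≤ _ := add_le_add h5 h5'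
    _ = _ := by ring

end UC
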