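import Pool.Agent.UC.Defs

/-!
# UC part P3: definitions for the solution of the recursion (text, section 6)
-/

open Finset

namespace UC

section
variable {ι α : Type} [DecidableEq ι]

/-- The number of members of S of colour β. -/
def Sys.m (X : Sys ι α) (S : Finset ι) (β : Bool) : ℕ :=
  (S.filter (fun i => X.col i = β)).card

/-- S' is obtained from S by reducing the colour class β to |S_β| / t members (natural division), the other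
colour class being kept. -/
def Sys.Sub (X : Sys ι α) (S S' : Finset ι) (β : Bool) (t : ℕ) : Prop :=
  S' ⊆ S ∧ X.m S' β = X.m S β / t ∧ X.m S' (!β) = X.m S (!β)

end

/-- The Clarkson-Shor constant. -/
noncomputable def KCS (P : ℕ) : ℝ := 2 ^ P * Real.exp 4

/-- The bound for the objects with N + 2 supports (a + 1 of the first colour, b + 1 of the second one). -/
noncomputable def BA (Θ ρ : ℝ) (w : ℕ → ℕ → ℝ) (x y : ℝ) (a b : ℕ) : ℝ :=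
  Θ * (w a b * x ^ a * y ^ b) * (x * y) ^ ρ

/-- The bound for the objects with N + 1 supports (a + 1 of the first colour, b + 1 of the second one). -/
noncomputable def BB (Θ ρ : ℝ) (w : ℕ → ℕ → ℝ) (d1 d2 x y : ℝ) (a b : ℕ) : ℝ :=
  Θ * (d1 * (w (a + 1) b * x ^ (a + 1) * y ^ b) + d2 * (w a (b + 1) * x ^ a * y ^ (b + 1))) * (x * y) ^ ρ

/-- The weights λ_a = H^(-a^2). -/
noncomputable def lam (H : ℝ) (a : ℕ) : ℝ := (H ^ (a ^ 2))⁻¹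

/-- The weights seen from the colour β: the exponent a or b of the colour true counts. -/
noncomputable def wt (H : ℝ) (β : Bool) (a b : ℕ) : ℝ := if β then lam H a else lam H b

/-- The coefficient c1 (colour true) or c2 (colour false). -/
noncomputable def dd (c1 c2 : ℝ) (β : Bool) : ℝ := if β then c1 else c2

/-- All constants of the recursion with their inequalities. -/
structure Cst (N C0 : ℕ) (K ρ Cp : ℝ) where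
  t : ℕ → ℕ
  t' : ℕ → ℕ
  ν : ℕ → ℝ
  ν' : ℕ → ℝ
  c1 : ℝ
  c2 : ℝ
  H : ℝ
  Θ : ℝ
  δ1 : ℝ
  M : ℕ
  νC : ν C0 = 1
  νC' : ν' C0 = 1
  ht : ∀ j, 2 ≤ t j
  ht' : ∀ j, 2 ≤ t' j
  ν_pos : ∀ j, 0 < ν j
  ν_pos' : ∀ j, 0 < ν' j
  hc1 : 1 ≤ c1
  hc2 : 1 ≤ c2
  hH : 1 ≤ H
  hΘ : 0 < Θ
  hδ1 : 0 ≤ δ1
  hM : 1 ≤ M
  a1 : ∀ j < C0, K * KCS (N + 2) * (1 + c1 + c2) * (t j : ℝ) ^ (-ρ) ≤ ν (j + 1) / 8
  a2 : ∀ j < C0, (1 + K * KCS (N + 2) * (1 + c1 + c2) * t j) * ν j ≤ ν (j + 1) / 8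
  a3 : ∀ j < C0, K * KCS (N + 2) * (1 + c1 + c2) * t j * H⁻¹ ≤ ν (j + 1) / 8
  b1 : ∀ j < C0, K * KCS (N + 2) * (t' j : ℝ) ^ (-ρ) ≤ ν' (j + 1) / 8
  b2 : ∀ j < C0, (1 + K * KCS (N + 2) * t' j) * ν' j ≤ ν' (j + 1) / 8
  b3 : ∀ j < C0, K * KCS (N + 2) * δ1 ≤ ν' (j + 1) / 8
  b4 : ∀ j < C0, K * KCS (N + 2) * t' j * H⁻¹ ≤ ν' (j + 1) / 16
  b5 : ∀ j < C0, K * KCS (N + 2) * t' j ≤ ν' (j + 1) / 8 * c1
  b6 : ∀ j < C0, K * KCS (N + 2) * t' j ≤ ν' (j + 1) / 8 * c2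
  b7 : ∀ j < C0, ∀ a ≤ N, K * C0 ≤ ν' (j + 1) / 8 * (Θ * lam H a)
  r1 : c1 ≤ δ1 * c2
  r2 : H⁻¹ ≤ δ1
  M1 : ∀ j < C0, 4 * t j * (N + 3) ≤ M
  M2 : ∀ j < C0, 4 * t' j * (N + 3) ≤ M
  s1 : ∀ j ≤ C0, ∀ a ≤ N, C0 * (H ^ (2 * N) * M) ^ (N + 2) ≤ ν j * (Θ * lam H a)
  s2 : ∀ j ≤ C0, ∀ a ≤ N, C0 * (H ^ (2 * N) * M) ^ (N + 2) ≤ ν' j * (Θ * lam H a)
  p1 : ∀ j ≤ C0, ∀ a ≤ N, Cp ≤ ν j * (Θ * lam H a)
  p2 : ∀ j ≤ C0, ∀ a ≤ N, (C0 : ℝ) ≤ ν' j * (Θ * lam H a)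

end UC
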