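import Pool.Agent.UC.Rec_PureStep
import Pool.Agent.UC.Rec_Seq

/-!
# UC part P3, row PureOne: sets with one function of a colour
-/

open Finset

namespace UC

private theorem rec_pureone_theta (C0 : ℕ) (D : ℝ) (hD : 0 < D) {ν : ℕ → ℝ}
    (hν : ∀ j, 0 < ν j) : ∃ Θ : ℝ, 0 < Θ ∧ ∀ j ≤ C0, D ≤ Θ * ν j := by
  refine ⟨∑ j ∈ Finset.range (C0 + 1), D / ν j, ?_, ?_⟩
  · exact Finset.sum_pos (fun j _ => div_pos hD (hν j)) ⟨0, Finset.mem_range.2 (by omega)⟩
  · intro j hj
    have h1 : D / ν j ≤ ∑ j ∈ Finset.range (C0 + 1), D / ν j :=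
      Finset.single_le_sum (f := fun j => D / ν j) (fun i _ => (div_pos hD (hν i)).le)
        (Finset.mem_range.2 (by omega))
    have h2 := mul_le_mul_of_nonneg_right h1 (hν j).le
    rwa [div_mul_cancel₀ _ (hν j).ne'] at h2

/-- The bound for sets with at most one function of the colour !γ, N ≥ 1.
Take (t, ν) from seq_exists C0 (K * KCS (N+2)) ρ; M = Σ_{j < C0} 4 t_j (N+3) + 1; Θ > 0 with Θ ν (j) ≥ 8 K C0 and Θ ν j ≥ C0 M for
all j ≤ C0 (for example Θ = Σ_{j ≤ C0} (8 K C0 + C0 M + 1)/ν j; all ν j > 0).  Claim for all S with X.m S (!γ) ≤ 1 and all j ≤ C0: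
cnt S γ (N+1) 1 0 j ≤ Θ ν j n^(N+ρ), n = X.m S γ; strong induction on n, then induction on j (j = 0: cnt_idx_zero).
j + 1 ≤ C0: if n ≥ M > 4 t_j (N+3) use pure_step (X.m S' γ = n / t < n for X.Sub S S' γ t); if n < M: cnt ≤ C0 n^(N+1) * 1 (cnt_le_pow,
X.m S (!γ) ≤ 1) ≤ C0 M n^N ≤ C0 M n^(N+ρ) (for n = 0 both sides are 0, or cnt = 0; for n ≥ 1, n^N ≤ n^(N+ρ)) ≤ Θ ν (j+1) n^(N+ρ).
The constant is C = Θ (ν C0 = 1); for i ≤ C0 use ν i ≤ 1 (seq_exists). -/
theorem pure_one (N C0 : ℕ) (K ρ : ℝ) (hK : 0 ≤ K) (hρ : 0 < ρ) (hN : 1 ≤ N) : ∃ C : ℝ, 0 ≤ C ∧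
    ∀ (ι α : Type) [DecidableEq ι] (X : Sys ι α), X.Good N C0 K → ∀ (S : Finset ι) (γ : Bool),
      X.m S (!γ) ≤ 1 → ∀ j ≤ C0,
        (X.cnt S γ (N + 1) 1 0 j : ℝ) ≤ C * (X.m S γ : ℝ) ^ ((N : ℝ) + ρ) := by
  have hk : 0 < KCS (N + 2) := by
    unfold KCS
    positivity
  obtain ⟨t, ν, hνC, ht, hν, hν1, hstep⟩ := seq_exists C0 (K * KCS (N + 2)) ρ
    (mul_nonneg hK hk.le) hρ
  let M : ℕ := ∑ j ∈ Finset.range C0, 4 * t j * (N + 3)
  have hM : ∀ j < C0, 4 * t j * (N + 3) ≤ M := fun j hj =>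
    Finset.single_le_sum (f := fun j => 4 * t j * (N + 3)) (fun i _ => Nat.zero_le _)
      (Finset.mem_range.2 hj)
  obtain ⟨Θ, hΘ, hΘν⟩ := rec_pureone_theta C0 (8 * (K * C0) + C0 * M + 1) (by positivity) hν
  have key : ∀ (ι α : Type) [DecidableEq ι] (X : Sys ι α), X.Good N C0 K → ∀ (γ : Bool) (n : ℕ)
      (S : Finset ι), X.m S γ = n → X.m S (!γ) ≤ 1 → ∀ j ≤ C0,
        (X.cnt S γ (N + 1) 1 0 j : ℝ) ≤ Θ * ν j * (X.m S γ : ℝ) ^ ((N : ℝ) + ρ) := by
    intro ι α _ X hX γ n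
    induction n using Nat.strong_induction_on with
    | _ n ih =>
      intro S hn hS j
      induction j with
      | zero =>
        intro _
        rw [cnt_idx_zero, Nat.cast_zero]
        have := (hν 0).le
        positivity
      | succ j ihj =>
        intro hj
        have hD := hΘν (j + 1) hj
        have hKC : 0 ≤ K * (C0 : ℝ) := by positivity
        have hCM : 0 ≤ (C0 : ℝ) * (M : ℝ) := by positivity
        by_cases hnM : M ≤ n
        · have h4 : 4 * t j * (N + 3) ≤ X.m S γ := by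
            rw [hn]
            exact (hM j hj).trans hnM
          have h5 := ht j
          have h6 : 0 < n := by
            have : 0 < X.m S γ := lt_of_lt_of_le (by positivity) h4
            omega
          refine pure_step X hX hK hρ hN hΘ hν hνC S γ j (t j) hj h5 h4 hS ?_
            (ihj (by omega)) (hstep j hj).1 (hstep j hj).2 ?_
          · intro S' hS' i hi
            refine ih (n / t j) (Nat.div_lt_self h6 h5) S' ?_ ?_ i hi
            · rw [hS'.2.1, hn]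
            · rw [hS'.2.2]
              exact hS
          · linarith
        · have h4 := cnt_le_pow X hX.fib S γ (N + 1) 1 0 (j + 1)
          refine h4.trans ?_
          have h5 : (X.m S (!γ) : ℝ) ≤ 1 := by exact_mod_cast hS
          have h6 : 0 ≤ Θ * ν (j + 1) := (mul_pos hΘ (hν _)).le
          rcases Nat.eq_zero_or_pos (X.m S γ) with h0 | h0
          · rw [h0, Nat.cast_zero, zero_pow (by omega), zero_mul, mul_zero]
            positivity
          · have hn1 : (1 : ℝ) ≤ (X.m S γ : ℝ) := by exact_mod_cast h0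
            have hnM' : (X.m S γ : ℝ) ≤ (M : ℝ) := by
              exact_mod_cast (by omega : X.m S γ ≤ M)
            have hpow : (X.m S γ : ℝ) ^ N ≤ (X.m S γ : ℝ) ^ ((N : ℝ) + ρ) := by
              rw [← Real.rpow_natCast]
              exact Real.rpow_le_rpow_of_exponent_le hn1 (by linarith)
            calc (C0 : ℝ) * ((X.m S γ : ℝ) ^ (N + 1) * (X.m S (!γ) : ℝ) ^ 1)
                ≤ (C0 : ℝ) * ((X.m S γ : ℝ) ^ (N + 1) * 1) := by
                  rw [pow_one]
                  gcongr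
              _ = (C0 : ℝ) * (X.m S γ : ℝ) * (X.m S γ : ℝ) ^ N := by ring
              _ ≤ (C0 : ℝ) * (M : ℝ) * (X.m S γ : ℝ) ^ ((N : ℝ) + ρ) := by gcongr
              _ ≤ Θ * ν (j + 1) * (X.m S γ : ℝ) ^ ((N : ℝ) + ρ) := by
                  refine mul_le_mul_of_nonneg_right ?_ (by positivity)
                  linarith
  refine ⟨Θ, hΘ.le, ?_⟩
  intro ι α _ X hX S γ hS j hj
  refine (key ι α X hX γ _ S rfl hS j hj).trans ?_
  refine mul_le_mul_of_nonneg_right ?_ (by positivity)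
  exact mul_le_of_le_one_right hΘ.le (hν1 j)

end UC
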