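import Pool.Agent.UC.Rec_Basic
import Pool.Agent.UC.Rec_CS

/-!
# UC part P3, row PureStep: one step of the pure recursion
-/

open Finset

namespace UC

private theorem rec_purestep_pow (N : ℕ) {t n ρ : ℝ} (ht : 0 < t) (hn : 0 ≤ n) :
    t ^ (N + 1) * (n / t) ^ ((N : ℝ) + ρ) = t * t ^ (-ρ) * n ^ ((N : ℝ) + ρ) := by
  rw [Real.div_rpow hn ht.le, Real.rpow_add ht, Real.rpow_natCast, Real.rpow_neg ht.le]
  have h1 : t ^ ρ ≠ 0 := (Real.rpow_pos_of_pos ht ρ).ne'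
  have h2 : t ^ N ≠ 0 := (pow_pos ht N).ne'
  rw [pow_succ]
  field_simp

private theorem rec_purestep_cs {ι α : Type} [DecidableEq ι] (X : Sys ι α) {N C0 : ℕ}
    {K ρ Θ : ℝ} (hX : X.Good N C0 K) (hρ : 0 < ρ) (hΘ : 0 < Θ) {ν : ℕ → ℝ}
    (hν : ∀ j, 0 < ν j) (S : Finset ι) (γ : Bool) (t : ℕ) (ht : 2 ≤ t)
    (hm : 4 * t * (N + 3) ≤ X.m S γ)
    (ih : ∀ S', X.Sub S S' γ t → ∀ i ≤ C0,
      (X.cnt S' γ (N + 1) 1 0 i : ℝ) ≤ Θ * ν i * (X.m S' γ : ℝ) ^ ((N : ℝ) + ρ))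
    (i : ℕ) (hi : i ≤ C0) : (X.cnt S γ (N + 1) 1 t i : ℝ) ≤
      KCS (N + 2) * (t * (t : ℝ) ^ (-ρ)) * ν i * (Θ * (X.m S γ : ℝ) ^ ((N : ℝ) + ρ)) := by
  have ht0 : (0 : ℝ) < (t : ℝ) := by exact_mod_cast (by omega : 0 < t)
  have e : N + 2 + 1 = N + 3 := rfl
  have h1 := cs_bound X hX.disj (N + 2) t ht S γ (N + 1) 1 i (by omega) (by rw [e]; exact hm)
    (Θ * ν i * ((X.m S γ : ℝ) / t) ^ ((N : ℝ) + ρ)) (fun S' hS' => by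
      refine (ih S' hS' i hi).trans ?_
      rw [hS'.2.1]
      have h2 : ((X.m S γ / t : ℕ) : ℝ) ≤ (X.m S γ : ℝ) / t := Nat.cast_div_le
      have h3 : ((X.m S γ / t : ℕ) : ℝ) ^ ((N : ℝ) + ρ) ≤ ((X.m S γ : ℝ) / t) ^ ((N : ℝ) + ρ) :=
        Real.rpow_le_rpow (Nat.cast_nonneg _) h2 (by positivity)
      exact mul_le_mul_of_nonneg_left h3 (mul_nonneg hΘ.le (hν i).le))
  refine h1.trans (le_of_eq ?_)
  calc KCS (N + 2) * (t : ℝ) ^ (N + 1) * (Θ * ν i * ((X.m S γ : ℝ) / t) ^ ((N : ℝ) + ρ))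
      = KCS (N + 2) * (Θ * ν i) * ((t : ℝ) ^ (N + 1) * ((X.m S γ : ℝ) / t) ^ ((N : ℝ) + ρ)) := by
        ring
    _ = KCS (N + 2) * (Θ * ν i) * (t * (t : ℝ) ^ (-ρ) * (X.m S γ : ℝ) ^ ((N : ℝ) + ρ)) := by
        rw [rec_purestep_pow N ht0 (Nat.cast_nonneg _)]
    _ = _ := by ring

/-- One step for sets with at most one function of the colour !γ.  Write n = X.m S γ.  X.Good.step for the colour γ,
p = N + 1 ≥ 2, q = 1, p + q = N + 2: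
cnt S γ (N+1) 1 0 (j+1) ≤ cnt S γ (N+1) 1 0 j + K (T1 / t + T2 + T3 + T4 + 0) with
T1 = cnt S γ (N+1) 1 t C0, T2 = cnt S γ (N+1) 1 t j, T3 = cnt S γ N 2 t C0 = 0 (cnt_le_choose: C(1,2) = C(0,2) = 0),
T4 = cnt S γ N 1 t C0 ≤ C0 n^N 1^1 (cnt_le_pow; X.m S (!γ) ≤ 1).
cs_bound (P = N + 2, p = N + 1, hm) for i = C0 and i = j, with B = Θ ν i (n/t)^(N+ρ): by ih (X.m S' γ = n / t as natural numbers,
its cast is ≤ n / t, and X.m S' (!γ) = X.m S (!γ) ≤ 1) cnt S γ (N+1) 1 t i ≤ KCS (N+2) t^(N+1) Θ ν i (n/t)^(N+ρ)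
= KCS (N+2) t^(1-ρ) Θ ν i n^(N+ρ) (real powers: t^(N+1) (n/t)^(N+ρ) = t * t^(-ρ) * n^(N+ρ)).  So with W = Θ n^(N+ρ), ν C0 = 1, t^(-ρ) ≤ 1:
T1 / t ≤ KCS t^(-ρ) W, T2 ≤ KCS t ν j W, T4 ≤ C0 n^N ≤ C0 n^(N+ρ) = (C0/Θ) W (n ≥ 1 by hm).  Sum:
cnt (j+1) ≤ (ν j + K KCS t^(-ρ) + K KCS t ν j) W + K C0 n^(N+ρ) ≤ (3/8) ν (j+1) W by h1, h2, h3. -/
theorem pure_step {ι α : Type} [DecidableEq ι] (X : Sys ι α) {N C0 : ℕ} {K ρ Θ : ℝ} (hX : X.Good N C0 K)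
    (hK : 0 ≤ K) (hρ : 0 < ρ) (hN : 1 ≤ N) (hΘ : 0 < Θ) {ν : ℕ → ℝ} (hν : ∀ j, 0 < ν j) (hνC : ν C0 = 1)
    (S : Finset ι) (γ : Bool) (j t : ℕ) (hj : j < C0) (ht : 2 ≤ t) (hm : 4 * t * (N + 3) ≤ X.m S γ)
    (hS : X.m S (!γ) ≤ 1)
    (ih : ∀ S', X.Sub S S' γ t → ∀ i ≤ C0,
      (X.cnt S' γ (N + 1) 1 0 i : ℝ) ≤ Θ * ν i * (X.m S' γ : ℝ) ^ ((N : ℝ) + ρ))
    (hSj : (X.cnt S γ (N + 1) 1 0 j : ℝ) ≤ Θ * ν j * (X.m S γ : ℝ) ^ ((N : ℝ) + ρ))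
    (h1 : K * KCS (N + 2) * (t : ℝ) ^ (-ρ) ≤ ν (j + 1) / 8)
    (h2 : (1 + K * KCS (N + 2) * t) * ν j ≤ ν (j + 1) / 8)
    (h3 : K * C0 ≤ Θ * ν (j + 1) / 8) :
    (X.cnt S γ (N + 1) 1 0 (j + 1) : ℝ) ≤ Θ * ν (j + 1) * (X.m S γ : ℝ) ^ ((N : ℝ) + ρ) := by
  have ht0 : (0 : ℝ) < (t : ℝ) := by exact_mod_cast (by omega : 0 < t)
  have hk : 0 < KCS (N + 2) := by
    unfold KCS
    positivity
  have hn1 : (1 : ℝ) ≤ (X.m S γ : ℝ) := by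
    have h4 : 1 ≤ X.m S γ := by nlinarith
    exact_mod_cast h4
  have hst := hX.step S γ (N + 1) 1 t j (by omega) le_rfl (by omega) (Or.inl rfl)
  rw [if_neg (by omega), add_zero, Nat.add_sub_cancel] at hst
  have hT1 := rec_purestep_cs X hX hρ hΘ hν S γ t ht hm ih C0 le_rfl
  have hT2 := rec_purestep_cs X hX hρ hΘ hν S γ t ht hm ih j hj.le
  rw [hνC] at hT1
  have hT3 : (X.cnt S γ N (1 + 1) t C0 : ℝ) = 0 := by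
    have h4 := cnt_le_choose X hX.fib S γ N (1 + 1) t C0
    rw [Nat.choose_eq_zero_of_lt (by omega : X.m S (!γ) < 1 + 1), mul_zero, mul_zero] at h4
    exact_mod_cast Nat.le_zero.1 h4
  have hpow : (X.m S γ : ℝ) ^ N ≤ (X.m S γ : ℝ) ^ ((N : ℝ) + ρ) := by
    rw [← Real.rpow_natCast]
    exact Real.rpow_le_rpow_of_exponent_le hn1 (by linarith)
  have hT4 : (X.cnt S γ N 1 t C0 : ℝ) ≤ C0 * (X.m S γ : ℝ) ^ ((N : ℝ) + ρ) := by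
    refine (cnt_le_pow X hX.fib S γ N 1 t C0).trans ?_
    refine mul_le_mul_of_nonneg_left ?_ (Nat.cast_nonneg _)
    have h5 : (X.m S (!γ) : ℝ) ≤ 1 := by exact_mod_cast hS
    calc (X.m S γ : ℝ) ^ N * (X.m S (!γ) : ℝ) ^ 1 ≤ (X.m S γ : ℝ) ^ N * 1 := by
          rw [pow_one]
          exact mul_le_mul_of_nonneg_left h5 (by positivity)
      _ ≤ _ := by
          rw [mul_one]
          exact hpow
  have hW : 0 ≤ Θ * (X.m S γ : ℝ) ^ ((N : ℝ) + ρ) := by positivity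
  have hW' : 0 ≤ (X.m S γ : ℝ) ^ ((N : ℝ) + ρ) := by positivity
  have htρ : (t : ℝ) ^ (-ρ) ≤ 1 :=
    Real.rpow_le_one_of_one_le_of_nonpos (by exact_mod_cast (by omega : 1 ≤ t)) (by linarith)
  have hT1' : (X.cnt S γ (N + 1) 1 t C0 : ℝ) / t ≤
      KCS (N + 2) * (t : ℝ) ^ (-ρ) * (Θ * (X.m S γ : ℝ) ^ ((N : ℝ) + ρ)) := by
    rw [div_le_iff₀ ht0]
    refine hT1.trans (le_of_eq ?_)
    ring
  have hT2' : (X.cnt S γ (N + 1) 1 t j : ℝ) ≤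
      KCS (N + 2) * t * ν j * (Θ * (X.m S γ : ℝ) ^ ((N : ℝ) + ρ)) := by
    refine hT2.trans ?_
    refine mul_le_mul_of_nonneg_right ?_ hW
    refine mul_le_mul_of_nonneg_right ?_ (hν j).le
    refine mul_le_mul_of_nonneg_left ?_ hk.le
    exact mul_le_of_le_one_right ht0.le htρ
  rw [hT3, add_zero] at hst
  have e1 := mul_le_mul_of_nonneg_left (add_le_add (add_le_add hT1' hT2') hT4) hK
  have e2 := mul_le_mul_of_nonneg_right h1 hW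
  have e3 := mul_le_mul_of_nonneg_right h2 hW
  have e4 := mul_le_mul_of_nonneg_right h3 hW'
  have e5 := mul_nonneg (hν (j + 1)).le hW
  nlinarith

end UC
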