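import Pool.Agent.UC.Rec_CSAB

/-!
# UC part P3, row StepA: one step for the objects with N + 2 supports
-/

open Finset

namespace UC

theorem rec_stepa_real {K κ τ t δ d1 d2 u u' W c0 T1 T2 T3 T4 Z : ℝ} (hK : 0 ≤ K) (hκ : 0 ≤ κ)
    (hτ : 0 ≤ τ) (hτ1 : τ ≤ 1) (ht : 0 < t) (hδ : 0 ≤ δ) (hd1 : 0 ≤ d1) (hd2 : 0 ≤ d2)
    (hu : 0 ≤ u) (hW : 0 ≤ W) (hZ0 : 0 ≤ Z) (hZ : Z ≤ δ * W) (hS : c0 ≤ u * W)
    (hT1 : T1 ≤ κ * (t * τ) * W) (hT2 : T2 ≤ u * (κ * (t * τ) * W))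
    (hT3 : T3 ≤ κ * (t * τ) * Z) (hT4 : T4 ≤ κ * τ * (d1 * W + t * d2 * Z))
    (h1 : K * κ * (1 + d1 + d2) * τ ≤ u' / 8) (h2 : (1 + K * κ * (1 + d1 + d2) * t) * u ≤ u' / 8)
    (h3 : K * κ * (1 + d1 + d2) * t * δ ≤ u' / 8) :
    c0 + K * (T1 / t + T2 + T3 + T4 + 0) ≤ u' * W := by
  have g1 : t * τ ≤ t := mul_le_of_le_one_right ht.le hτ1
  have e1 : T1 / t ≤ κ * τ * W := by
    rw [div_le_iff₀ ht]
    refine hT1.trans (le_of_eq ?_)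
    ring
  have g2 : κ * (t * τ) ≤ κ * t := mul_le_mul_of_nonneg_left g1 hκ
  have e2 : T2 ≤ u * (κ * t * W) :=
    hT2.trans (mul_le_mul_of_nonneg_left (mul_le_mul_of_nonneg_right g2 hW) hu)
  have e3 : T3 ≤ κ * t * (δ * W) :=
    hT3.trans (mul_le_mul g2 hZ hZ0 (by positivity))
  have e4 : T4 ≤ κ * τ * d1 * W + κ * t * d2 * (δ * W) := by
    refine hT4.trans ?_
    have g3 : κ * (t * τ) * (d2 * Z) ≤ κ * t * (d2 * (δ * W)) :=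
      mul_le_mul g2 (mul_le_mul_of_nonneg_left hZ hd2) (by positivity) (by positivity)
    have g4 : κ * τ * (d1 * W + t * d2 * Z) = κ * τ * d1 * W + κ * (t * τ) * (d2 * Z) := by ring
    have g5 : κ * t * (d2 * (δ * W)) = κ * t * d2 * (δ * W) := by ring
    rw [g4, ← g5]
    linarith
  have e5 : T1 / t + T2 + T3 + T4 + 0 ≤ κ * τ * W + u * (κ * t * W) + κ * t * (δ * W) +
      (κ * τ * d1 * W + κ * t * d2 * (δ * W)) := by linarith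
  have e6 := mul_le_mul_of_nonneg_left e5 hK
  have e7 : c0 + K * (T1 / t + T2 + T3 + T4 + 0) ≤
      ((1 + K * κ * t) * u + K * κ * τ * (1 + d1) + K * κ * t * δ * (1 + d2)) * W := by
    have g6 : u * W + K * (κ * τ * W + u * (κ * t * W) + κ * t * (δ * W) +
        (κ * τ * d1 * W + κ * t * d2 * (δ * W))) =
        ((1 + K * κ * t) * u + K * κ * τ * (1 + d1) + K * κ * t * δ * (1 + d2)) * W := by ring
    rw [← g6]
    linarith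
  have f1 : (1 + K * κ * t) * u ≤ u' / 8 := by
    have g7 : 0 ≤ K * κ * (d1 + d2) * t * u := by positivity
    have g8 : (1 + K * κ * (1 + d1 + d2) * t) * u = (1 + K * κ * t) * u +
        K * κ * (d1 + d2) * t * u := by ring
    linarith
  have f2 : K * κ * τ * (1 + d1) ≤ u' / 8 := by
    have g7 : 0 ≤ K * κ * d2 * τ := by positivity
    have g8 : K * κ * (1 + d1 + d2) * τ = K * κ * τ * (1 + d1) + K * κ * d2 * τ := by ring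
    linarith
  have f3 : K * κ * t * δ * (1 + d2) ≤ u' / 8 := by
    have g7 : 0 ≤ K * κ * d1 * t * δ := by positivity
    have g8 : K * κ * (1 + d1 + d2) * t * δ = K * κ * t * δ * (1 + d2) +
        K * κ * d1 * t * δ := by ring
    linarith
  have f4 : 0 ≤ (1 + K * κ * t) * u := by positivity
  refine e7.trans (mul_le_mul_of_nonneg_right ?_ hW)
  linarith

/-- Type (a+2, b+1), a + 1 + b = N.  Put x = X.m S β, y = X.m S (!β), κ = KCS (N+2), τ = t^(-ρ) (0 < τ ≤ 1 as t ≥ 2 and ρ ≥ 0),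
W = BA Θ ρ w x y (a+1) b ≥ 0.  X.Good.step with p = a + 2, q = b + 1 (p + q = N + 2 ≠ N + 1, so the last term is 0):
cnt S β (a+2) (b+1) 0 (j+1) ≤ cnt S β (a+2) (b+1) 0 j + K (T1 / t + T2 + T3 + T4),
T1 = cnt S β (a+2) (b+1) t C0 ≤ κ (t τ) W   [cs_BA with (a+1, b), c = 1 = ν C0, ihA],   so T1 / t ≤ κ τ W;
T2 = cnt S β (a+2) (b+1) t j ≤ ν j κ (t τ) W ≤ ν j κ t W   [cs_BA with c = ν j];
T3 = cnt S β (a+1) (b+2) t C0 ≤ κ (t τ) BA w x y a (b+1) ≤ κ t δ W   [cs_BA with (a, b+1); BA w x y a (b+1) = Θ (w a (b+1) x^a y^(b+1)) P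
  and w a (b+1) y ≤ δ w (a+1) b x (hr) multiplied by Θ x^a y^b P ≥ 0 gives BA w x y a (b+1) ≤ δ W];
T4 = cnt S β (a+1) (b+1) t C0 ≤ κ τ BB w d1 (t d2) x y a b   [cs_BB with (a,b), c = 1, a + b + 1 = N]
  = κ τ (d1 W + t d2 Θ (w a (b+1) x^a y^(b+1)) P) ≤ κ τ d1 W + κ t d2 δ W.
The sum is ≤ [ (1 + K κ t) ν j + K κ τ (1 + d1) + K κ t δ (1 + d2) ] W ≤ (3/8) ν (j+1) W ≤ ν (j+1) W by h1, h2, h3 (all factors ≥ 0;
ν j, ν (j+1) ≥ 0). -/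
theorem stepA {ι α : Type} [DecidableEq ι] (X : Sys ι α) {N C0 : ℕ} {K : ℝ} (hX : X.Good N C0 K) (hK : 0 ≤ K)
    {Θ ρ d1 d2 δ : ℝ} {w : ℕ → ℕ → ℝ} {ν : ℕ → ℝ} (hΘ : 0 ≤ Θ) (hρ : 0 ≤ ρ) (hd1 : 0 ≤ d1) (hd2 : 0 ≤ d2)
    (hδ : 0 ≤ δ) (hw : ∀ a b, 0 ≤ w a b) (hν : ∀ j, 0 ≤ ν j) (hνC : ν C0 = 1)
    (S : Finset ι) (β : Bool) (a b j t : ℕ) (hab : a + 1 + b = N) (hj : j < C0) (ht : 2 ≤ t)
    (hm : 4 * t * (N + 3) ≤ X.m S β)
    (ihA : ∀ S', X.Sub S S' β t → ∀ i ≤ C0, ∀ a b, a + b = N →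
      (X.cnt S' β (a + 1) (b + 1) 0 i : ℝ) ≤ ν i * BA Θ ρ w (X.m S' β) (X.m S' (!β)) a b)
    (ihB : ∀ S', X.Sub S S' β t → ∀ a b, a + b + 1 = N →
      (X.cnt S' β (a + 1) (b + 1) 0 C0 : ℝ) ≤ BB Θ ρ w d1 d2 (X.m S' β) (X.m S' (!β)) a b)
    (hS : (X.cnt S β (a + 2) (b + 1) 0 j : ℝ) ≤ ν j * BA Θ ρ w (X.m S β) (X.m S (!β)) (a + 1) b)
    (h1 : K * KCS (N + 2) * (1 + d1 + d2) * (t : ℝ) ^ (-ρ) ≤ ν (j + 1) / 8)
    (h2 : (1 + K * KCS (N + 2) * (1 + d1 + d2) * t) * ν j ≤ ν (j + 1) / 8)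
    (h3 : K * KCS (N + 2) * (1 + d1 + d2) * t * δ ≤ ν (j + 1) / 8)
    (hr : w a (b + 1) * X.m S (!β) ≤ δ * (w (a + 1) b * X.m S β)) :
    (X.cnt S β (a + 2) (b + 1) 0 (j + 1) : ℝ) ≤
      ν (j + 1) * BA Θ ρ w (X.m S β) (X.m S (!β)) (a + 1) b := by
  have ht0 : (0 : ℝ) < (t : ℝ) := by
    have : 0 < t := by omega
    exact_mod_cast this
  have ht1 : (1 : ℝ) ≤ (t : ℝ) := by
    have : 1 ≤ t := by omega
    exact_mod_cast this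
  have hτ : (0 : ℝ) ≤ (t : ℝ) ^ (-ρ) := Real.rpow_nonneg ht0.le _
  have hτ1 : (t : ℝ) ^ (-ρ) ≤ 1 := Real.rpow_le_one_of_one_le_of_nonpos ht1 (by linarith)
  have hκ : 0 ≤ KCS (N + 2) := by
    unfold KCS
    positivity
  have hstep := hX.step S β (a + 2) (b + 1) t j (by omega) (by omega) (by omega)
    (Or.inl (by omega))
  rw [if_neg (by omega)] at hstep
  have hx0 : (0 : ℝ) ≤ (X.m S β : ℝ) := Nat.cast_nonneg _
  have hy0 : (0 : ℝ) ≤ (X.m S (!β) : ℝ) := Nat.cast_nonneg _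
  have hP0 : (0 : ℝ) ≤ ((X.m S β : ℝ) * (X.m S (!β) : ℝ)) ^ ρ :=
    Real.rpow_nonneg (mul_nonneg hx0 hy0) _
  have hBA0 : ∀ a' b', 0 ≤ BA Θ ρ w (X.m S β) (X.m S (!β)) a' b' := by
    intro a' b'
    unfold BA
    have := hw a' b'
    positivity
  have hZ : BA Θ ρ w (X.m S β) (X.m S (!β)) a (b + 1) ≤
      δ * BA Θ ρ w (X.m S β) (X.m S (!β)) (a + 1) b := by
    unfold BA
    have h5 : 0 ≤ Θ * ((X.m S β : ℝ) ^ a * (X.m S (!β) : ℝ) ^ b) *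
        ((X.m S β : ℝ) * (X.m S (!β) : ℝ)) ^ ρ := by positivity
    have h6 := mul_le_mul_of_nonneg_left hr h5
    refine le_of_eq_of_le ?_ (h6.trans (le_of_eq ?_))
    · ring
    · ring
  have hT1 := cs_BA X hX.disj ht (c := 1) hΘ hρ zero_le_one hw S β (a + 1) b C0 hab hm
    (fun S' hS' => by
      have h5 := ihA S' hS' C0 le_rfl (a + 1) b hab
      rw [hνC] at h5
      exact h5)
  have hT2 := cs_BA X hX.disj ht (c := ν j) hΘ hρ (hν j) hw S β (a + 1) b j hab hm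
    (fun S' hS' => ihA S' hS' j hj.le (a + 1) b hab)
  have hT3 := cs_BA X hX.disj ht (c := 1) hΘ hρ zero_le_one hw S β a (b + 1) C0 (by omega) hm
    (fun S' hS' => by
      have h5 := ihA S' hS' C0 le_rfl a (b + 1) (by omega)
      rw [hνC] at h5
      exact h5)
  have hT4 := cs_BB X hX.disj ht (c := 1) hΘ hρ zero_le_one hd1 hd2 hw S β a b C0 (by omega) hm
    (fun S' hS' => by
      rw [one_mul]
      exact ihB S' hS' a b (by omega))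
  rw [one_mul] at hT1 hT3 hT4
  have hBB : BB Θ ρ w d1 (t * d2) (X.m S β) (X.m S (!β)) a b =
      d1 * BA Θ ρ w (X.m S β) (X.m S (!β)) (a + 1) b +
        t * d2 * BA Θ ρ w (X.m S β) (X.m S (!β)) a (b + 1) := by
    unfold BB BA
    ring
  rw [hBB] at hT4
  exact hstep.trans (rec_stepa_real hK hκ hτ hτ1 ht0 hδ hd1 hd2 (hν j) (hBA0 _ _) (hBA0 _ _) hZ
    hS hT1 hT2 hT3 hT4 h1 h2 h3)

end UC
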