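import Pool.Agent.UC.GenDefs

/-!
# UC: vertices of sandwich regions

Colour `true`: functions f_i (upper boundary), colour `false`: functions -g_j (lower boundary).  A vertex at
height t has f_i(y) = t and g_j(y) = t, that is φ_i(y) = sg (col i) * t.
-/

open Finset Metric

namespace UC

/-- The sign of a colour. -/
def sg : Bool → ℝ
  | true => 1
  | false => -1

variable {N : ℕ} {ι : Type}

/-- (y,t) is a transversal vertex with support T of the sandwich region of the coloured family φ. -/
structure IsV (Ω : Set (E N)) (φ : ι → E N → ℝ) (col : ι → Bool) (T : Finset ι) (y : E N) (t : ℝ) :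
    Prop where
  mem : y ∈ Ω
  card : T.card = N + 1
  on : ∀ i ∈ T, φ i y = sg (col i) * t
  off : ∀ i, i ∉ T → sg (col i) * t < φ i y
  trans : ∀ c : ι → ℝ, (∀ i, i ∉ T → c i = 0) → ∑ i ∈ T, c i * sg (col i) = 0 →
    ∑ i ∈ T, c i • fderiv ℝ (φ i) y = 0 → ∀ i, c i = 0

end UC
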