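import Pool.Agent.UC.Good
import Pool.Agent.UC.Rec

open Finset Metric

namespace UC

/-- The number of visible objects of kinds 0 and 1. -/
theorem vis_count (N C0 : ℕ) (ρ : ℝ) (hρ : 0 < ρ) : ∃ C : ℝ, 0 ≤ C ∧
    ∀ (ι : Type) [Fintype ι] [DecidableEq ι] (Ω : Set (E N)) (φ : ι → E N → ℝ) (col : ι → Bool),
      GP Ω φ col C0 → ∀ W : Finset (Finset ι × E N),
      (∀ o ∈ W, IsObj Ω φ col o.1 o.2 ∧ (o.1.card = N + 1 ∨ o.1.card = N + 2) ∧
        ∀ h, ¬ Bel φ col o.1 h o.2) →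
      (W.card : ℝ) ≤ C * (Fintype.card ι : ℝ) ^ ((N : ℝ) + ρ) := by
  classical
  obtain ⟨K, hK, hgood⟩ := exists_good N C0
  obtain ⟨C', hC', hrec⟩ := rec_bound N C0 K ρ hK hρ
  refine ⟨((N : ℝ) + 3) * ((N : ℝ) + 3) * C', by positivity, ?_⟩
  intro ι _ _ Ω φ col hGP W hW
  obtain ⟨X, hX, hcol, hO, hsupp, hbel⟩ := hgood ι Ω φ col hGP
  let I : Finset (ℕ × ℕ) := (range (N + 3) ×ˢ range (N + 3)).filter fun pq =>
    1 ≤ pq.1 ∧ 1 ≤ pq.2 ∧ (pq.1 + pq.2 = N + 2 ∨ pq.1 + pq.2 = N + 1)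
  let F : ℕ × ℕ → Finset (Finset ι × E N) := fun pq =>
    X.O.filter (fun o => X.supp o ⊆ univ ∧
      ((X.supp o).filter (fun i => X.col i = true)).card = pq.1 ∧
      ((X.supp o).filter (fun i => X.col i ≠ true)).card = pq.2 ∧
      ((X.bel o ∩ univ).filter (fun i => X.col i = true)).card ≤ 0 ∧
      ((X.bel o ∩ univ).filter (fun i => X.col i ≠ true)) = ∅ ∧ X.idx o < C0)
  have hF : ∀ pq, (F pq).card = X.cnt univ true pq.1 pq.2 0 C0 := fun pq => by
    unfold Sys.cnt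
    exact congrArg Finset.card (Finset.filter_congr_decidable _ _ _)
  have hsub : W ⊆ I.biUnion F := by
    intro o ho
    obtain ⟨h1, h2, h3⟩ := hW o ho
    have hb : X.bel o = ∅ := Finset.eq_empty_of_forall_notMem fun h hh => h3 h ((hbel o h).1 hh)
    have hoO : o ∈ X.O := (hO o).2 ⟨h1, by omega, by omega⟩
    have hsum : ((X.supp o).filter (fun i => X.col i = true)).card +
        ((X.supp o).filter (fun i => X.col i ≠ true)).card = o.1.card := by
      rw [← hsupp o]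
      exact Finset.card_filter_add_card_filter_not _
    have hp : 1 ≤ ((X.supp o).filter (fun i => X.col i = true)).card := by
      obtain ⟨i, hi, hi'⟩ := h1.1 true
      refine Finset.card_pos.2 ⟨i, Finset.mem_filter.2 ⟨?_, ?_⟩⟩
      · rw [hsupp]
        exact hi
      · rw [hcol]
        exact hi'
    have hq : 1 ≤ ((X.supp o).filter (fun i => X.col i ≠ true)).card := by
      obtain ⟨i, hi, hi'⟩ := h1.1 false
      refine Finset.card_pos.2 ⟨i, Finset.mem_filter.2 ⟨?_, ?_⟩⟩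
      · rw [hsupp]
        exact hi
      · rw [hcol, hi']
        decide
    refine Finset.mem_biUnion.2 ⟨(((X.supp o).filter (fun i => X.col i = true)).card,
      ((X.supp o).filter (fun i => X.col i ≠ true)).card), ?_, ?_⟩
    · refine Finset.mem_filter.2 ⟨Finset.mem_product.2 ⟨?_, ?_⟩, hp, hq, ?_⟩
      · exact Finset.mem_range.2 (by dsimp only; omega)
      · exact Finset.mem_range.2 (by dsimp only; omega)
      · dsimp only
        omega
    · refine Finset.mem_filter.2 ⟨hoO, Finset.subset_univ _, rfl, rfl, ?_, ?_, hX.idx_lt o hoO⟩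
      · rw [hb, Finset.empty_inter, Finset.filter_empty, Finset.card_empty]
      · rw [hb, Finset.empty_inter, Finset.filter_empty]
  have hI : (I.card : ℝ) ≤ ((N : ℝ) + 3) * ((N : ℝ) + 3) := by
    have h1 : I.card ≤ (range (N + 3) ×ˢ range (N + 3)).card := Finset.card_filter_le _ _
    rw [Finset.card_product, Finset.card_range] at h1
    exact_mod_cast h1
  have hpow : 0 ≤ (Fintype.card ι : ℝ) ^ ((N : ℝ) + ρ) := Real.rpow_nonneg (Nat.cast_nonneg _) _
  calc (W.card : ℝ) ≤ ((I.biUnion F).card : ℝ) := by exact_mod_cast Finset.card_le_card hsub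
    _ ≤ ((∑ pq ∈ I, (F pq).card : ℕ) : ℝ) := by exact_mod_cast Finset.card_biUnion_le
    _ = ∑ pq ∈ I, ((F pq).card : ℝ) := by push_cast; rfl
    _ ≤ ∑ _pq ∈ I, C' * (Fintype.card ι : ℝ) ^ ((N : ℝ) + ρ) := by
        refine Finset.sum_le_sum fun pq hpq => ?_
        obtain ⟨-, h1, h2, h3⟩ := Finset.mem_filter.1 hpq
        rw [hF]
        exact hrec ι _ X hX pq.1 pq.2 h1 h2 h3
    _ = (I.card : ℝ) * (C' * (Fintype.card ι : ℝ) ^ ((N : ℝ) + ρ)) := by
        rw [Finset.sum_const, nsmul_eq_mul]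
    _ ≤ (((N : ℝ) + 3) * ((N : ℝ) + 3)) * (C' * (Fintype.card ι : ℝ) ^ ((N : ℝ) + ρ)) :=
        mul_le_mul_of_nonneg_right hI (mul_nonneg hC' hpow)
    _ = ((N : ℝ) + 3) * ((N : ℝ) + 3) * C' * (Fintype.card ι : ℝ) ^ ((N : ℝ) + ρ) := by ring

end UC
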